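import Mathlib

/-!
A strong law of large numbers by separation of scales (helper2): the `j`-th function is a finite sum
of weighted indicator functions of intervals, and its mean values over all intervals are known up to
exponentially small errors.
-/

set_option autoImplicit false

namespace Pool.Agent.H2

open MeasureTheory Finset Filter Topology

/-- a finite weighted sum of indicator functions of intervals -/
noncomputable def stp {ι : Type*} (S : Finset ι) (w l r : ι → ℝ) (θ : ℝ) : ℝ :=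
  ∑ i ∈ S, w i * (Set.Ico (l i) (r i)).indicator (fun _ => (1 : ℝ)) θ

lemma stp_meas {ι : Type*} (S : Finset ι) (w l r : ι → ℝ) : Measurable (stp S w l r) := by
  unfold stp
  refine Finset.measurable_sum _ fun i _ => ?_
  exact (measurable_const.indicator measurableSet_Ico).const_mul _

lemma stp_bdd {ι : Type*} (S : Finset ι) (w l r : ι → ℝ) (θ : ℝ) :
    |stp S w l r θ| ≤ ∑ i ∈ S, |w i| := by
  unfold stp
  refine (abs_sum_le_sum_abs _ _).trans (sum_le_sum fun i _ => ?_)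
  rw [abs_mul]
  have : |(Set.Ico (l i) (r i)).indicator (fun _ => (1 : ℝ)) θ| ≤ 1 := by
    by_cases h : θ ∈ Set.Ico (l i) (r i)
    · rw [Set.indicator_of_mem h]; norm_num
    · rw [Set.indicator_of_notMem h]; norm_num
  calc |w i| * |(Set.Ico (l i) (r i)).indicator (fun _ => (1 : ℝ)) θ| ≤ |w i| * 1 := by gcongr
    _ = |w i| := mul_one _

lemma int_of_bdd {a b : ℝ} {f : ℝ → ℝ} (hf : Measurable f) (B : ℝ) (hB : ∀ θ, |f θ| ≤ B) (s : Set ℝ)
    (hs : s ⊆ Set.Ico a b) (_hsm : MeasurableSet s) : IntegrableOn f s := by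
  have hfin : volume s ≠ ⊤ := by
    refine ne_of_lt (lt_of_le_of_lt (measure_mono hs) ?_)
    rw [Real.volume_Ico]
    exact ENNReal.ofReal_lt_top
  refine Measure.integrableOn_of_bounded hfin hf.aestronglyMeasurable (M := B) ?_
  exact Eventually.of_forall fun θ => by rw [Real.norm_eq_abs]; exact hB θ

/-- the integral of a bounded function over a subset of an interval -/
lemma int_abs_le {a b : ℝ} (hab : a ≤ b) {f : ℝ → ℝ} (B : ℝ) (hB : ∀ θ ∈ Set.Ico a b, |f θ| ≤ B) :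
    |∫ θ in Set.Ico a b, f θ| ≤ B * (b - a) := by
  have h := norm_setIntegral_le_of_norm_le_const (μ := volume) (s := Set.Ico a b) (f := f) (C := B)
    (by rw [Real.volume_Ico]; exact ENNReal.ofReal_lt_top) (fun θ hθ => by
      rw [Real.norm_eq_abs]; exact hB θ hθ)
  rw [Real.norm_eq_abs] at h
  refine h.trans (le_of_eq ?_)
  rw [Measure.real, Real.volume_Ico, ENNReal.toReal_ofReal (by linarith)]

/-- the hypotheses of the strong law -/
structure Sep {ι : Type*} (a b C A κ : ℝ) (j0 : ℕ) (S : ℕ → Finset ι) (w l r : ℕ → ι → ℝ)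
    (m : ℕ → ℝ) : Prop where
  hab : a < b
  hj0 : 1 ≤ j0
  C1 : 1 ≤ C
  A0 : 0 ≤ A
  κ0 : 0 < κ
  w0 : ∀ j, j0 ≤ j → ∀ i ∈ S j, 0 ≤ w j i
  ws : ∀ j, j0 ≤ j → ∑ i ∈ S j, w j i ≤ C * (2 : ℝ) ^ (A * j)
  yb : ∀ j, j0 ≤ j → ∀ θ ∈ Set.Ico a b, stp (S j) (w j) (l j) (r j) θ ≤ C / j
  mb : ∀ j, j0 ≤ j → |m j| ≤ C / j
  mean : ∀ j, j0 ≤ j → ∀ u v, a ≤ u → u ≤ v → v ≤ b →
    |∫ θ in Set.Ico u v, (stp (S j) (w j) (l j) (r j) θ - m j)| ≤
      C * (v - u) / (j : ℝ) ^ 2 + C * (2 : ℝ) ^ (-(κ * j))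

section
variable {ι : Type*} {a b C A κ : ℝ} {j0 : ℕ} {S : ℕ → Finset ι} {w l r : ℕ → ι → ℝ} {m : ℕ → ℝ}

lemma stp_nonneg (h : Sep a b C A κ j0 S w l r m) {j : ℕ} (hj : j0 ≤ j) (θ : ℝ) :
    0 ≤ stp (S j) (w j) (l j) (r j) θ := by
  unfold stp
  refine sum_nonneg fun i hi => mul_nonneg (h.w0 j hj i hi) ?_
  exact Set.indicator_nonneg (fun _ _ => zero_le_one) _

lemma W_le (h : Sep a b C A κ j0 S w l r m) {j : ℕ} (hj : j0 ≤ j) (θ : ℝ) (hθ : θ ∈ Set.Ico a b) :
    |stp (S j) (w j) (l j) (r j) θ - m j| ≤ 2 * C / j := by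
  have h1 := h.yb j hj θ hθ
  have h2 := stp_nonneg h hj θ
  have h3 := h.mb j hj
  have h4 : |stp (S j) (w j) (l j) (r j) θ| ≤ C / j := by rw [abs_of_nonneg h2]; exact h1
  calc _ ≤ |stp (S j) (w j) (l j) (r j) θ| + |m j| := abs_sub _ _
    _ ≤ C / j + C / j := add_le_add h4 h3
    _ = 2 * C / j := by ring

/-- the integral of `W_l` over the intersection with an interval -/
lemma int_inter (h : Sep a b C A κ j0 S w l r m) {k : ℕ} (hk : j0 ≤ k) (x y : ℝ) :
    |∫ θ in Set.Ico a b ∩ Set.Ico x y, (stp (S k) (w k) (l k) (r k) θ - m k)| ≤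
      C * (volume (Set.Ico a b ∩ Set.Ico x y)).toReal / (k : ℝ) ^ 2 + C * (2 : ℝ) ^ (-(κ * k)) := by
  rw [Set.Ico_inter_Ico]
  rcases le_or_gt (max a x) (min b y) with h1 | h1
  · have h2 := h.mean k hk (max a x) (min b y) (le_max_left _ _) h1 (min_le_left _ _)
    rw [Real.volume_Ico, ENNReal.toReal_ofReal (by linarith)]
    exact h2
  · rw [Set.Ico_eq_empty (not_lt.2 h1.le)]
    simp only [Measure.restrict_empty, integral_zero_measure, abs_zero, measure_empty,
      ENNReal.toReal_zero, mul_zero, zero_div, zero_add]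
    have := h.C1
    positivity

/-- the covariance of two different scales -/
lemma cov (h : Sep a b C A κ j0 S w l r m) {j k : ℕ} (hj : j0 ≤ j) (hk : j0 ≤ k) :
    |∫ θ in Set.Ico a b, (stp (S j) (w j) (l j) (r j) θ - m j) *
      (stp (S k) (w k) (l k) (r k) θ - m k)| ≤
      2 * C ^ 2 * (b - a) / (j * (k : ℝ) ^ 2) + 2 * C ^ 2 * (2 : ℝ) ^ (A * j - κ * k) := by
  have hab := h.hab
  have hC := h.C1
  have hj1 : (1 : ℝ) ≤ j := by exact_mod_cast h.hj0.trans hj
  have hk1 : (1 : ℝ) ≤ k := by exact_mod_cast h.hj0.trans hk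
  set W : ℝ → ℝ := fun θ => stp (S k) (w k) (l k) (r k) θ - m k with hW
  have hWm : Measurable W := (stp_meas _ _ _ _).sub measurable_const
  have hWb : ∀ θ, |W θ| ≤ ∑ i ∈ S k, |w k i| + |m k| := fun θ =>
    (abs_sub _ _).trans (add_le_add_left (stp_bdd _ _ _ _ θ) _)
  have hWi : ∀ s ⊆ Set.Ico a b, MeasurableSet s → IntegrableOn W s := fun s hs hsm =>
    int_of_bdd hWm _ hWb s hs hsm
  -- the product with one of the step functions
  have hterm : ∀ i ∈ S j, ∫ θ in Set.Ico a b,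
      w j i * (Set.Ico (l j i) (r j i)).indicator (fun _ => (1 : ℝ)) θ * W θ =
      w j i * ∫ θ in Set.Ico a b ∩ Set.Ico (l j i) (r j i), W θ := by
    intro i _
    rw [← setIntegral_indicator measurableSet_Ico, ← integral_const_mul]
    refine integral_congr_ae (Eventually.of_forall fun θ => ?_)
    simp only
    by_cases hθ : θ ∈ Set.Ico (l j i) (r j i)
    · rw [Set.indicator_of_mem hθ, Set.indicator_of_mem hθ]; ring
    · rw [Set.indicator_of_notMem hθ, Set.indicator_of_notMem hθ]; ring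
  have hint : ∀ i ∈ S j, Integrable (fun θ =>
      w j i * (Set.Ico (l j i) (r j i)).indicator (fun _ => (1 : ℝ)) θ * W θ)
      (volume.restrict (Set.Ico a b)) := by
    intro i _
    refine int_of_bdd (a := a) (b := b) (B := |w j i| * (∑ i ∈ S k, |w k i| + |m k|))
      (((measurable_const.indicator measurableSet_Ico).const_mul _).mul hWm) ?_ _ subset_rfl
      measurableSet_Ico
    intro θ
    show |w j i * (Set.Ico (l j i) (r j i)).indicator (fun _ => (1 : ℝ)) θ * W θ| ≤ _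
    rw [abs_mul, abs_mul]
    have : |(Set.Ico (l j i) (r j i)).indicator (fun _ => (1 : ℝ)) θ| ≤ 1 := by
      by_cases h : θ ∈ Set.Ico (l j i) (r j i)
      · rw [Set.indicator_of_mem h]; norm_num
      · rw [Set.indicator_of_notMem h]; norm_num
    have h2 := hWb θ
    have h3 : 0 ≤ |w j i| := abs_nonneg _
    have h4 : 0 ≤ |W θ| := abs_nonneg _
    calc |w j i| * |(Set.Ico (l j i) (r j i)).indicator (fun _ => (1 : ℝ)) θ| * |W θ| ≤
          |w j i| * 1 * |W θ| := by gcongr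
      _ ≤ |w j i| * (∑ i ∈ S k, |w k i| + |m k|) := by rw [mul_one]; gcongr
  have h1 : ∫ θ in Set.Ico a b, stp (S j) (w j) (l j) (r j) θ * W θ =
      ∑ i ∈ S j, w j i * ∫ θ in Set.Ico a b ∩ Set.Ico (l j i) (r j i), W θ := by
    rw [← sum_congr rfl hterm, ← integral_finsetSum _ hint]
    refine integral_congr_ae (Eventually.of_forall fun θ => ?_)
    simp only [stp, sum_mul]
  -- the integral of the step function itself
  have h2 : ∫ θ in Set.Ico a b, stp (S j) (w j) (l j) (r j) θ =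
      ∑ i ∈ S j, w j i * (volume (Set.Ico a b ∩ Set.Ico (l j i) (r j i))).toReal := by
    have : ∀ i ∈ S j, ∫ θ in Set.Ico a b,
        w j i * (Set.Ico (l j i) (r j i)).indicator (fun _ => (1 : ℝ)) θ =
        w j i * (volume (Set.Ico a b ∩ Set.Ico (l j i) (r j i))).toReal := by
      intro i _
      rw [integral_const_mul, setIntegral_indicator measurableSet_Ico]
      simp [Measure.real]
    rw [← sum_congr rfl this, ← integral_finsetSum _ (fun i _ => ?_)]
    · rfl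
    · refine int_of_bdd (a := a) (b := b) (B := |w j i|)
        ((measurable_const.indicator measurableSet_Ico).const_mul _) ?_ _ subset_rfl
        measurableSet_Ico
      intro θ
      rw [abs_mul]
      have : |(Set.Ico (l j i) (r j i)).indicator (fun _ => (1 : ℝ)) θ| ≤ 1 := by
        by_cases h : θ ∈ Set.Ico (l j i) (r j i)
        · rw [Set.indicator_of_mem h]; norm_num
        · rw [Set.indicator_of_notMem h]; norm_num
      have h3 : 0 ≤ |w j i| := abs_nonneg _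
      nlinarith
  have h3 : ∑ i ∈ S j, w j i * (volume (Set.Ico a b ∩ Set.Ico (l j i) (r j i))).toReal ≤
      C / j * (b - a) := by
    rw [← h2]
    have h4 := int_abs_le hab.le (f := stp (S j) (w j) (l j) (r j)) (C / j) (fun θ hθ => by
      rw [abs_of_nonneg (stp_nonneg h hj θ)]; exact h.yb j hj θ hθ)
    exact (le_abs_self _).trans h4
  have h4 : |∫ θ in Set.Ico a b, stp (S j) (w j) (l j) (r j) θ * W θ| ≤
      C ^ 2 * (b - a) / (j * (k : ℝ) ^ 2) + C ^ 2 * (2 : ℝ) ^ (A * j - κ * k) := by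
    rw [h1]
    refine (abs_sum_le_sum_abs _ _).trans ?_
    calc ∑ i ∈ S j, |w j i * ∫ θ in Set.Ico a b ∩ Set.Ico (l j i) (r j i), W θ| ≤
        ∑ i ∈ S j, w j i * (C * (volume (Set.Ico a b ∩ Set.Ico (l j i) (r j i))).toReal /
          (k : ℝ) ^ 2 + C * (2 : ℝ) ^ (-(κ * k))) := by
          refine sum_le_sum fun i hi => ?_
          rw [abs_mul, abs_of_nonneg (h.w0 j hj i hi)]
          exact mul_le_mul_of_nonneg_left (int_inter h hk _ _) (h.w0 j hj i hi)
      _ = C / (k : ℝ) ^ 2 * ∑ i ∈ S j, w j i *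
            (volume (Set.Ico a b ∩ Set.Ico (l j i) (r j i))).toReal +
          C * (2 : ℝ) ^ (-(κ * k)) * ∑ i ∈ S j, w j i := by
          rw [mul_sum, mul_sum, ← sum_add_distrib]
          refine sum_congr rfl fun i _ => ?_
          ring
      _ ≤ C / (k : ℝ) ^ 2 * (C / j * (b - a)) + C * (2 : ℝ) ^ (-(κ * k)) *
          (C * (2 : ℝ) ^ (A * j)) := by
          have := h.ws j hj
          gcongr
      _ = _ := by
          rw [sub_eq_add_neg (A * (j : ℝ)), Real.rpow_add (by norm_num)]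
          field_simp
  have h5 : |∫ θ in Set.Ico a b, W θ| ≤ C * (b - a) / (k : ℝ) ^ 2 + C * (2 : ℝ) ^ (-(κ * k)) :=
    h.mean k hk a b le_rfl hab.le le_rfl
  have h6 : ∫ θ in Set.Ico a b, (stp (S j) (w j) (l j) (r j) θ - m j) * W θ =
      (∫ θ in Set.Ico a b, stp (S j) (w j) (l j) (r j) θ * W θ) - m j * ∫ θ in Set.Ico a b, W θ := by
    rw [← integral_const_mul, ← integral_sub]
    · refine integral_congr_ae (Eventually.of_forall fun θ => ?_)
      simp only
      ring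
    · refine int_of_bdd (a := a) (b := b) (B := (∑ i ∈ S j, |w j i|) * (∑ i ∈ S k, |w k i| + |m k|))
        ((stp_meas _ _ _ _).mul hWm) ?_ _ subset_rfl measurableSet_Ico
      intro θ
      show |stp (S j) (w j) (l j) (r j) θ * W θ| ≤ _
      rw [abs_mul]
      exact mul_le_mul (stp_bdd _ _ _ _ θ) (hWb θ) (abs_nonneg _)
        (sum_nonneg fun _ _ => abs_nonneg _)
    · exact (hWi _ subset_rfl measurableSet_Ico).const_mul _
  rw [h6]
  refine (abs_sub _ _).trans ?_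
  rw [abs_mul]
  have h7 : |m j| * |∫ θ in Set.Ico a b, W θ| ≤
      C / j * (C * (b - a) / (k : ℝ) ^ 2 + C * (2 : ℝ) ^ (-(κ * k))) :=
    mul_le_mul (h.mb j hj) h5 (abs_nonneg _) (by positivity)
  have h8 : C / j * (C * (2 : ℝ) ^ (-(κ * k))) ≤ C ^ 2 * (2 : ℝ) ^ (A * j - κ * k) := by
    have h9 : (2 : ℝ) ^ (-(κ * k)) ≤ (2 : ℝ) ^ (A * j - κ * k) := by
      apply Real.rpow_le_rpow_of_exponent_le (by norm_num)
      have : 0 ≤ A * j := mul_nonneg h.A0 (by positivity)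
      linarith
    have h10 : C / j ≤ C := div_le_self (by linarith) hj1
    calc C / j * (C * (2 : ℝ) ^ (-(κ * k))) ≤ C * (C * (2 : ℝ) ^ (A * j - κ * k)) := by gcongr
      _ = _ := by ring
  have h9 : C / j * (C * (b - a) / (k : ℝ) ^ 2) = C ^ 2 * (b - a) / (j * (k : ℝ) ^ 2) := by
    field_simp
  calc _ ≤ (C ^ 2 * (b - a) / (j * (k : ℝ) ^ 2) + C ^ 2 * (2 : ℝ) ^ (A * j - κ * k)) +
        (C / j * (C * (b - a) / (k : ℝ) ^ 2) + C / j * (C * (2 : ℝ) ^ (-(κ * k)))) := by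
        rw [mul_add] at h7
        exact add_le_add h4 h7
    _ ≤ (C ^ 2 * (b - a) / (j * (k : ℝ) ^ 2) + C ^ 2 * (2 : ℝ) ^ (A * j - κ * k)) +
        (C ^ 2 * (b - a) / (j * (k : ℝ) ^ 2) + C ^ 2 * (2 : ℝ) ^ (A * j - κ * k)) := by
        rw [h9]; gcongr
    _ = _ := by ring

/-- a uniform bound for the covariances -/
lemma cov_le (h : Sep a b C A κ j0 S w l r m) : ∃ B : ℝ, 0 ≤ B ∧ ∀ j k : ℕ, j0 ≤ j → j ≤ k →
    |∫ θ in Set.Ico a b, (stp (S j) (w j) (l j) (r j) θ - m j) *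
      (stp (S k) (w k) (l k) (r k) θ - m k)| ≤ B / (k : ℝ) ^ 2 := by
  have hab := h.hab
  have hC := h.C1
  have hκ := h.κ0
  have hA := h.A0
  obtain ⟨K, hK⟩ := exists_nat_ge (max 1 (2 * A / κ))
  have hK1 : (1 : ℝ) ≤ K := (le_max_left _ _).trans hK
  have hK2 : 2 * A ≤ K * κ := by
    have := (le_max_right _ _).trans hK
    rwa [div_le_iff₀ hκ] at this
  obtain ⟨C5, hC5⟩ : ∃ C5 : ℝ, ∀ k : ℕ, (k : ℝ) ^ 2 * (2 : ℝ) ^ (-(κ / 2 * k)) ≤ C5 := by
    have hr0 : (0 : ℝ) ≤ (2 : ℝ) ^ (-(κ / 2)) := by positivity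
    have hr1 : (2 : ℝ) ^ (-(κ / 2)) < 1 := Real.rpow_lt_one_of_one_lt_of_neg (by norm_num) (by linarith)
    have := (tendsto_pow_const_mul_const_pow_of_lt_one 2 hr0 hr1).bddAbove_range
    obtain ⟨C5, hC5⟩ := this
    refine ⟨C5, fun k => ?_⟩
    have h1 : (k : ℝ) ^ 2 * ((2 : ℝ) ^ (-(κ / 2))) ^ k ≤ C5 := hC5 (Set.mem_range_self k)
    rw [← Real.rpow_natCast ((2 : ℝ) ^ (-(κ / 2))), ← Real.rpow_mul (by norm_num)] at h1
    rw [show -(κ / 2 * (k : ℝ)) = -(κ / 2) * k by ring]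
    exact h1
  have hC50 : 0 ≤ C5 := by
    have := hC5 0
    simp only [Nat.cast_zero, ne_eq, OfNat.ofNat_ne_zero, not_false_eq_true, zero_pow, zero_mul] at this
    exact this
  refine ⟨2 * C ^ 2 * (b - a) + 2 * C ^ 2 * C5 + 4 * C ^ 2 * (b - a) * K, by
    have : 0 ≤ b - a := by linarith
    positivity, fun j k hj hjk => ?_⟩
  have hba : 0 ≤ b - a := by linarith
  have hk : j0 ≤ k := hj.trans hjk
  have hj1 : (1 : ℝ) ≤ j := by exact_mod_cast h.hj0.trans hj
  have hk1 : (1 : ℝ) ≤ k := by exact_mod_cast h.hj0.trans hk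
  have hkp : (0 : ℝ) < (k : ℝ) ^ 2 := by positivity
  rw [le_div_iff₀ hkp]
  rcases le_or_gt ((K : ℝ) * j) k with h1 | h1
  · have h2 := cov h hj hk
    have h3 : (2 : ℝ) ^ (A * j - κ * k) ≤ (2 : ℝ) ^ (-(κ / 2 * k)) := by
      apply Real.rpow_le_rpow_of_exponent_le (by norm_num)
      nlinarith
    have h4 := hC5 k
    have h5 : 2 * C ^ 2 * (b - a) / (j * (k : ℝ) ^ 2) ≤ 2 * C ^ 2 * (b - a) / (k : ℝ) ^ 2 := by
      apply div_le_div_of_nonneg_left (by positivity) hkp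
      nlinarith
    calc _ ≤ (2 * C ^ 2 * (b - a) / (k : ℝ) ^ 2 + 2 * C ^ 2 * (2 : ℝ) ^ (-(κ / 2 * k))) * (k : ℝ) ^ 2 := by
          gcongr
          refine h2.trans ?_
          gcongr
      _ = 2 * C ^ 2 * (b - a) + 2 * C ^ 2 * ((k : ℝ) ^ 2 * (2 : ℝ) ^ (-(κ / 2 * k))) := by
          field_simp
      _ ≤ 2 * C ^ 2 * (b - a) + 2 * C ^ 2 * C5 := by gcongr
      _ ≤ _ := by
          have : 0 ≤ 4 * C ^ 2 * (b - a) * K := by positivity
          linarith
  · have h2 : |∫ θ in Set.Ico a b, (stp (S j) (w j) (l j) (r j) θ - m j) *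
      (stp (S k) (w k) (l k) (r k) θ - m k)| ≤ (2 * C / j) * (2 * C / k) * (b - a) := by
      refine int_abs_le hab.le _ fun θ hθ => ?_
      rw [abs_mul]
      exact mul_le_mul (W_le h hj θ hθ) (W_le h hk θ hθ) (abs_nonneg _) (by positivity)
    have h3 : (k : ℝ) / j ≤ K := by rw [div_le_iff₀ (by linarith)]; exact h1.le
    calc _ ≤ (2 * C / j) * (2 * C / k) * (b - a) * (k : ℝ) ^ 2 := by gcongr
      _ = 4 * C ^ 2 * (b - a) * (k / j) := by field_simp; ring
      _ ≤ 4 * C ^ 2 * (b - a) * K := by gcongr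
      _ ≤ _ := by
          have : 0 ≤ 2 * C ^ 2 * (b - a) + 2 * C ^ 2 * C5 := by positivity
          linarith

/-- the second moment of the partial sums -/
lemma second (h : Sep a b C A κ j0 S w l r m) : ∃ B : ℝ, 0 ≤ B ∧ ∀ L : ℕ,
    ∫ θ in Set.Ico a b, (∑ j ∈ Ico j0 L, (stp (S j) (w j) (l j) (r j) θ - m j)) ^ 2 ≤
      B * ∑ k ∈ Ico j0 L, 1 / (k : ℝ) := by
  obtain ⟨B, hB0, hB⟩ := cov_le h
  refine ⟨2 * B, by positivity, fun L => ?_⟩
  set W : ℕ → ℝ → ℝ := fun j θ => stp (S j) (w j) (l j) (r j) θ - m j with hW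
  have hWm : ∀ j, Measurable (W j) := fun j => (stp_meas _ _ _ _).sub measurable_const
  have hWb : ∀ j θ, |W j θ| ≤ ∑ i ∈ S j, |w j i| + |m j| := fun j θ =>
    (abs_sub _ _).trans (add_le_add_left (stp_bdd _ _ _ _ θ) _)
  have hprod : ∀ j k, Integrable (fun θ => W j θ * W k θ) (volume.restrict (Set.Ico a b)) := by
    intro j k
    refine int_of_bdd (a := a) (b := b)
      (B := (∑ i ∈ S j, |w j i| + |m j|) * (∑ i ∈ S k, |w k i| + |m k|))
      ((hWm j).mul (hWm k)) ?_ _ subset_rfl measurableSet_Ico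
    intro θ
    show |W j θ * W k θ| ≤ _
    rw [abs_mul]
    exact mul_le_mul (hWb j θ) (hWb k θ) (abs_nonneg _)
      (add_nonneg (sum_nonneg fun _ _ => abs_nonneg _) (abs_nonneg _))
  set c : ℕ → ℕ → ℝ := fun j k => |∫ θ in Set.Ico a b, W j θ * W k θ| with hc
  have hcs : ∀ j k, c j k = c k j := by
    intro j k
    simp only [hc]
    congr 1
    refine integral_congr_ae (Eventually.of_forall fun θ => ?_)
    simp only
    ring
  have h1 : ∫ θ in Set.Ico a b, (∑ j ∈ Ico j0 L, W j θ) ^ 2 =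
      ∑ j ∈ Ico j0 L, ∑ k ∈ Ico j0 L, ∫ θ in Set.Ico a b, W j θ * W k θ := by
    have : ∀ θ, (∑ j ∈ Ico j0 L, W j θ) ^ 2 = ∑ j ∈ Ico j0 L, ∑ k ∈ Ico j0 L, W j θ * W k θ := by
      intro θ
      rw [sq, sum_mul_sum]
    simp only [this]
    rw [integral_finsetSum _ (fun j _ => integrable_finsetSum _ fun k _ => hprod j k)]
    refine sum_congr rfl fun j _ => ?_
    rw [integral_finsetSum _ (fun k _ => hprod j k)]
  have h2 : ∑ j ∈ Ico j0 L, ∑ k ∈ Ico j0 L, ∫ θ in Set.Ico a b, W j θ * W k θ ≤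
      ∑ j ∈ Ico j0 L, ∑ k ∈ Ico j0 L, c j k :=
    sum_le_sum fun j _ => sum_le_sum fun k _ => le_abs_self _
  have h3 : ∑ j ∈ Ico j0 L, ∑ k ∈ Ico j0 L, c j k ≤
      2 * ∑ k ∈ Ico j0 L, ∑ j ∈ (Ico j0 L).filter (fun j => j ≤ k), c j k := by
    have e1 : ∀ j ∈ Ico j0 L, ∑ k ∈ Ico j0 L, c j k =
        ∑ k ∈ (Ico j0 L).filter (fun k => k ≤ j), c j k +
        ∑ k ∈ (Ico j0 L).filter (fun k => ¬ k ≤ j), c j k := fun j _ =>
      (sum_filter_add_sum_filter_not _ _ _).symm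
    rw [sum_congr rfl e1, sum_add_distrib, two_mul]
    apply add_le_add
    · apply le_of_eq
      refine sum_congr rfl fun j _ => sum_congr rfl fun k _ => hcs j k
    · simp only [sum_filter]
      rw [sum_comm]
      refine sum_le_sum fun k _ => sum_le_sum fun j _ => ?_
      have : 0 ≤ c j k := abs_nonneg _
      split_ifs with g1 g2 g2 <;> first | exact le_rfl | exact this | (exfalso; omega)
  have h4 : ∀ k ∈ Ico j0 L, ∑ j ∈ (Ico j0 L).filter (fun j => j ≤ k), c j k ≤ B * (1 / (k : ℝ)) := by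
    intro k hk
    rw [mem_Ico] at hk
    have hk1 : (1 : ℝ) ≤ k := by exact_mod_cast h.hj0.trans hk.1
    calc ∑ j ∈ (Ico j0 L).filter (fun j => j ≤ k), c j k ≤
          ∑ j ∈ (Ico j0 L).filter (fun j => j ≤ k), B / (k : ℝ) ^ 2 := by
          refine sum_le_sum fun j hj => ?_
          rw [mem_filter, mem_Ico] at hj
          exact hB j k hj.1.1 hj.2
      _ = ((Ico j0 L).filter (fun j => j ≤ k)).card * (B / (k : ℝ) ^ 2) := by
          rw [sum_const, nsmul_eq_mul]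
      _ ≤ k * (B / (k : ℝ) ^ 2) := by
          have h5 : ((Ico j0 L).filter (fun j => j ≤ k)) ⊆ Icc 1 k := by
            intro j hj
            rw [mem_filter, mem_Ico] at hj
            rw [mem_Icc]
            exact ⟨h.hj0.trans hj.1.1, hj.2⟩
          have h6 : ((Ico j0 L).filter (fun j => j ≤ k)).card ≤ k := by
            simpa using card_le_card h5
          have h7 : (((Ico j0 L).filter (fun j => j ≤ k)).card : ℝ) ≤ k := by exact_mod_cast h6
          have : 0 ≤ B / (k : ℝ) ^ 2 := by positivity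
          exact mul_le_mul_of_nonneg_right h7 this
      _ = B * (1 / (k : ℝ)) := by field_simp
  calc ∫ θ in Set.Ico a b, (∑ j ∈ Ico j0 L, W j θ) ^ 2 ≤ ∑ j ∈ Ico j0 L, ∑ k ∈ Ico j0 L, c j k := by
        rw [h1]; exact h2
    _ ≤ 2 * ∑ k ∈ Ico j0 L, ∑ j ∈ (Ico j0 L).filter (fun j => j ≤ k), c j k := h3
    _ ≤ 2 * ∑ k ∈ Ico j0 L, B * (1 / (k : ℝ)) := by gcongr with k hk; exact h4 k hk
    _ = 2 * B * ∑ k ∈ Ico j0 L, 1 / (k : ℝ) := by rw [← mul_sum]; ring

end

/-- a form of the lemma of Borel and Cantelli -/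
lemma ae_zero {a b : ℝ} (f : ℕ → ℝ → ℝ) (hf : ∀ i, Measurable (f i)) (hf0 : ∀ i θ, 0 ≤ f i θ)
    (hfi : ∀ i, IntegrableOn (f i) (Set.Ico a b)) (c : ℕ → ℝ) (hc : Summable c)
    (hfc : ∀ i, ∫ θ in Set.Ico a b, f i θ ≤ c i) :
    ∀ᵐ θ ∂(volume.restrict (Set.Ico a b)), Tendsto (fun i => f i θ) atTop (𝓝 0) := by
  have hc0 : ∀ i, 0 ≤ c i := fun i => (integral_nonneg (hf0 i)).trans (hfc i)
  have h1 : ∫⁻ θ in Set.Ico a b, ∑' i, ENNReal.ofReal (f i θ) ≠ ⊤ := by
    rw [lintegral_tsum fun i => (hf i).ennreal_ofReal.aemeasurable]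
    have h2 : ∀ i, ∫⁻ θ in Set.Ico a b, ENNReal.ofReal (f i θ) ≤ ENNReal.ofReal (c i) := by
      intro i
      rw [← ofReal_integral_eq_lintegral_ofReal (hfi i) (Eventually.of_forall (hf0 i))]
      exact ENNReal.ofReal_le_ofReal (hfc i)
    refine ne_of_lt (lt_of_le_of_lt (ENNReal.tsum_le_tsum h2) ?_)
    rw [← ENNReal.ofReal_tsum_of_nonneg hc0 hc]
    exact ENNReal.ofReal_lt_top
  have h3 : ∀ᵐ θ ∂(volume.restrict (Set.Ico a b)), ∑' i, ENNReal.ofReal (f i θ) < ⊤ :=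
    ae_lt_top (Measurable.tsum fun i => (hf i).ennreal_ofReal) h1
  filter_upwards [h3] with θ hθ
  have h4 := ENNReal.tendsto_atTop_zero_of_tsum_ne_top hθ.ne
  have h5 := (ENNReal.tendsto_toReal (a := 0) (by simp)).comp h4
  simp only [ENNReal.toReal_zero] at h5
  refine h5.congr fun i => ?_
  simp only [Function.comp]
  exact ENNReal.toReal_ofReal (hf0 i θ)

/-- partial sums of the harmonic series -/
lemma harm_le {m n : ℕ} (hm : 1 ≤ m) (hmn : m ≤ n) :
    ∑ k ∈ Ico m n, 1 / (k : ℝ) ≤ 1 + Real.log n - Real.log m := by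
  have h1 : ∀ n : ℕ, ∑ k ∈ Ico 1 (n + 1), 1 / (k : ℝ) = (harmonic n : ℝ) := by
    intro n
    rw [harmonic_eq_sum_Icc]
    push_cast
    have e1 : Ico 1 (n + 1) = Icc 1 n := by
      ext k
      rw [mem_Ico, mem_Icc]
      omega
    rw [e1]
    exact sum_congr rfl fun k _ => one_div _
  obtain ⟨m', rfl⟩ : ∃ m', m = m' + 1 := ⟨m - 1, by omega⟩
  obtain ⟨n', rfl⟩ : ∃ n', n = n' + 1 := ⟨n - 1, by omega⟩
  have h2 : ∑ k ∈ Ico 1 (m' + 1), 1 / (k : ℝ) + ∑ k ∈ Ico (m' + 1) (n' + 1), 1 / (k : ℝ) =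
      ∑ k ∈ Ico 1 (n' + 1), 1 / (k : ℝ) := sum_Ico_consecutive _ (by omega) hmn
  rw [h1, h1] at h2
  have h3 := log_add_one_le_harmonic m'
  have h4 := harmonic_le_one_add_log n'
  have h5 : Real.log n' ≤ Real.log ((n' + 1 : ℕ) : ℝ) := by
    rcases Nat.eq_zero_or_pos n' with rfl | h
    · simp
    · apply Real.log_le_log (by exact_mod_cast h)
      push_cast; linarith
  push_cast at h2 h3 h5 ⊢
  linarith

/-- **The strong law.** -/
theorem lln {ι : Type*} {a b C A κ : ℝ} {j0 : ℕ} {S : ℕ → Finset ι} {w l r : ℕ → ι → ℝ} {m : ℕ → ℝ}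
    (h : Sep a b C A κ j0 S w l r m) (ε : ℝ) (hε : 0 < ε) :
    ∀ᵐ θ ∂(volume.restrict (Set.Ico a b)), Tendsto (fun L : ℕ =>
      (∑ j ∈ Ico j0 L, (stp (S j) (w j) (l j) (r j) θ - m j)) / Real.log L ^ (2 / 3 + ε))
      atTop (𝓝 0) := by
  obtain ⟨B, hB0, hB⟩ := second h
  have hC := h.C1
  set W : ℕ → ℝ → ℝ := fun j θ => stp (S j) (w j) (l j) (r j) θ - m j with hW
  have hWm : ∀ j, Measurable (W j) := fun j => (stp_meas _ _ _ _).sub measurable_const
  have hWb : ∀ j θ, |W j θ| ≤ ∑ i ∈ S j, |w j i| + |m j| := fun j θ =>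
    (abs_sub _ _).trans (add_le_add_left (stp_bdd _ _ _ _ θ) _)
  set T : ℕ → ℝ → ℝ := fun L θ => ∑ j ∈ Ico j0 L, W j θ with hT
  have hTm : ∀ L, Measurable (T L) := fun L => Finset.measurable_sum _ fun j _ => hWm j
  set Li : ℕ → ℕ := fun i => ⌈Real.exp ((i : ℝ) ^ 3)⌉₊ with hLi
  set f : ℕ → ℝ → ℝ := fun i θ => T (Li (i + 1)) θ ^ 2 / ((i + 1 : ℕ) : ℝ) ^ (4 + 6 * ε) with hf
  have hae := ae_zero (a := a) (b := b) f
    (fun i => ((hTm _).pow_const 2).div_const _)
    (fun i θ => by simp only [hf]; positivity)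
    (fun i => by
      refine int_of_bdd (a := a) (b := b)
        (B := (∑ j ∈ Ico j0 (Li (i + 1)), (∑ i ∈ S j, |w j i| + |m j|)) ^ 2 /
          ((i + 1 : ℕ) : ℝ) ^ (4 + 6 * ε)) (((hTm _).pow_const 2).div_const _) ?_ _ subset_rfl
        measurableSet_Ico
      intro θ
      show |T (Li (i + 1)) θ ^ 2 / ((i + 1 : ℕ) : ℝ) ^ (4 + 6 * ε)| ≤ _
      rw [abs_div, abs_pow, abs_of_nonneg (show 0 ≤ ((i + 1 : ℕ) : ℝ) ^ (4 + 6 * ε) by positivity)]
      have h1 : |T (Li (i + 1)) θ| ≤ ∑ j ∈ Ico j0 (Li (i + 1)), (∑ i ∈ S j, |w j i| + |m j|) :=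
        (abs_sum_le_sum_abs _ _).trans (sum_le_sum fun j _ => hWb j θ)
      gcongr)
    (fun i => 3 * B * (1 / ((i + 1 : ℕ) : ℝ) ^ (1 + 6 * ε)))
    (by
      refine Summable.mul_left _ ?_
      have := (Real.summable_one_div_nat_rpow (p := 1 + 6 * ε)).2 (by linarith)
      exact (summable_nat_add_iff 1).2 this)
    (fun i => by
      have hi1 : (1 : ℝ) ≤ ((i + 1 : ℕ) : ℝ) := by push_cast; linarith [Nat.cast_nonneg (α := ℝ) i]
      set x : ℝ := ((i + 1 : ℕ) : ℝ) with hx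
      have hx0 : 0 < x := by linarith
      have h1 : ∫ θ in Set.Ico a b, f i θ =
          (∫ θ in Set.Ico a b, T (Li (i + 1)) θ ^ 2) / x ^ (4 + 6 * ε) := by
        simp only [hf]
        rw [integral_div]
      rw [h1]
      have h2 : ∫ θ in Set.Ico a b, T (Li (i + 1)) θ ^ 2 ≤ B * (3 * x ^ 3) := by
        refine (hB _).trans ?_
        apply mul_le_mul_of_nonneg_left _ hB0
        have hL1 : 1 ≤ Li (i + 1) := Nat.one_le_ceil_iff.2 (Real.exp_pos _)
        have h3 : ∑ k ∈ Ico j0 (Li (i + 1)), 1 / (k : ℝ) ≤ ∑ k ∈ Ico 1 (Li (i + 1)), 1 / (k : ℝ) := by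
          apply sum_le_sum_of_subset_of_nonneg
          · exact Ico_subset_Ico_left h.hj0
          · intro k _ _
            positivity
        refine h3.trans ((harm_le le_rfl hL1).trans ?_)
        have h4 : (Li (i + 1) : ℝ) ≤ Real.exp (x ^ 3) + 1 := by
          have := (Nat.ceil_lt_add_one (Real.exp_pos (((i + 1 : ℕ) : ℝ) ^ 3)).le).le
          exact this
        have h5 : Real.log (Li (i + 1)) ≤ x ^ 3 + 1 := by
          have h6 : (0 : ℝ) < Li (i + 1) := by exact_mod_cast hL1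
          have h7 : Real.exp (x ^ 3) + 1 ≤ Real.exp (x ^ 3 + 1) := by
            rw [Real.exp_add]
            have h8 : 1 ≤ Real.exp (x ^ 3) := Real.one_le_exp (by positivity)
            have h9 : 2 ≤ Real.exp 1 := by
              have := Real.add_one_le_exp (1 : ℝ)
              linarith
            nlinarith
          calc Real.log (Li (i + 1)) ≤ Real.log (Real.exp (x ^ 3 + 1)) :=
                Real.log_le_log h6 (h4.trans h7)
            _ = _ := Real.log_exp _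
        have h6 : 1 ≤ x ^ 3 := one_le_pow₀ hi1
        simp only [Nat.cast_one, Real.log_one]
        linarith
      calc (∫ θ in Set.Ico a b, T (Li (i + 1)) θ ^ 2) / x ^ (4 + 6 * ε) ≤
            B * (3 * x ^ 3) / x ^ (4 + 6 * ε) := by gcongr
        _ = 3 * B * (1 / x ^ (1 + 6 * ε)) := by
            have : x ^ (4 + 6 * ε) = x ^ 3 * x ^ (1 + 6 * ε) := by
              rw [← Real.rpow_natCast x 3, ← Real.rpow_add hx0]
              congr 1
              push_cast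
              ring
            rw [this]
            field_simp)
  have hall : ∀ᵐ θ ∂(volume.restrict (Set.Ico a b)), θ ∈ Set.Ico a b :=
    ae_restrict_mem measurableSet_Ico
  filter_upwards [hae, hall] with θ hθ hθab
  -- the subsequence
  have hsub : Tendsto (fun i : ℕ => |T (Li i) θ| / (i : ℝ) ^ (2 + 3 * ε)) atTop (𝓝 0) := by
    rw [← tendsto_add_atTop_iff_nat 1]
    have h1 := (Real.continuous_sqrt.tendsto 0).comp hθ
    rw [Real.sqrt_zero] at h1
    refine h1.congr fun i => ?_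
    simp only [Function.comp, hf]
    have hx0 : (0 : ℝ) < ((i + 1 : ℕ) : ℝ) := by positivity
    rw [Real.sqrt_div (by positivity), Real.sqrt_sq_eq_abs]
    congr 1
    rw [Real.sqrt_eq_rpow, ← Real.rpow_mul hx0.le]
    congr 1
    ring
  have hmaj : Tendsto (fun i : ℕ => |T (Li i) θ| / (i : ℝ) ^ (2 + 3 * ε) +
      16 * C * (i : ℝ) ^ (-(3 * ε))) atTop (𝓝 0) := by
    have h1 : Tendsto (fun i : ℕ => 16 * C * (i : ℝ) ^ (-(3 * ε))) atTop (𝓝 (16 * C * 0)) :=
      ((tendsto_rpow_neg_atTop (by positivity : 0 < 3 * ε)).comp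
        tendsto_natCast_atTop_atTop).const_mul _
    have := hsub.add h1
    simpa using this
  set ii : ℕ → ℕ := fun L => ⌊Real.log L ^ (1 / 3 : ℝ)⌋₊ with hii
  have hii_top : Tendsto ii atTop atTop := by
    refine tendsto_nat_floor_atTop.comp ?_
    exact (tendsto_rpow_atTop (by norm_num)).comp
      (Real.tendsto_log_atTop.comp tendsto_natCast_atTop_atTop)
  have hcomp := hmaj.comp hii_top
  refine squeeze_zero_norm' ?_ hcomp
  filter_upwards [eventually_ge_atTop 3, hii_top.eventually_ge_atTop (j0 + 1)] with L hL3 hiL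
  simp only [Function.comp]
  set i := ii L with hi
  have hL3r : (3 : ℝ) ≤ L := by exact_mod_cast hL3
  have hL0 : (0 : ℝ) < L := by linarith
  have hlog1 : 1 ≤ Real.log L := by
    rw [Real.le_log_iff_exp_le hL0]
    have := Real.exp_one_lt_d9
    linarith
  have hlog0 : 0 < Real.log L := by linarith
  have hi1 : 1 ≤ i := by omega
  have hi1r : (1 : ℝ) ≤ i := by exact_mod_cast hi1
  have hy : (Real.log L ^ (1 / 3 : ℝ)) ^ 3 = Real.log L := by
    rw [← Real.rpow_natCast, ← Real.rpow_mul hlog0.le]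
    norm_num
  have hfl : (i : ℝ) ≤ Real.log L ^ (1 / 3 : ℝ) := Nat.floor_le (by positivity)
  have hfl2 : Real.log L ^ (1 / 3 : ℝ) < i + 1 := Nat.lt_floor_add_one _
  have hi3 : (i : ℝ) ^ 3 ≤ Real.log L := by
    rw [← hy]; gcongr
  have hi4 : Real.log L ≤ ((i : ℝ) + 1) ^ 3 := by
    rw [← hy]; gcongr
  have hLiL : Li i ≤ L := by
    apply Nat.ceil_le.2
    calc Real.exp ((i : ℝ) ^ 3) ≤ Real.exp (Real.log L) := Real.exp_le_exp.2 hi3
      _ = L := Real.exp_log hL0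
  have hLij : j0 ≤ Li i := by
    have h1 : (i : ℝ) ≤ Real.exp ((i : ℝ) ^ 3) := by
      have h2 := Real.add_one_le_exp ((i : ℝ) ^ 3)
      have h3 : (i : ℝ) ≤ (i : ℝ) ^ 3 := le_self_pow₀ hi1r (by norm_num)
      linarith
    have h2 : (i : ℝ) ≤ Li i := h1.trans (Nat.le_ceil _)
    have h3 : i ≤ Li i := by exact_mod_cast h2
    omega
  have hLi1 : 1 ≤ Li i := h.hj0.trans hLij
  have hdiff : |T L θ| ≤ |T (Li i) θ| + 16 * C * (i : ℝ) ^ 2 := by
    have h1 : T L θ = T (Li i) θ + ∑ j ∈ Ico (Li i) L, W j θ := by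
      simp only [hT]
      exact (sum_Ico_consecutive _ hLij hLiL).symm
    rw [h1]
    refine (abs_add_le _ _).trans (add_le_add_right ?_ _)
    calc |∑ j ∈ Ico (Li i) L, W j θ| ≤ ∑ j ∈ Ico (Li i) L, |W j θ| := abs_sum_le_sum_abs _ _
      _ ≤ ∑ j ∈ Ico (Li i) L, 2 * C * (1 / (j : ℝ)) := by
          refine sum_le_sum fun j hj => ?_
          rw [mem_Ico] at hj
          refine (W_le h (hLij.trans hj.1) θ hθab).trans (le_of_eq ?_)
          ring
      _ = 2 * C * ∑ j ∈ Ico (Li i) L, 1 / (j : ℝ) := by rw [mul_sum]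
      _ ≤ 2 * C * (1 + Real.log L - Real.log (Li i)) := by
          gcongr
          exact harm_le hLi1 hLiL
      _ ≤ 2 * C * (1 + ((i : ℝ) + 1) ^ 3 - (i : ℝ) ^ 3) := by
          have h2 : (i : ℝ) ^ 3 ≤ Real.log (Li i) := by
            rw [Real.le_log_iff_exp_le (by exact_mod_cast hLi1)]
            exact Nat.le_ceil _
          gcongr
      _ ≤ 2 * C * (8 * (i : ℝ) ^ 2) := by
          gcongr
          nlinarith
      _ = 16 * C * (i : ℝ) ^ 2 := by ring
  have hden : (i : ℝ) ^ (2 + 3 * ε) ≤ Real.log L ^ (2 / 3 + ε) := by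
    calc (i : ℝ) ^ (2 + 3 * ε) ≤ (Real.log L ^ (1 / 3 : ℝ)) ^ (2 + 3 * ε) := by
          apply Real.rpow_le_rpow (by positivity) hfl (by positivity)
      _ = _ := by
          rw [← Real.rpow_mul hlog0.le]
          congr 1
          ring
  have hip : (0 : ℝ) < (i : ℝ) ^ (2 + 3 * ε) := by positivity
  rw [Real.norm_eq_abs, abs_div, abs_of_nonneg (show 0 ≤ Real.log L ^ (2 / 3 + ε) by positivity)]
  calc |T L θ| / Real.log L ^ (2 / 3 + ε) ≤ |T L θ| / (i : ℝ) ^ (2 + 3 * ε) := by gcongr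
    _ ≤ (|T (Li i) θ| + 16 * C * (i : ℝ) ^ 2) / (i : ℝ) ^ (2 + 3 * ε) := by gcongr
    _ = _ := by
        rw [add_div]
        congr 1
        have : (i : ℝ) ^ (2 + 3 * ε) = (i : ℝ) ^ 2 * (i : ℝ) ^ (3 * ε) := by
          rw [← Real.rpow_natCast (i : ℝ) 2, ← Real.rpow_add (by linarith)]
          congr 1
        rw [this, Real.rpow_neg (by linarith)]
        field_simp

end Pool.Agent.H2
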