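import Mathlib
import Pool.Graph.R_seed8.TH915.PW.Disc

/-!
Equidistribution of the pairs `(n mod d, ⌊θ n^s⌋ mod d)` (helper2).
-/

set_option autoImplicit false

namespace Pool.Agent.H2

open Finset Filter Topology
open Pool.Agent.H469R2.NK (e norm_e kusmin_landau_anti)
open Pool.Agent.TH915.PW (disc)

/-- the residue of the integral part by the fractional part -/
lemma floor_mod_iff (y : ℝ) (hy : 0 ≤ y) (d c : ℕ) (hd : 1 ≤ d) :
    ⌊y⌋₊ % d = c ↔ ((c : ℝ) / d ≤ Int.fract (y / d) ∧ Int.fract (y / d) < ((c : ℝ) + 1) / d) := by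
  have hd0 : (0 : ℝ) < d := by exact_mod_cast hd
  obtain ⟨q, hq⟩ : ∃ q, q = ⌊y⌋₊ / d := ⟨_, rfl⟩
  obtain ⟨c', hc'⟩ : ∃ c', c' = ⌊y⌋₊ % d := ⟨_, rfl⟩
  have h1 : ⌊y⌋₊ = d * q + c' := by rw [hq, hc']; exact (Nat.div_add_mod _ _).symm
  have hc'd : c' < d := by rw [hc']; exact Nat.mod_lt _ (by omega)
  have h2 : (⌊y⌋₊ : ℝ) ≤ y := Nat.floor_le hy
  have h3 : y < (⌊y⌋₊ : ℝ) + 1 := Nat.lt_floor_add_one y
  have h1r : (⌊y⌋₊ : ℝ) = d * q + c' := by exact_mod_cast h1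
  have hc'r : (c' : ℝ) + 1 ≤ d := by exact_mod_cast hc'd
  have h4 : y / d = (q : ℤ) + (y - d * q) / d := by
    push_cast
    field_simp
    ring
  have h5 : Int.fract (y / d) = (y - d * q) / d := by
    rw [h4, Int.fract_intCast_add, Int.fract_eq_self]
    constructor
    · apply div_nonneg _ hd0.le
      have : (0 : ℝ) ≤ c' := Nat.cast_nonneg _
      linarith
    · rw [div_lt_one hd0]
      linarith
  rw [← hc', h5, div_le_div_iff_of_pos_right hd0, div_lt_div_iff_of_pos_right hd0]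
  constructor
  · rintro rfl
    constructor <;> linarith
  · rintro ⟨h6, h7⟩
    have h8 : (c' : ℝ) < c + 1 := by linarith
    have h9 : (c : ℝ) < c' + 1 := by linarith
    have h10 : c' < c + 1 := by exact_mod_cast h8
    have h11 : c < c' + 1 := by exact_mod_cast h9
    omega

/-- increments of a power, upper bound -/
lemma rpow_inc_le {s x d : ℝ} (hs0 : 0 ≤ s) (hs1 : s ≤ 1) (hx : 0 < x) (hd : 0 ≤ d) :
    (x + d) ^ s - x ^ s ≤ s * d * x ^ (s - 1) := by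
  have h1 : (1 + d / x) ^ s ≤ 1 + s * (d / x) := by
    refine rpow_one_add_le_one_add_mul_self ?_ hs0 hs1
    have : 0 ≤ d / x := by positivity
    linarith
  have h2 : (x + d) ^ s = x ^ s * (1 + d / x) ^ s := by
    rw [← Real.mul_rpow hx.le (by positivity)]
    congr 1
    field_simp
  have h3 : x ^ (s - 1) = x ^ s / x := by rw [Real.rpow_sub hx, Real.rpow_one]
  rw [h2, h3]
  have h4 : 0 < x ^ s := Real.rpow_pos_of_pos hx _
  calc x ^ s * (1 + d / x) ^ s - x ^ s ≤ x ^ s * (1 + s * (d / x)) - x ^ s := by gcongr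
    _ = _ := by ring

/-- increments of a power, lower bound -/
lemma rpow_inc_ge {s x d : ℝ} (hs0 : 0 ≤ s) (hs1 : s ≤ 1) (hx : 0 < x) (hd : 0 ≤ d) :
    s * d * (x + d) ^ (s - 1) ≤ (x + d) ^ s - x ^ s := by
  have hxd : 0 < x + d := by linarith
  have h1 : (1 + (-(d / (x + d)))) ^ s ≤ 1 + s * (-(d / (x + d))) := by
    refine rpow_one_add_le_one_add_mul_self ?_ hs0 hs1
    have : d / (x + d) ≤ 1 := by rw [div_le_one hxd]; linarith
    linarith
  have h2 : x ^ s = (x + d) ^ s * (1 + (-(d / (x + d)))) ^ s := by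
    have h5 : 0 ≤ 1 + (-(d / (x + d))) := by
      have : d / (x + d) ≤ 1 := by rw [div_le_one hxd]; linarith
      linarith
    rw [← Real.mul_rpow hxd.le h5]
    congr 1
    field_simp
    ring
  have h3 : (x + d) ^ (s - 1) = (x + d) ^ s / (x + d) := by rw [Real.rpow_sub hxd, Real.rpow_one]
  rw [h2, h3]
  have h4 : 0 < (x + d) ^ s := Real.rpow_pos_of_pos hxd _
  calc s * d * ((x + d) ^ s / (x + d)) = (x + d) ^ s - (x + d) ^ s * (1 + s * (-(d / (x + d)))) := by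
        ring
    _ ≤ _ := by gcongr

/-- concavity of a power -/
lemma rpow_conc {s x d : ℝ} (hs0 : 0 ≤ s) (hs1 : s ≤ 1) (hx : 0 ≤ x) (hd : 0 ≤ d) :
    (x + 2 * d) ^ s - (x + d) ^ s ≤ (x + d) ^ s - x ^ s := by
  have h := (Real.concaveOn_rpow hs0 hs1).2 (Set.mem_Ici.2 hx)
    (Set.mem_Ici.2 (show 0 ≤ x + 2 * d by linarith)) (show (0 : ℝ) ≤ 1 / 2 by norm_num)
    (show (0 : ℝ) ≤ 1 / 2 by norm_num) (by norm_num)
  simp only [smul_eq_mul] at h
  have h2 : 1 / 2 * x + 1 / 2 * (x + 2 * d) = x + d := by ring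
  rw [h2] at h
  linarith

/-- the integers of a residue class in `(N, 2 N]` -/
lemma class_card (N d r : ℕ) (hd : 1 ≤ d) (hdN : d ≤ N) (hr : r < d) (p : ℕ → Prop)
    [DecidablePred p] :
    ((Ioc N (2 * N)).filter (fun n => n % d = r ∧ p n)).card =
      ((Ioc ((N - r) / d) ((2 * N - r) / d)).filter (fun k => p (r + d * k))).card := by
  apply card_nbij' (i := fun n => n / d) (j := fun k => r + d * k)
  · intro n hn
    simp only [coe_filter, Set.mem_ofPred_eq, mem_Ioc] at hn ⊢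
    obtain ⟨⟨h1, h2⟩, h3, h4⟩ := hn
    have h5 : r + d * (n / d) = n := by rw [← h3]; exact Nat.mod_add_div n d
    refine ⟨⟨?_, ?_⟩, by rw [h5]; exact h4⟩
    · rw [Nat.div_lt_iff_lt_mul (by omega)]
      have : n / d * d = d * (n / d) := mul_comm _ _
      omega
    · rw [Nat.le_div_iff_mul_le (by omega)]
      have : n / d * d = d * (n / d) := mul_comm _ _
      omega
  · intro k hk
    simp only [coe_filter, Set.mem_ofPred_eq, mem_Ioc] at hk ⊢
    obtain ⟨⟨h1, h2⟩, h3⟩ := hk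
    rw [Nat.div_lt_iff_lt_mul (by omega), mul_comm] at h1
    rw [Nat.le_div_iff_mul_le (by omega), mul_comm] at h2
    refine ⟨⟨by omega, by omega⟩, ?_, h3⟩
    rw [Nat.add_mul_mod_self_left, Nat.mod_eq_of_lt hr]
  · intro n hn
    simp only [coe_filter, Set.mem_ofPred_eq, mem_Ioc] at hn
    obtain ⟨_, h3, _⟩ := hn
    simp only
    rw [← h3]
    exact Nat.mod_add_div n d
  · intro k _
    simp only
    rw [Nat.add_mul_div_left _ _ (by omega), Nat.div_eq_of_lt hr, zero_add]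

/-- the exponential sums along a residue class -/
lemma cls_exp {s a b : ℝ} (hs0 : 0 < s) (hs1 : s < 1) (ha : 0 < a) {N d r : ℕ}
    (hd : 1 ≤ d) (hdN : d ≤ N) (hr : r < d) {θ : ℝ} (hθ1 : a ≤ θ) (hθ2 : θ ≤ b) (h : ℕ) (hh : 1 ≤ h)
    (hb : (h : ℝ) * (b * s * (N : ℝ) ^ (s - 1)) ≤ 1 / 2) :
    ‖∑ k ∈ Ioc ((N - r) / d) ((2 * N - r) / d), e (h * (θ * ((r + d * k : ℕ) : ℝ) ^ s / d))‖ ≤
      2 / (a * s * (3 * (N : ℝ)) ^ (s - 1)) := by
  have hN1 : 1 ≤ N := hd.trans hdN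
  have hNr : (1 : ℝ) ≤ N := by exact_mod_cast hN1
  have hN0 : (0 : ℝ) < N := by linarith
  have hd0 : (0 : ℝ) < d := by exact_mod_cast hd
  have hhr : (1 : ℝ) ≤ h := by exact_mod_cast hh
  set u := (N - r) / d with hu
  set v := (2 * N - r) / d with hv
  set θ₀ : ℝ := a * s * (3 * (N : ℝ)) ^ (s - 1) with hθ₀
  have hθ₀0 : 0 < θ₀ := by positivity
  have e1 : ∑ k ∈ Ioc u v, e (h * (θ * ((r + d * k : ℕ) : ℝ) ^ s / d)) =
      ∑ i ∈ range (v - u), e (h * (θ * ((r + d * (u + 1 + i) : ℕ) : ℝ) ^ s / d)) := by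
    have : Ioc u v = Ico (u + 1) (v + 1) := by
      ext k; rw [mem_Ioc, mem_Ico]; omega
    rw [this, sum_Ico_eq_sum_range]
    have h2 : v + 1 - (u + 1) = v - u := by omega
    rw [h2]
  rw [e1]
  -- the position of the numbers
  have hpos : ∀ i, i < v - u → (N : ℝ) < ((r + d * (u + 1 + i) : ℕ) : ℝ) ∧
      ((r + d * (u + 1 + i) : ℕ) : ℝ) ≤ 2 * N := by
    intro i hi
    have h1 : u < u + 1 + i := by omega
    have h2 : u + 1 + i ≤ v := by omega
    rw [hu, Nat.div_lt_iff_lt_mul (by omega), mul_comm] at h1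
    rw [hv, Nat.le_div_iff_mul_le (by omega), mul_comm] at h2
    rw [← hu] at h1
    constructor
    · exact_mod_cast (by omega : N < r + d * (u + 1 + i))
    · exact_mod_cast (by omega : r + d * (u + 1 + i) ≤ 2 * N)
  set x : ℕ → ℝ := fun i => h * (θ * ((r + d * (u + 1 + i) : ℕ) : ℝ) ^ s / d) with hx
  have hstep : ∀ i, ((r + d * (u + 1 + (i + 1)) : ℕ) : ℝ) = ((r + d * (u + 1 + i) : ℕ) : ℝ) + d := by
    intro i; push_cast; ring
  have hdiff : ∀ i, x (i + 1) - x i = h * θ / d * ((((r + d * (u + 1 + i) : ℕ) : ℝ) + d) ^ s -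
      ((r + d * (u + 1 + i) : ℕ) : ℝ) ^ s) := by
    intro i
    simp only [hx]
    rw [hstep]
    ring
  have hθpos : 0 < θ := by linarith
  have hup : θ₀ ≤ 1 / 2 := by
    refine le_trans ?_ hb
    have h1 : (3 * (N : ℝ)) ^ (s - 1) ≤ (N : ℝ) ^ (s - 1) :=
      Real.rpow_le_rpow_of_nonpos hN0 (by linarith) (by linarith)
    have h2 : 0 < (N : ℝ) ^ (s - 1) := by positivity
    calc θ₀ ≤ a * s * (N : ℝ) ^ (s - 1) := by rw [hθ₀]; gcongr
      _ ≤ b * s * (N : ℝ) ^ (s - 1) := by gcongr; linarith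
      _ = 1 * (b * s * (N : ℝ) ^ (s - 1)) := (one_mul _).symm
      _ ≤ _ := by
          have : 0 < b := by linarith
          gcongr
  have hdr : (d : ℝ) ≤ N := by exact_mod_cast hdN
  refine kusmin_landau_anti x (v - u) hθ₀0 ?_ ?_ ?_
  · intro i hi
    obtain ⟨h1, h2⟩ := hpos i hi
    rw [hdiff]
    have h3 := rpow_inc_ge hs0.le hs1.le (hN0.trans h1) hd0.le
    have h4 : (3 * (N : ℝ)) ^ (s - 1) ≤ (((r + d * (u + 1 + i) : ℕ) : ℝ) + d) ^ (s - 1) :=
      Real.rpow_le_rpow_of_nonpos (by positivity) (by linarith) (by linarith)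
    calc θ₀ = 1 * a / d * (s * d * (3 * (N : ℝ)) ^ (s - 1)) := by rw [hθ₀]; field_simp
      _ ≤ h * θ / d * (s * d * (3 * (N : ℝ)) ^ (s - 1)) := by gcongr
      _ ≤ h * θ / d * (s * d * (((r + d * (u + 1 + i) : ℕ) : ℝ) + d) ^ (s - 1)) := by gcongr
      _ ≤ _ := by gcongr
  · intro i hi
    obtain ⟨h1, h2⟩ := hpos i hi
    rw [hdiff]
    have h3 := rpow_inc_le hs0.le hs1.le (hN0.trans h1) hd0.le
    have h4 : ((r + d * (u + 1 + i) : ℕ) : ℝ) ^ (s - 1) ≤ (N : ℝ) ^ (s - 1) :=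
      Real.rpow_le_rpow_of_nonpos hN0 h1.le (by linarith)
    calc h * θ / d * ((((r + d * (u + 1 + i) : ℕ) : ℝ) + d) ^ s -
          ((r + d * (u + 1 + i) : ℕ) : ℝ) ^ s) ≤
          h * θ / d * (s * d * ((r + d * (u + 1 + i) : ℕ) : ℝ) ^ (s - 1)) := by gcongr
      _ ≤ h * θ / d * (s * d * (N : ℝ) ^ (s - 1)) := by gcongr
      _ = h * (θ * s * (N : ℝ) ^ (s - 1)) := by field_simp
      _ ≤ h * (b * s * (N : ℝ) ^ (s - 1)) := by gcongr
      _ ≤ 1 / 2 := hb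
      _ ≤ 1 - θ₀ := by linarith
  · intro i hi
    obtain ⟨h1, h2⟩ := hpos i (by omega)
    have hd2 : x (i + 2) - x (i + 1) = h * θ / d * ((((r + d * (u + 1 + (i + 1)) : ℕ) : ℝ) + d) ^ s -
      ((r + d * (u + 1 + (i + 1)) : ℕ) : ℝ) ^ s) := hdiff (i + 1)
    rw [hd2, hdiff, hstep]
    have h3 := rpow_conc hs0.le hs1.le (hN0.trans h1).le hd0.le
    have h4 : ((r + d * (u + 1 + i) : ℕ) : ℝ) + d + d = ((r + d * (u + 1 + i) : ℕ) : ℝ) + 2 * d := by
      ring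
    rw [h4]
    gcongr

/-- the pairs of residues are equidistributed -/
theorem cls {s a b : ℝ} (hs0 : 0 < s) (hs1 : s < 1) (ha : 0 < a) {N d r : ℕ}
    (hd : 1 ≤ d) (hdN : d ≤ N) (hr : r < d) {θ : ℝ} (hθ1 : a ≤ θ) (hθ2 : θ ≤ b) (c : ℕ) (hc : c < d)
    (K : ℕ) (hK : 1 ≤ K) (hb : (K : ℝ) ^ 3 * (b * s * (N : ℝ) ^ (s - 1)) ≤ 1 / 2) :
    |(((Ioc N (2 * N)).filter (fun n => n % d = r ∧ ⌊θ * (n : ℝ) ^ s⌋₊ % d = c)).card : ℝ) -
      ((((2 * N - r) / d - (N - r) / d : ℕ) : ℝ)) / d| ≤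
      14 * N / K + 2 * ((K : ℝ) ^ 3 * (2 / (a * s * (3 * (N : ℝ)) ^ (s - 1)))) := by
  classical
  have hd0 : (0 : ℝ) < d := by exact_mod_cast hd
  have hθ0 : 0 < θ := by linarith
  have hb0 : 0 < b := by linarith
  have hN1 : 1 ≤ N := hd.trans hdN
  have hN0 : (0 : ℝ) < N := by exact_mod_cast hN1
  rw [class_card N d r hd hdN hr]
  have h1 := disc (Ioc ((N - r) / d) ((2 * N - r) / d))
    (fun k : ℕ => θ * ((r + d * k : ℕ) : ℝ) ^ s / d) K hK (2 / (a * s * (3 * (N : ℝ)) ^ (s - 1)))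
    (by positivity) (fun h hh1 hh2 => by
      refine cls_exp hs0 hs1 ha hd hdN hr hθ1 hθ2 h hh1 (le_trans ?_ hb)
      have : (h : ℝ) ≤ (K : ℝ) ^ 3 := by exact_mod_cast hh2.le
      gcongr) ((c : ℝ) / d) (((c : ℝ) + 1) / d) (by positivity) (by gcongr; linarith)
      (by rw [div_le_one hd0]; exact_mod_cast hc)
  have h2 : ((Ioc ((N - r) / d) ((2 * N - r) / d)).filter
      (fun k : ℕ => (c : ℝ) / d ≤ Int.fract (θ * ((r + d * k : ℕ) : ℝ) ^ s / d) ∧
        Int.fract (θ * ((r + d * k : ℕ) : ℝ) ^ s / d) < ((c : ℝ) + 1) / d)) =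
      ((Ioc ((N - r) / d) ((2 * N - r) / d)).filter
        (fun k => ⌊θ * ((r + d * k : ℕ) : ℝ) ^ s⌋₊ % d = c)) := by
    refine filter_congr fun k _ => ?_
    exact (floor_mod_iff _ (by positivity) d c hd).symm
  rw [h2, Nat.card_Ioc] at h1
  have h3 : ((((2 * N - r) / d - (N - r) / d : ℕ) : ℝ)) * (((c : ℝ) + 1) / d - (c : ℝ) / d) =
      ((((2 * N - r) / d - (N - r) / d : ℕ) : ℝ)) / d := by
    field_simp
    ring
  rw [h3] at h1
  refine h1.trans ?_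
  have h4 : ((((2 * N - r) / d - (N - r) / d : ℕ) : ℝ)) ≤ N := by
    have h5 : (2 * N - r) / d ≤ (N - r) / d + N := by
      have e1 : 2 * N - r ≤ (N - r) + d * N := by
        have : N ≤ d * N := Nat.le_mul_of_pos_left _ (by omega)
        omega
      calc (2 * N - r) / d ≤ ((N - r) + d * N) / d := Nat.div_le_div_right e1
        _ = (N - r) / d + N := Nat.add_mul_div_left _ _ (by omega)
    exact_mod_cast (by omega : (2 * N - r) / d - (N - r) / d ≤ N)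
  gcongr

end Pool.Agent.H2
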