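import Mathlib
import Pool.Agent.H2.Cls
import Pool.Graph.R_seed8.Y882.FLW
import Pool.Graph.R_pool_sql_team_seeded_63374d34.N792.Rav

/-!
The upper bound sieve for the numbers `n ^ 2 + h + ⌊θ n ^ s⌋` (helper2).
-/

set_option autoImplicit false

namespace Pool.Agent.H2

open Finset Filter Topology
open Pool.Agent.Y882 (VV flw)
open Pool.Agent.N792 (V1 V1_le V1_pos exists_level)

/-- the value of the perturbed quadratic polynomial -/
noncomputable def fz (h : ℤ) (θ s : ℝ) (n : ℕ) : ℤ := (n : ℤ) ^ 2 + h + ⌊θ * (n : ℝ) ^ s⌋₊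

/-- the numbers divisible by `d` -/
theorem Ad {s a b : ℝ} (hs0 : 0 < s) (hs1 : s < 1) (ha : 0 < a) (h : ℤ) {N d : ℕ}
    (hd : 1 ≤ d) (hdN : d ≤ N) {θ : ℝ} (hθ1 : a ≤ θ) (hθ2 : θ ≤ b)
    (K : ℕ) (hK : 1 ≤ K) (hb : (K : ℝ) ^ 3 * (b * s * (N : ℝ) ^ (s - 1)) ≤ 1 / 2) :
    |(((Ioc N (2 * N)).filter (fun n => (d : ℤ) ∣ fz h θ s n)).card : ℝ) - (N : ℝ) / d| ≤
      d * (14 * N / K + 2 * ((K : ℝ) ^ 3 * (2 / (a * s * (3 * (N : ℝ)) ^ (s - 1))))) := by
  classical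
  have hd0 : (0 : ℝ) < d := by exact_mod_cast hd
  have hdz : (d : ℤ) ≠ 0 := by omega
  obtain ⟨c, hc⟩ : ∃ c : ℕ → ℕ, ∀ r, (c r : ℤ) = (-((r : ℤ) ^ 2 + h)) % d :=
    ⟨fun r => ((-((r : ℤ) ^ 2 + h)) % d).toNat, fun r => Int.toNat_of_nonneg (Int.emod_nonneg _ hdz)⟩
  have hcd : ∀ r, c r < d := by
    intro r
    have h1 := Int.emod_lt_of_pos (-((r : ℤ) ^ 2 + h)) (show (0 : ℤ) < d by omega)
    rw [← hc] at h1
    exact_mod_cast h1
  have hiff : ∀ n : ℕ, (d : ℤ) ∣ fz h θ s n ↔ ⌊θ * (n : ℝ) ^ s⌋₊ % d = c (n % d) := by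
    intro n
    have h1 : ((⌊θ * (n : ℝ) ^ s⌋₊ % d : ℕ) : ℤ) = (⌊θ * (n : ℝ) ^ s⌋₊ : ℤ) % d := by push_cast; rfl
    have h2 : (⌊θ * (n : ℝ) ^ s⌋₊ % d = c (n % d)) ↔
        ((⌊θ * (n : ℝ) ^ s⌋₊ % d : ℕ) : ℤ) = (c (n % d) : ℤ) := by norm_cast
    rw [h2, h1, hc]
    have h3 : (-(((n % d : ℕ) : ℤ) ^ 2 + h)) % (d : ℤ) = (-((n : ℤ) ^ 2 + h)) % d := by
      have h4 : ((n % d : ℕ) : ℤ) ≡ n [ZMOD d] := by
        push_cast
        exact Int.mod_modEq _ _
      exact ((h4.pow 2).add_right h).neg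
    rw [h3]
    unfold fz
    have h5 : ((⌊θ * (n : ℝ) ^ s⌋₊ : ℤ) % d = (-((n : ℤ) ^ 2 + h)) % d) ↔
        (d : ℤ) ∣ (-((n : ℤ) ^ 2 + h)) - ⌊θ * (n : ℝ) ^ s⌋₊ := Int.modEq_iff_dvd
    have h6 : -((-((n : ℤ) ^ 2 + h)) - (⌊θ * (n : ℝ) ^ s⌋₊ : ℤ)) =
      (n : ℤ) ^ 2 + h + ⌊θ * (n : ℝ) ^ s⌋₊ := by ring
    rw [h5, ← h6, dvd_neg]
  have hsplit : ((Ioc N (2 * N)).filter (fun n => (d : ℤ) ∣ fz h θ s n)).card =
      ∑ r ∈ range d, ((Ioc N (2 * N)).filter
        (fun n => n % d = r ∧ ⌊θ * (n : ℝ) ^ s⌋₊ % d = c r)).card := by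
    rw [card_eq_sum_card_fiberwise (f := fun n => n % d) (t := range d)]
    · refine sum_congr rfl fun r _ => ?_
      congr 1
      ext n
      simp only [mem_filter, mem_Ioc]
      rw [hiff]
      constructor
      · rintro ⟨⟨h1, h2⟩, h3⟩
        exact ⟨h1, h3, by rw [← h3]; exact h2⟩
      · rintro ⟨h1, h2, h3⟩
        exact ⟨⟨h1, by rw [h2]; exact h3⟩, h2⟩
    · intro n _
      simp only [coe_range, Set.mem_Iio]
      exact Nat.mod_lt _ (by omega)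
  have htot : ∑ r ∈ range d, ((((2 * N - r) / d - (N - r) / d : ℕ) : ℝ)) = N := by
    have h1 : (Ioc N (2 * N)).card = ∑ r ∈ range d, ((2 * N - r) / d - (N - r) / d) := by
      rw [card_eq_sum_card_fiberwise (f := fun n => n % d) (t := range d)]
      · refine sum_congr rfl fun r hr => ?_
        have h2 := class_card N d r hd hdN (mem_range.1 hr) (fun _ => True)
        simp only [and_true, filter_true] at h2
        rw [h2, Nat.card_Ioc]
      · intro n _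
        simp only [coe_range, Set.mem_Iio]
        exact Nat.mod_lt _ (by omega)
    rw [Nat.card_Ioc] at h1
    have h2 : 2 * N - N = N := by omega
    rw [h2] at h1
    exact_mod_cast h1.symm
  set err : ℝ := 14 * N / K + 2 * ((K : ℝ) ^ 3 * (2 / (a * s * (3 * (N : ℝ)) ^ (s - 1)))) with herr
  have hmain : (((Ioc N (2 * N)).filter (fun n => (d : ℤ) ∣ fz h θ s n)).card : ℝ) - (N : ℝ) / d =
      ∑ r ∈ range d, ((((Ioc N (2 * N)).filter
        (fun n => n % d = r ∧ ⌊θ * (n : ℝ) ^ s⌋₊ % d = c r)).card : ℝ) -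
          ((((2 * N - r) / d - (N - r) / d : ℕ) : ℝ)) / d) := by
    rw [sum_sub_distrib, ← sum_div, htot, hsplit]
    push_cast
    rfl
  rw [hmain]
  refine (abs_sum_le_sum_abs _ _).trans ?_
  calc ∑ r ∈ range d, |(((Ioc N (2 * N)).filter
        (fun n => n % d = r ∧ ⌊θ * (n : ℝ) ^ s⌋₊ % d = c r)).card : ℝ) -
          ((((2 * N - r) / d - (N - r) / d : ℕ) : ℝ)) / d| ≤ ∑ r ∈ range d, err := by
        refine sum_le_sum fun r hr => ?_
        exact cls hs0 hs1 ha hd hdN (mem_range.1 hr) hθ1 hθ2 (c r) (hcd r) K hK hb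
    _ = d * err := by rw [sum_const, card_range, nsmul_eq_mul]

lemma prod_ind (T : Finset ℕ) (hT : ∀ p ∈ T, p.Prime) (m : ℕ) :
    ∏ p ∈ T, (if p ∣ m then (1 : ℝ) else 0) = if (∏ p ∈ T, p) ∣ m then 1 else 0 := by
  classical
  by_cases h : ∀ p ∈ T, p ∣ m
  · rw [if_pos (Finset.prod_primes_dvd m (fun p hp => (hT p hp).prime) h)]
    exact prod_eq_one fun p hp => if_pos (h p hp)
  · rw [if_neg]
    · push Not at h
      obtain ⟨p, hp, hpm⟩ := h
      exact prod_eq_zero hp (if_neg hpm)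
    · intro hd
      exact h fun p hp => (dvd_prod_of_mem _ hp).trans hd

/-- the support of the weights is small -/
lemma card_supp (P : Finset ℕ) (hP : ∀ p ∈ P, p.Prime) (c : Finset ℕ → ℝ) (D : ℕ)
    (hD : ∀ T ⊆ P, c T ≠ 0 → ∏ p ∈ T, p ≤ D) :
    (P.powerset.filter (fun T => c T ≠ 0)).card ≤ D := by
  classical
  have h1 : (P.powerset.filter (fun T => c T ≠ 0)).card ≤ (Icc 1 D).card := by
    apply card_le_card_of_injOn (fun T => ∏ p ∈ T, p)
    · intro T hT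
      simp only [coe_filter, Set.mem_ofPred_eq, mem_powerset] at hT
      simp only [coe_Icc, Set.mem_Icc]
      refine ⟨?_, hD T hT.1 hT.2⟩
      exact Nat.one_le_iff_ne_zero.2 (prod_ne_zero_iff.2 fun p hp => (hP p (hT.1 hp)).ne_zero)
    · intro T hT T' hT' hTT
      simp only [coe_filter, Set.mem_ofPred_eq, mem_powerset] at hT hT'
      simp only at hTT
      have e1 : ∀ S ⊆ P, (∏ p ∈ S, p).primeFactors = S := fun S hS =>
        Nat.primeFactors_prod fun p hp => hP p (hS hp)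
      rw [← e1 T hT.1, ← e1 T' hT'.1, hTT]
  simpa using h1

/-- **The upper bound sieve.** -/
theorem sieve_bd {s a b : ℝ} (hs0 : 0 < s) (hs1 : s < 1) (ha : 0 < a) (hab : a ≤ b) (h : ℤ) :
    ∃ C : ℝ, 0 < C ∧ ∃ N0 : ℕ, ∀ N : ℕ, N0 ≤ N → ∀ θ : ℝ, a ≤ θ → θ ≤ b →
      (((Ioc N (2 * N)).filter (fun n => (fz h θ s n).toNat.Prime)).card : ℝ) ≤
        C * (N / Real.log N) := by
  classical
  obtain ⟨C0, hC0, H⟩ := flw
  have hb0 : 0 < b := by linarith
  obtain ⟨b0, hb0'⟩ : ∃ b0 : ℕ, b0 = 2 * C0 := ⟨_, rfl⟩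
  obtain ⟨z0, hz0⟩ : ∃ z0 : ℕ, z0 = 2 * C0 := ⟨_, rfl⟩
  obtain ⟨E, hE⟩ : ∃ E : ℕ, E = C0 * b0 := ⟨_, rfl⟩
  have hE1 : 1 ≤ E := by rw [hE, hb0']; nlinarith
  have hEr : (1 : ℝ) ≤ E := by exact_mod_cast hE1
  obtain ⟨η, hη⟩ : ∃ η : ℝ, η = min s (1 - s) / 8 := ⟨_, rfl⟩
  have hη0 : 0 < η := by rw [hη]; exact div_pos (lt_min hs0 (by linarith)) (by norm_num)
  have hηs : 8 * η ≤ s := by rw [hη]; linarith [min_le_left s (1 - s)]
  have hηs' : 8 * η ≤ 1 - s := by rw [hη]; linarith [min_le_right s (1 - s)]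
  set C1 : ℝ := 14 + 96 / (a * s) with hC1
  have hC10 : 0 < C1 := by positivity
  have hV0 : 0 < V1 z0 := V1_pos z0
  refine ⟨16 * E / (η * V1 z0) + 1, by positivity, ?_⟩
  have hpow : ∀ ε : ℝ, 0 < ε → ∀ A : ℝ, ∀ᶠ N : ℕ in atTop, A ≤ (N : ℝ) ^ ε := fun ε hε A =>
    ((tendsto_rpow_atTop hε).comp tendsto_natCast_atTop_atTop).eventually_ge_atTop A
  have hlogp : ∀ᶠ N : ℕ in atTop, C1 * Real.log N ≤ (N : ℝ) ^ (η / 2) := by
    have h1 := (isLittleO_log_rpow_atTop (show (0 : ℝ) < η / 2 by positivity)).def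
      (show (0 : ℝ) < 1 / C1 by positivity)
    have h2 := tendsto_natCast_atTop_atTop.eventually (h1.and (eventually_ge_atTop (1 : ℝ)))
    filter_upwards [h2] with N hN
    obtain ⟨h3, h4⟩ := hN
    rw [Real.norm_of_nonneg (Real.log_nonneg h4), Real.norm_of_nonneg (by positivity)] at h3
    calc C1 * Real.log N ≤ C1 * (1 / C1 * (N : ℝ) ^ (η / 2)) := by gcongr
      _ = _ := by field_simp
  have hev : ∀ᶠ N : ℕ in atTop, (2 : ℝ) ≤ (N : ℝ) ^ (η / (4 * E)) ∧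
      (z0 : ℝ) ^ 2 ≤ (N : ℝ) ^ (η / (4 * E)) ∧ 16 * b * s ≤ (N : ℝ) ^ (5 * η) ∧
      C1 * Real.log N ≤ (N : ℝ) ^ (η / 2) ∧ (|h| : ℤ) + 1 ≤ (N : ℤ) ∧ 3 ≤ N := by
    filter_upwards [hpow (η / (4 * E)) (by positivity) 2, hpow (η / (4 * E)) (by positivity) (z0 ^ 2),
      hpow (5 * η) (by positivity) (16 * b * s), hlogp, eventually_ge_atTop (|h| + 1).toNat,
      eventually_ge_atTop 3] with N a1 a2 a3 a4 a5 a6
    exact ⟨a1, a2, a3, a4, by omega, a6⟩
  obtain ⟨N0, hN0⟩ := eventually_atTop.1 hev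
  refine ⟨N0, fun N hN θ hθ1 hθ2 => ?_⟩
  obtain ⟨ht2, htz, hbs, hlog, hNh, hN3⟩ := hN0 N hN
  have hN3r : (3 : ℝ) ≤ N := by exact_mod_cast hN3
  have hNpos : (0 : ℝ) < N := by linarith
  have hN1 : (1 : ℝ) ≤ N := by linarith
  have hlog1 : 1 ≤ Real.log N := by
    rw [Real.le_log_iff_exp_le hNpos]
    have := Real.exp_one_lt_d9
    linarith
  set t : ℝ := (N : ℝ) ^ (η / (4 * E)) with ht
  obtain ⟨J, hJ1, hJ2⟩ := exists_level t ht2
  set Z : ℕ := 2 ^ 2 ^ J with hZ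
  have hZ1 : 1 ≤ Z := Nat.one_le_two_pow
  have hz0Z : z0 ≤ Z := by
    have h1 : (z0 : ℝ) ^ 2 ≤ (Z : ℝ) ^ 2 := htz.trans hJ2
    have h2 : (z0 : ℝ) ≤ Z := le_of_sq_le_sq h1 (by positivity) |> fun h => h
    exact_mod_cast h2
  set D : ℕ := Z ^ E with hD
  have hDr : (D : ℝ) ≤ (N : ℝ) ^ (η / 4) := by
    rw [hD]
    push_cast
    calc ((Z : ℝ)) ^ E ≤ t ^ E := by gcongr
      _ = (N : ℝ) ^ (η / 4) := by
          rw [ht, ← Real.rpow_natCast, ← Real.rpow_mul hNpos.le]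
          congr 1
          field_simp
  have hD1 : 1 ≤ D := Nat.one_le_pow _ _ hZ1
  have hDN : D ≤ N := by
    have h1 : (N : ℝ) ^ (η / 4) ≤ (N : ℝ) ^ (1 : ℝ) :=
      Real.rpow_le_rpow_of_exponent_le hN1 (by linarith)
    rw [Real.rpow_one] at h1
    exact_mod_cast hDr.trans h1
  have hZD : Z ≤ D := Nat.le_self_pow (by omega) Z
  set P : Finset ℕ := (Icc 1 Z).filter (fun p => p.Prime ∧ z0 < p) with hP
  have hPp : ∀ p ∈ P, p.Prime := fun p hp => (mem_filter.1 hp).2.1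
  obtain ⟨cU, cL, hc1, hc2, hc3, hc4⟩ := H 1 b0 J z0 P (by omega) (by omega) (by
    intro p hp
    rw [hP, mem_filter, mem_Icc] at hp
    exact ⟨hp.2.1, hp.2.2, hp.1.2⟩)
  -- the values are positive and large
  have hfpos : ∀ n ∈ Ioc N (2 * N), (N : ℤ) < fz h θ s n := by
    intro n hn
    rw [mem_Ioc] at hn
    unfold fz
    have h1 : (N : ℤ) + 1 ≤ n := by exact_mod_cast hn.1
    have h2 : -|h| ≤ h := neg_abs_le h
    have h3 : (0 : ℤ) ≤ ⌊θ * (n : ℝ) ^ s⌋₊ := by positivity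
    nlinarith
  have hprime : ∀ n ∈ Ioc N (2 * N), (fz h θ s n).toNat.Prime → ∀ p ∈ P, ¬ p ∣ (fz h θ s n).toNat := by
    intro n hn hp p hpP hdvd
    have h1 := hfpos n hn
    have h2 : p = (fz h θ s n).toNat := (Nat.prime_dvd_prime_iff_eq (hPp p hpP) hp).1 hdvd
    have h3 : p ≤ Z := (mem_Icc.1 (mem_filter.1 hpP).1).2
    omega
  have hcount : (((Ioc N (2 * N)).filter (fun n => (fz h θ s n).toNat.Prime)).card : ℝ) ≤
      ∑ n ∈ Ioc N (2 * N), VV P cU (fun p => if p ∣ (fz h θ s n).toNat then 1 else 0) := by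
    rw [card_filter]
    push_cast
    refine sum_le_sum fun n hn => ?_
    refine le_trans ?_ (hc3 (fz h θ s n).toNat).2
    by_cases hp : (fz h θ s n).toNat.Prime
    · rw [if_pos hp, if_pos (hprime n hn hp)]
    · rw [if_neg hp]
      split_ifs <;> norm_num
  set An : Finset ℕ → ℝ := fun T =>
    (((Ioc N (2 * N)).filter (fun n => ((∏ p ∈ T, p : ℕ) : ℤ) ∣ fz h θ s n)).card : ℝ) with hAn
  have hswap : ∑ n ∈ Ioc N (2 * N), VV P cU (fun p => if p ∣ (fz h θ s n).toNat then 1 else 0) =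
      ∑ T ∈ P.powerset, cU T * An T := by
    unfold VV
    rw [sum_comm]
    refine sum_congr rfl fun T hT => ?_
    rw [mem_powerset] at hT
    rw [← mul_sum]
    congr 1
    simp only [hAn]
    rw [card_filter]
    push_cast
    refine sum_congr rfl fun n hn => ?_
    rw [prod_ind T (fun p hp => hPp p (hT hp))]
    have h1 := hfpos n hn
    have h2 : (∏ p ∈ T, p) ∣ (fz h θ s n).toNat ↔ ((∏ p ∈ T, p : ℕ) : ℤ) ∣ fz h θ s n := by
      rw [← Int.natCast_dvd_natCast, Int.toNat_of_nonneg (by omega)]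
    by_cases h3 : (∏ p ∈ T, p) ∣ (fz h θ s n).toNat
    · rw [if_pos h3, if_pos]
      have := h2.1 h3
      push_cast at this
      exact this
    · rw [if_neg h3, if_neg]
      intro h4
      apply h3
      apply h2.2
      push_cast
      exact h4
  -- the level of the discrepancy bound
  obtain ⟨K, hK⟩ : ∃ K : ℕ, K = ⌈(N : ℝ) ^ η⌉₊ := ⟨_, rfl⟩
  have hNη : 1 ≤ (N : ℝ) ^ η := Real.one_le_rpow hN1 hη0.le
  have hK1 : (N : ℝ) ^ η ≤ K := by rw [hK]; exact Nat.le_ceil _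
  have hK2 : (K : ℝ) ≤ 2 * (N : ℝ) ^ η := by
    have := Nat.ceil_lt_add_one (a := (N : ℝ) ^ η) (by positivity)
    rw [hK]
    linarith
  have hK3 : (K : ℝ) ^ 3 ≤ 8 * (N : ℝ) ^ (3 * η) := by
    calc (K : ℝ) ^ 3 ≤ (2 * (N : ℝ) ^ η) ^ 3 := by gcongr
      _ = 8 * (N : ℝ) ^ (3 * η) := by
          rw [mul_pow, ← Real.rpow_natCast ((N : ℝ) ^ η), ← Real.rpow_mul hNpos.le]
          norm_num
          ring_nf
  have hKn : 1 ≤ K := by
    have : (1 : ℝ) ≤ K := hNη.trans hK1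
    exact_mod_cast this
  have hbK : (K : ℝ) ^ 3 * (b * s * (N : ℝ) ^ (s - 1)) ≤ 1 / 2 := by
    have h1 : (N : ℝ) ^ (s - 1) ≤ (N : ℝ) ^ (-(8 * η)) :=
      Real.rpow_le_rpow_of_exponent_le hN1 (by linarith)
    have h2 : (N : ℝ) ^ (3 * η) * (N : ℝ) ^ (-(8 * η)) = 1 / (N : ℝ) ^ (5 * η) := by
      rw [← Real.rpow_add hNpos, one_div, ← Real.rpow_neg hNpos.le]
      congr 1
      ring
    have h3 : 0 < (N : ℝ) ^ (5 * η) := by positivity
    calc (K : ℝ) ^ 3 * (b * s * (N : ℝ) ^ (s - 1)) ≤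
          8 * (N : ℝ) ^ (3 * η) * (b * s * (N : ℝ) ^ (-(8 * η))) := by gcongr
      _ = 8 * b * s * ((N : ℝ) ^ (3 * η) * (N : ℝ) ^ (-(8 * η))) := by ring
      _ = 8 * b * s / (N : ℝ) ^ (5 * η) := by rw [h2]; ring
      _ ≤ 1 / 2 := by
          rw [div_le_iff₀ h3]
          linarith
  set err : ℝ := 14 * N / K + 2 * ((K : ℝ) ^ 3 * (2 / (a * s * (3 * (N : ℝ)) ^ (s - 1)))) with herr
  have herr0 : 0 ≤ err := by positivity
  have herr1 : err ≤ C1 * (N : ℝ) ^ (1 - η) := by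
    have h1 : 14 * (N : ℝ) / K ≤ 14 * (N : ℝ) ^ (1 - η) := by
      rw [Real.rpow_sub hNpos, Real.rpow_one]
      calc 14 * (N : ℝ) / K ≤ 14 * (N : ℝ) / (N : ℝ) ^ η := by gcongr
        _ = _ := by ring
    have h2 : 1 / (3 * (N : ℝ)) ^ (s - 1) ≤ 3 * (N : ℝ) ^ (1 - s) := by
      rw [one_div, ← Real.rpow_neg (by positivity), neg_sub, Real.mul_rpow (by norm_num) hNpos.le]
      have : (3 : ℝ) ^ (1 - s) ≤ 3 ^ (1 : ℝ) :=
        Real.rpow_le_rpow_of_exponent_le (by norm_num) (by linarith)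
      rw [Real.rpow_one] at this
      gcongr
    have h3 : 2 * ((K : ℝ) ^ 3 * (2 / (a * s * (3 * (N : ℝ)) ^ (s - 1)))) ≤
        96 / (a * s) * (N : ℝ) ^ (1 - η) := by
      calc 2 * ((K : ℝ) ^ 3 * (2 / (a * s * (3 * (N : ℝ)) ^ (s - 1)))) =
            4 / (a * s) * ((K : ℝ) ^ 3 * (1 / (3 * (N : ℝ)) ^ (s - 1))) := by
            field_simp
            ring
        _ ≤ 4 / (a * s) * (8 * (N : ℝ) ^ (3 * η) * (3 * (N : ℝ) ^ (1 - s))) := by gcongr
        _ = 96 / (a * s) * ((N : ℝ) ^ (3 * η) * (N : ℝ) ^ (1 - s)) := by ring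
        _ ≤ 96 / (a * s) * (N : ℝ) ^ (1 - η) := by
            gcongr
            rw [← Real.rpow_add hNpos]
            apply Real.rpow_le_rpow_of_exponent_le hN1
            linarith
    rw [hC1, add_mul]
    exact add_le_add h1 h3
  have hAT : ∀ T ∈ P.powerset, cU T ≠ 0 → |An T - (N : ℝ) / (∏ p ∈ T, p : ℕ)| ≤ D * err := by
    intro T hT hcT
    rw [mem_powerset] at hT
    have h1 : ∏ p ∈ T, p ≤ D := by
      have := hc2 T hT (Or.inl hcT)
      rw [hD, hE]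
      exact this
    have h2 : 1 ≤ ∏ p ∈ T, p :=
      Nat.one_le_iff_ne_zero.2 (prod_ne_zero_iff.2 fun p hp => (hPp p (hT hp)).ne_zero)
    have h3 := Ad hs0 hs1 ha h h2 (h1.trans hDN) hθ1 hθ2 K hKn hbK
    refine h3.trans ?_
    have h4 : ((∏ p ∈ T, p : ℕ) : ℝ) ≤ D := by exact_mod_cast h1
    gcongr
  have hsum : ∑ T ∈ P.powerset, cU T * An T ≤
      N * VV P cU (fun p => 1 / (p : ℝ)) + D * (D * err) := by
    have h1 : ∀ T ∈ P.powerset, cU T * An T ≤ cU T * ((N : ℝ) / (∏ p ∈ T, p : ℕ)) +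
        (if cU T ≠ 0 then D * err else 0) := by
      intro T hT
      by_cases hcT : cU T = 0
      · rw [hcT, if_neg (by simp)]
        simp
      · rw [if_pos hcT]
        have h2 := hAT T hT hcT
        have h3 := (hc1 T).1
        have h4 : cU T * (An T - (N : ℝ) / (∏ p ∈ T, p : ℕ)) ≤ 1 * (D * err) := by
          calc cU T * (An T - (N : ℝ) / (∏ p ∈ T, p : ℕ)) ≤
                |cU T * (An T - (N : ℝ) / (∏ p ∈ T, p : ℕ))| := le_abs_self _
            _ = |cU T| * |An T - (N : ℝ) / (∏ p ∈ T, p : ℕ)| := abs_mul _ _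
            _ ≤ 1 * (D * err) := mul_le_mul h3 h2 (abs_nonneg _) (by norm_num)
        rw [mul_sub] at h4
        linarith
    refine (sum_le_sum h1).trans ?_
    rw [sum_add_distrib]
    apply add_le_add
    · apply le_of_eq
      unfold VV
      rw [mul_sum]
      refine sum_congr rfl fun T _ => ?_
      push_cast
      rw [prod_div_distrib, prod_const_one]
      ring
    · rw [← sum_filter, sum_const, nsmul_eq_mul]
      have h2 := card_supp P hPp cU D (fun T hT hcT => by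
        have := hc2 T hT (Or.inl hcT)
        rw [hD, hE]
        exact this)
      have h3 : ((P.powerset.filter (fun T => cU T ≠ 0)).card : ℝ) ≤ D := by exact_mod_cast h2
      gcongr
  have hVV : VV P cU (fun p => 1 / (p : ℝ)) ≤ 2 * ∏ p ∈ P, (1 - 1 / (p : ℝ)) := by
    have h1 := (hc4 (fun p => 1 / (p : ℝ)) (by
      intro p hp
      have h2 : (2 : ℝ) ≤ p := by exact_mod_cast (hPp p hp).two_le
      refine ⟨by positivity, ?_⟩
      push_cast
      apply div_le_div_of_nonneg_left (by norm_num) (by linarith) (by linarith))).2.2.2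
    refine h1.trans ?_
    have h2 : (1 / 2 : ℝ) ^ b0 ≤ 1 := pow_le_one₀ (by norm_num) (by norm_num)
    have h3 : 0 ≤ ∏ p ∈ P, (1 - 1 / (p : ℝ)) := by
      refine prod_nonneg fun p hp => ?_
      have h2 : (1 : ℝ) ≤ p := by exact_mod_cast (hPp p hp).one_le
      have : 1 / (p : ℝ) ≤ 1 := by rw [div_le_one (by linarith)]; exact h2
      linarith
    have h4 : 1 + (1 / 2 : ℝ) ^ b0 ≤ 2 := by linarith
    exact mul_le_mul_of_nonneg_right h4 h3
  have hprod : ∏ p ∈ P, (1 - 1 / (p : ℝ)) = V1 Z / V1 z0 := by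
    rw [eq_div_iff hV0.ne']
    unfold V1
    rw [← prod_union]
    · refine prod_congr ?_ fun _ _ => rfl
      ext p
      simp only [hP, mem_union, mem_filter, mem_Icc]
      constructor
      · rintro (⟨⟨h1, h2⟩, h3, h4⟩ | ⟨⟨h1, h2⟩, h3⟩)
        · exact ⟨⟨h1, h2⟩, h3⟩
        · exact ⟨⟨h1, by omega⟩, h3⟩
      · rintro ⟨⟨h1, h2⟩, h3⟩
        by_cases h4 : z0 < p
        · exact Or.inl ⟨⟨h1, h2⟩, h3, h4⟩
        · exact Or.inr ⟨⟨h1, by omega⟩, h3⟩
    · rw [disjoint_left]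
      intro p hp1 hp2
      simp only [hP, mem_filter, mem_Icc] at hp1 hp2
      omega
  have hZ2 : 2 ≤ Z := by
    by_contra hcon
    have h1 : Z = 1 := by omega
    rw [h1] at hJ2
    norm_num at hJ2
    linarith
  have hlogZ : η / (8 * E) * Real.log N ≤ Real.log Z := by
    have h1 : Real.log t ≤ Real.log ((Z : ℝ) ^ 2) := Real.log_le_log (by positivity) hJ2
    rw [ht, Real.log_rpow hNpos, Real.log_pow] at h1
    push_cast at h1
    have h2 : η / (8 * E) * Real.log N = 1 / 2 * (η / (4 * E) * Real.log N) := by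
      field_simp
      ring
    rw [h2]
    linarith
  have hV1 : V1 Z ≤ 8 * E / (η * Real.log N) := by
    refine (V1_le Z hZ2).trans ?_
    calc 1 / Real.log Z ≤ 1 / (η / (8 * E) * Real.log N) := by
          apply one_div_le_one_div_of_le (by positivity) hlogZ
      _ = _ := by field_simp
  have hDD : D * (D * err) ≤ N / Real.log N := by
    have h1 : (D : ℝ) * (D * err) ≤ (N : ℝ) ^ (η / 4) * ((N : ℝ) ^ (η / 4) * (C1 * (N : ℝ) ^ (1 - η))) := by
      gcongr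
    refine h1.trans ?_
    have h2 : (N : ℝ) ^ (η / 4) * ((N : ℝ) ^ (η / 4) * (C1 * (N : ℝ) ^ (1 - η))) =
        C1 * (N / (N : ℝ) ^ (η / 2)) := by
      have h3 : (N : ℝ) / (N : ℝ) ^ (η / 2) = (N : ℝ) ^ (1 - η / 2) := by
        rw [Real.rpow_sub hNpos, Real.rpow_one]
      rw [h3]
      have h4 : (N : ℝ) ^ (1 - η / 2) = (N : ℝ) ^ (η / 4) * ((N : ℝ) ^ (η / 4) * (N : ℝ) ^ (1 - η)) := by
        rw [← Real.rpow_add hNpos, ← Real.rpow_add hNpos]
        congr 1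
        ring
      rw [h4]
      ring
    rw [h2]
    have h5 : 0 < (N : ℝ) ^ (η / 2) := by positivity
    rw [le_div_iff₀ (by linarith)]
    calc C1 * (N / (N : ℝ) ^ (η / 2)) * Real.log N = N * (C1 * Real.log N) / (N : ℝ) ^ (η / 2) := by
          ring
      _ ≤ N * (N : ℝ) ^ (η / 2) / (N : ℝ) ^ (η / 2) := by gcongr
      _ = N := by field_simp
  calc (((Ioc N (2 * N)).filter (fun n => (fz h θ s n).toNat.Prime)).card : ℝ) ≤
        ∑ T ∈ P.powerset, cU T * An T := by rw [← hswap]; exact hcount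
    _ ≤ N * VV P cU (fun p => 1 / (p : ℝ)) + D * (D * err) := hsum
    _ ≤ N * (2 * (8 * E / (η * Real.log N) / V1 z0)) + N / Real.log N := by
        apply add_le_add _ hDD
        apply mul_le_mul_of_nonneg_left _ hNpos.le
        refine hVV.trans ?_
        rw [hprod]
        gcongr
    _ = _ := by
        field_simp
        ring

end Pool.Agent.H2
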