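import Mathlib
import Pool.Agent.H2.Cls

/-!
Windows for the fractional parts of the square roots of the primes (helper2).
-/

set_option autoImplicit false

namespace Pool.Agent.H2

open Finset Filter Topology

/-- the primes in `(x, y]` -/
def PB (x y : ℕ) : Finset ℕ := (Ioc x y).filter Nat.Prime

/-- the number `√(n² + h + θ n^s) - n` -/
noncomputable def al (h : ℤ) (θ s : ℝ) (n : ℕ) : ℝ := √((n : ℝ) ^ 2 + h + θ * (n : ℝ) ^ s) - n

/-- comparison of the powers -/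
lemma rpow_neg_gap {s x y : ℝ} (hs0 : 0 ≤ s) (hs1 : s ≤ 1) (hx : 0 < x) (hxy : x ≤ y) :
    |y ^ (s - 1) - x ^ (s - 1)| ≤ (y - x) * x ^ (s - 2) := by
  have hy : 0 < y := by linarith
  have h1 : y ^ (s - 1) ≤ x ^ (s - 1) := Real.rpow_le_rpow_of_nonpos hx hxy (by linarith)
  rw [abs_sub_comm, abs_of_nonneg (by linarith)]
  set t : ℝ := (y - x) / x with ht
  have ht0 : 0 ≤ t := div_nonneg (by linarith) hx.le
  have hy2 : y = x * (1 + t) := by rw [ht]; field_simp; ring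
  have h2 : (1 + t) ^ (1 - s) ≤ 1 + (1 - s) * t :=
    rpow_one_add_le_one_add_mul_self (by linarith) (by linarith) (by linarith)
  have h3 : 1 - t ≤ (1 + t) ^ (s - 1) := by
    have h4 : (1 + t) ^ (s - 1) = ((1 + t) ^ (1 - s))⁻¹ := by
      rw [← Real.rpow_neg (by linarith)]
      congr 1
      ring
    rw [h4]
    have h5 : (1 + t) ^ (1 - s) ≤ 1 + t := by nlinarith
    have h6 : 0 < (1 + t) ^ (1 - s) := by positivity
    calc 1 - t ≤ (1 + t)⁻¹ := by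
          rw [← one_div, le_div_iff₀ (by linarith)]
          nlinarith
      _ ≤ _ := inv_anti₀ h6 h5
  have h7 : x ^ (s - 2) = x ^ (s - 1) / x := by
    rw [show s - 2 = (s - 1) - 1 by ring, Real.rpow_sub hx, Real.rpow_one]
  have h8 : 0 < x ^ (s - 1) := by positivity
  rw [h7]
  have h9 : y ^ (s - 1) = x ^ (s - 1) * (1 + t) ^ (s - 1) := by
    rw [← Real.mul_rpow hx.le (by linarith), ← hy2]
  rw [h9]
  calc x ^ (s - 1) - x ^ (s - 1) * (1 + t) ^ (s - 1) ≤ x ^ (s - 1) - x ^ (s - 1) * (1 - t) := by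
        gcongr
    _ = (y - x) * (x ^ (s - 1) / x) := by rw [ht]; ring

/-- the square root of `n² + y` -/
lemma sqrt_near {n y : ℝ} (hn : 0 < n) (hy : 0 ≤ n ^ 2 + y) :
    |√(n ^ 2 + y) - n - y / (2 * n)| ≤ y ^ 2 / (2 * n ^ 3) := by
  set r : ℝ := √(n ^ 2 + y) with hr
  have hr0 : 0 ≤ r := Real.sqrt_nonneg _
  have hr2 : r ^ 2 = n ^ 2 + y := Real.sq_sqrt hy
  have hrn : 0 < r + n := by linarith
  have h1 : y = (r - n) * (r + n) := by nlinarith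
  have h2 : r - n - y / (2 * n) = -((r - n) ^ 2 / (2 * n)) := by
    rw [h1]
    field_simp
    ring
  rw [h2, abs_neg, abs_of_nonneg (by positivity)]
  rw [div_le_div_iff₀ (by positivity) (by positivity)]
  have h3 : y ^ 2 = (r - n) ^ 2 * (r + n) ^ 2 := by rw [h1]; ring
  rw [h3]
  have h4 : n ^ 2 ≤ (r + n) ^ 2 := by nlinarith
  have h5 : 0 ≤ (r - n) ^ 2 := sq_nonneg _
  calc (r - n) ^ 2 * (2 * n ^ 3) = (r - n) ^ 2 * n ^ 2 * (2 * n) := by ring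
    _ ≤ (r - n) ^ 2 * (r + n) ^ 2 * (2 * n) := by gcongr

/-- the windows are nearly constant -/
theorem al_near {s a b : ℝ} (hs0 : 0 < s) (hs1 : s < 1) (ha : 0 < a) (hab : a ≤ b) (h : ℤ) :
    ∃ C : ℝ, 0 < C ∧ ∃ N0 : ℕ, ∀ N : ℕ, N0 ≤ N → ∀ M T n : ℕ, N ≤ M → M < n → n ≤ M + T →
      ∀ θ : ℝ, a ≤ θ → θ ≤ b →
      0 ≤ (h : ℝ) + θ * (n : ℝ) ^ s ∧ (h : ℝ) + θ * (n : ℝ) ^ s < 2 * n + 1 ∧
      |al h θ s n - θ * (M : ℝ) ^ (s - 1) / 2| ≤ C * (1 / N + (N : ℝ) ^ (s - 2) * T) := by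
  have hb0 : 0 < b := by linarith
  have hpow : ∀ ε : ℝ, 0 < ε → ∀ A : ℝ, ∀ᶠ N : ℕ in atTop, A ≤ (N : ℝ) ^ ε := fun ε hε A =>
    ((tendsto_rpow_atTop hε).comp tendsto_natCast_atTop_atTop).eventually_ge_atTop A
  have hev : ∀ᶠ N : ℕ in atTop, |(h : ℝ)| / a ≤ (N : ℝ) ^ s ∧ b ≤ (N : ℝ) ^ (1 - s) ∧
      |(h : ℝ)| ≤ (N : ℝ) ^ (1 : ℝ) ∧ 1 ≤ N := by
    filter_upwards [hpow s hs0 (|(h : ℝ)| / a), hpow (1 - s) (by linarith) b,
      hpow 1 (by norm_num) |(h : ℝ)|, eventually_ge_atTop 1] with N a1 a2 a3 a4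
    exact ⟨a1, a2, a3, a4⟩
  obtain ⟨N0, hN0⟩ := eventually_atTop.1 hev
  refine ⟨(|(h : ℝ)| + b) ^ 2 + |(h : ℝ)| + b, by positivity, N0, ?_⟩
  intro N hN M T n hNM hMn hnT θ hθ1 hθ2
  obtain ⟨h1, h2, h3, h4⟩ := hN0 N hN
  rw [Real.rpow_one] at h3
  have hN0' : (0 : ℝ) < N := by exact_mod_cast h4
  have hN1' : (1 : ℝ) ≤ N := by exact_mod_cast h4
  have hNMr : (N : ℝ) ≤ M := by exact_mod_cast hNM
  have hMnr : (M : ℝ) ≤ n := by exact_mod_cast hMn.le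
  have hNn : (N : ℝ) ≤ n := hNMr.trans hMnr
  have hn0 : (0 : ℝ) < n := by linarith
  have hn1 : (1 : ℝ) ≤ n := by linarith
  have hM0 : (0 : ℝ) < M := by linarith
  have hθ0 : 0 < θ := by linarith
  have hns : (N : ℝ) ^ s ≤ (n : ℝ) ^ s := Real.rpow_le_rpow hN0'.le hNn hs0.le
  have hns1 : 1 ≤ (n : ℝ) ^ s := Real.one_le_rpow hn1 hs0.le
  have hnsn : (n : ℝ) ^ s ≤ n := by
    calc (n : ℝ) ^ s ≤ (n : ℝ) ^ (1 : ℝ) := Real.rpow_le_rpow_of_exponent_le hn1 hs1.le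
      _ = n := Real.rpow_one _
  have hlow : 0 ≤ (h : ℝ) + θ * (n : ℝ) ^ s := by
    have e1 : |(h : ℝ)| ≤ θ * (n : ℝ) ^ s := by
      rw [div_le_iff₀ ha] at h1
      calc |(h : ℝ)| ≤ (N : ℝ) ^ s * a := h1
        _ ≤ (n : ℝ) ^ s * θ := by gcongr
        _ = _ := mul_comm _ _
    have := neg_abs_le (h : ℝ)
    linarith
  have hbn : b * (n : ℝ) ^ s ≤ n := by
    have e1 : (N : ℝ) ^ (1 - s) ≤ (n : ℝ) ^ (1 - s) := Real.rpow_le_rpow hN0'.le hNn (by linarith)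
    calc b * (n : ℝ) ^ s ≤ (n : ℝ) ^ (1 - s) * (n : ℝ) ^ s := by
          gcongr
          linarith
      _ = n := by
          rw [← Real.rpow_add hn0]
          simp
  have hup : (h : ℝ) + θ * (n : ℝ) ^ s < 2 * n + 1 := by
    have e2 : θ * (n : ℝ) ^ s ≤ b * (n : ℝ) ^ s := by gcongr
    have e3 : (h : ℝ) ≤ n := (le_abs_self _).trans (h3.trans hNn)
    linarith
  refine ⟨hlow, hup, ?_⟩
  set y : ℝ := (h : ℝ) + θ * (n : ℝ) ^ s with hy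
  have hA : al h θ s n = √((n : ℝ) ^ 2 + y) - n := by
    unfold al
    rw [hy, add_assoc]
  have hB := sqrt_near hn0 (y := y) (by positivity)
  have hy2 : |y| ≤ (|(h : ℝ)| + b) * n := by
    calc |y| ≤ |(h : ℝ)| + |θ * (n : ℝ) ^ s| := abs_add_le _ _
      _ = |(h : ℝ)| + θ * (n : ℝ) ^ s := by rw [abs_of_nonneg (a := θ * (n : ℝ) ^ s) (by positivity)]
      _ ≤ |(h : ℝ)| * n + b * n := by
          have e1 : |(h : ℝ)| ≤ |(h : ℝ)| * n := le_mul_of_one_le_right (abs_nonneg _) hn1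
          have e2 : θ * (n : ℝ) ^ s ≤ b * n := by gcongr
          linarith
      _ = _ := by ring
  have hC : y ^ 2 / (2 * (n : ℝ) ^ 3) ≤ (|(h : ℝ)| + b) ^ 2 * (1 / N) := by
    have e1 : y ^ 2 ≤ ((|(h : ℝ)| + b) * n) ^ 2 := by
      rw [← sq_abs y]
      gcongr
    calc y ^ 2 / (2 * (n : ℝ) ^ 3) ≤ ((|(h : ℝ)| + b) * n) ^ 2 / (2 * (n : ℝ) ^ 3) := by gcongr
      _ = (|(h : ℝ)| + b) ^ 2 * (1 / (2 * n)) := by field_simp
      _ ≤ (|(h : ℝ)| + b) ^ 2 * (1 / N) := by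
          gcongr
          linarith
  have hD : y / (2 * n) = h / (2 * n) + θ * (n : ℝ) ^ (s - 1) / 2 := by
    rw [hy, Real.rpow_sub hn0, Real.rpow_one]
    field_simp
  have hE : |(h : ℝ) / (2 * n)| ≤ |(h : ℝ)| * (1 / N) := by
    rw [abs_div, abs_of_nonneg (a := 2 * (n : ℝ)) (by positivity), div_eq_mul_one_div]
    gcongr
    linarith
  have hF : |θ * (n : ℝ) ^ (s - 1) / 2 - θ * (M : ℝ) ^ (s - 1) / 2| ≤
      b * ((N : ℝ) ^ (s - 2) * T) := by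
    have e1 := rpow_neg_gap hs0.le hs1.le hM0 hMnr
    have e2 : (M : ℝ) ^ (s - 2) ≤ (N : ℝ) ^ (s - 2) :=
      Real.rpow_le_rpow_of_nonpos hN0' hNMr (by linarith)
    have e3 : (n : ℝ) - M ≤ T := by
      have : (n : ℝ) ≤ M + T := by exact_mod_cast hnT
      linarith
    have e4 : 0 ≤ (n : ℝ) - M := by linarith
    rw [show θ * (n : ℝ) ^ (s - 1) / 2 - θ * (M : ℝ) ^ (s - 1) / 2 =
      θ / 2 * ((n : ℝ) ^ (s - 1) - (M : ℝ) ^ (s - 1)) by ring, abs_mul,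
      abs_of_nonneg (a := θ / 2) (by positivity)]
    calc θ / 2 * |(n : ℝ) ^ (s - 1) - (M : ℝ) ^ (s - 1)| ≤
          θ / 2 * ((n - M) * (M : ℝ) ^ (s - 2)) := by gcongr
      _ ≤ b * (T * (N : ℝ) ^ (s - 2)) := by
          gcongr
          linarith
      _ = _ := by ring
  rw [hA]
  have hG : √((n : ℝ) ^ 2 + y) - n - θ * (M : ℝ) ^ (s - 1) / 2 =
      (√((n : ℝ) ^ 2 + y) - n - y / (2 * n)) + (h : ℝ) / (2 * n) +
        (θ * (n : ℝ) ^ (s - 1) / 2 - θ * (M : ℝ) ^ (s - 1) / 2) := by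
    rw [hD]
    ring
  rw [hG]
  refine (abs_add_le _ _).trans ?_
  have h9 := abs_add_le (√((n : ℝ) ^ 2 + y) - n - y / (2 * n)) ((h : ℝ) / (2 * n))
  have h10 : 0 ≤ (|(h : ℝ)| + b) ^ 2 * ((N : ℝ) ^ (s - 2) * T) := by positivity
  have h11 : 0 ≤ |(h : ℝ)| * ((N : ℝ) ^ (s - 2) * T) := by positivity
  have h12 : 0 ≤ b * (1 / (N : ℝ)) := by positivity
  calc _ ≤ ((|(h : ℝ)| + b) ^ 2 * (1 / N) + |(h : ℝ)| * (1 / N)) + b * ((N : ℝ) ^ (s - 2) * T) := by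
        linarith
    _ ≤ _ := by
        rw [show ((|(h : ℝ)| + b) ^ 2 + |(h : ℝ)| + b) * (1 / (N : ℝ) + (N : ℝ) ^ (s - 2) * T) =
          (|(h : ℝ)| + b) ^ 2 * (1 / N) + |(h : ℝ)| * (1 / N) + b * ((N : ℝ) ^ (s - 2) * T) +
          ((|(h : ℝ)| + b) ^ 2 * ((N : ℝ) ^ (s - 2) * T) + |(h : ℝ)| * ((N : ℝ) ^ (s - 2) * T) +
            b * (1 / (N : ℝ))) by ring]
        linarith

/-- the number of the primes in a window after `n²` -/
noncomputable def cn (h : ℤ) (s u v : ℝ) (n : ℕ) : ℝ :=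
  (((PB (n ^ 2 - 1) ((n + 1) ^ 2 - 1)).filter (fun p : ℕ =>
    (n : ℝ) ^ 2 + h + u * (n : ℝ) ^ s ≤ p ∧ (p : ℝ) < (n : ℝ) ^ 2 + h + v * (n : ℝ) ^ s)).card : ℝ)

lemma mem_PB_sqrt {n p : ℕ} (hn : 1 ≤ n) : p ∈ PB (n ^ 2 - 1) ((n + 1) ^ 2 - 1) ↔
    p.Prime ∧ Nat.sqrt p = n := by
  have h1 : 1 ≤ n ^ 2 := Nat.one_le_pow _ _ hn
  have h2 : 1 ≤ (n + 1) ^ 2 := Nat.one_le_pow _ _ (by omega)
  unfold PB
  rw [mem_filter, mem_Ioc]
  constructor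
  · rintro ⟨⟨h3, h4⟩, h5⟩
    refine ⟨h5, ?_⟩
    symm
    rw [Nat.eq_sqrt']
    exact ⟨by omega, by omega⟩
  · rintro ⟨h3, h4⟩
    have h5 := (Nat.eq_sqrt' (n := p) (a := n)).1 h4.symm
    exact ⟨⟨by omega, by omega⟩, h3⟩

lemma mem_PB_block {M T p : ℕ} : p ∈ PB ((M + 1) ^ 2 - 1) ((M + T + 1) ^ 2 - 1) ↔
    p.Prime ∧ M < Nat.sqrt p ∧ Nat.sqrt p ≤ M + T := by
  have h1 : 1 ≤ (M + 1) ^ 2 := Nat.one_le_pow _ _ (by omega)
  have h2 : 1 ≤ (M + T + 1) ^ 2 := Nat.one_le_pow _ _ (by omega)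
  unfold PB
  rw [mem_filter, mem_Ioc]
  have h3 : M < Nat.sqrt p ↔ (M + 1) ^ 2 ≤ p := by rw [Nat.lt_iff_add_one_le, Nat.le_sqrt']
  have h4 : Nat.sqrt p ≤ M + T ↔ p < (M + T + 1) ^ 2 := by
    rw [← Nat.lt_succ_iff, Nat.sqrt_lt']
  rw [h3, h4]
  constructor
  · rintro ⟨⟨h5, h6⟩, h7⟩
    exact ⟨h7, by omega, by omega⟩
  · rintro ⟨h5, h6, h7⟩
    exact ⟨⟨by omega, by omega⟩, h5⟩

lemma fract_sqrt (p : ℕ) : Int.fract (√(p : ℝ)) = √(p : ℝ) - (Nat.sqrt p : ℝ) := by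
  unfold Int.fract
  congr 1
  rw [Real.floor_real_sqrt_eq_nat_sqrt]
  norm_cast

/-- the sum over a block -/
theorem block {s a b : ℝ} (hs0 : 0 < s) (hs1 : s < 1) (ha : 0 < a) (hab : a ≤ b) (h : ℤ) :
    ∃ C : ℝ, 0 < C ∧ ∃ N0 : ℕ, ∀ N : ℕ, N0 ≤ N → ∀ M T : ℕ, N ≤ M → 1 ≤ T → T ≤ N →
      ∀ u v : ℝ, a ≤ u → u ≤ v → v ≤ b → ∀ E : ℝ, 0 ≤ E →
      (∀ x y : ℝ, 0 ≤ x → x ≤ y → y ≤ 1 → y - x ≤ C * (N : ℝ) ^ (s - 1) →
        |(((PB ((M + 1) ^ 2 - 1) ((M + T + 1) ^ 2 - 1)).filter (fun p : ℕ =>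
          x ≤ Int.fract (√(p : ℝ)) ∧ Int.fract (√(p : ℝ)) < y)).card : ℝ) -
          (y - x) * ((PB ((M + 1) ^ 2 - 1) ((M + T + 1) ^ 2 - 1)).card : ℝ)| ≤ E) →
      |∑ n ∈ Ioc M (M + T), cn h s u v n - (v - u) * (M : ℝ) ^ (s - 1) / 2 *
        ((PB ((M + 1) ^ 2 - 1) ((M + T + 1) ^ 2 - 1)).card : ℝ)| ≤
        C * (1 / N + (N : ℝ) ^ (s - 2) * T) *
          ((PB ((M + 1) ^ 2 - 1) ((M + T + 1) ^ 2 - 1)).card : ℝ) + E := by
  classical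
  obtain ⟨C, hC, N0, hN0⟩ := al_near hs0 hs1 ha hab h
  have hpow : ∀ᶠ N : ℕ in atTop, b ≤ (N : ℝ) ^ (1 - s) :=
    ((tendsto_rpow_atTop (by linarith)).comp tendsto_natCast_atTop_atTop).eventually_ge_atTop b
  obtain ⟨N1, hN1⟩ := eventually_atTop.1 (hpow.and (eventually_ge_atTop 1))
  have hb00 : 0 < b := by linarith
  refine ⟨b + 4 * C, by positivity, max N0 N1, ?_⟩
  intro N hN M T hNM hT hTN u v hau huv hvb E hE hEq
  obtain ⟨hbN, hN1'⟩ := hN1 N ((le_max_right _ _).trans hN)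
  have hNpos : (0 : ℝ) < N := by exact_mod_cast hN1'
  have hNMr : (N : ℝ) ≤ M := by exact_mod_cast hNM
  have hM0 : (0 : ℝ) < M := by linarith
  have hb0 : 0 < b := by linarith
  set Q := PB ((M + 1) ^ 2 - 1) ((M + T + 1) ^ 2 - 1) with hQ
  set ρ : ℝ := C * (1 / N + (N : ℝ) ^ (s - 2) * T) with hρ
  have hρ0 : 0 ≤ ρ := by positivity
  have hNs : (N : ℝ) ^ (s - 2) * T ≤ (N : ℝ) ^ (s - 1) := by
    have hTNr : (T : ℝ) ≤ N := by exact_mod_cast hTN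
    calc (N : ℝ) ^ (s - 2) * T ≤ (N : ℝ) ^ (s - 2) * N := by gcongr
      _ = (N : ℝ) ^ (s - 1) := by
          rw [← Real.rpow_add_one hNpos.ne']
          congr 1
          ring
  have hN1s : 1 / (N : ℝ) ≤ (N : ℝ) ^ (s - 1) := by
    rw [one_div, ← Real.rpow_neg_one]
    exact Real.rpow_le_rpow_of_exponent_le (by exact_mod_cast hN1') (by linarith)
  have hρN : ρ ≤ 2 * C * (N : ℝ) ^ (s - 1) := by
    rw [hρ]
    calc C * (1 / N + (N : ℝ) ^ (s - 2) * T) ≤ C * ((N : ℝ) ^ (s - 1) + (N : ℝ) ^ (s - 1)) := by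
          gcongr
      _ = _ := by ring
  have hnear := fun (n : ℕ) (h1 : M < n) (h2 : n ≤ M + T) =>
    hN0 N ((le_max_left _ _).trans hN) M T n hNM h1 h2
  set su : ℝ := u * (M : ℝ) ^ (s - 1) / 2 with hsu
  set sv : ℝ := v * (M : ℝ) ^ (s - 1) / 2 with hsv
  have hMs : 0 < (M : ℝ) ^ (s - 1) := by positivity
  have hsu0 : 0 < su := by have : 0 < u := by linarith
                           positivity
  have hsuv : su ≤ sv := by rw [hsu, hsv]; gcongr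
  have hsv1 : sv ≤ 1 / 2 := by
    have e1 : (M : ℝ) ^ (s - 1) ≤ (N : ℝ) ^ (s - 1) :=
      Real.rpow_le_rpow_of_nonpos hNpos hNMr (by linarith)
    have e2 : v * (M : ℝ) ^ (s - 1) ≤ 1 := by
      calc v * (M : ℝ) ^ (s - 1) ≤ b * (N : ℝ) ^ (s - 1) := by gcongr
        _ ≤ (N : ℝ) ^ (1 - s) * (N : ℝ) ^ (s - 1) := by gcongr
        _ = 1 := by rw [← Real.rpow_add hNpos]; simp
    rw [hsv]
    linarith
  have hwin : sv - su ≤ b * (N : ℝ) ^ (s - 1) := by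
    have e1 : (M : ℝ) ^ (s - 1) ≤ (N : ℝ) ^ (s - 1) :=
      Real.rpow_le_rpow_of_nonpos hNpos hNMr (by linarith)
    have e2 : v * (M : ℝ) ^ (s - 1) ≤ b * (N : ℝ) ^ (s - 1) := by gcongr
    have e3 : 0 ≤ b * (N : ℝ) ^ (s - 1) := by positivity
    rw [hsv]
    linarith
  -- the sum as the number of elements of a set
  have hset : ∑ n ∈ Ioc M (M + T), cn h s u v n = ((Q.filter (fun p : ℕ =>
      ((Nat.sqrt p : ℕ) : ℝ) ^ 2 + h + u * ((Nat.sqrt p : ℕ) : ℝ) ^ s ≤ p ∧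
      (p : ℝ) < ((Nat.sqrt p : ℕ) : ℝ) ^ 2 + h + v * ((Nat.sqrt p : ℕ) : ℝ) ^ s)).card : ℝ) := by
    rw [card_eq_sum_card_fiberwise (f := Nat.sqrt) (t := Ioc M (M + T))]
    · push_cast
      refine sum_congr rfl fun n hn => ?_
      rw [mem_Ioc] at hn
      unfold cn
      congr 2
      ext p
      rw [mem_filter, mem_filter, mem_filter, mem_PB_sqrt (by omega), hQ, mem_PB_block]
      constructor
      · rintro ⟨⟨h1, h2⟩, h3⟩
        refine ⟨⟨⟨h1, by omega, by omega⟩, ?_⟩, h2⟩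
        rw [h2]
        exact h3
      · rintro ⟨⟨⟨h1, _, _⟩, h2⟩, h3⟩
        rw [h3] at h2
        exact ⟨⟨h1, h3⟩, h2⟩
    · intro p hp
      rw [coe_filter, Set.mem_ofPred_eq, hQ, mem_PB_block] at hp
      rw [coe_Ioc, Set.mem_Ioc]
      exact ⟨hp.1.2.1, hp.1.2.2⟩
  -- the condition in terms of the fractional part
  have hiff : ∀ p ∈ Q, ∀ θ : ℝ, a ≤ θ → θ ≤ b →
      (((Nat.sqrt p : ℕ) : ℝ) ^ 2 + h + θ * ((Nat.sqrt p : ℕ) : ℝ) ^ s ≤ p ↔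
        al h θ s (Nat.sqrt p) ≤ Int.fract (√(p : ℝ))) := by
    intro p hp θ h1 h2
    rw [hQ, mem_PB_block] at hp
    have h3 := (hnear (Nat.sqrt p) hp.2.1 hp.2.2 θ h1 h2).1
    rw [fract_sqrt]
    unfold al
    rw [sub_le_sub_iff_right]
    rw [Real.sqrt_le_sqrt_iff (by positivity)]
  have hal : ∀ p ∈ Q, ∀ θ : ℝ, a ≤ θ → θ ≤ b →
      |al h θ s (Nat.sqrt p) - θ * (M : ℝ) ^ (s - 1) / 2| ≤ ρ := by
    intro p hp θ h1 h2
    rw [hQ, mem_PB_block] at hp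
    exact (hnear (Nat.sqrt p) hp.2.1 hp.2.2 θ h1 h2).2.2
  rw [hset]
  set F := Q.filter (fun p : ℕ =>
      ((Nat.sqrt p : ℕ) : ℝ) ^ 2 + h + u * ((Nat.sqrt p : ℕ) : ℝ) ^ s ≤ p ∧
      (p : ℝ) < ((Nat.sqrt p : ℕ) : ℝ) ^ 2 + h + v * ((Nat.sqrt p : ℕ) : ℝ) ^ s) with hF
  have hQ0 : (0 : ℝ) ≤ (Q.card : ℝ) := Nat.cast_nonneg _
  have hgoal : (v - u) * (M : ℝ) ^ (s - 1) / 2 = sv - su := by rw [hsv, hsu]; ring
  rw [hgoal]
  have hup : (F.card : ℝ) ≤ (sv - su + 2 * ρ) * Q.card + E := by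
    have h1 : F ⊆ Q.filter (fun p : ℕ => max 0 (su - ρ) ≤ Int.fract (√(p : ℝ)) ∧
        Int.fract (√(p : ℝ)) < min 1 (sv + ρ)) := by
      intro p hp
      rw [hF, mem_filter] at hp
      rw [mem_filter]
      obtain ⟨hp1, hp2, hp3⟩ := hp
      rw [hiff p hp1 u hau (huv.trans hvb)] at hp2
      rw [← not_le, hiff p hp1 v (hau.trans huv) hvb, not_le] at hp3
      have h4 := abs_le.1 (hal p hp1 u hau (huv.trans hvb))
      have h5 := abs_le.1 (hal p hp1 v (hau.trans huv) hvb)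
      refine ⟨hp1, max_le (Int.fract_nonneg _) (by linarith [h4.1]),
        lt_min (Int.fract_lt_one _) (by linarith [h5.2])⟩
    have h2 : (F.card : ℝ) ≤ ((Q.filter (fun p : ℕ => max 0 (su - ρ) ≤ Int.fract (√(p : ℝ)) ∧
        Int.fract (√(p : ℝ)) < min 1 (sv + ρ))).card : ℝ) := by exact_mod_cast card_le_card h1
    have h4 : min 1 (sv + ρ) - max 0 (su - ρ) ≤ sv - su + 2 * ρ := by
      have := min_le_right 1 (sv + ρ)
      have := le_max_right 0 (su - ρ)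
      linarith
    have h3 := (abs_le.1 (hEq (max 0 (su - ρ)) (min 1 (sv + ρ)) (le_max_left _ _)
      (max_le (le_min (by norm_num) (by linarith)) (le_min (by linarith) (by linarith)))
      (min_le_left _ _) (h4.trans (by linarith)))).2
    have h5 : (min 1 (sv + ρ) - max 0 (su - ρ)) * (Q.card : ℝ) ≤ (sv - su + 2 * ρ) * Q.card := by
      gcongr
    linarith
  have hlo : (sv - su - 2 * ρ) * Q.card - E ≤ (F.card : ℝ) := by
    rcases le_or_gt (su + ρ) (sv - ρ) with hc | hc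
    · have h1 : Q.filter (fun p : ℕ => su + ρ ≤ Int.fract (√(p : ℝ)) ∧
          Int.fract (√(p : ℝ)) < sv - ρ) ⊆ F := by
        intro p hp
        rw [mem_filter] at hp
        obtain ⟨hp1, hp2, hp3⟩ := hp
        rw [hF, mem_filter]
        have h4 := abs_le.1 (hal p hp1 u hau (huv.trans hvb))
        have h5 := abs_le.1 (hal p hp1 v (hau.trans huv) hvb)
        refine ⟨hp1, ?_, ?_⟩
        · rw [hiff p hp1 u hau (huv.trans hvb)]
          linarith [h4.2]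
        · rw [← not_le, hiff p hp1 v (hau.trans huv) hvb, not_le]
          linarith [h5.1]
      have h2 : ((Q.filter (fun p : ℕ => su + ρ ≤ Int.fract (√(p : ℝ)) ∧
          Int.fract (√(p : ℝ)) < sv - ρ)).card : ℝ) ≤ (F.card : ℝ) := by
        exact_mod_cast card_le_card h1
      have hCN : 0 ≤ 4 * C * (N : ℝ) ^ (s - 1) := by positivity
      have h3 := (abs_le.1 (hEq (su + ρ) (sv - ρ) (by linarith) hc (by linarith)
        (by linarith))).1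
      have h4 : (sv - ρ - (su + ρ)) * (Q.card : ℝ) = (sv - su - 2 * ρ) * Q.card := by ring
      rw [h4] at h3
      linarith
    · have h1 : (sv - su - 2 * ρ) * (Q.card : ℝ) ≤ 0 :=
        mul_nonpos_of_nonpos_of_nonneg (by linarith) hQ0
      have h2 : (0 : ℝ) ≤ F.card := Nat.cast_nonneg _
      linarith
  have h3 : 2 * ρ * Q.card ≤ (b + 4 * C) * (1 / N + (N : ℝ) ^ (s - 2) * T) * (Q.card : ℝ) := by
    have e1 : (b + 4 * C) * (1 / N + (N : ℝ) ^ (s - 2) * T) * (Q.card : ℝ) =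
        2 * ρ * Q.card + (b + 2 * C) * (1 / N + (N : ℝ) ^ (s - 2) * T) * (Q.card : ℝ) := by
      rw [hρ]; ring
    have e2 : 0 ≤ (b + 2 * C) * (1 / N + (N : ℝ) ^ (s - 2) * T) * (Q.card : ℝ) := by positivity
    linarith
  refine le_trans ?_ (add_le_add h3 le_rfl)
  rw [abs_le]
  constructor
  · have : (sv - su - 2 * ρ) * (Q.card : ℝ) = (sv - su) * Q.card - 2 * ρ * Q.card := by ring
    linarith
  · have : (sv - su + 2 * ρ) * (Q.card : ℝ) = (sv - su) * Q.card + 2 * ρ * Q.card := by ring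
    linarith

end Pool.Agent.H2
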