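import Mathlib
import Pool.Agent.H2.LLN
import Pool.Agent.H2.Sv
import Pool.Agent.H2.Win

/-!
The mean value over the parameter of the number of primes `n ^ 2 + h + ⌊θ n ^ s⌋` (helper2).
-/

set_option autoImplicit false

namespace Pool.Agent.H2

open MeasureTheory Finset Filter Topology

/-- the pairs `(n, p)`, `N < n ≤ 2 N`, `p` a prime between `n²` and `(n + 1)²` -/
def SS (N : ℕ) : Finset (Σ _ : ℕ, ℕ) :=
  (Ioc N (2 * N)).sigma (fun n => PB (n ^ 2 - 1) ((n + 1) ^ 2 - 1))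

/-- the weight of a pair -/
noncomputable def ww (x : Σ _ : ℕ, ℕ) : ℝ := 1 / (x.1 : ℝ)

/-- the left end of the interval of the parameters -/
noncomputable def ll (h : ℤ) (s : ℝ) (x : Σ _ : ℕ, ℕ) : ℝ :=
  ((x.2 : ℝ) - h - (x.1 : ℝ) ^ 2) / (x.1 : ℝ) ^ s

/-- the right end of the interval of the parameters -/
noncomputable def rr (h : ℤ) (s : ℝ) (x : Σ _ : ℕ, ℕ) : ℝ :=
  ((x.2 : ℝ) - h - (x.1 : ℝ) ^ 2 + 1) / (x.1 : ℝ) ^ s

/-- the step function is the weighted number of primes -/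
theorem stp_eq {s a b : ℝ} (hs0 : 0 < s) (hs1 : s < 1) (ha : 0 < a) (hab : a ≤ b) (h : ℤ) :
    ∃ N0 : ℕ, ∀ N : ℕ, N0 ≤ N → ∀ θ : ℝ, a ≤ θ → θ ≤ b →
      stp (SS N) ww (ll h s) (rr h s) θ =
        ∑ n ∈ Ioc N (2 * N), if (fz h θ s n).toNat.Prime then 1 / (n : ℝ) else 0 := by
  classical
  obtain ⟨C, hC, N0, hN0⟩ := al_near hs0 hs1 ha hab h
  refine ⟨max N0 1, fun N hN θ hθ1 hθ2 => ?_⟩
  unfold stp SS
  rw [sum_sigma]
  refine sum_congr rfl fun n hn => ?_
  rw [mem_Ioc] at hn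
  have hN1 : 1 ≤ N := (le_max_right _ _).trans hN
  have hn1 : 1 ≤ n := by omega
  have hn0 : (0 : ℝ) < n := by exact_mod_cast hn1
  obtain ⟨h1, h2, _⟩ := hN0 N ((le_max_left _ _).trans hN) N N n le_rfl hn.1 (by omega) θ hθ1 hθ2
  have hy0 : 0 ≤ θ * (n : ℝ) ^ s := by
    have : 0 < θ := by linarith
    positivity
  set F : ℕ := ⌊θ * (n : ℝ) ^ s⌋₊ with hF
  have hF1 : (F : ℝ) ≤ θ * (n : ℝ) ^ s := Nat.floor_le hy0
  have hF2 : θ * (n : ℝ) ^ s < F + 1 := Nat.lt_floor_add_one _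
  have hfz : fz h θ s n = (n : ℤ) ^ 2 + h + F := rfl
  have h3 : (0 : ℤ) ≤ h + F := by
    have : (-1 : ℝ) < h + F := by linarith
    have : (-1 : ℤ) < h + F := by exact_mod_cast this
    omega
  have h4 : h + (F : ℤ) < 2 * n + 1 := by
    have : (h : ℝ) + F < 2 * n + 1 := by linarith
    exact_mod_cast this
  have hfz0 : 0 ≤ fz h θ s n := by
    rw [hfz]
    have : (0 : ℤ) ≤ (n : ℤ) ^ 2 := sq_nonneg _
    linarith
  set f : ℕ := (fz h θ s n).toNat with hf
  have hfc : (f : ℤ) = (n : ℤ) ^ 2 + h + F := by rw [hf, Int.toNat_of_nonneg hfz0, hfz]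
  have hfr : (f : ℝ) = (n : ℝ) ^ 2 + h + F := by exact_mod_cast hfc
  have hmem : f ∈ PB (n ^ 2 - 1) ((n + 1) ^ 2 - 1) ↔ f.Prime := by
    rw [mem_PB_sqrt hn1]
    constructor
    · exact fun h => h.1
    · intro hp
      refine ⟨hp, ?_⟩
      symm
      rw [Nat.eq_sqrt']
      constructor
      · have : (n : ℤ) ^ 2 ≤ f := by rw [hfc]; linarith
        exact_mod_cast this
      · have : (f : ℤ) < ((n : ℤ) + 1) ^ 2 := by rw [hfc]; nlinarith
        exact_mod_cast this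
  have hns : (0 : ℝ) < (n : ℝ) ^ s := by positivity
  have hind : ∀ p : ℕ, θ ∈ Set.Ico (ll h s ⟨n, p⟩) (rr h s ⟨n, p⟩) ↔ p = f := by
    intro p
    unfold ll rr
    simp only [Set.mem_Ico]
    rw [div_le_iff₀ hns, lt_div_iff₀ hns]
    constructor
    · rintro ⟨h5, h6⟩
      have h7 : (p : ℝ) < f + 1 := by linarith
      have h8 : (f : ℝ) < p + 1 := by linarith
      have h9 : p < f + 1 := by exact_mod_cast h7
      have h10 : f < p + 1 := by exact_mod_cast h8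
      omega
    · intro h5
      rw [h5]
      constructor <;> linarith
  have hterm : ∀ p ∈ PB (n ^ 2 - 1) ((n + 1) ^ 2 - 1),
      ww ⟨n, p⟩ * (Set.Ico (ll h s ⟨n, p⟩) (rr h s ⟨n, p⟩)).indicator (fun _ => (1 : ℝ)) θ =
        if p = f then 1 / (n : ℝ) else 0 := by
    intro p _
    by_cases hp : p = f
    · rw [if_pos hp, Set.indicator_of_mem ((hind p).2 hp)]
      simp [ww]
    · rw [if_neg hp, Set.indicator_of_notMem (fun h => hp ((hind p).1 h)), mul_zero]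
  rw [sum_congr rfl hterm, sum_ite_eq']
  by_cases hp : f.Prime
  · rw [if_pos (hmem.2 hp), if_pos hp]
  · rw [if_neg (fun h => hp (hmem.1 h)), if_neg hp]

/-- the integral of a step function -/
lemma stp_int {ι : Type*} (S : Finset ι) (w l r : ι → ℝ) (u v : ℝ) :
    ∫ θ in Set.Ico u v, stp S w l r θ =
      ∑ i ∈ S, w i * (volume (Set.Ico u v ∩ Set.Ico (l i) (r i))).toReal := by
  have hone : ∀ i ∈ S, ∫ θ in Set.Ico u v,
      w i * (Set.Ico (l i) (r i)).indicator (fun _ => (1 : ℝ)) θ =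
      w i * (volume (Set.Ico u v ∩ Set.Ico (l i) (r i))).toReal := by
    intro i _
    rw [integral_const_mul, setIntegral_indicator measurableSet_Ico]
    simp [Measure.real]
  rw [← sum_congr rfl hone, ← integral_finsetSum _ (fun i _ => ?_)]
  · rfl
  · refine int_of_bdd (a := u) (b := v) (B := |w i|)
      ((measurable_const.indicator measurableSet_Ico).const_mul _) ?_ _ subset_rfl
      measurableSet_Ico
    intro θ
    rw [abs_mul]
    have : |(Set.Ico (l i) (r i)).indicator (fun _ => (1 : ℝ)) θ| ≤ 1 := by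
      by_cases h : θ ∈ Set.Ico (l i) (r i)
      · rw [Set.indicator_of_mem h]; norm_num
      · rw [Set.indicator_of_notMem h]; norm_num
    have h3 : 0 ≤ |w i| := abs_nonneg _
    nlinarith

/-- the length of the intersection of two intervals, one of them of length `1 / g` -/
lemma overlap {u v g q : ℝ} (hg : 0 < g) (huv : u ≤ v) :
    |g * (volume (Set.Ico u v ∩ Set.Ico (q / g) ((q + 1) / g))).toReal -
      (if u * g ≤ q ∧ q < v * g then 1 else 0)| ≤
      (if u * g - 1 < q ∧ q < u * g then 1 else 0) + (if v * g - 1 < q ∧ q < v * g then 1 else 0) := by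
  rw [Set.Ico_inter_Ico, Real.volume_Ico, ENNReal.toReal_ofReal']
  have h1 : g * max (min v ((q + 1) / g) - max u (q / g)) 0 =
      max (min (v * g) (q + 1) - max (u * g) q) 0 := by
    rw [mul_max_of_nonneg _ _ hg.le, mul_sub, mul_zero, mul_min_of_nonneg _ _ hg.le,
      mul_max_of_nonneg _ _ hg.le, mul_comm g v, mul_comm g u, mul_div_cancel₀ _ hg.ne',
      mul_div_cancel₀ _ hg.ne']
  rw [h1]
  have huvg : u * g ≤ v * g := by gcongr
  generalize hU : u * g = U at *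
  generalize hV : v * g = V at *
  rcases le_or_gt U q with h2 | h2
  · rw [max_eq_right h2]
    rcases le_or_gt (q + 1) V with h3 | h3
    · rw [min_eq_right h3, if_pos ⟨h2, by linarith⟩]
      have : max (q + 1 - q) (0 : ℝ) = 1 := by rw [max_eq_left] <;> linarith
      rw [this, sub_self, abs_zero]
      split_ifs <;> norm_num
    · rw [min_eq_left h3.le]
      rcases lt_or_ge q V with h4 | h4
      · rw [if_pos ⟨h2, h4⟩, if_pos (show V - 1 < q ∧ q < V from ⟨by linarith, h4⟩),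
          max_eq_left (by linarith), abs_le]
        constructor <;> split_ifs <;> linarith
      · rw [if_neg (by intro h; linarith [h.2]), max_eq_right (by linarith), sub_zero, abs_zero]
        split_ifs <;> norm_num
  · rw [max_eq_left h2.le, if_neg (by intro h; linarith [h.1]), sub_zero]
    rcases le_or_gt (q + 1) U with h3 | h3
    · have : max (min V (q + 1) - U) (0 : ℝ) = 0 := by
        rw [max_eq_right]
        have := min_le_right V (q + 1)
        linarith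
      rw [this, abs_zero]
      split_ifs <;> norm_num
    · rw [if_pos (show U - 1 < q ∧ q < U from ⟨by linarith, h2⟩)]
      have h4 := min_le_right V (q + 1)
      have h5 : max (min V (q + 1) - U) (0 : ℝ) ≤ 1 := max_le (by linarith) (by norm_num)
      rw [abs_of_nonneg (le_max_right _ _)]
      split_ifs <;> linarith

/-- the measure of the parameters for a given `n` -/
lemma vn {s : ℝ} (h : ℤ) {n : ℕ} (hn : 1 ≤ n) {u v : ℝ} (huv : u ≤ v) :
    |(n : ℝ) ^ s * ∑ p ∈ PB (n ^ 2 - 1) ((n + 1) ^ 2 - 1),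
      (volume (Set.Ico u v ∩ Set.Ico (ll h s ⟨n, p⟩) (rr h s ⟨n, p⟩))).toReal - cn h s u v n| ≤ 2 := by
  classical
  have hn0 : (0 : ℝ) < n := by exact_mod_cast hn
  have hg : (0 : ℝ) < (n : ℝ) ^ s := by positivity
  set g := (n : ℝ) ^ s with hgdef
  set Q := PB (n ^ 2 - 1) ((n + 1) ^ 2 - 1) with hQ
  set q : ℕ → ℝ := fun p => (p : ℝ) - h - (n : ℝ) ^ 2 with hq
  have hcn : cn h s u v n = ∑ p ∈ Q, (if u * g ≤ q p ∧ q p < v * g then (1 : ℝ) else 0) := by
    unfold cn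
    rw [card_filter]
    push_cast
    refine sum_congr rfl fun p _ => ?_
    simp only [hq]
    congr 1
    simp only [eq_iff_iff]
    constructor
    · rintro ⟨h1, h2⟩
      exact ⟨by linarith, by linarith⟩
    · rintro ⟨h1, h2⟩
      exact ⟨by linarith, by linarith⟩
  have hone : ∀ c : ℝ, ∑ p ∈ Q, (if c - 1 < q p ∧ q p < c then (1 : ℝ) else 0) ≤ 1 := by
    intro c
    rw [← sum_filter, sum_const, nsmul_eq_mul, mul_one]
    have : (Q.filter (fun p => c - 1 < q p ∧ q p < c)).card ≤ 1 := by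
      rw [card_le_one]
      intro p hp p' hp'
      rw [mem_filter] at hp hp'
      simp only [hq] at hp hp'
      have h1 : (p : ℝ) < p' + 1 := by linarith [hp.2.2, hp'.2.1]
      have h2 : (p' : ℝ) < p + 1 := by linarith [hp.2.1, hp'.2.2]
      have h3 : p < p' + 1 := by exact_mod_cast h1
      have h4 : p' < p + 1 := by exact_mod_cast h2
      omega
    exact_mod_cast this
  rw [hcn, mul_sum, ← sum_sub_distrib]
  refine (abs_sum_le_sum_abs _ _).trans ?_
  calc _ ≤ ∑ p ∈ Q, ((if u * g - 1 < q p ∧ q p < u * g then (1 : ℝ) else 0) +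
        (if v * g - 1 < q p ∧ q p < v * g then (1 : ℝ) else 0)) := by
        refine sum_le_sum fun p _ => ?_
        exact overlap hg huv
    _ = ∑ p ∈ Q, (if u * g - 1 < q p ∧ q p < u * g then (1 : ℝ) else 0) +
        ∑ p ∈ Q, (if v * g - 1 < q p ∧ q p < v * g then (1 : ℝ) else 0) := sum_add_distrib
    _ ≤ 1 + 1 := add_le_add (hone _) (hone _)
    _ = 2 := by norm_num

/-- comparison of negative powers -/
lemma rpow_neg_gap2 {e x y : ℝ} (he : 1 ≤ e) (hx : 0 < x) (hxy : x ≤ y) :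
    |y ^ (-e) - x ^ (-e)| ≤ e * (y - x) * x ^ (-e - 1) := by
  have hy : 0 < y := by linarith
  have h1 : y ^ (-e) ≤ x ^ (-e) := Real.rpow_le_rpow_of_nonpos hx hxy (by linarith)
  rw [abs_sub_comm, abs_of_nonneg (by linarith)]
  set t : ℝ := (y - x) / y with ht
  have ht0 : 0 ≤ t := div_nonneg (by linarith) hy.le
  have ht1 : t < 1 := by rw [ht, div_lt_one hy]; linarith
  have h2 : 1 + e * (-t) ≤ (1 + (-t)) ^ e := one_add_mul_self_le_rpow_one_add (by linarith) he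
  have h3 : x = y * (1 + (-t)) := by rw [ht]; field_simp; ring
  have h4 : y ^ (-e) = x ^ (-e) * (1 + (-t)) ^ e := by
    have h5 : y = x * (1 + (-t))⁻¹ := by
      have : 1 + (-t) ≠ 0 := by linarith
      rw [h3]
      field_simp
    have h9 : ((1 + -t) ^ (-e))⁻¹ = (1 + -t) ^ e := by
      rw [Real.rpow_neg (by linarith), inv_inv]
    rw [h5, Real.mul_rpow hx.le (by
      rw [inv_nonneg]; linarith), Real.inv_rpow (by linarith), h9]
  rw [h4]
  have h6 : 0 < x ^ (-e) := by positivity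
  have h7 : x ^ (-e - 1) = x ^ (-e) / x := by rw [Real.rpow_sub hx, Real.rpow_one]
  rw [h7]
  have h8 : t ≤ (y - x) / x := by
    rw [ht]
    apply div_le_div_of_nonneg_left (by linarith) hx hxy
  calc x ^ (-e) - x ^ (-e) * (1 + (-t)) ^ e ≤ x ^ (-e) - x ^ (-e) * (1 + e * (-t)) := by gcongr
    _ = x ^ (-e) * (e * t) := by ring
    _ ≤ x ^ (-e) * (e * ((y - x) / x)) := by gcongr
    _ = _ := by ring

lemma sum_blocks (f : ℕ → ℝ) (M T k : ℕ) : ∑ n ∈ Ioc M (M + k * T), f n =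
    ∑ i ∈ range k, ∑ n ∈ Ioc (M + i * T) (M + i * T + T), f n := by
  induction k with
  | zero => simp
  | succ k ih =>
    rw [sum_range_succ, ← ih]
    have h1 : M + (k + 1) * T = M + k * T + T := by ring
    rw [h1]
    exact (sum_Ioc_consecutive f (by omega) (by omega)).symm

lemma PB_sum (g : ℕ → ℝ) (x y : ℕ) : ∑ p ∈ PB x y, g p = ∑ p ∈ Ioc x y, if p.Prime then g p else 0 := by
  unfold PB
  rw [sum_filter]

lemma PB_blocks (g : ℕ → ℝ) (M T k : ℕ) :
    ∑ p ∈ PB ((M + 1) ^ 2 - 1) ((M + k * T + 1) ^ 2 - 1), g p =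
    ∑ i ∈ range k, ∑ p ∈ PB ((M + i * T + 1) ^ 2 - 1) ((M + i * T + T + 1) ^ 2 - 1), g p := by
  simp only [PB_sum]
  induction k with
  | zero => simp
  | succ k ih =>
    rw [sum_range_succ, ← ih]
    have h1 : M + (k + 1) * T = M + k * T + T := by ring
    rw [h1]
    refine (sum_Ioc_consecutive _ ?_ ?_).symm
    · apply Nat.sub_le_sub_right
      exact Nat.pow_le_pow_left (by omega) 2
    · apply Nat.sub_le_sub_right
      exact Nat.pow_le_pow_left (by omega) 2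

/-- equidistribution of the square roots of the primes modulo one, in windows of length `X^(-τ)` -/
def EqQ (τ : ℝ) : Prop := ∃ κ : ℝ, 0 < κ ∧ ∃ X0 : ℕ, ∀ X X' : ℕ, X0 ≤ X → X ≤ X' → X' ≤ 2 * X →
  ∀ x y : ℝ, 0 ≤ x → x ≤ y → y ≤ 1 →
    |(((PB X X').filter (fun p : ℕ =>
      x ≤ Int.fract (√(p : ℝ)) ∧ Int.fract (√(p : ℝ)) < y)).card : ℝ) -
      (y - x) * ((PB X X').card : ℝ)| ≤ ((y - x) + (X : ℝ) ^ (-τ)) * (X : ℝ) ^ (1 - κ)

/-- half the sum of `1 / p` over the primes with `N < √p ≤ 2 N` -/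
noncomputable def mm (N : ℕ) : ℝ :=
  (∑ p ∈ PB ((N + 1) ^ 2 - 1) ((2 * N + 1) ^ 2 - 1), 1 / (p : ℝ)) / 2

/-- one block -/
theorem block2 {s a b : ℝ} (hs0 : 0 < s) (hs1 : s < 1) (ha : 0 < a) (hab : a ≤ b) (h : ℤ) :
    ∃ C : ℝ, 0 < C ∧ ∃ N0 : ℕ, ∀ N : ℕ, N0 ≤ N → ∀ M T : ℕ, N ≤ M → M + T ≤ 2 * N → 1 ≤ T →
      ∀ u v : ℝ, a ≤ u → u ≤ v → v ≤ b → ∀ E : ℝ, 0 ≤ E →
      (∀ x y : ℝ, 0 ≤ x → x ≤ y → y ≤ 1 → y - x ≤ C * (N : ℝ) ^ (s - 1) →
        |(((PB ((M + 1) ^ 2 - 1) ((M + T + 1) ^ 2 - 1)).filter (fun p : ℕ =>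
          x ≤ Int.fract (√(p : ℝ)) ∧ Int.fract (√(p : ℝ)) < y)).card : ℝ) -
          (y - x) * ((PB ((M + 1) ^ 2 - 1) ((M + T + 1) ^ 2 - 1)).card : ℝ)| ≤ E) →
      |∑ n ∈ Ioc M (M + T), (n : ℝ) ^ (-(1 + s)) * cn h s u v n -
        (v - u) / 2 * ∑ p ∈ PB ((M + 1) ^ 2 - 1) ((M + T + 1) ^ 2 - 1), 1 / (p : ℝ)| ≤
        C * ((T / N + (N : ℝ) ^ (-s)) / (N : ℝ) ^ 2 *
          ((PB ((M + 1) ^ 2 - 1) ((M + T + 1) ^ 2 - 1)).card : ℝ) + (N : ℝ) ^ (-(1 + s)) * E) := by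
  classical
  obtain ⟨C, hC, N0, hN0⟩ := block hs0 hs1 ha hab h
  refine ⟨7 * (b - a) + 1 + 5 * C + 5, by linarith, max N0 1, ?_⟩
  intro N hN M T hNM hMT hT u v hau huv hvb E hE hEq
  have hN1 : 1 ≤ N := (le_max_right _ _).trans hN
  have hCle : C * (N : ℝ) ^ (s - 1) ≤ (7 * (b - a) + 1 + 5 * C + 5) * (N : ℝ) ^ (s - 1) := by
    apply mul_le_mul_of_nonneg_right _ (by positivity)
    linarith
  have hblk := hN0 N ((le_max_left _ _).trans hN) M T hNM hT (by omega) u v hau huv hvb E hE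
    (fun x y h1 h2 h3 h4 => hEq x y h1 h2 h3 (h4.trans hCle))
  have hNr : (1 : ℝ) ≤ N := by exact_mod_cast hN1
  have hNpos : (0 : ℝ) < N := by linarith
  have hNMr : (N : ℝ) ≤ M := by exact_mod_cast hNM
  have hM0 : (0 : ℝ) < M := by linarith
  have hTr : (1 : ℝ) ≤ T := by exact_mod_cast hT
  have hMTr : (M : ℝ) + T ≤ 2 * N := by exact_mod_cast hMT
  have hTN : (T : ℝ) ≤ N := by linarith
  set Q := PB ((M + 1) ^ 2 - 1) ((M + T + 1) ^ 2 - 1) with hQ
  set D : ℝ := (Q.card : ℝ) with hD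
  have hD0 : 0 ≤ D := Nat.cast_nonneg _
  set Sc : ℝ := ∑ n ∈ Ioc M (M + T), cn h s u v n with hSc
  have hcn0 : ∀ n, 0 ≤ cn h s u v n := fun n => Nat.cast_nonneg _
  have hSc0 : 0 ≤ Sc := sum_nonneg fun n _ => hcn0 n
  have hvu : v - u ≤ b - a := by linarith
  have hvu0 : 0 ≤ v - u := by linarith
  have hba0 : 0 ≤ b - a := by linarith
  -- powers
  have p1 : (M : ℝ) ^ (s - 1) ≤ (N : ℝ) ^ (s - 1) := Real.rpow_le_rpow_of_nonpos hNpos hNMr (by linarith)
  have p2 : (M : ℝ) ^ (-(1 + s)) ≤ (N : ℝ) ^ (-(1 + s)) :=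
    Real.rpow_le_rpow_of_nonpos hNpos hNMr (by linarith)
  set g : ℝ := (N : ℝ) ^ (-s) with hg
  have hg0 : 0 < g := by positivity
  have hg1 : g ≤ 1 := Real.rpow_le_one_of_one_le_of_nonpos hNr (by linarith)
  have p3 : (N : ℝ) ^ (-(1 + s)) = g / N := by
    rw [hg, show -(1 + s) = -s - 1 by ring, Real.rpow_sub hNpos, Real.rpow_one]
  have p4 : (N : ℝ) ^ (s - 1) = 1 / (g * N) := by
    rw [hg, Real.rpow_sub hNpos, Real.rpow_one, Real.rpow_neg hNpos.le]
    field_simp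
  have p5 : (N : ℝ) ^ (s - 2) = 1 / (g * (N : ℝ) ^ 2) := by
    have : (N : ℝ) ^ (s - 2) = (N : ℝ) ^ (s - 1) / N := by
      rw [show s - 2 = s - 1 - 1 by ring, Real.rpow_sub hNpos, Real.rpow_one]
    rw [this, p4]
    field_simp
  set ρ : ℝ := C * (1 / N + (N : ℝ) ^ (s - 2) * T) with hρ
  have hρ0 : 0 ≤ ρ := by positivity
  have hρg : g * ρ = C * (g / N + T / (N : ℝ) ^ 2) := by
    rw [hρ, p5]
    field_simp
  have hρg2 : g / N * ρ = C * ((g + T / N) / (N : ℝ) ^ 2) := by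
    calc g / N * ρ = (g * ρ) / N := by ring
      _ = C * (g / N + T / (N : ℝ) ^ 2) / N := by rw [hρg]
      _ = _ := by field_simp
  have hScle : Sc ≤ (b - a) / (g * N) * D + ρ * D + E := by
    have h1 := (abs_le.1 hblk).2
    have h2 : (v - u) * (M : ℝ) ^ (s - 1) / 2 * D ≤ (b - a) / (g * N) * D := by
      apply mul_le_mul_of_nonneg_right _ hD0
      calc (v - u) * (M : ℝ) ^ (s - 1) / 2 ≤ (b - a) * (N : ℝ) ^ (s - 1) / 2 := by gcongr
        _ ≤ (b - a) * (N : ℝ) ^ (s - 1) := by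
            have : 0 ≤ (b - a) * (N : ℝ) ^ (s - 1) := by positivity
            linarith
        _ = _ := by rw [p4]; ring
    linarith
  -- (i) the weights
  have hi : |∑ n ∈ Ioc M (M + T), (n : ℝ) ^ (-(1 + s)) * cn h s u v n -
      (M : ℝ) ^ (-(1 + s)) * Sc| ≤ 2 * (T / N) * (g / N) * Sc := by
    rw [hSc, mul_sum, ← sum_sub_distrib, mul_sum]
    refine (abs_sum_le_sum_abs _ _).trans (sum_le_sum fun n hn => ?_)
    rw [mem_Ioc] at hn
    have h1 : (M : ℝ) ≤ n := by exact_mod_cast hn.1.le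
    have h2 := rpow_neg_gap2 (e := 1 + s) (by linarith) hM0 h1
    rw [← sub_mul, abs_mul, abs_of_nonneg (hcn0 n)]
    apply mul_le_mul_of_nonneg_right _ (hcn0 n)
    refine h2.trans ?_
    have h3 : (n : ℝ) - M ≤ T := by
      have : (n : ℝ) ≤ M + T := by exact_mod_cast hn.2
      linarith
    have h4 : (M : ℝ) ^ (-(1 + s) - 1) ≤ (N : ℝ) ^ (-(1 + s) - 1) :=
      Real.rpow_le_rpow_of_nonpos hNpos hNMr (by linarith)
    have h5 : (N : ℝ) ^ (-(1 + s) - 1) = g / N / N := by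
      rw [Real.rpow_sub hNpos, Real.rpow_one, p3]
    have h6 : 0 ≤ (n : ℝ) - M := by linarith
    calc (1 + s) * ((n : ℝ) - M) * (M : ℝ) ^ (-(1 + s) - 1) ≤ 2 * T * (g / N / N) := by
          rw [← h5]
          gcongr
          linarith
      _ = _ := by ring
  -- (ii) the block
  have hii : |(M : ℝ) ^ (-(1 + s)) * Sc - (v - u) / 2 * (1 / (M : ℝ) ^ 2 * D)| ≤
      g / N * (ρ * D + E) := by
    have h1 : (M : ℝ) ^ (-(1 + s)) * Sc - (v - u) / 2 * (1 / (M : ℝ) ^ 2 * D) =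
        (M : ℝ) ^ (-(1 + s)) * (Sc - (v - u) * (M : ℝ) ^ (s - 1) / 2 * D) := by
      have h2 : (M : ℝ) ^ (-(1 + s)) * (M : ℝ) ^ (s - 1) = 1 / (M : ℝ) ^ 2 := by
        rw [← Real.rpow_add hM0, show -(1 + s) + (s - 1) = -(2 : ℝ) by ring, Real.rpow_neg hM0.le,
          Real.rpow_two, one_div]
      rw [← h2]
      ring
    rw [h1, abs_mul, abs_of_nonneg (by positivity)]
    exact mul_le_mul (p2.trans (le_of_eq p3)) hblk (abs_nonneg _) (by positivity)
  -- (iii) the reciprocals of the primes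
  have hiii : |(v - u) / 2 * (1 / (M : ℝ) ^ 2 * D) - (v - u) / 2 * ∑ p ∈ Q, 1 / (p : ℝ)| ≤
      (b - a) * (4 * (T / N) / (N : ℝ) ^ 2 * D) := by
    rw [← mul_sub, abs_mul, abs_of_nonneg (by linarith)]
    have h1 : 1 / (M : ℝ) ^ 2 * D = ∑ p ∈ Q, 1 / (M : ℝ) ^ 2 := by
      rw [sum_const, nsmul_eq_mul, hD]
      ring
    have h2 : |1 / (M : ℝ) ^ 2 * D - ∑ p ∈ Q, 1 / (p : ℝ)| ≤ 8 * (T / N) / (N : ℝ) ^ 2 * D := by
      rw [h1, ← sum_sub_distrib]
      refine (abs_sum_le_sum_abs _ _).trans ?_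
      calc ∑ p ∈ Q, |1 / (M : ℝ) ^ 2 - 1 / (p : ℝ)| ≤ ∑ p ∈ Q, 8 * (T / N) / (N : ℝ) ^ 2 := by
            refine sum_le_sum fun p hp => ?_
            rw [hQ, PB, mem_filter, mem_Ioc] at hp
            have h3 : M ^ 2 ≤ p := by
              have : M ^ 2 ≤ (M + 1) ^ 2 - 1 := by
                have : (M + 1) ^ 2 = M ^ 2 + 2 * M + 1 := by ring
                omega
              omega
            have h4 : p ≤ (M + T + 1) ^ 2 := by omega
            have h3r : (M : ℝ) ^ 2 ≤ p := by exact_mod_cast h3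
            have h4r : (p : ℝ) ≤ ((M : ℝ) + T + 1) ^ 2 := by exact_mod_cast h4
            have hM2 : (0 : ℝ) < (M : ℝ) ^ 2 := by positivity
            have hp0 : (0 : ℝ) < p := by linarith
            have h5 : 1 / (M : ℝ) ^ 2 - 1 / (p : ℝ) = (p - (M : ℝ) ^ 2) / ((M : ℝ) ^ 2 * p) := by
              field_simp
            rw [h5, abs_of_nonneg (div_nonneg (by linarith) (by positivity))]
            have h6 : (p : ℝ) - (M : ℝ) ^ 2 ≤ 8 * T * M := by nlinarith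
            calc (p - (M : ℝ) ^ 2) / ((M : ℝ) ^ 2 * p) ≤ 8 * T * M / ((M : ℝ) ^ 2 * (M : ℝ) ^ 2) := by
                  gcongr
              _ = 8 * T / (M : ℝ) ^ 3 := by field_simp
              _ ≤ 8 * T / (N : ℝ) ^ 3 := by gcongr
              _ = _ := by field_simp
        _ = _ := by rw [sum_const, nsmul_eq_mul, hD]; ring
    calc (v - u) / 2 * |1 / (M : ℝ) ^ 2 * D - ∑ p ∈ Q, 1 / (p : ℝ)| ≤
          (b - a) / 2 * (8 * (T / N) / (N : ℝ) ^ 2 * D) := by gcongr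
      _ = _ := by ring
  have htot := abs_sub_le (∑ n ∈ Ioc M (M + T), (n : ℝ) ^ (-(1 + s)) * cn h s u v n)
    ((M : ℝ) ^ (-(1 + s)) * Sc) ((v - u) / 2 * ∑ p ∈ Q, 1 / (p : ℝ))
  have htot2 := abs_sub_le ((M : ℝ) ^ (-(1 + s)) * Sc) ((v - u) / 2 * (1 / (M : ℝ) ^ 2 * D))
    ((v - u) / 2 * ∑ p ∈ Q, 1 / (p : ℝ))
  have hx : 2 * (T / N) * (g / N) * Sc ≤ 2 * (T / N) * (g / N) * ((b - a) / (g * N) * D + ρ * D + E) := by
    gcongr
  have hTN1 : (T : ℝ) / N ≤ 1 := by rw [div_le_one hNpos]; exact hTN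
  have hTN0 : 0 ≤ (T : ℝ) / N := by positivity
  set τ : ℝ := (T : ℝ) / N with hτ
  set e2 : ℝ := D / (N : ℝ) ^ 2 with he2
  have he20 : 0 ≤ e2 := by positivity
  have hgE0 : 0 ≤ g / N * E := by positivity
  have y1 : 2 * τ * (g / N) * ((b - a) / (g * N) * D + ρ * D + E) =
      2 * τ * (b - a) * e2 + 2 * τ * (C * (g + τ)) * e2 + 2 * τ * (g / N * E) := by
    have z1 : (g / N) * ((b - a) / (g * N) * D) = (b - a) * e2 := by rw [he2]; field_simp
    have z2 : (g / N) * (ρ * D) = C * (g + τ) * e2 := by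
      rw [← mul_assoc, hρg2, he2]
      ring
    calc 2 * τ * (g / N) * ((b - a) / (g * N) * D + ρ * D + E) =
          2 * τ * ((g / N) * ((b - a) / (g * N) * D) + (g / N) * (ρ * D) + g / N * E) := by ring
      _ = _ := by rw [z1, z2]; ring
  have y2 : g / N * (ρ * D + E) = C * (g + τ) * e2 + g / N * E := by
    rw [mul_add, ← mul_assoc, hρg2, he2]
    ring
  have y3 : (b - a) * (4 * τ / (N : ℝ) ^ 2 * D) = 4 * τ * (b - a) * e2 := by rw [he2]; ring
  have y4 : (7 * (b - a) + 1 + 5 * C + 5) * ((τ + g) / (N : ℝ) ^ 2 * D + (N : ℝ) ^ (-(1 + s)) * E) =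
      (7 * (b - a) + 1 + 5 * C + 5) * ((τ + g) * e2) + (7 * (b - a) + 1 + 5 * C + 5) * (g / N * E) := by
    rw [p3, he2]
    ring
  rw [y4]
  have w1 : 2 * τ * (C * (g + τ)) * e2 ≤ 2 * (C * (g + τ)) * e2 := by
    have : 0 ≤ C * (g + τ) * e2 := by positivity
    nlinarith
  have w2 : 2 * τ * (g / N * E) ≤ 2 * (g / N * E) := by nlinarith
  have w3 : 0 ≤ (b - a) * (g * e2) := by positivity
  have w4 : 0 ≤ (b - a) * (τ * e2) := by positivity
  have w5 : 0 ≤ C * (g * e2) := by positivity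
  have w6 : 0 ≤ C * (τ * e2) := by positivity
  have w7 : 0 ≤ τ * e2 := by positivity
  have w8 : 0 ≤ g * e2 := by positivity
  have w9 : 0 ≤ (b - a) * (g / N * E) := by positivity
  have w10 : 0 ≤ C * (g / N * E) := by positivity
  rw [y1] at hx
  rw [y2] at hii
  rw [y3] at hiii
  nlinarith

end Pool.Agent.H2
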