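import Mathlib
import Pool.Agent.H2.Mean

/-!
The mean value over the parameter (helper2), second part.
-/

set_option autoImplicit false

namespace Pool.Agent.H2

open MeasureTheory Finset Filter Topology

/-- the number of the primes of an interval -/
lemma PB_card_le (x y : ℕ) : (PB x y).card ≤ y - x := by
  unfold PB
  exact (card_filter_le _ _).trans (by rw [Nat.card_Ioc])

/-- the integral in terms of the numbers `cn` -/
lemma int_cn {s : ℝ} (hs0 : 0 < s) (h : ℤ) {N : ℕ} (hN : 1 ≤ N) {u v : ℝ} (huv : u ≤ v) :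
    |(∫ θ in Set.Ico u v, stp (SS N) ww (ll h s) (rr h s) θ) -
      ∑ n ∈ Ioc N (2 * N), (n : ℝ) ^ (-(1 + s)) * cn h s u v n| ≤ 2 * (N : ℝ) ^ (-s) := by
  have hNr : (1 : ℝ) ≤ N := by exact_mod_cast hN
  have hNpos : (0 : ℝ) < N := by linarith
  rw [stp_int]
  unfold SS
  rw [sum_sigma, ← sum_sub_distrib]
  refine (abs_sum_le_sum_abs _ _).trans ?_
  have hone : ∀ n ∈ Ioc N (2 * N), |∑ p ∈ PB (n ^ 2 - 1) ((n + 1) ^ 2 - 1), ww ⟨n, p⟩ *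
      (volume (Set.Ico u v ∩ Set.Ico (ll h s ⟨n, p⟩) (rr h s ⟨n, p⟩))).toReal -
      (n : ℝ) ^ (-(1 + s)) * cn h s u v n| ≤ 2 * (N : ℝ) ^ (-(1 + s)) := by
    intro n hn
    rw [mem_Ioc] at hn
    have hn1 : 1 ≤ n := by omega
    have hn0 : (0 : ℝ) < n := by exact_mod_cast hn1
    have hNn : (N : ℝ) ≤ n := by exact_mod_cast hn.1.le
    have h1 := vn (s := s) h hn1 huv
    have h2 : (n : ℝ) ^ (-(1 + s)) * (n : ℝ) ^ s = 1 / n := by
      rw [← Real.rpow_add hn0, show -(1 + s) + s = (-1 : ℝ) by ring, Real.rpow_neg_one, one_div]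
    have h3 : ∑ p ∈ PB (n ^ 2 - 1) ((n + 1) ^ 2 - 1), ww ⟨n, p⟩ *
        (volume (Set.Ico u v ∩ Set.Ico (ll h s ⟨n, p⟩) (rr h s ⟨n, p⟩))).toReal =
        (n : ℝ) ^ (-(1 + s)) * ((n : ℝ) ^ s * ∑ p ∈ PB (n ^ 2 - 1) ((n + 1) ^ 2 - 1),
          (volume (Set.Ico u v ∩ Set.Ico (ll h s ⟨n, p⟩) (rr h s ⟨n, p⟩))).toReal) := by
      rw [← mul_assoc, h2, mul_sum]
      rfl
    rw [h3, ← mul_sub, abs_mul, abs_of_nonneg (by positivity)]
    have h4 : (n : ℝ) ^ (-(1 + s)) ≤ (N : ℝ) ^ (-(1 + s)) :=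
      Real.rpow_le_rpow_of_nonpos hNpos hNn (by linarith)
    calc (n : ℝ) ^ (-(1 + s)) * _ ≤ (N : ℝ) ^ (-(1 + s)) * 2 :=
          mul_le_mul h4 h1 (abs_nonneg _) (by positivity)
      _ = _ := by ring
  refine (sum_le_sum hone).trans ?_
  rw [sum_const, Nat.card_Ioc, nsmul_eq_mul]
  have h5 : ((2 * N - N : ℕ) : ℝ) = N := by
    have : 2 * N - N = N := by omega
    rw [this]
  have h6 : (N : ℝ) ^ (-(1 + s)) = (N : ℝ) ^ (-s) / N := by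
    rw [show -(1 + s) = -s - 1 by ring, Real.rpow_sub hNpos, Real.rpow_one]
  rw [h5, h6]
  apply le_of_eq
  field_simp

/-- **The mean value.** -/
theorem mean_bd {s a b τ : ℝ} (hs0 : 0 < s) (hs1 : s < 1) (ha : 0 < a) (hab : a ≤ b) (h : ℤ)
    (hτ : τ ≤ 1 / 2) (hsτ : 1 - s ≤ 2 * τ) (hEq : EqQ τ) :
    ∃ C : ℝ, 0 < C ∧ ∃ κ : ℝ, 0 < κ ∧ ∃ j0 : ℕ, ∀ j : ℕ, j0 ≤ j → ∀ u v : ℝ, a ≤ u → u ≤ v → v ≤ b →
      |∫ θ in Set.Ico u v, (stp (SS (2 ^ j)) ww (ll h s) (rr h s) θ - mm (2 ^ j))| ≤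
        C * (2 : ℝ) ^ (-(κ * j)) := by
  classical
  obtain ⟨C, hC, N0, hN0⟩ := block2 hs0 hs1 ha hab h
  obtain ⟨κ0, hκ0, X0, hX0⟩ := hEq
  set κ1 : ℝ := min κ0 (1 / 4) with hκ1
  have hκ1pos : 0 < κ1 := lt_min hκ0 (by norm_num)
  have hκ1le : κ1 ≤ κ0 := min_le_left _ _
  have hκ14 : κ1 ≤ 1 / 4 := min_le_right _ _
  set κ : ℝ := min κ1 s with hκ
  have hκpos : 0 < κ := lt_min hκ1pos hs0
  set e1 : ℝ := 1 - κ1 with he1
  have he10 : 0 ≤ e1 := by linarith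
  have he11 : e1 ≤ 1 := by linarith
  have hj8 : ∀ᶠ j : ℕ in atTop, (16 : ℝ) ≤ (2 : ℝ) ^ (κ1 * j) := by
    have h1 : Tendsto (fun j : ℕ => ((2 : ℝ) ^ κ1) ^ j) atTop atTop :=
      tendsto_pow_atTop_atTop_of_one_lt (Real.one_lt_rpow (by norm_num) hκ1pos)
    filter_upwards [h1.eventually_ge_atTop 16] with j hj
    rwa [Real.rpow_mul (by norm_num), Real.rpow_natCast]
  have hjN : ∀ᶠ j : ℕ in atTop, max N0 (max X0 1) ≤ 2 ^ j := by
    filter_upwards [eventually_ge_atTop (max N0 (max X0 1))] with j hj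
    exact hj.trans Nat.lt_two_pow_self.le
  obtain ⟨j0, hj0⟩ := eventually_atTop.1 (hj8.and hjN)
  refine ⟨2 + C * (18 + 8 * (C + 1)), by positivity, κ, hκpos, j0, ?_⟩
  intro j hj u v hau huv hvb
  obtain ⟨h16, hNj⟩ := hj0 j hj
  obtain ⟨N, hN⟩ : ∃ N, N = 2 ^ j := ⟨_, rfl⟩
  rw [← hN] at hNj ⊢
  have hNN0 : N0 ≤ N := (le_max_left _ _).trans hNj
  have hNX0 : X0 ≤ N := ((le_max_left _ _).trans (le_max_right _ _)).trans hNj
  have hN1 : 1 ≤ N := ((le_max_right _ _).trans (le_max_right _ _)).trans hNj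
  have hNr : (1 : ℝ) ≤ N := by exact_mod_cast hN1
  have hNpos : (0 : ℝ) < N := by linarith
  have hNpow : ∀ x : ℝ, (N : ℝ) ^ x = (2 : ℝ) ^ (x * j) := by
    intro x
    rw [hN]
    push_cast
    rw [← Real.rpow_natCast, ← Real.rpow_mul (by norm_num), mul_comm]
  -- the length of the blocks
  obtain ⟨t, ht⟩ : ∃ t, t = ⌊(1 - κ1) * j⌋₊ := ⟨_, rfl⟩
  have hj0r : (0 : ℝ) ≤ j := Nat.cast_nonneg _
  have ht1 : (t : ℝ) ≤ (1 - κ1) * j := by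
    rw [ht]
    exact Nat.floor_le (mul_nonneg (by linarith) hj0r)
  have ht2 : (1 - κ1) * j < t + 1 := by rw [ht]; exact Nat.lt_floor_add_one _
  have htj : t ≤ j := by
    have : (t : ℝ) ≤ j := by nlinarith
    exact_mod_cast this
  obtain ⟨T, hT⟩ : ∃ T, T = 2 ^ t := ⟨_, rfl⟩
  obtain ⟨k, hk⟩ : ∃ k, k = 2 ^ (j - t) := ⟨_, rfl⟩
  have hkT : k * T = N := by
    rw [hk, hT, hN, ← pow_add]
    congr 1
    omega
  have hT1 : 1 ≤ T := by rw [hT]; exact Nat.one_le_two_pow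
  have hTr1 : (1 : ℝ) ≤ T := by exact_mod_cast hT1
  have hTpos : (0 : ℝ) < T := by linarith
  have hTr : (T : ℝ) = (2 : ℝ) ^ (t : ℝ) := by rw [hT]; push_cast; rw [Real.rpow_natCast]
  have hTle : (T : ℝ) ≤ (N : ℝ) ^ (1 - κ1) := by
    rw [hTr, hNpow]
    exact Real.rpow_le_rpow_of_exponent_le (by norm_num) ht1
  have hTge : (N : ℝ) ^ (1 - κ1) ≤ 2 * T := by
    rw [hTr, hNpow]
    calc (2 : ℝ) ^ ((1 - κ1) * j) ≤ (2 : ℝ) ^ ((t : ℝ) + 1) :=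
          Real.rpow_le_rpow_of_exponent_le (by norm_num) ht2.le
      _ = 2 * (2 : ℝ) ^ (t : ℝ) := by rw [Real.rpow_add (by norm_num), Real.rpow_one]; ring
  have hN1κ : (N : ℝ) ^ (1 - κ1) = N * (N : ℝ) ^ (-κ1) := by
    rw [show 1 - κ1 = 1 + -κ1 by ring, Real.rpow_add hNpos, Real.rpow_one]
  have hTN : (T : ℝ) / N ≤ (N : ℝ) ^ (-κ1) := by
    rw [div_le_iff₀ hNpos, mul_comm, ← hN1κ]
    exact hTle
  have hNκ16 : (N : ℝ) ^ (-κ1) ≤ 1 / 16 := by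
    rw [Real.rpow_neg hNpos.le, one_div]
    apply inv_anti₀ (by norm_num)
    rw [hNpow]
    exact h16
  have hT16 : 16 * T ≤ N := by
    have h1 : (T : ℝ) / N ≤ 1 / 16 := hTN.trans hNκ16
    rw [div_le_iff₀ hNpos] at h1
    have : 16 * (T : ℝ) ≤ N := by linarith
    exact_mod_cast this
  set E : ℝ := 4 * (C + 1) * ((N : ℝ) ^ (s - 1) * (N : ℝ) ^ (2 * e1)) with hE
  have hE0 : 0 ≤ E := by positivity
  -- the blocks
  have hblk : ∀ i ∈ range k,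
      |∑ n ∈ Ioc (N + i * T) (N + i * T + T), (n : ℝ) ^ (-(1 + s)) * cn h s u v n -
        (v - u) / 2 * ∑ p ∈ PB ((N + i * T + 1) ^ 2 - 1) ((N + i * T + T + 1) ^ 2 - 1), 1 / (p : ℝ)| ≤
        C * ((T / N + (N : ℝ) ^ (-s)) / (N : ℝ) ^ 2 *
          ∑ p ∈ PB ((N + i * T + 1) ^ 2 - 1) ((N + i * T + T + 1) ^ 2 - 1), (1 : ℝ) +
          (N : ℝ) ^ (-(1 + s)) * E) := by
    intro i hi
    rw [mem_range] at hi
    have hiT : i * T + T ≤ N := by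
      calc i * T + T = (i + 1) * T := by ring
        _ ≤ k * T := Nat.mul_le_mul_right _ hi
        _ = N := hkT
    obtain ⟨M, hM⟩ : ∃ M, M = N + i * T := ⟨_, rfl⟩
    rw [← hM]
    have hNM : N ≤ M := by omega
    have hMT : M + T ≤ 2 * N := by omega
    have hcard : ∑ p ∈ PB ((M + 1) ^ 2 - 1) ((M + T + 1) ^ 2 - 1), (1 : ℝ) =
        ((PB ((M + 1) ^ 2 - 1) ((M + T + 1) ^ 2 - 1)).card : ℝ) := by
      rw [sum_const, nsmul_eq_mul, mul_one]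
    rw [hcard]
    refine hN0 N hNN0 M T hNM hMT hT1 u v hau huv hvb E hE0 ?_
    intro x y hx hxy hy hlen
    have hM1 : 1 ≤ M := hN1.trans hNM
    have e1' : (M + 1) ^ 2 = M ^ 2 + 2 * M + 1 := by ring
    have e2' : (M + T + 1) ^ 2 = M ^ 2 + 2 * M + 1 + T * (2 * M + T + 2) := by ring
    have e3' : T * (2 * M + T + 2) ≤ M ^ 2 := by
      have h16M : 16 * T ≤ M := hT16.trans hNM
      have h1 : 2 * M + T + 2 ≤ 5 * M := by omega
      calc T * (2 * M + T + 2) ≤ T * (5 * M) := Nat.mul_le_mul_left _ h1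
        _ = 5 * T * M := by ring
        _ ≤ M * M := Nat.mul_le_mul_right _ (by omega)
        _ = M ^ 2 := by ring
    have hXlow : N ≤ (M + 1) ^ 2 - 1 := by
      have : M ≤ M ^ 2 := Nat.le_self_pow (by norm_num) M
      omega
    have h1 := hX0 ((M + 1) ^ 2 - 1) ((M + T + 1) ^ 2 - 1) (hNX0.trans hXlow)
      (by omega) (by omega) x y hx hxy hy
    refine h1.trans ?_
    have hX1 : (1 : ℝ) ≤ (((M + 1) ^ 2 - 1 : ℕ) : ℝ) := by exact_mod_cast hN1.trans hXlow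
    have hXle : (((M + 1) ^ 2 - 1 : ℕ) : ℝ) ≤ 4 * (N : ℝ) ^ 2 := by
      have h2 : (M + 1) ^ 2 - 1 ≤ 4 * N ^ 2 := by
        have h3 : (M + 1) ^ 2 ≤ (2 * N) ^ 2 := Nat.pow_le_pow_left (by omega) 2
        have h4 : (2 * N) ^ 2 = 4 * N ^ 2 := by ring
        omega
      exact_mod_cast h2
    have hXge : (N : ℝ) ^ 2 ≤ (((M + 1) ^ 2 - 1 : ℕ) : ℝ) := by
      have h2 : N ^ 2 ≤ (M + 1) ^ 2 - 1 := by
        have h3 : N ^ 2 ≤ M ^ 2 := Nat.pow_le_pow_left hNM 2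
        omega
      exact_mod_cast h2
    have hfirst : (y - x) + (((M + 1) ^ 2 - 1 : ℕ) : ℝ) ^ (-τ) ≤ (C + 1) * (N : ℝ) ^ (s - 1) := by
      have h2 : (((M + 1) ^ 2 - 1 : ℕ) : ℝ) ^ (-τ) ≤ ((N : ℝ) ^ 2) ^ (-τ) :=
        Real.rpow_le_rpow_of_nonpos (by positivity) hXge (by linarith)
      have h3 : ((N : ℝ) ^ 2) ^ (-τ) ≤ (N : ℝ) ^ (s - 1) := by
        rw [← Real.rpow_natCast (N : ℝ) 2, ← Real.rpow_mul hNpos.le]
        apply Real.rpow_le_rpow_of_exponent_le hNr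
        push_cast
        linarith
      linarith
    have hsecond : (((M + 1) ^ 2 - 1 : ℕ) : ℝ) ^ (1 - κ0) ≤ 4 * (N : ℝ) ^ (2 * e1) := by
      calc (((M + 1) ^ 2 - 1 : ℕ) : ℝ) ^ (1 - κ0) ≤ (((M + 1) ^ 2 - 1 : ℕ) : ℝ) ^ e1 :=
            Real.rpow_le_rpow_of_exponent_le hX1 (by linarith)
        _ ≤ (4 * (N : ℝ) ^ 2) ^ e1 := Real.rpow_le_rpow (by positivity) hXle he10
        _ = 4 ^ e1 * (N : ℝ) ^ (2 * e1) := by
            rw [Real.mul_rpow (by norm_num) (by positivity), ← Real.rpow_natCast (N : ℝ) 2,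
              ← Real.rpow_mul hNpos.le]
            norm_num
        _ ≤ 4 ^ (1 : ℝ) * (N : ℝ) ^ (2 * e1) := by
            gcongr
            norm_num
        _ = 4 * (N : ℝ) ^ (2 * e1) := by rw [Real.rpow_one]
    calc _ ≤ ((C + 1) * (N : ℝ) ^ (s - 1)) * (4 * (N : ℝ) ^ (2 * e1)) :=
          mul_le_mul hfirst hsecond (by positivity) (by positivity)
      _ = E := by rw [hE]; ring
  -- the total
  have hsum1 : ∑ n ∈ Ioc N (2 * N), (n : ℝ) ^ (-(1 + s)) * cn h s u v n =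
      ∑ i ∈ range k, ∑ n ∈ Ioc (N + i * T) (N + i * T + T), (n : ℝ) ^ (-(1 + s)) * cn h s u v n := by
    rw [← sum_blocks, hkT]
    congr 2
    ring
  have hsum2 : (v - u) * mm N = ∑ i ∈ range k,
      (v - u) / 2 * ∑ p ∈ PB ((N + i * T + 1) ^ 2 - 1) ((N + i * T + T + 1) ^ 2 - 1), 1 / (p : ℝ) := by
    rw [← mul_sum, ← PB_blocks, hkT]
    unfold mm
    rw [← two_mul]
    ring
  have hsum3 : ∑ i ∈ range k,
      ∑ p ∈ PB ((N + i * T + 1) ^ 2 - 1) ((N + i * T + T + 1) ^ 2 - 1), (1 : ℝ) ≤ 9 * (N : ℝ) ^ 2 := by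
    rw [← PB_blocks, hkT, sum_const, nsmul_eq_mul, mul_one]
    have h1 := PB_card_le ((N + 1) ^ 2 - 1) ((N + N + 1) ^ 2 - 1)
    have h2 : (N + N + 1) ^ 2 - 1 - ((N + 1) ^ 2 - 1) ≤ 9 * N ^ 2 := by
      have h3 : (N + N + 1) ^ 2 ≤ (3 * N) ^ 2 := Nat.pow_le_pow_left (by omega) 2
      have h4 : (3 * N) ^ 2 = 9 * N ^ 2 := by ring
      omega
    exact_mod_cast h1.trans h2
  have hmain : |∑ n ∈ Ioc N (2 * N), (n : ℝ) ^ (-(1 + s)) * cn h s u v n - (v - u) * mm N| ≤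
      C * ((T / N + (N : ℝ) ^ (-s)) * 9 + k * ((N : ℝ) ^ (-(1 + s)) * E)) := by
    rw [hsum1, hsum2, ← sum_sub_distrib]
    refine (abs_sum_le_sum_abs _ _).trans ((sum_le_sum hblk).trans ?_)
    rw [← mul_sum, sum_add_distrib, ← mul_sum, sum_const, card_range, nsmul_eq_mul]
    apply mul_le_mul_of_nonneg_left _ hC.le
    apply add_le_add _ le_rfl
    calc (T / N + (N : ℝ) ^ (-s)) / (N : ℝ) ^ 2 * _ ≤
          (T / N + (N : ℝ) ^ (-s)) / (N : ℝ) ^ 2 * (9 * (N : ℝ) ^ 2) := by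
          apply mul_le_mul_of_nonneg_left hsum3 (by positivity)
      _ = _ := by field_simp
  have hkE : (k : ℝ) * ((N : ℝ) ^ (-(1 + s)) * E) ≤ 8 * (C + 1) * (N : ℝ) ^ (-κ1) := by
    have h1 : (k : ℝ) = N / T := by
      rw [eq_div_iff hTpos.ne']
      exact_mod_cast hkT
    have h2 : 1 / (T : ℝ) ≤ 2 * (N : ℝ) ^ (-(1 - κ1)) := by
      rw [Real.rpow_neg hNpos.le, div_le_iff₀ hTpos]
      have h3 : 0 < (N : ℝ) ^ (1 - κ1) := by positivity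
      calc (1 : ℝ) = ((N : ℝ) ^ (1 - κ1))⁻¹ * (N : ℝ) ^ (1 - κ1) := by field_simp
        _ ≤ ((N : ℝ) ^ (1 - κ1))⁻¹ * (2 * T) := by gcongr
        _ = _ := by ring
    calc (k : ℝ) * ((N : ℝ) ^ (-(1 + s)) * E) = N * (1 / T) * ((N : ℝ) ^ (-(1 + s)) * E) := by
          rw [h1]; ring
      _ ≤ N * (2 * (N : ℝ) ^ (-(1 - κ1))) * ((N : ℝ) ^ (-(1 + s)) *
            (4 * (C + 1) * ((N : ℝ) ^ (s - 1) * (N : ℝ) ^ (2 * e1)))) := by
          rw [hE]; gcongr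
      _ = 8 * (C + 1) * ((N : ℝ) ^ (1 : ℝ) * (N : ℝ) ^ (-(1 - κ1)) * (N : ℝ) ^ (-(1 + s)) *
            (N : ℝ) ^ (s - 1) * (N : ℝ) ^ (2 * e1)) := by rw [Real.rpow_one]; ring
      _ = 8 * (C + 1) * (N : ℝ) ^ (1 + -(1 - κ1) + -(1 + s) + (s - 1) + 2 * e1) := by
          rw [← Real.rpow_add hNpos, ← Real.rpow_add hNpos, ← Real.rpow_add hNpos,
            ← Real.rpow_add hNpos]
      _ ≤ 8 * (C + 1) * (N : ℝ) ^ (-κ1) := by
          apply mul_le_mul_of_nonneg_left _ (by positivity)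
          apply Real.rpow_le_rpow_of_exponent_le hNr
          linarith
  have hint : ∫ θ in Set.Ico u v, (stp (SS N) ww (ll h s) (rr h s) θ - mm N) =
      (∫ θ in Set.Ico u v, stp (SS N) ww (ll h s) (rr h s) θ) - (v - u) * mm N := by
    rw [integral_sub]
    · rw [setIntegral_const, Measure.real, Real.volume_Ico, ENNReal.toReal_ofReal (by linarith),
        smul_eq_mul]
    · exact int_of_bdd (stp_meas _ _ _ _) _ (stp_bdd _ _ _ _) _ subset_rfl measurableSet_Ico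
    · exact int_of_bdd (a := u) (b := v) measurable_const |mm N| (fun _ => le_rfl) _ subset_rfl
        measurableSet_Ico
  rw [hint]
  have hfin := abs_sub_le (∫ θ in Set.Ico u v, stp (SS N) ww (ll h s) (rr h s) θ)
    (∑ n ∈ Ioc N (2 * N), (n : ℝ) ^ (-(1 + s)) * cn h s u v n) ((v - u) * mm N)
  have hcn' := int_cn hs0 h hN1 huv
  have g1 : (N : ℝ) ^ (-κ1) ≤ (N : ℝ) ^ (-κ) :=
    Real.rpow_le_rpow_of_exponent_le hNr (by linarith [min_le_left κ1 s])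
  have g2 : (N : ℝ) ^ (-s) ≤ (N : ℝ) ^ (-κ) :=
    Real.rpow_le_rpow_of_exponent_le hNr (by linarith [min_le_right κ1 s])
  have g3 : (N : ℝ) ^ (-κ) = (2 : ℝ) ^ (-(κ * j)) := by
    rw [hNpow]
    congr 1
    ring
  rw [← g3]
  have g4 : C * ((T / N + (N : ℝ) ^ (-s)) * 9 + k * ((N : ℝ) ^ (-(1 + s)) * E)) ≤
      C * ((18 + 8 * (C + 1)) * (N : ℝ) ^ (-κ)) := by
    apply mul_le_mul_of_nonneg_left _ hC.le
    have g5 : 8 * (C + 1) * (N : ℝ) ^ (-κ1) ≤ 8 * (C + 1) * (N : ℝ) ^ (-κ) := by gcongr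
    linarith
  calc _ ≤ 2 * (N : ℝ) ^ (-s) + C * ((T / N + (N : ℝ) ^ (-s)) * 9 +
        k * ((N : ℝ) ^ (-(1 + s)) * E)) := by linarith
    _ ≤ 2 * (N : ℝ) ^ (-κ) + C * ((18 + 8 * (C + 1)) * (N : ℝ) ^ (-κ)) := by linarith
    _ = _ := by ring

end Pool.Agent.H2
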