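import Mathlib
import Pool.Agent.H2.Mean2
import Pool.Graph.R_seed8.Helper923.HMertens

/-!
The strong law for the primes `n ^ 2 + h + ⌊θ n ^ s⌋` (helper2).
-/

set_option autoImplicit false

namespace Pool.Agent.H2

open MeasureTheory Finset Filter Topology

/-- the weighted number of the primes `n ^ 2 + h + ⌊θ n ^ s⌋`, `n ≤ X` -/
noncomputable def FF (h : ℤ) (s θ : ℝ) (X : ℕ) : ℝ :=
  ∑ n ∈ Icc 1 X, if (fz h θ s n).toNat.Prime then 1 / (n : ℝ) else 0

lemma mm_nonneg (N : ℕ) : 0 ≤ mm N := by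
  unfold mm
  exact div_nonneg (sum_nonneg fun _ _ => by positivity) (by norm_num)

/-- the logarithm of `(2 ^ j + 1)² - 1` -/
lemma log_sq_bds {j : ℕ} (hj : 1 ≤ j) : 2 * (j * Real.log 2) ≤ Real.log (((2 ^ j + 1) ^ 2 - 1 : ℕ) : ℝ) ∧
    Real.log (((2 ^ j + 1) ^ 2 - 1 : ℕ) : ℝ) ≤ 2 * (j * Real.log 2) + 2 := by
  have h1 : 2 ^ (2 * j) ≤ (2 ^ j + 1) ^ 2 - 1 := by
    have e1 : (2 ^ j + 1) ^ 2 = 2 ^ (2 * j) + 2 * 2 ^ j + 1 := by rw [mul_comm 2 j, pow_mul]; ring
    omega
  have h2 : (2 ^ j + 1) ^ 2 - 1 ≤ 4 * 2 ^ (2 * j) := by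
    have e1 : (2 ^ j + 1) ^ 2 = 2 ^ (2 * j) + 2 * 2 ^ j + 1 := by rw [mul_comm 2 j, pow_mul]; ring
    have e2 : 2 ^ j ≤ 2 ^ (2 * j) := Nat.pow_le_pow_right (by norm_num) (by omega)
    omega
  have h3 : ((2 ^ (2 * j) : ℕ) : ℝ) ≤ (((2 ^ j + 1) ^ 2 - 1 : ℕ) : ℝ) := by exact_mod_cast h1
  have h4 : (((2 ^ j + 1) ^ 2 - 1 : ℕ) : ℝ) ≤ ((4 * 2 ^ (2 * j) : ℕ) : ℝ) := by exact_mod_cast h2
  have h5 : Real.log ((2 ^ (2 * j) : ℕ) : ℝ) = 2 * (j * Real.log 2) := by
    push_cast
    rw [Real.log_pow]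
    push_cast
    ring
  have h6 : Real.log ((4 * 2 ^ (2 * j) : ℕ) : ℝ) = Real.log 4 + 2 * (j * Real.log 2) := by
    push_cast
    rw [Real.log_mul (by norm_num) (by positivity), Real.log_pow]
    push_cast
    ring
  have h7 : Real.log 4 ≤ 2 := by
    rw [show (4 : ℝ) = 2 ^ 2 by norm_num, Real.log_pow]
    have := Real.log_two_lt_d9
    push_cast
    linarith
  have h8 : (0 : ℝ) < ((2 ^ (2 * j) : ℕ) : ℝ) := by positivity
  constructor
  · rw [← h5]
    exact Real.log_le_log h8 h3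
  · have := Real.log_le_log (h8.trans_le h3) h4
    linarith

/-- the mean values are at most `C / j` -/
lemma mm_le : ∃ C : ℝ, 0 < C ∧ ∀ j : ℕ, 1 ≤ j → mm (2 ^ j) ≤ C / j := by
  obtain ⟨C, hC, H⟩ := Pool.Agent.Helper923.HMertens.mertens_ratio
  have hl2 := Real.log_two_gt_d9
  refine ⟨4 + C, by linarith, fun j hj => ?_⟩
  have hj1 : (1 : ℝ) ≤ j := by exact_mod_cast hj
  have hjpos : (0 : ℝ) < j := by linarith
  obtain ⟨a1, a2⟩ := log_sq_bds hj
  obtain ⟨b1, b2⟩ := log_sq_bds (j := j + 1) (by omega)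
  set A : ℕ := (2 ^ j + 1) ^ 2 - 1 with hA
  set B : ℕ := (2 ^ (j + 1) + 1) ^ 2 - 1 with hB
  have hA2 : 2 ≤ A := by
    have h1 : 2 ^ 1 ≤ 2 ^ j := Nat.pow_le_pow_right (by norm_num) hj
    have h2 : 3 ^ 2 ≤ (2 ^ j + 1) ^ 2 := Nat.pow_le_pow_left (by omega) 2
    omega
  have hAB : A ≤ B := by
    apply Nat.sub_le_sub_right
    apply Nat.pow_le_pow_left
    have : 2 ^ j ≤ 2 ^ (j + 1) := Nat.pow_le_pow_right (by norm_num) (by omega)
    omega
  have h1 := H A B hA2 hAB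
  have h2 : mm (2 ^ j) = (∑ p ∈ (Finset.Ioc A B).filter Nat.Prime, (1 : ℝ) / p) / 2 := by
    unfold mm PB
    have e1 : 2 ^ (j + 1) = 2 * 2 ^ j := by rw [pow_succ, mul_comm]
    rw [hA, hB, e1]
  have hlogA : 0 < Real.log A := by nlinarith
  have h3 : Real.log B / Real.log A ≤ 1 + 4 / j := by
    rw [div_le_iff₀ hlogA]
    have h4 : Real.log B ≤ Real.log A + 4 := by
      push_cast at b2
      have := Real.log_two_lt_d9
      linarith
    have h5 : 4 ≤ 4 / (j : ℝ) * Real.log A := by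
      rw [div_mul_eq_mul_div, le_div_iff₀ hjpos]
      nlinarith
    linarith
  have hratio0 : 0 < Real.log B / Real.log A := by
    have : 0 < Real.log B := by
      push_cast at b1
      nlinarith
    positivity
  have h4 : Real.log (Real.log B / Real.log A) ≤ 4 / j := by
    have := Real.log_le_sub_one_of_pos hratio0
    linarith
  have h5 : C / Real.log A ≤ C / j := by
    apply div_le_div_of_nonneg_left hC hjpos
    nlinarith
  have h6 := (abs_le.1 h1).2
  rw [h2]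
  have h7 : (4 + C) / (j : ℝ) = 4 / j + C / j := by ring
  have h8 : 0 ≤ 4 / (j : ℝ) := by positivity
  have h9 : 0 ≤ C / (j : ℝ) := by positivity
  rw [h7]
  linarith

/-- the sum of the mean values -/
lemma mm_sum (j0 : ℕ) (hj0 : 1 ≤ j0) : ∃ C : ℝ, ∀ L : ℕ, j0 ≤ L →
    |∑ j ∈ Ico j0 L, mm (2 ^ j) - Real.log L / 2| ≤ C := by
  obtain ⟨C, hC, H⟩ := Pool.Agent.Helper923.HMertens.mertens_ratio
  have hl2 := Real.log_two_gt_d9
  have hl2' := Real.log_two_lt_d9
  obtain ⟨A, hA⟩ : ∃ A : ℕ, A = (2 ^ j0 + 1) ^ 2 - 1 := ⟨_, rfl⟩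
  obtain ⟨a1, a2⟩ := log_sq_bds hj0
  rw [← hA] at a1 a2
  have hA2 : 2 ≤ A := by
    have h1 : 2 ^ 1 ≤ 2 ^ j0 := Nat.pow_le_pow_right (by norm_num) hj0
    have h2 : 3 ^ 2 ≤ (2 ^ j0 + 1) ^ 2 := Nat.pow_le_pow_left (by omega) 2
    omega
  have hj0r : (1 : ℝ) ≤ j0 := by exact_mod_cast hj0
  have hlogA : 1 ≤ Real.log A := by nlinarith
  refine ⟨C + |Real.log (Real.log A)| + 2, fun L hL => ?_⟩
  have hL1 : 1 ≤ L := hj0.trans hL
  have hLr : (1 : ℝ) ≤ L := by exact_mod_cast hL1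
  obtain ⟨b1, b2⟩ := log_sq_bds hL1
  have htel : ∀ L : ℕ, j0 ≤ L → ∑ j ∈ Ico j0 L, mm (2 ^ j) =
      (∑ p ∈ PB ((2 ^ j0 + 1) ^ 2 - 1) ((2 ^ L + 1) ^ 2 - 1), 1 / (p : ℝ)) / 2 := by
    intro L hL
    induction L, hL using Nat.le_induction with
    | base => simp [PB]
    | succ L hL ih =>
      rw [sum_Ico_succ_top hL, ih]
      unfold mm
      rw [← add_div]
      congr 1
      simp only [PB_sum]
      have e1 : 2 ^ (L + 1) = 2 * 2 ^ L := by rw [pow_succ, mul_comm]
      rw [e1]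
      refine sum_Ioc_consecutive _ ?_ ?_
      · apply Nat.sub_le_sub_right
        apply Nat.pow_le_pow_left
        have : 2 ^ j0 ≤ 2 ^ L := Nat.pow_le_pow_right (by norm_num) hL
        omega
      · apply Nat.sub_le_sub_right
        apply Nat.pow_le_pow_left
        omega
  rw [htel L hL]
  obtain ⟨B, hB⟩ : ∃ B : ℕ, B = (2 ^ L + 1) ^ 2 - 1 := ⟨_, rfl⟩
  rw [← hB] at b1 b2 ⊢
  rw [← hA]
  have hAB : A ≤ B := by
    rw [hA, hB]
    apply Nat.sub_le_sub_right
    apply Nat.pow_le_pow_left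
    have : 2 ^ j0 ≤ 2 ^ L := Nat.pow_le_pow_right (by norm_num) hL
    omega
  have h1 := H A B hA2 hAB
  have hlogB : L ≤ Real.log B := by nlinarith
  have hlogB2 : Real.log B ≤ 4 * L := by nlinarith
  have hlogBpos : 0 < Real.log B := by linarith
  have h2 : Real.log (Real.log B / Real.log A) = Real.log (Real.log B) - Real.log (Real.log A) :=
    Real.log_div hlogBpos.ne' (by linarith)
  have h3 : Real.log L ≤ Real.log (Real.log B) := Real.log_le_log (by linarith) hlogB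
  have h4 : Real.log (Real.log B) ≤ Real.log L + 2 := by
    have h5 : Real.log (Real.log B) ≤ Real.log (4 * L) := Real.log_le_log hlogBpos hlogB2
    rw [Real.log_mul (by norm_num) (by linarith)] at h5
    have h6 : Real.log 4 ≤ 2 := by
      rw [show (4 : ℝ) = 2 ^ 2 by norm_num, Real.log_pow]
      push_cast
      linarith
    linarith
  rw [h2] at h1
  have h5 : C / Real.log A ≤ C := div_le_self hC hlogA
  have h6 := abs_le.1 h1
  have h7 := abs_le.1 (le_refl |Real.log (Real.log A)|)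
  change |(∑ p ∈ (Finset.Ioc A B).filter Nat.Prime, (1 : ℝ) / p) / 2 - Real.log L / 2| ≤ _
  rw [abs_le]
  constructor <;> linarith [h6.1, h6.2, h7.1, h7.2]

/-- the total weight of a scale -/
lemma ww_sum (N : ℕ) (hN : 1 ≤ N) : ∑ x ∈ SS N, ww x ≤ 3 * N := by
  unfold SS
  rw [sum_sigma]
  calc ∑ n ∈ Ioc N (2 * N), ∑ p ∈ PB (n ^ 2 - 1) ((n + 1) ^ 2 - 1), ww ⟨n, p⟩ ≤
        ∑ n ∈ Ioc N (2 * N), (3 : ℝ) := by
        refine sum_le_sum fun n hn => ?_
        rw [mem_Ioc] at hn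
        have hn1 : 1 ≤ n := by omega
        have hn1r : (1 : ℝ) ≤ n := by exact_mod_cast hn1
        unfold ww
        simp only
        rw [sum_const, nsmul_eq_mul]
        have h1 := PB_card_le (n ^ 2 - 1) ((n + 1) ^ 2 - 1)
        have h2 : (n + 1) ^ 2 - 1 - (n ^ 2 - 1) ≤ 3 * n := by
          have e1 : (n + 1) ^ 2 = n ^ 2 + 2 * n + 1 := by ring
          omega
        have h3 : ((PB (n ^ 2 - 1) ((n + 1) ^ 2 - 1)).card : ℝ) ≤ 3 * n := by
          exact_mod_cast h1.trans h2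
        rw [mul_one_div, div_le_iff₀ (by linarith)]
        exact h3
    _ = 3 * N := by
        rw [sum_const, Nat.card_Ioc, nsmul_eq_mul]
        have : 2 * N - N = N := by omega
        rw [this]
        ring

/-- the hypotheses of the strong law are satisfied -/
theorem sep {s a b τ : ℝ} (hs0 : 0 < s) (hs1 : s < 1) (ha : 0 < a) (hab : a < b) (h : ℤ)
    (hτ : τ ≤ 1 / 2) (hsτ : 1 - s ≤ 2 * τ) (hEq : EqQ τ) :
    ∃ (C κ : ℝ) (j0 : ℕ), Sep a b C 1 κ j0 (fun j => SS (2 ^ j)) (fun _ => ww) (fun _ => ll h s)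
      (fun _ => rr h s) (fun j => mm (2 ^ j)) ∧
      (∀ j, j0 ≤ j → ∀ θ : ℝ, a ≤ θ → θ ≤ b → stp (SS (2 ^ j)) ww (ll h s) (rr h s) θ =
        ∑ n ∈ Ioc (2 ^ j) (2 * 2 ^ j), if (fz h θ s n).toNat.Prime then 1 / (n : ℝ) else 0) := by
  classical
  obtain ⟨C1, hC1, κ, hκ, j1, h1⟩ := mean_bd hs0 hs1 ha hab.le h hτ hsτ hEq
  obtain ⟨C2, hC2, N2, h2⟩ := sieve_bd hs0 hs1 ha hab.le h
  obtain ⟨N3, h3⟩ := stp_eq hs0 hs1 ha hab.le h
  obtain ⟨C4, hC4, h4⟩ := mm_le
  set j0 : ℕ := max 1 (max j1 (max N2 N3)) with hj0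
  set C : ℝ := 3 + C1 + 2 * C2 + C4 with hC
  have hpow : ∀ j : ℕ, j ≤ 2 ^ j := fun j => Nat.lt_two_pow_self.le
  refine ⟨C, κ, j0, ?_, ?_⟩
  · refine ⟨hab, le_max_left _ _, by linarith, by norm_num, hκ, ?_, ?_, ?_, ?_, ?_⟩
    · intro j _ i _
      unfold ww
      positivity
    · intro j _
      have e1 := ww_sum (2 ^ j) Nat.one_le_two_pow
      refine e1.trans ?_
      rw [one_mul, Real.rpow_natCast]
      push_cast
      gcongr
      linarith
    · intro j hj θ hθ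
      have hj1 : 1 ≤ j := (le_max_left _ _).trans hj
      have hjr : (1 : ℝ) ≤ j := by exact_mod_cast hj1
      have hjN2 : N2 ≤ 2 ^ j :=
        (((le_max_left _ _).trans (le_max_right _ _)).trans (le_max_right _ _)).trans (hj.trans (hpow j))
      have hjN3 : N3 ≤ 2 ^ j :=
        (((le_max_right _ _).trans (le_max_right _ _)).trans (le_max_right _ _)).trans (hj.trans (hpow j))
      rw [h3 (2 ^ j) hjN3 θ hθ.1 hθ.2.le]
      have e1 := h2 (2 ^ j) hjN2 θ hθ.1 hθ.2.le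
      have hNpos : (0 : ℝ) < ((2 ^ j : ℕ) : ℝ) := by positivity
      have hlog : Real.log ((2 ^ j : ℕ) : ℝ) = j * Real.log 2 := by
        push_cast
        rw [Real.log_pow]
      have hl2 := Real.log_two_gt_d9
      calc ∑ n ∈ Ioc (2 ^ j) (2 * 2 ^ j), (if (fz h θ s n).toNat.Prime then 1 / (n : ℝ) else 0) ≤
            ∑ n ∈ Ioc (2 ^ j) (2 * 2 ^ j),
              (if (fz h θ s n).toNat.Prime then 1 / ((2 ^ j : ℕ) : ℝ) else 0) := by
            refine sum_le_sum fun n hn => ?_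
            rw [mem_Ioc] at hn
            have : ((2 ^ j : ℕ) : ℝ) ≤ n := by exact_mod_cast hn.1.le
            split_ifs
            · gcongr
            · exact le_rfl
        _ = (((Ioc (2 ^ j) (2 * 2 ^ j)).filter (fun n => (fz h θ s n).toNat.Prime)).card : ℝ) *
              (1 / ((2 ^ j : ℕ) : ℝ)) := by
            rw [← sum_filter, sum_const, nsmul_eq_mul]
        _ ≤ C2 * (((2 ^ j : ℕ) : ℝ) / Real.log ((2 ^ j : ℕ) : ℝ)) * (1 / ((2 ^ j : ℕ) : ℝ)) := by
            gcongr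
        _ = C2 / (j * Real.log 2) := by
            rw [hlog]
            field_simp
        _ ≤ 2 * C2 / j := by
            rw [div_le_div_iff₀ (by positivity) (by linarith)]
            have : 0 < C2 * j := by positivity
            nlinarith
        _ ≤ C / j := by
            gcongr
            linarith
    · intro j hj
      have hj1 : 1 ≤ j := (le_max_left _ _).trans hj
      have hjr : (1 : ℝ) ≤ j := by exact_mod_cast hj1
      rw [abs_of_nonneg (mm_nonneg _)]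
      refine (h4 j hj1).trans ?_
      gcongr
      linarith
    · intro j hj u v hau huv hvb
      have hj1 : j1 ≤ j := ((le_max_left _ _).trans (le_max_right _ _)).trans hj
      have e1 := h1 j hj1 u v hau huv hvb
      refine e1.trans ?_
      have e2 : C1 * (2 : ℝ) ^ (-(κ * j)) ≤ C * (2 : ℝ) ^ (-(κ * j)) := by
        gcongr
        linarith
      have e3 : 0 ≤ C * (v - u) / (j : ℝ) ^ 2 := by
        have : 0 ≤ v - u := by linarith
        positivity
      linarith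
  · intro j hj θ hθ1 hθ2
    have hjN3 : N3 ≤ 2 ^ j :=
      (((le_max_right _ _).trans (le_max_right _ _)).trans (le_max_right _ _)).trans (hj.trans (hpow j))
    exact h3 (2 ^ j) hjN3 θ hθ1 hθ2

/-- **The strong law for the primes `n ^ 2 + h + ⌊θ n ^ s⌋`**, on an interval of parameters -/
theorem law_interval1 {s a b τ : ℝ} (hs0 : 0 < s) (hs1 : s < 1) (ha : 0 < a) (hab : a < b) (h : ℤ)
    (hτ : τ ≤ 1 / 2) (hsτ : 1 - s ≤ 2 * τ) (hEq : EqQ τ) (ε : ℝ) (hε : 0 < ε) (hε2 : ε ≤ 1 / 3) :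
    ∀ᵐ θ ∂(volume.restrict (Set.Ico a b)), Tendsto (fun X : ℕ =>
      (FF h s θ X - Real.log (Real.log X) / 2) / Real.log (Real.log X) ^ (2 / 3 + ε)) atTop (𝓝 0) := by
  classical
  obtain ⟨C, κ, j0, hsep, hstp⟩ := sep hs0 hs1 ha hab h hτ hsτ hEq
  have hlln := lln hsep ε hε
  obtain ⟨C5, hC5⟩ := mm_sum j0 hsep.hj0
  have hC1 := hsep.C1
  have hmem : ∀ᵐ θ ∂(volume.restrict (Set.Ico a b)), θ ∈ Set.Ico a b :=
    ae_restrict_mem measurableSet_Ico
  filter_upwards [hlln, hmem] with θ hθ hθab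
  have hl2 := Real.log_two_gt_d9
  have hl2' := Real.log_two_lt_d9
  set S : ℕ → ℝ := fun L => ∑ j ∈ Ico j0 L, (stp (SS (2 ^ j)) ww (ll h s) (rr h s) θ - mm (2 ^ j))
    with hS
  set K : ℝ := FF h s θ (2 ^ j0) + C + |C5| + 2 with hK
  have hFF0 : ∀ X, 0 ≤ FF h s θ X := fun X => by
    unfold FF
    refine sum_nonneg fun n _ => ?_
    split_ifs <;> positivity
  have hK0 : 0 ≤ K := by
    have := hFF0 (2 ^ j0)
    have := abs_nonneg C5
    linarith
  -- the decomposition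
  have hsplit : ∀ L : ℕ, j0 ≤ L → FF h s θ (2 ^ L) = FF h s θ (2 ^ j0) + S L +
      ∑ j ∈ Ico j0 L, mm (2 ^ j) := by
    intro L hL
    have e1 : FF h s θ (2 ^ L) = FF h s θ (2 ^ j0) +
        ∑ j ∈ Ico j0 L, stp (SS (2 ^ j)) ww (ll h s) (rr h s) θ := by
      induction L, hL using Nat.le_induction with
      | base => simp
      | succ L hL ih =>
        rw [sum_Ico_succ_top hL, ← add_assoc, ← ih, hstp L hL θ hθab.1 hθab.2.le]
        unfold FF
        have e2 : ∀ n : ℕ, Icc 1 n = Ioc 0 n := by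
          intro n; ext k; rw [mem_Icc, mem_Ioc]; omega
        rw [e2, e2, pow_succ, mul_comm (2 ^ L) 2]
        exact (sum_Ioc_consecutive _ (Nat.zero_le _) (by omega)).symm
    rw [e1]
    simp only [hS]
    rw [sum_sub_distrib]
    ring
  have hL_top : Tendsto (fun X : ℕ => Nat.log 2 X) atTop atTop := by
    refine tendsto_atTop_mono' atTop (f₁ := fun X : ℕ => Nat.log 2 X) (Eventually.of_forall fun _ => le_rfl) ?_
    rw [tendsto_atTop_atTop]
    intro b
    refine ⟨2 ^ b, fun X hX => ?_⟩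
    calc b = Nat.log 2 (2 ^ b) := (Nat.log_pow (by norm_num) b).symm
      _ ≤ Nat.log 2 X := Nat.log_mono_right hX
  have hmaj : Tendsto (fun X : ℕ => 2 * |S (Nat.log 2 X) / Real.log (Nat.log 2 X : ℕ) ^ (2 / 3 + ε)| +
      2 * K / Real.log (Nat.log 2 X : ℕ) ^ (2 / 3 + ε)) atTop (𝓝 0) := by
    have g1 := (hθ.comp hL_top).abs
    rw [abs_zero] at g1
    have g2 : Tendsto (fun X : ℕ => 2 * K / Real.log (Nat.log 2 X : ℕ) ^ (2 / 3 + ε)) atTop (𝓝 0) := by
      apply Tendsto.div_atTop tendsto_const_nhds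
      refine (tendsto_rpow_atTop (by positivity)).comp ?_
      exact Real.tendsto_log_atTop.comp (tendsto_natCast_atTop_atTop.comp hL_top)
    have g3 := (g1.const_mul 2).add g2
    simpa [Function.comp_def, hS] using g3
  refine squeeze_zero_norm' ?_ hmaj
  filter_upwards [hL_top.eventually_ge_atTop (max j0 16), eventually_ge_atTop 1] with X hX hX1
  set L : ℕ := Nat.log 2 X with hLdef
  have hLj0 : j0 ≤ L := (le_max_left _ _).trans hX
  have hL16 : 16 ≤ L := (le_max_right _ _).trans hX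
  have hL16r : (16 : ℝ) ≤ L := by exact_mod_cast hL16
  have hX2 : 2 ^ L ≤ X := Nat.pow_log_le_self 2 (by omega)
  have hX3 : X < 2 ^ (L + 1) := Nat.lt_pow_succ_log_self (by norm_num) X
  have hX3' : X ≤ 2 * 2 ^ L := by rw [pow_succ, mul_comm] at hX3; omega
  -- monotonicity
  have hmono1 : FF h s θ (2 ^ L) ≤ FF h s θ X := by
    unfold FF
    apply sum_le_sum_of_subset_of_nonneg (Icc_subset_Icc_right hX2)
    intro n _ _
    split_ifs <;> positivity
  have hmono2 : FF h s θ X ≤ FF h s θ (2 ^ L) + C := by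
    have e1 : FF h s θ X ≤ FF h s θ (2 ^ (L + 1)) := by
      unfold FF
      apply sum_le_sum_of_subset_of_nonneg (Icc_subset_Icc_right hX3.le)
      intro n _ _
      split_ifs <;> positivity
    have e2 := hsplit L hLj0
    have e3 := hsplit (L + 1) (by omega)
    have e4 : S (L + 1) + ∑ j ∈ Ico j0 (L + 1), mm (2 ^ j) = S L + ∑ j ∈ Ico j0 L, mm (2 ^ j) +
        stp (SS (2 ^ L)) ww (ll h s) (rr h s) θ := by
      simp only [hS]
      rw [sum_Ico_succ_top hLj0, sum_Ico_succ_top hLj0]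
      ring
    have e5 := hsep.yb L hLj0 θ hθab
    have e6 : C / (L : ℝ) ≤ C := div_le_self (by linarith) (by linarith)
    linarith
  have hmmL := abs_le.1 (hC5 L hLj0)
  have hC5' := abs_le.1 (le_refl |C5|)
  -- the iterated logarithm
  have hXr : (1 : ℝ) ≤ X := by exact_mod_cast hX1
  have hlogX1 : (L : ℝ) * Real.log 2 ≤ Real.log X := by
    have e1 : Real.log ((2 : ℝ) ^ L) ≤ Real.log X := Real.log_le_log (by positivity) (by exact_mod_cast hX2)
    rwa [Real.log_pow] at e1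
  have hlogX2 : Real.log X ≤ ((L : ℝ) + 1) * Real.log 2 := by
    have e1 : Real.log X ≤ Real.log ((2 : ℝ) ^ (L + 1)) :=
      Real.log_le_log (by linarith) (by exact_mod_cast hX3.le)
    rw [Real.log_pow] at e1
    push_cast at e1
    exact e1
  have hlogX3 : Real.log X ≤ L := by nlinarith
  have hlogX4 : (L : ℝ) / 2 ≤ Real.log X := by nlinarith
  have hll1 : Real.log (Real.log X) ≤ Real.log L := Real.log_le_log (by linarith) hlogX3
  have hll2 : Real.log L - 1 ≤ Real.log (Real.log X) := by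
    have e1 : Real.log ((L : ℝ) / 2) ≤ Real.log (Real.log X) := Real.log_le_log (by linarith) hlogX4
    rw [Real.log_div (by linarith) (by norm_num)] at e1
    linarith
  have hlogL2 : 2 ≤ Real.log L := by
    have e1 : Real.log 16 ≤ Real.log L := Real.log_le_log (by norm_num) hL16r
    have e2 : Real.log 16 = 4 * Real.log 2 := by
      rw [show (16 : ℝ) = 2 ^ 4 by norm_num, Real.log_pow]
      push_cast
      ring
    linarith
  have hllpos : Real.log L / 2 ≤ Real.log (Real.log X) := by linarith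
  -- the numerator
  have hnum : |FF h s θ X - Real.log (Real.log X) / 2| ≤ |S L| + K := by
    have e2 := hsplit L hLj0
    have e3 := abs_le.1 (le_refl |S L|)
    have e4 := hFF0 (2 ^ j0)
    rw [abs_le]
    constructor <;> linarith [hmmL.1, hmmL.2, hC5'.1, hC5'.2, e3.1, e3.2]
  -- the denominator
  have hden : Real.log L ^ (2 / 3 + ε) / 2 ≤ Real.log (Real.log X) ^ (2 / 3 + ε) := by
    have e1 : (Real.log L / 2) ^ (2 / 3 + ε) ≤ Real.log (Real.log X) ^ (2 / 3 + ε) :=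
      Real.rpow_le_rpow (by linarith) hllpos (by linarith)
    refine le_trans ?_ e1
    rw [Real.div_rpow (by linarith) (by norm_num)]
    apply div_le_div_of_nonneg_left (by positivity) (by positivity)
    calc (2 : ℝ) ^ (2 / 3 + ε) ≤ 2 ^ (1 : ℝ) :=
          Real.rpow_le_rpow_of_exponent_le (by norm_num) (by linarith)
      _ = 2 := Real.rpow_one 2
  have hdpos : 0 < Real.log L ^ (2 / 3 + ε) := by
    have : 0 < Real.log L := by linarith
    positivity
  rw [Real.norm_eq_abs, abs_div, abs_of_nonneg (a := Real.log (Real.log X) ^ (2 / 3 + ε))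
    (by have : 0 ≤ Real.log (Real.log X) := by linarith
        positivity)]
  calc |FF h s θ X - Real.log (Real.log X) / 2| / Real.log (Real.log X) ^ (2 / 3 + ε) ≤
        (|S L| + K) / (Real.log L ^ (2 / 3 + ε) / 2) := by gcongr
    _ = _ := by
        rw [abs_div, abs_of_nonneg hdpos.le]
        field_simp

/-- **The strong law for the primes `n ^ 2 + h + ⌊θ n ^ s⌋`**, on an interval of parameters -/
theorem law_interval {s a b τ : ℝ} (hs0 : 0 < s) (hs1 : s < 1) (ha : 0 < a) (hab : a < b) (h : ℤ)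
    (hτ : τ ≤ 1 / 2) (hsτ : 1 - s ≤ 2 * τ) (hEq : EqQ τ) (ε : ℝ) (hε : 0 < ε) :
    ∀ᵐ θ ∂(volume.restrict (Set.Ico a b)), Tendsto (fun X : ℕ =>
      (FF h s θ X - Real.log (Real.log X) / 2) / Real.log (Real.log X) ^ (2 / 3 + ε)) atTop (𝓝 0) := by
  have h1 := law_interval1 hs0 hs1 ha hab h hτ hsτ hEq (min ε (1 / 3)) (lt_min hε (by norm_num))
    (min_le_right _ _)
  filter_upwards [h1] with θ hθ
  have h2 := hθ.norm
  rw [norm_zero] at h2
  refine squeeze_zero_norm' ?_ h2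
  have h3 : Tendsto (fun X : ℕ => Real.log (Real.log X)) atTop atTop :=
    Real.tendsto_log_atTop.comp (Real.tendsto_log_atTop.comp tendsto_natCast_atTop_atTop)
  filter_upwards [h3.eventually_ge_atTop 1] with X hX
  have h4 : Real.log (Real.log X) ^ (2 / 3 + min ε (1 / 3)) ≤ Real.log (Real.log X) ^ (2 / 3 + ε) :=
    Real.rpow_le_rpow_of_exponent_le hX (by linarith [min_le_left ε (1 / 3)])
  have h5 : 0 < Real.log (Real.log X) ^ (2 / 3 + min ε (1 / 3)) := by
    have : 0 < Real.log (Real.log X) := by linarith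
    positivity
  rw [Real.norm_eq_abs, Real.norm_eq_abs, abs_div, abs_div, abs_of_nonneg h5.le,
    abs_of_nonneg (h5.le.trans h4)]
  gcongr

end Pool.Agent.H2
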