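import Mathlib
import Pool.Agent.H2.Fin

/-!
The strong law for almost all parameters (helper2).
-/

set_option autoImplicit false

namespace Pool.Agent.H2

open MeasureTheory Finset Filter Topology

/-- the value of the perturbed quadratic polynomial, with the integral part -/
noncomputable def fq (h : ℤ) (θ δ : ℝ) (n : ℕ) : ℤ := (n : ℤ) ^ 2 + h + ⌊θ * (n : ℝ) ^ δ⌋

lemma fq_eq (h : ℤ) {θ : ℝ} (hθ : 0 < θ) (δ : ℝ) (n : ℕ) : fq h θ δ n = fz h θ δ n := by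
  unfold fq fz
  have h1 : 0 ≤ θ * (n : ℝ) ^ δ := by positivity
  rw [Int.natCast_floor_eq_floor h1]

/-- the law for almost all parameters -/
theorem law_all {δ τ : ℝ} (hδ0 : 0 < δ) (hδ1 : δ < 1) (hτ : τ ≤ 1 / 2) (hδτ : 1 - δ ≤ 2 * τ)
    (hEq : EqQ τ) :
    ∀ᵐ θ : ℝ, 0 < θ → ∀ h : ℤ, ∀ ε : ℝ, 0 < ε → Tendsto (fun X : ℕ =>
      ((∑ n ∈ Icc 1 X, if (fq h θ δ n).toNat.Prime then 1 / (n : ℝ) else 0) -
        Real.log (Real.log X) / 2) / Real.log (Real.log X) ^ (2 / 3 + ε)) atTop (𝓝 0) := by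
  have h1 : ∀ (k : ℕ) (h : ℤ) (j : ℕ), ∀ᵐ θ : ℝ, θ ∈ Set.Ico (1 / ((k : ℝ) + 2)) ((k : ℝ) + 2) →
      Tendsto (fun X : ℕ => (FF h δ θ X - Real.log (Real.log X) / 2) /
        Real.log (Real.log X) ^ (2 / 3 + 1 / ((j : ℝ) + 1))) atTop (𝓝 0) := by
    intro k h j
    have hk : (0 : ℝ) ≤ k := Nat.cast_nonneg _
    have h2 := law_interval (s := δ) (a := 1 / ((k : ℝ) + 2)) (b := (k : ℝ) + 2) hδ0 hδ1
      (by positivity) (by
        rw [div_lt_iff₀ (by positivity)]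
        nlinarith) h hτ hδτ hEq (1 / ((j : ℝ) + 1)) (by positivity)
    rwa [ae_restrict_iff' measurableSet_Ico] at h2
  have h2 : ∀ᵐ θ : ℝ, ∀ (k : ℕ) (h : ℤ) (j : ℕ), θ ∈ Set.Ico (1 / ((k : ℝ) + 2)) ((k : ℝ) + 2) →
      Tendsto (fun X : ℕ => (FF h δ θ X - Real.log (Real.log X) / 2) /
        Real.log (Real.log X) ^ (2 / 3 + 1 / ((j : ℝ) + 1))) atTop (𝓝 0) := by
    rw [ae_all_iff]
    intro k
    rw [ae_all_iff]
    intro h
    rw [ae_all_iff]
    intro j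
    exact h1 k h j
  filter_upwards [h2] with θ hθ hpos h ε hε
  obtain ⟨k, hk⟩ : ∃ k : ℕ, θ + 1 / θ < k := exists_nat_gt _
  obtain ⟨j, hj⟩ := exists_nat_one_div_lt hε
  have hinv : 0 < 1 / θ := by positivity
  have hmem : θ ∈ Set.Ico (1 / ((k : ℝ) + 2)) ((k : ℝ) + 2) := by
    constructor
    · rw [div_le_iff₀ (by positivity)]
      have h3 : 1 / θ ≤ (k : ℝ) + 2 := by linarith
      rw [div_le_iff₀ hpos] at h3
      linarith
    · linarith
  have h3 := (hθ k h j hmem).norm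
  rw [norm_zero] at h3
  refine squeeze_zero_norm' ?_ h3
  have h4 : Tendsto (fun X : ℕ => Real.log (Real.log X)) atTop atTop :=
    Real.tendsto_log_atTop.comp (Real.tendsto_log_atTop.comp tendsto_natCast_atTop_atTop)
  filter_upwards [h4.eventually_ge_atTop 1] with X hX
  have h5 : Real.log (Real.log X) ^ (2 / 3 + 1 / ((j : ℝ) + 1)) ≤ Real.log (Real.log X) ^ (2 / 3 + ε) :=
    Real.rpow_le_rpow_of_exponent_le hX (by linarith)
  have h6 : 0 < Real.log (Real.log X) ^ (2 / 3 + 1 / ((j : ℝ) + 1)) := by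
    have : 0 < Real.log (Real.log X) := by linarith
    positivity
  have h7 : (∑ n ∈ Icc 1 X, if (fq h θ δ n).toNat.Prime then 1 / (n : ℝ) else 0) = FF h δ θ X := by
    unfold FF
    refine sum_congr rfl fun n _ => ?_
    rw [fq_eq h hpos]
  rw [h7, Real.norm_eq_abs, Real.norm_eq_abs, abs_div, abs_div, abs_of_nonneg h6.le,
    abs_of_nonneg (h6.le.trans h5)]
  gcongr

end Pool.Agent.H2
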