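import Mathlib
import Pool.Graph.R_pool_sql_team_seeded_63374d34.N792.Defs

/-!
From triangle functions to arcs (helper2).
-/

set_option autoImplicit false

namespace Pool.Agent.H2

open Finset
open Pool.Agent.N792 (tri)

/-- the triangle function on the line -/
noncomputable def hat (M : ℕ) (u : ℝ) : ℝ := max 0 (1 - M * |u|)

lemma hat_nonneg (M : ℕ) (u : ℝ) : 0 ≤ hat M u := le_max_left _ _

lemma tri_ge {M : ℕ} (hM : 1 ≤ M) (θ : ℝ) (c : ℝ) :
    hat M (Int.fract θ - c) ≤ tri (1 / M) (θ - c) := by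
  have hM0 : (0 : ℝ) < M := by exact_mod_cast hM
  unfold hat tri
  have h1 := round_le (θ - c) ⌊θ⌋
  have h2 : θ - c - (⌊θ⌋ : ℝ) = Int.fract θ - c := by rw [Int.fract]; ring
  rw [h2] at h1
  apply max_le_max le_rfl
  have h3 : |θ - c - round (θ - c)| / (1 / M) = M * |θ - c - round (θ - c)| := by
    field_simp
  rw [h3]
  have h4 : (M : ℝ) * |θ - c - round (θ - c)| ≤ M * |Int.fract θ - c| := by gcongr
  linarith

lemma tri_le {M : ℕ} (hM : 1 ≤ M) (θ : ℝ) {j : ℤ} (hj1 : 1 ≤ j) (hj2 : j + 1 ≤ M) :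
    tri (1 / M) (θ - (j : ℝ) / M) ≤ hat M (Int.fract θ - (j : ℝ) / M) := by
  have hM0 : (0 : ℝ) < M := by exact_mod_cast hM
  set c : ℝ := (j : ℝ) / M with hc
  have hc1 : 1 / (M : ℝ) ≤ c := by
    rw [hc]
    have : (1 : ℝ) ≤ j := by exact_mod_cast hj1
    gcongr
  have hc2 : c ≤ 1 - 1 / M := by
    rw [hc, div_le_iff₀ hM0]
    have : (j : ℝ) + 1 ≤ M := by exact_mod_cast hj2
    field_simp
    linarith
  have h0 := Int.fract_nonneg θ
  have h1 := Int.fract_lt_one θ
  unfold hat tri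
  have h3 : |θ - c - round (θ - c)| / (1 / M) = M * |θ - c - round (θ - c)| := by
    field_simp
  rw [h3]
  by_cases h : round (θ - c) = ⌊θ⌋
  · rw [h]
    have h2 : θ - c - (⌊θ⌋ : ℝ) = Int.fract θ - c := by rw [Int.fract]; ring
    rw [h2]
  · have h4 : 1 / (M : ℝ) ≤ |θ - c - round (θ - c)| := by
      set k : ℤ := ⌊θ⌋ - round (θ - c) with hk
      have hk0 : k ≠ 0 := by
        rw [hk]
        intro h5
        apply h
        omega
      have h5 : θ - c - round (θ - c) = (Int.fract θ - c) + k := by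
        rw [hk, Int.fract]; push_cast; ring
      rw [h5]
      have hMi : 0 < 1 / (M : ℝ) := by positivity
      rcases lt_or_gt_of_ne hk0 with h6 | h6
      · have h7 : (k : ℝ) ≤ -1 := by
          have : k ≤ -1 := by omega
          exact_mod_cast this
        rw [abs_of_nonpos (by linarith)]
        linarith
      · have h7 : (1 : ℝ) ≤ k := by
          have : 1 ≤ k := by omega
          exact_mod_cast this
        refine le_trans ?_ (le_abs_self _)
        linarith
    have h5 : 1 ≤ (M : ℝ) * |θ - c - round (θ - c)| := by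
      rw [div_le_iff₀ hM0] at h4
      linarith
    rw [max_eq_left (by linarith)]
    exact le_max_left _ _

/-- the two triangle functions at a point -/
lemma hat_two {M : ℕ} (hM : 1 ≤ M) {t : ℝ} :
    hat M (t - (⌊t * M⌋ : ℤ) / M) + hat M (t - ((⌊t * M⌋ + 1 : ℤ) : ℝ) / M) = 1 := by
  have hM0 : (0 : ℝ) < M := by exact_mod_cast hM
  have h1 := Int.floor_le (t * M)
  have h2 := Int.lt_floor_add_one (t * M)
  set j : ℤ := ⌊t * M⌋ with hj
  have e1 : (M : ℝ) * |t - (j : ℝ) / M| = t * M - j := by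
    have h3 : t - (j : ℝ) / M = (t * M - j) / M := by field_simp
    rw [h3, abs_of_nonneg (div_nonneg (by linarith) hM0.le)]
    field_simp
  have e2 : (M : ℝ) * |t - ((j + 1 : ℤ) : ℝ) / M| = j + 1 - t * M := by
    have h3 : t - ((j + 1 : ℤ) : ℝ) / M = -((j + 1 - t * M) / M) := by push_cast; field_simp; ring
    rw [h3, abs_neg, abs_of_nonneg (div_nonneg (by linarith) hM0.le)]
    field_simp
  unfold hat
  rw [e1, e2, max_eq_right (by linarith), max_eq_right (by linarith)]
  ring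

lemma hat_ne {M : ℕ} (hM : 1 ≤ M) {t : ℝ} {j : ℤ} (h : hat M (t - (j : ℝ) / M) ≠ 0) :
    (j : ℝ) - 1 < t * M ∧ t * M < j + 1 := by
  have hM0 : (0 : ℝ) < M := by exact_mod_cast hM
  have h1 : 0 < 1 - M * |t - (j : ℝ) / M| := by
    by_contra h2
    push Not at h2
    apply h
    unfold hat
    exact max_eq_left h2
  have h2 : (M : ℝ) * |t - (j : ℝ) / M| = |t * M - j| := by
    have h3 : t * M - j = M * (t - (j : ℝ) / M) := by field_simp
    rw [h3, abs_mul, abs_of_pos hM0]
  rw [h2] at h1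
  have h3 : |t * M - j| < 1 := by linarith
  rw [abs_lt] at h3
  constructor <;> linarith [h3.1, h3.2]

/-- **arcs from triangle functions** -/
theorem arcs {ι : Type*} (s : Finset ι) (w θ : ι → ℝ) (hw : ∀ i ∈ s, 0 ≤ w i) (M : ℕ) (hM : 1 ≤ M)
    (Er : ℝ) (hEr : 0 ≤ Er)
    (h : ∀ c : ℝ, |∑ i ∈ s, w i * tri (1 / M) (θ i - c) - (1 / M) * ∑ i ∈ s, w i| ≤ Er)
    (x y : ℝ) (hx : 0 ≤ x) (hxy : x ≤ y) (hy : y ≤ 1) :
    |∑ i ∈ s.filter (fun i => x ≤ Int.fract (θ i) ∧ Int.fract (θ i) < y), w i -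
      (y - x) * ∑ i ∈ s, w i| ≤ 3 * (1 / M) * ∑ i ∈ s, w i + ((y - x) * M + 3) * Er := by
  classical
  have hM0 : (0 : ℝ) < M := by exact_mod_cast hM
  set W := ∑ i ∈ s, w i with hW
  have hW0 : 0 ≤ W := sum_nonneg hw
  rw [sum_filter]
  -- the upper bound
  set Jp : Finset ℤ := Icc (⌊x * M - 1⌋ + 1) (⌈y * M + 1⌉ - 1) with hJp
  have hJpc : (#Jp : ℝ) ≤ (y - x) * M + 3 := by
    rw [hJp, Int.card_Icc]
    have h1 := Int.lt_floor_add_one (x * M - 1)
    have h2 := Int.ceil_lt_add_one (y * M + 1)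
    have h3 : x * M - 1 < y * M + 1 := by nlinarith
    have h4 : ⌊x * M - 1⌋ + 1 ≤ ⌈y * M + 1⌉ := by
      have : ⌊x * M - 1⌋ < ⌈y * M + 1⌉ := by
        rw [Int.lt_ceil]
        exact lt_of_le_of_lt (Int.floor_le _) h3
      omega
    have h5 : (((⌈y * M + 1⌉ - 1 + 1 - (⌊x * M - 1⌋ + 1)).toNat : ℕ) : ℝ) =
        (⌈y * M + 1⌉ : ℝ) - (⌊x * M - 1⌋ + 1) := by
      have h6 : (((⌈y * M + 1⌉ - 1 + 1 - (⌊x * M - 1⌋ + 1)).toNat : ℕ) : ℤ) =
          ⌈y * M + 1⌉ - 1 + 1 - (⌊x * M - 1⌋ + 1) := Int.toNat_of_nonneg (by omega)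
      have h7 : (((⌈y * M + 1⌉ - 1 + 1 - (⌊x * M - 1⌋ + 1)).toNat : ℕ) : ℝ) =
          ((⌈y * M + 1⌉ - 1 + 1 - (⌊x * M - 1⌋ + 1) : ℤ) : ℝ) := by exact_mod_cast h6
      rw [h7]
      push_cast
      ring
    rw [h5]
    linarith
  have hup1 : ∀ i ∈ s, (if x ≤ Int.fract (θ i) ∧ Int.fract (θ i) < y then w i else 0) ≤
      ∑ j ∈ Jp, w i * tri (1 / M) (θ i - (j : ℝ) / M) := by
    intro i hi
    have hnn : ∀ j : ℤ, 0 ≤ tri (1 / M) (θ i - (j : ℝ) / M) := fun j => le_max_left _ _
    split_ifs with hc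
    · rw [← mul_sum]
      set t := Int.fract (θ i) with ht
      set j0 : ℤ := ⌊t * M⌋ with hj0
      have g1 := Int.floor_le (t * M)
      have g2 := Int.lt_floor_add_one (t * M)
      have hxt : x * M ≤ t * M := by gcongr; exact hc.1
      have hty : t * M < y * M := by
        apply mul_lt_mul_of_pos_right hc.2 hM0
      have hm1 : j0 ∈ Jp := by
        rw [hJp, mem_Icc]
        constructor
        · have : ⌊x * M - 1⌋ < j0 := by
            rw [Int.floor_lt]
            linarith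
          omega
        · have : j0 < ⌈y * M + 1⌉ := by
            rw [Int.lt_ceil]
            linarith
          omega
      have hm2 : j0 + 1 ∈ Jp := by
        rw [hJp, mem_Icc]
        constructor
        · have : ⌊x * M - 1⌋ < j0 + 1 := by
            rw [Int.floor_lt]
            push_cast
            linarith
          omega
        · have : j0 + 1 < ⌈y * M + 1⌉ := by
            rw [Int.lt_ceil]
            push_cast
            linarith
          omega
      have h1 : (1 : ℝ) ≤ ∑ j ∈ Jp, tri (1 / M) (θ i - (j : ℝ) / M) := by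
        calc (1 : ℝ) = hat M (t - (j0 : ℝ) / M) + hat M (t - ((j0 + 1 : ℤ) : ℝ) / M) :=
              (hat_two hM).symm
          _ ≤ tri (1 / M) (θ i - (j0 : ℝ) / M) + tri (1 / M) (θ i - ((j0 + 1 : ℤ) : ℝ) / M) :=
              add_le_add (tri_ge hM _ _) (tri_ge hM _ _)
          _ = ∑ j ∈ ({j0, j0 + 1} : Finset ℤ), tri (1 / M) (θ i - (j : ℝ) / M) := by
              rw [sum_pair (by omega)]
          _ ≤ _ := by
              apply sum_le_sum_of_subset_of_nonneg
              · intro j hj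
                rw [mem_insert, mem_singleton] at hj
                rcases hj with rfl | rfl
                · exact hm1
                · exact hm2
              · intro j _ _
                exact hnn j
      have := mul_le_mul_of_nonneg_left h1 (hw i hi)
      linarith
    · exact sum_nonneg fun j _ => mul_nonneg (hw i hi) (hnn j)
  have hup : ∑ i ∈ s, (if x ≤ Int.fract (θ i) ∧ Int.fract (θ i) < y then w i else 0) ≤
      ((y - x) * M + 3) * (1 / M * W + Er) := by
    calc _ ≤ ∑ i ∈ s, ∑ j ∈ Jp, w i * tri (1 / M) (θ i - (j : ℝ) / M) := sum_le_sum hup1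
      _ = ∑ j ∈ Jp, ∑ i ∈ s, w i * tri (1 / M) (θ i - (j : ℝ) / M) := sum_comm
      _ ≤ ∑ j ∈ Jp, (1 / M * W + Er) := by
          refine sum_le_sum fun j _ => ?_
          have := (abs_le.1 (h ((j : ℝ) / M))).2
          linarith
      _ = #Jp * (1 / M * W + Er) := by rw [sum_const, nsmul_eq_mul]
      _ ≤ _ := by gcongr
  -- the lower bound
  set Jm : Finset ℤ := Icc ⌈x * M + 1⌉ ⌊y * M - 1⌋ with hJm
  have hJmc : (y - x) * M - 3 ≤ (#Jm : ℝ) ∧ (#Jm : ℝ) ≤ (y - x) * M := by
    rw [hJm, Int.card_Icc]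
    have h1 := Int.ceil_lt_add_one (x * M + 1)
    have h2 := Int.lt_floor_add_one (y * M - 1)
    have h1' := Int.le_ceil (x * M + 1)
    have h2' := Int.floor_le (y * M - 1)
    have h3 : 0 ≤ (y - x) * M := mul_nonneg (by linarith) hM0.le
    constructor
    · have h4 : (⌊y * M - 1⌋ + 1 - ⌈x * M + 1⌉ : ℤ) ≤ (((⌊y * M - 1⌋ + 1 - ⌈x * M + 1⌉).toNat : ℕ) : ℤ) :=
        Int.self_le_toNat _
      have h5 : ((⌊y * M - 1⌋ + 1 - ⌈x * M + 1⌉ : ℤ) : ℝ) ≤ (((⌊y * M - 1⌋ + 1 - ⌈x * M + 1⌉).toNat : ℕ) : ℝ) := by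
        exact_mod_cast h4
      push_cast at h5
      linarith
    · rcases le_total (⌊y * M - 1⌋ + 1 - ⌈x * M + 1⌉) 0 with h4 | h4
      · rw [Int.toNat_of_nonpos h4]
        push_cast
        exact h3
      · have h6 : (((⌊y * M - 1⌋ + 1 - ⌈x * M + 1⌉).toNat : ℕ) : ℤ) = ⌊y * M - 1⌋ + 1 - ⌈x * M + 1⌉ :=
          Int.toNat_of_nonneg h4
        have h7 : (((⌊y * M - 1⌋ + 1 - ⌈x * M + 1⌉).toNat : ℕ) : ℝ) =
            ((⌊y * M - 1⌋ + 1 - ⌈x * M + 1⌉ : ℤ) : ℝ) := by exact_mod_cast h6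
        rw [h7]
        push_cast
        linarith
  have hlo1 : ∀ i ∈ s, ∑ j ∈ Jm, w i * tri (1 / M) (θ i - (j : ℝ) / M) ≤
      (if x ≤ Int.fract (θ i) ∧ Int.fract (θ i) < y then w i else 0) := by
    intro i hi
    rw [← mul_sum]
    set t := Int.fract (θ i) with ht
    have hjr : ∀ j ∈ Jm, 1 ≤ j ∧ j + 1 ≤ M ∧ x * M + 1 ≤ j ∧ (j : ℝ) ≤ y * M - 1 := by
      intro j hj
      rw [hJm, mem_Icc, Int.ceil_le, Int.le_floor] at hj
      refine ⟨?_, ?_, hj.1, hj.2⟩
      · have : (1 : ℝ) ≤ j := by nlinarith [hj.1]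
        exact_mod_cast this
      · have : (j : ℝ) + 1 ≤ M := by nlinarith [hj.2]
        exact_mod_cast this
    have h1 : ∑ j ∈ Jm, tri (1 / M) (θ i - (j : ℝ) / M) ≤ ∑ j ∈ Jm, hat M (t - (j : ℝ) / M) :=
      sum_le_sum fun j hj => tri_le hM _ (hjr j hj).1 (hjr j hj).2.1
    have h2 : ∑ j ∈ Jm, hat M (t - (j : ℝ) / M) ≤
        (if x ≤ t ∧ t < y then 1 else 0) := by
      split_ifs with hc
      · calc ∑ j ∈ Jm, hat M (t - (j : ℝ) / M) ≤
              ∑ j ∈ ({⌊t * M⌋, ⌊t * M⌋ + 1} : Finset ℤ), hat M (t - (j : ℝ) / M) := by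
              rw [← sum_filter_ne_zero (s := Jm)]
              apply sum_le_sum_of_subset_of_nonneg _ (fun j _ _ => hat_nonneg _ _)
              intro j hj
              rw [mem_filter] at hj
              obtain ⟨g1, g2⟩ := hat_ne hM hj.2
              rw [mem_insert, mem_singleton]
              have g3 : ⌊t * M⌋ < j + 1 := by
                rw [Int.floor_lt]
                push_cast
                exact g2
              have g4 : j - 1 ≤ ⌊t * M⌋ := by
                rw [Int.le_floor]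
                push_cast
                exact g1.le
              omega
          _ = 1 := by
              rw [sum_pair (by omega)]
              exact hat_two hM
      · apply le_of_eq
        apply sum_eq_zero
        intro j hj
        by_contra hne
        obtain ⟨g1, g2⟩ := hat_ne hM hne
        obtain ⟨_, _, g3, g4⟩ := hjr j hj
        apply hc
        constructor
        · have : x * M ≤ t * M := by linarith
          exact le_of_mul_le_mul_right this hM0
        · have : t * M < y * M := by linarith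
          exact lt_of_mul_lt_mul_right this hM0.le
    have h3 := mul_le_mul_of_nonneg_left (h1.trans h2) (hw i hi)
    refine h3.trans (le_of_eq ?_)
    split_ifs <;> simp
  have hlo : ((y - x) * M - 3) * (1 / M * W) - (y - x) * M * Er ≤
      ∑ i ∈ s, (if x ≤ Int.fract (θ i) ∧ Int.fract (θ i) < y then w i else 0) := by
    calc _ ≤ (#Jm : ℝ) * (1 / M * W) - (#Jm : ℝ) * Er := by
          have h1 : ((y - x) * M - 3) * (1 / M * W) ≤ (#Jm : ℝ) * (1 / M * W) :=
            mul_le_mul_of_nonneg_right hJmc.1 (by positivity)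
          have h2 : (#Jm : ℝ) * Er ≤ (y - x) * M * Er := mul_le_mul_of_nonneg_right hJmc.2 hEr
          linarith
      _ = ∑ j ∈ Jm, (1 / M * W - Er) := by rw [sum_const, nsmul_eq_mul]; ring
      _ ≤ ∑ j ∈ Jm, ∑ i ∈ s, w i * tri (1 / M) (θ i - (j : ℝ) / M) := by
          refine sum_le_sum fun j _ => ?_
          have := (abs_le.1 (h ((j : ℝ) / M))).1
          linarith
      _ = ∑ i ∈ s, ∑ j ∈ Jm, w i * tri (1 / M) (θ i - (j : ℝ) / M) := sum_comm
      _ ≤ _ := sum_le_sum hlo1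
  have e1 : ((y - x) * M + 3) * (1 / M * W + Er) =
      (y - x) * W + (3 * (1 / M) * W + ((y - x) * M + 3) * Er) := by
    field_simp
    ring
  have e2 : ((y - x) * M - 3) * (1 / M * W) - (y - x) * M * Er =
      (y - x) * W - (3 * (1 / M) * W + (y - x) * M * Er) := by
    field_simp
    ring
  rw [e1] at hup
  rw [e2] at hlo
  rw [abs_le]
  constructor
  · have : ((y - x) * M + 3) * Er = (y - x) * M * Er + 3 * Er := by ring
    linarith
  · linarith

end Pool.Agent.H2
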