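import Mathlib
import Pool.Graph.R_pool_sql_team_seeded_63374d34.N792.QA

/-!
The spacing of the numbers `h √m` (helper2).
-/

set_option autoImplicit false

namespace Pool.Agent.H2

open Finset
open Pool.Agent.N792.QA (card_class_le SK SH fiber_le gcd_sum)

lemma SK_one (K : ℕ) : SK 1 K 0 = Ioc K (2 * K) := by
  unfold SK
  rw [filter_true_of_mem]
  intro x _
  exact Nat.modEq_one

lemma SH_one (H : ℕ) : SH 1 H 0 = Ico H (2 * H) := by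
  unfold SH
  rw [filter_true_of_mem]
  intro x _
  exact Nat.modEq_one

/-- the number of pairs of variables for one pair of frequencies -/
theorem nn_le {H M h h1 : ℕ} {Δ : ℝ} (hΔ : 0 ≤ Δ) (hH0 : 1 ≤ H) (hh : H ≤ h) (hh1 : H ≤ h1) :
    (#((Ioc M (2 * M) ×ˢ Ioc M (2 * M)).filter (fun v : ℕ × ℕ =>
      |(h : ℝ) ^ 2 * v.1 - (h1 : ℝ) ^ 2 * v.2| ≤ Δ)) : ℝ) ≤
      (2 * Δ / (Nat.gcd h h1 : ℝ) ^ 2 + 1) * (M * (Nat.gcd h h1 : ℝ) ^ 2 / (H : ℝ) ^ 2 + 1) := by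
  have hh0 : 0 < h := by omega
  have hh10 : 0 < h1 := by omega
  set g := Nat.gcd h h1 with hg
  have hg0 : 0 < g := Nat.gcd_pos_of_pos_left _ hh0
  set A := (Ioc M (2 * M) ×ˢ Ioc M (2 * M)).filter (fun v : ℕ × ℕ =>
      |(h : ℝ) ^ 2 * v.1 - (h1 : ℝ) ^ 2 * v.2| ≤ Δ) with hA
  set f : ℕ × ℕ → ℤ := fun v => (h : ℤ) ^ 2 * (v.1 : ℤ) - (h1 : ℤ) ^ 2 * (v.2 : ℤ) with hf
  have hsub : A ⊆ SK 1 M 0 ×ˢ SK 1 M 0 := by
    rw [SK_one]
    exact filter_subset _ _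
  have hfr : ∀ v, ((f v : ℤ) : ℝ) = (h : ℝ) ^ 2 * v.1 - (h1 : ℝ) ^ 2 * v.2 := by
    intro v
    simp only [hf]
    push_cast
    ring
  -- the number of values
  have hval : (#(A.image f) : ℝ) ≤ 2 * Δ / (g : ℝ) ^ 2 + 1 := by
    have := card_class_le (A.image f) (g ^ 2) (by positivity) (2 * Δ) (by positivity) (by
        intro x hx y hy
        rw [mem_image] at hx hy
        obtain ⟨v, hv, rfl⟩ := hx
        obtain ⟨w, hw, rfl⟩ := hy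
        constructor
        · obtain ⟨a', ha'⟩ := Nat.gcd_dvd_left h h1
          obtain ⟨b', hb'⟩ := Nat.gcd_dvd_right h h1
          rw [← hg] at ha' hb'
          refine ⟨(a' : ℤ) ^ 2 * ((v.1 : ℤ) - w.1) - (b' : ℤ) ^ 2 * ((v.2 : ℤ) - w.2), ?_⟩
          have e1 : f v - f w = (h : ℤ) ^ 2 * ((v.1 : ℤ) - w.1) - (h1 : ℤ) ^ 2 * ((v.2 : ℤ) - w.2) := by
            simp only [hf]; ring
          rw [e1, ha', hb']
          push_cast
          ring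
        · have h1' := (mem_filter.1 hv).2
          have h2' := (mem_filter.1 hw).2
          rw [← hfr, abs_le] at h1' h2'
          push_cast
          linarith [h1'.2, h2'.1])
    refine this.trans (le_of_eq ?_)
    push_cast
    ring
  -- the fibers
  have hfib : ∀ D ∈ A.image f, (#(A.filter (fun v => f v = D)) : ℝ) ≤
      M * (g : ℝ) ^ 2 / (H : ℝ) ^ 2 + 1 := by
    intro D _
    have h1' := fiber_le (q := 1) (K := M) (r := 0) (h := h) (h1 := h1) one_pos hh10 hh0 D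
      (A.filter (fun v => f v = D)) ((filter_subset _ _).trans hsub)
      (fun v hv => (mem_filter.1 hv).2)
    refine h1'.trans ?_
    have h2' : (M : ℝ) / ((1 * (h1 / Nat.gcd h h1) ^ 2 : ℕ) : ℝ) ≤
        M * (g : ℝ) ^ 2 / (H : ℝ) ^ 2 := by
      rw [← hg]
      have e1 : ((h1 / g : ℕ) : ℝ) = (h1 : ℝ) / g := by
        rw [Nat.cast_div (Nat.gcd_dvd_right h h1) (by positivity)]
      push_cast
      rw [e1]
      have hg0' : (0 : ℝ) < g := by exact_mod_cast hg0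
      have hh1' : (0 : ℝ) < h1 := by exact_mod_cast hh10
      have hH' : (0 : ℝ) < H := by exact_mod_cast hH0
      have e2 : (M : ℝ) / (1 * ((h1 : ℝ) / g) ^ 2) = M * (g : ℝ) ^ 2 / (h1 : ℝ) ^ 2 := by
        field_simp
      rw [e2]
      apply div_le_div_of_nonneg_left (by positivity) (by positivity)
      have : (H : ℝ) ≤ h1 := by exact_mod_cast hh1
      gcongr
    linarith
  have hsum : (#A : ℝ) = ∑ D ∈ A.image f, (#(A.filter (fun v => f v = D)) : ℝ) := by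
    exact_mod_cast Finset.card_eq_sum_card_image f A
  rw [hsum]
  refine (sum_le_sum hfib).trans ?_
  rw [sum_const, nsmul_eq_mul]
  exact mul_le_mul_of_nonneg_right hval (by positivity)

/-- the number of the quadruples -/
theorem spc {H M : ℕ} {Δ : ℝ} (hH : 1 ≤ H) (hΔ : 0 ≤ Δ) :
    (#(((Ico H (2 * H) ×ˢ Ioc M (2 * M)) ×ˢ (Ico H (2 * H) ×ˢ Ioc M (2 * M))).filter
      (fun v : (ℕ × ℕ) × (ℕ × ℕ) => |(v.1.1 : ℝ) ^ 2 * v.1.2 - (v.2.1 : ℝ) ^ 2 * v.2.2| ≤ Δ)) : ℝ) ≤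
      2 * Δ * M + 2 * Δ * (H : ℝ) ^ 2 + 16 * H * M + (H : ℝ) ^ 2 := by
  classical
  have hH0 : (0 : ℝ) < H := by exact_mod_cast hH
  set P := Ico H (2 * H) ×ˢ Ico H (2 * H) with hP
  have h1 : (#(((Ico H (2 * H) ×ˢ Ioc M (2 * M)) ×ˢ (Ico H (2 * H) ×ˢ Ioc M (2 * M))).filter
      (fun v : (ℕ × ℕ) × (ℕ × ℕ) => |(v.1.1 : ℝ) ^ 2 * v.1.2 - (v.2.1 : ℝ) ^ 2 * v.2.2| ≤ Δ)) : ℝ) ≤
      ∑ p ∈ P, (#((Ioc M (2 * M) ×ˢ Ioc M (2 * M)).filter (fun v : ℕ × ℕ =>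
        |(p.1 : ℝ) ^ 2 * v.1 - (p.2 : ℝ) ^ 2 * v.2| ≤ Δ)) : ℝ) := by
    rw [card_eq_sum_card_fiberwise (f := fun v : (ℕ × ℕ) × (ℕ × ℕ) => (v.1.1, v.2.1)) (t := P)]
    · push_cast
      refine sum_le_sum fun p _ => ?_
      have h2 : #((((Ico H (2 * H) ×ˢ Ioc M (2 * M)) ×ˢ (Ico H (2 * H) ×ˢ Ioc M (2 * M))).filter
          (fun v : (ℕ × ℕ) × (ℕ × ℕ) => |(v.1.1 : ℝ) ^ 2 * v.1.2 - (v.2.1 : ℝ) ^ 2 * v.2.2| ≤ Δ)).filter
          (fun v => (v.1.1, v.2.1) = p)) ≤ #((Ioc M (2 * M) ×ˢ Ioc M (2 * M)).filter (fun v : ℕ × ℕ =>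
            |(p.1 : ℝ) ^ 2 * v.1 - (p.2 : ℝ) ^ 2 * v.2| ≤ Δ)) := by
        apply card_le_card_of_injOn (fun v => (v.1.2, v.2.2))
        · intro v hv
          rw [mem_coe, mem_filter, mem_filter, mem_product, mem_product, mem_product] at hv
          obtain ⟨⟨⟨⟨g1, g2⟩, g3, g4⟩, g5⟩, g6⟩ := hv
          rw [mem_coe, mem_filter, mem_product]
          have e1 : v.1.1 = p.1 := by rw [← g6]
          have e2 : v.2.1 = p.2 := by rw [← g6]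
          refine ⟨⟨g2, g4⟩, ?_⟩
          rw [← e1, ← e2]
          exact g5
        · intro v hv w hw hvw
          rw [mem_coe, mem_filter] at hv hw
          have e1 : (v.1.1, v.2.1) = (w.1.1, w.2.1) := hv.2.trans hw.2.symm
          simp only [Prod.mk.injEq] at hvw e1
          exact Prod.ext (Prod.ext e1.1 hvw.1) (Prod.ext e1.2 hvw.2)
      exact_mod_cast h2
    · intro v hv
      rw [mem_coe, mem_filter, mem_product, mem_product, mem_product] at hv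
      rw [mem_coe, hP, mem_product]
      exact ⟨hv.1.1.1, hv.1.2.1⟩
  refine h1.trans ?_
  have h2 : ∀ p ∈ P, (#((Ioc M (2 * M) ×ˢ Ioc M (2 * M)).filter (fun v : ℕ × ℕ =>
        |(p.1 : ℝ) ^ 2 * v.1 - (p.2 : ℝ) ^ 2 * v.2| ≤ Δ)) : ℝ) ≤
      2 * Δ * M / (H : ℝ) ^ 2 + 2 * Δ + M / (H : ℝ) ^ 2 * (Nat.gcd p.1 p.2 : ℝ) ^ 2 + 1 := by
    intro p hp
    rw [hP, mem_product, mem_Ico, mem_Ico] at hp
    have h3 := nn_le (M := M) hΔ hH hp.1.1 hp.2.1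
    have hg0 : 0 < Nat.gcd p.1 p.2 := Nat.gcd_pos_of_pos_left _ (by omega)
    have hg1 : (1 : ℝ) ≤ (Nat.gcd p.1 p.2 : ℝ) := by exact_mod_cast hg0
    refine h3.trans ?_
    have e1 : (2 * Δ / (Nat.gcd p.1 p.2 : ℝ) ^ 2 + 1) *
        (M * (Nat.gcd p.1 p.2 : ℝ) ^ 2 / (H : ℝ) ^ 2 + 1) =
        2 * Δ * M / (H : ℝ) ^ 2 + 2 * Δ / (Nat.gcd p.1 p.2 : ℝ) ^ 2 +
          M / (H : ℝ) ^ 2 * (Nat.gcd p.1 p.2 : ℝ) ^ 2 + 1 := by
      field_simp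
      ring
    rw [e1]
    have e2 : 2 * Δ / (Nat.gcd p.1 p.2 : ℝ) ^ 2 ≤ 2 * Δ := div_le_self (by positivity) (by nlinarith)
    linarith
  refine (sum_le_sum h2).trans ?_
  rw [sum_add_distrib, sum_add_distrib, ← mul_sum, sum_const, sum_const, nsmul_eq_mul, nsmul_eq_mul]
  have hc : (#P : ℝ) = (H : ℝ) ^ 2 := by
    rw [hP, card_product, Nat.card_Ico]
    have : 2 * H - H = H := by omega
    rw [this]
    push_cast
    ring
  have h3 : ∑ p ∈ P, (Nat.gcd p.1 p.2 : ℝ) ^ 2 ≤ 16 * (H : ℝ) ^ 3 := by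
    have h4 := gcd_sum (n := 1) (H := H) (t := 0) le_rfl hH
    rw [SH_one] at h4
    simpa using h4
  rw [hc]
  have h5 : (M : ℝ) / (H : ℝ) ^ 2 * ∑ p ∈ P, (Nat.gcd p.1 p.2 : ℝ) ^ 2 ≤
      M / (H : ℝ) ^ 2 * (16 * (H : ℝ) ^ 3) := by gcongr
  have h6 : (M : ℝ) / (H : ℝ) ^ 2 * (16 * (H : ℝ) ^ 3) = 16 * H * M := by
    field_simp
  have h7 : (H : ℝ) ^ 2 * (2 * Δ * M / (H : ℝ) ^ 2 + 2 * Δ) = 2 * Δ * M + 2 * Δ * (H : ℝ) ^ 2 := by
    field_simp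
  rw [h7]
  linarith

end Pool.Agent.H2
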