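import Mathlib
import Pool.Agent.H2.Spc
import Pool.Graph.R_pool_sql_team_seeded_63374d34.N792.QB

/-!
The bilinear sums of `e (h √m √l)` (helper2).
-/

set_option autoImplicit false

namespace Pool.Agent.H2

open Finset
open Pool.Agent.H469R2.NK (e norm_e e_add e_zero)
open Pool.Agent.N792 (grid_sqrt)

/-- the shape of the bound -/
noncomputable def VV (w : ℝ) (H : ℕ) : ℝ := w ^ 4 * (√((H : ℝ) / w) + ((H : ℝ) / w) ^ 2)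

lemma VV_nonneg {w : ℝ} (hw : 0 ≤ w) (H : ℕ) : 0 ≤ VV w H := by
  unfold VV
  positivity

/-- the arithmetic of the bilinear bound -/
lemma bil_arith {H m k w : ℝ} (hH : 1 ≤ H) (hm : 1 ≤ m) (hmk : m ≤ k) (hw : 1 ≤ w)
    (hwM : w ≤ 2 * m ^ 2) (hMLw : m ^ 2 * k ^ 2 ≤ 2 * w ^ 4) :
    (2 * (H * (m / k)) * m ^ 2 + 2 * (H * (m / k)) * H ^ 2 + 16 * H * m ^ 2 + H ^ 2) *
      (3 * k ^ 2 * (4 * (17 * (H * m * k)) + 128 * k ^ 2)) ≤ 81000 * (H * w ^ 7 + H ^ 4 * w ^ 4) := by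
  have hk : 1 ≤ k := hm.trans hmk
  have hk0 : 0 < k := by linarith
  have hm0 : 0 < m := by linarith
  have hH0 : 0 < H := by linarith
  have hw0 : 0 < w := by linarith
  set p : ℝ := m * k with hp
  have hp0 : 0 < p := by positivity
  have hp2 : p ^ 2 ≤ 2 * w ^ 4 := by rw [hp, mul_pow]; exact hMLw
  have hp1 : p ≤ 3 / 2 * w ^ 2 := by
    apply le_of_sq_le_sq (by nlinarith [hp2, (by positivity : 0 ≤ w ^ 4)]) (by positivity)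
  have hL : k ^ 2 ≤ 4 * w ^ 3 := by
    have h1 : w * k ^ 2 ≤ 4 * w ^ 4 := by
      calc w * k ^ 2 ≤ 2 * m ^ 2 * k ^ 2 := by gcongr
        _ ≤ 4 * w ^ 4 := by nlinarith
    have h2 : w * k ^ 2 ≤ w * (4 * w ^ 3) := by linarith [show w * (4 * w ^ 3) = 4 * w ^ 4 by ring]
    exact le_of_mul_le_mul_left h2 hw0
  have hmk1 : m / k ≤ 1 := by rw [div_le_one hk0]; exact hmk
  have hmk0 : 0 ≤ m / k := by positivity
  have e1 : 2 * (H * (m / k)) * m ^ 2 ≤ 2 * H * m ^ 2 := by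
    have : 0 ≤ 2 * H * m ^ 2 := by positivity
    nlinarith
  have e2 : (2 * (H * (m / k)) * m ^ 2 + 2 * (H * (m / k)) * H ^ 2 + 16 * H * m ^ 2 + H ^ 2) ≤
      18 * H * m ^ 2 + 2 * H ^ 3 * (m / k) + H ^ 2 := by linarith
  have e3 : (18 * H * m ^ 2 + 2 * H ^ 3 * (m / k) + H ^ 2) *
      (k ^ 2 * (4 * (17 * (H * m * k)) + 128 * k ^ 2)) =
      1224 * H ^ 2 * p ^ 3 + 2304 * H * p ^ 2 * k ^ 2 + 136 * H ^ 4 * p ^ 2 + 324 * H ^ 3 * p * k ^ 2 +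
        128 * H ^ 2 * (k ^ 2 * k ^ 2) := by
    rw [hp]
    field_simp
    ring
  have f1 : H ^ 2 * p ^ 3 ≤ H ^ 2 * (27 / 8 * w ^ 6) := by
    have : p ^ 3 ≤ (3 / 2 * w ^ 2) ^ 3 := by gcongr
    have h2 : (3 / 2 * w ^ 2) ^ 3 = 27 / 8 * w ^ 6 := by ring
    rw [h2] at this
    gcongr
  have f2 : H * p ^ 2 * k ^ 2 ≤ H * (2 * w ^ 4) * (4 * w ^ 3) := by gcongr
  have f3 : H ^ 4 * p ^ 2 ≤ H ^ 4 * (2 * w ^ 4) := by gcongr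
  have f4 : H ^ 3 * p * k ^ 2 ≤ H ^ 3 * (3 / 2 * w ^ 2) * (4 * w ^ 3) := by gcongr
  have f5 : H ^ 2 * (k ^ 2 * k ^ 2) ≤ H ^ 2 * ((4 * w ^ 3) * (4 * w ^ 3)) := by gcongr
  have g2 : H ^ 2 * w ^ 6 ≤ H * w ^ 7 + H ^ 4 * w ^ 4 := by
    rcases le_total H w with h | h
    · have : H * w ^ 6 ≤ w * w ^ 6 := by gcongr
      have h3 : 0 ≤ H ^ 4 * w ^ 4 := by positivity
      nlinarith
    · have h2 : w ^ 2 ≤ H ^ 2 := by gcongr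
      have h3 : 0 ≤ H * w ^ 7 := by positivity
      have h4 : H ^ 2 * w ^ 4 * w ^ 2 ≤ H ^ 2 * w ^ 4 * H ^ 2 := by gcongr
      nlinarith
  have g3 : H ^ 3 * w ^ 5 ≤ H * w ^ 7 + H ^ 4 * w ^ 4 := by
    rcases le_total H w with h | h
    · have : H ^ 2 ≤ w ^ 2 := by gcongr
      have h3 : 0 ≤ H ^ 4 * w ^ 4 := by positivity
      have h4 : H * w ^ 5 * H ^ 2 ≤ H * w ^ 5 * w ^ 2 := by gcongr
      nlinarith
    · have h3 : 0 ≤ H * w ^ 7 := by positivity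
      have h4 : H ^ 3 * w ^ 4 * w ≤ H ^ 3 * w ^ 4 * H := by gcongr
      nlinarith
  have hpos : 0 ≤ k ^ 2 * (4 * (17 * (H * m * k)) + 128 * k ^ 2) := by positivity
  calc _ = 3 * ((2 * (H * (m / k)) * m ^ 2 + 2 * (H * (m / k)) * H ^ 2 + 16 * H * m ^ 2 + H ^ 2) *
        (k ^ 2 * (4 * (17 * (H * m * k)) + 128 * k ^ 2))) := by ring
    _ ≤ 3 * ((18 * H * m ^ 2 + 2 * H ^ 3 * (m / k) + H ^ 2) *
        (k ^ 2 * (4 * (17 * (H * m * k)) + 128 * k ^ 2))) := by gcongr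
    _ ≤ _ := by
        rw [e3]
        nlinarith [show 0 ≤ H * w ^ 7 by positivity, show 0 ≤ H ^ 4 * w ^ 4 by positivity]

/-- **the bilinear bound**, without the condition on the product -/
theorem bilA {H M L : ℕ} {w : ℝ} (hH : 1 ≤ H) (hM : 1 ≤ M) (hML : M ≤ L) (hw : 1 ≤ w)
    (hwM : w ≤ 2 * M) (hMLw : (M : ℝ) * L ≤ 2 * w ^ 4) (α : ℕ × ℕ → ℂ) (b : ℕ → ℂ) {A B : ℝ}
    (hA0 : 0 ≤ A) (hB0 : 0 ≤ B) (hα : ∀ p ∈ Ico H (2 * H) ×ˢ Ioc M (2 * M), ‖α p‖ ≤ A)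
    (hb : ∀ l ∈ Ioc L (2 * L), ‖b l‖ ≤ B) :
    ‖∑ p ∈ Ico H (2 * H) ×ˢ Ioc M (2 * M), ∑ l ∈ Ioc L (2 * L),
      α p * b l * e ((p.1 : ℝ) * √(p.2 : ℝ) * √(l : ℝ))‖ ≤ 1500 * (A * B) * VV w H := by
  classical
  have hL : 1 ≤ L := hM.trans hML
  have hHr : (1 : ℝ) ≤ H := by exact_mod_cast hH
  have hMr : (1 : ℝ) ≤ M := by exact_mod_cast hM
  have hLr : (1 : ℝ) ≤ L := by exact_mod_cast hL
  have hMLr : (M : ℝ) ≤ L := by exact_mod_cast hML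
  obtain ⟨m, hm⟩ : ∃ m : ℝ, m = √(M : ℝ) := ⟨_, rfl⟩
  obtain ⟨k, hk⟩ : ∃ k : ℝ, k = √(L : ℝ) := ⟨_, rfl⟩
  obtain ⟨s, hs⟩ : ∃ s : ℝ, s = √(2 : ℝ) := ⟨_, rfl⟩
  have hm2 : m ^ 2 = M := by rw [hm]; exact Real.sq_sqrt (by linarith)
  have hk2 : k ^ 2 = L := by rw [hk]; exact Real.sq_sqrt (by linarith)
  have hs2 : s ^ 2 = 2 := by rw [hs]; exact Real.sq_sqrt (by norm_num)
  have hm1 : 1 ≤ m := by rw [hm]; exact Real.one_le_sqrt.2 hMr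
  have hk1 : 1 ≤ k := by rw [hk]; exact Real.one_le_sqrt.2 hLr
  have hs0 : 0 < s := by rw [hs]; positivity
  have hmk : m ≤ k := by rw [hm, hk]; exact Real.sqrt_le_sqrt hMLr
  have hm0 : 0 < m := by linarith
  have hk0 : 0 < k := by linarith
  have hH0 : (0 : ℝ) < H := by linarith
  obtain ⟨Y, hY⟩ : ∃ Y : ℝ, Y = 1 * (s * k) := ⟨_, rfl⟩
  have hY0 : 0 < Y := by rw [hY]; positivity
  obtain ⟨J, hJ⟩ : ∃ J : ℕ, J = ⌊16 * (H * m * k)⌋₊ + 1 := ⟨_, rfl⟩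
  have hJ1 : 1 ≤ J := by omega
  have hJlt : 16 * (H * m * k) < J := by rw [hJ]; push_cast; exact Nat.lt_floor_add_one _
  have hHmk : 1 ≤ H * m * k := by
    calc (1 : ℝ) = 1 * 1 * 1 := by norm_num
      _ ≤ H * m * k := by gcongr
  have hJle : (J : ℝ) ≤ 17 * (H * m * k) := by
    rw [hJ]; push_cast
    have := Nat.floor_le (show 0 ≤ 16 * (H * m * k) by positivity)
    linarith
  have hmle : ∀ x : ℕ, x ≤ 2 * M → √(x : ℝ) ≤ s * m := by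
    intro x hx
    rw [hs, hm, ← Real.sqrt_mul (by norm_num)]
    apply Real.sqrt_le_sqrt
    exact_mod_cast hx
  have hkle : ∀ x : ℕ, x ≤ 2 * L → √(x : ℝ) ≤ s * k := by
    intro x hx
    rw [hs, hk, ← Real.sqrt_mul (by norm_num)]
    apply Real.sqrt_le_sqrt
    exact_mod_cast hx
  set R := Ico H (2 * H) ×ˢ Ioc M (2 * M) with hR
  set S := Ioc L (2 * L) with hS
  have hmem : ∀ p ∈ R, (H ≤ p.1 ∧ p.1 < 2 * H) ∧ (M < p.2 ∧ p.2 ≤ 2 * M) := by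
    intro p hp
    rw [hR, mem_product, mem_Ico, mem_Ioc] at hp
    exact hp
  have hx : ∀ p ∈ R, 0 ≤ (p.1 : ℝ) * √(p.2 : ℝ) ∧ (p.1 : ℝ) * √(p.2 : ℝ) * (4 * Y) < J := by
    intro p hp
    obtain ⟨⟨h1, h2⟩, h3, h4⟩ := hmem p hp
    refine ⟨by positivity, ?_⟩
    have h5 : (p.1 : ℝ) ≤ 2 * H := by exact_mod_cast h2.le
    calc (p.1 : ℝ) * √(p.2 : ℝ) * (4 * Y) ≤ (2 * H) * (s * m) * (4 * Y) := by
          gcongr
          exact hmle _ h4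
      _ = 8 * s ^ 2 * (H * m * k) := by rw [hY]; ring
      _ = 16 * (H * m * k) := by rw [hs2]; ring
      _ < J := hJlt
  have hy : ∀ l ∈ S, 0 ≤ 1 * √(l : ℝ) ∧ 1 * √(l : ℝ) ≤ Y := by
    intro l hl
    rw [hS, mem_Ioc] at hl
    refine ⟨by positivity, ?_⟩
    rw [hY]
    gcongr
    exact hkle l hl.2
  have hNx : (#((R ×ˢ R).filter (fun v => |(v.1.1 : ℝ) * √(v.1.2 : ℝ) - (v.2.1 : ℝ) * √(v.2.2 : ℝ)| ≤
      1 / (4 * Y))) : ℝ) ≤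
      2 * (H * (m / k)) * m ^ 2 + 2 * (H * (m / k)) * (H : ℝ) ^ 2 + 16 * H * m ^ 2 + (H : ℝ) ^ 2 := by
    have h0 := spc (H := H) (M := M) (Δ := H * (m / k)) hH (by positivity)
    rw [hm2]
    refine le_trans ?_ h0
    have hsub : (R ×ˢ R).filter (fun v => |(v.1.1 : ℝ) * √(v.1.2 : ℝ) - (v.2.1 : ℝ) * √(v.2.2 : ℝ)| ≤
        1 / (4 * Y)) ⊆ ((Ico H (2 * H) ×ˢ Ioc M (2 * M)) ×ˢ (Ico H (2 * H) ×ˢ Ioc M (2 * M))).filter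
        (fun v : (ℕ × ℕ) × (ℕ × ℕ) => |(v.1.1 : ℝ) ^ 2 * v.1.2 - (v.2.1 : ℝ) ^ 2 * v.2.2| ≤
          H * (m / k)) := by
      intro v hv
      rw [mem_filter, mem_product] at hv ⊢
      obtain ⟨⟨h1, h2⟩, h3⟩ := hv
      refine ⟨⟨h1, h2⟩, ?_⟩
      obtain ⟨⟨_, g2⟩, _, g4⟩ := hmem _ h1
      obtain ⟨⟨_, g2'⟩, _, g4'⟩ := hmem _ h2
      have g2r : (v.1.1 : ℝ) ≤ 2 * H := by exact_mod_cast g2.le
      have g2r' : (v.2.1 : ℝ) ≤ 2 * H := by exact_mod_cast g2'.le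
      have k1 := hmle _ g4
      have k2 := hmle _ g4'
      have s1 := Real.mul_self_sqrt (Nat.cast_nonneg (α := ℝ) v.1.2)
      have s2 := Real.mul_self_sqrt (Nat.cast_nonneg (α := ℝ) v.2.2)
      have h5 : ((v.1.1 : ℝ) ^ 2 * (v.1.2 : ℝ) - (v.2.1 : ℝ) ^ 2 * (v.2.2 : ℝ)) =
          ((v.1.1 : ℝ) * √(v.1.2 : ℝ) - (v.2.1 : ℝ) * √(v.2.2 : ℝ)) *
          ((v.1.1 : ℝ) * √(v.1.2 : ℝ) + (v.2.1 : ℝ) * √(v.2.2 : ℝ)) := by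
        calc _ = (v.1.1 : ℝ) ^ 2 * (√(v.1.2 : ℝ) * √(v.1.2 : ℝ)) -
              (v.2.1 : ℝ) ^ 2 * (√(v.2.2 : ℝ) * √(v.2.2 : ℝ)) := by rw [s1, s2]
          _ = _ := by ring
      rw [h5, abs_mul, abs_of_nonneg (by positivity : 0 ≤ (v.1.1 : ℝ) * √(v.1.2 : ℝ) + (v.2.1 : ℝ) * √(v.2.2 : ℝ))]
      calc _ ≤ 1 / (4 * Y) * ((2 * H) * (s * m) + (2 * H) * (s * m)) := by
            gcongr
        _ = H * (m / k) := by
            rw [hY]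
            field_simp
            ring
    exact_mod_cast card_le_card hsub
  have hNy := grid_sqrt (K := L) (q := 1) (J' := J) (θ := 1) (Y := Y) (k := k) (w := s) (S := S)
    le_rfl hL one_pos hJ1 hk hs hY (fun l hl => by rw [hS, mem_Ioc] at hl; exact hl)
    (fun _ _ _ _ => Nat.modEq_one)
  have hmain := Pool.Agent.H373R2.T4.dls R S (fun p : ℕ × ℕ => (p.1 : ℝ) * √(p.2 : ℝ))
    (fun l : ℕ => 1 * √(l : ℝ)) α b Y hY0 J hJ1 hx hy A B hα hb hA0 hB0 _ _ hNx hNy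
  simp only [one_mul] at hmain
  have harith := bil_arith hHr hm1 hmk hw (by rw [hm2]; exact hwM) (by rw [hm2, hk2]; exact hMLw)
  have hfin : 25 * (A ^ 2 * (2 * (H * (m / k)) * m ^ 2 + 2 * (H * (m / k)) * (H : ℝ) ^ 2 +
      16 * H * m ^ 2 + (H : ℝ) ^ 2) * (B ^ 2 * (3 * ((L : ℝ) / (1 : ℕ)) * (4 * J + 128 * (L / (1 : ℕ)))))) ≤
      (1500 * (A * B) * VV w H) ^ 2 := by
    rw [Nat.cast_one, div_one, ← hk2]
    have h1 : 3 * k ^ 2 * (4 * (J : ℝ) + 128 * k ^ 2) ≤ 3 * k ^ 2 * (4 * (17 * (H * m * k)) + 128 * k ^ 2) := by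
      gcongr
    have h2 : (81000 : ℝ) * (H * w ^ 7 + (H : ℝ) ^ 4 * w ^ 4) ≤ 90000 * (VV w H) ^ 2 := by
      unfold VV
      have hz0 : 0 ≤ (H : ℝ) / w := by positivity
      have hsq := Real.sq_sqrt hz0
      have e1 : (H : ℝ) * w ^ 7 = (w ^ 4) ^ 2 * ((H : ℝ) / w) := by field_simp
      have e2 : (H : ℝ) ^ 4 * w ^ 4 = (w ^ 4) ^ 2 * (((H : ℝ) / w) ^ 2) ^ 2 := by field_simp
      rw [e1, e2, mul_pow, add_sq, hsq]
      have e3 : 0 ≤ (w ^ 4) ^ 2 * ((H : ℝ) / w) := by positivity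
      have e4 : 0 ≤ (w ^ 4) ^ 2 * (((H : ℝ) / w) ^ 2) ^ 2 := by positivity
      have e5 : 0 ≤ (w ^ 4) ^ 2 * (2 * √((H : ℝ) / w) * ((H : ℝ) / w) ^ 2) := by positivity
      nlinarith
    have hNx0 : 0 ≤ 2 * (H * (m / k)) * m ^ 2 + 2 * (H * (m / k)) * (H : ℝ) ^ 2 +
      16 * H * m ^ 2 + (H : ℝ) ^ 2 := by positivity
    calc _ ≤ 25 * (A ^ 2 * (2 * (H * (m / k)) * m ^ 2 + 2 * (H * (m / k)) * (H : ℝ) ^ 2 +
          16 * H * m ^ 2 + (H : ℝ) ^ 2) * (B ^ 2 * (3 * k ^ 2 * (4 * (17 * (H * m * k)) + 128 * k ^ 2)))) := by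
          gcongr
      _ = 25 * (A * B) ^ 2 * ((2 * (H * (m / k)) * m ^ 2 + 2 * (H * (m / k)) * (H : ℝ) ^ 2 +
          16 * H * m ^ 2 + (H : ℝ) ^ 2) * (3 * k ^ 2 * (4 * (17 * (H * m * k)) + 128 * k ^ 2))) := by ring
      _ ≤ 25 * (A * B) ^ 2 * (81000 * (H * w ^ 7 + (H : ℝ) ^ 4 * w ^ 4)) := by gcongr
      _ ≤ 25 * (A * B) ^ 2 * (90000 * (VV w H) ^ 2) := by gcongr
      _ = _ := by ring
  have hV0 := VV_nonneg (w := w) (by linarith) H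
  exact le_of_sq_le_sq (hmain.trans hfin) (by positivity)

end Pool.Agent.H2
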