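import Mathlib
import Pool.Agent.H2.Bil
import Pool.Graph.R_seed8.H343R2.PV

/-!
The bilinear sums with a condition on the product (helper2).
-/

set_option autoImplicit false

namespace Pool.Agent.H2

open Finset
open Pool.Agent.H469R2.NK (e norm_e e_add e_zero)

/-- orthogonality -/
lemma orth {q : ℕ} {l k : ℕ} (hl : l < q) (hk : k < q) :
    ∑ j ∈ range q, e ((k : ℝ) * ((j : ℝ) / q)) * e (-((l : ℝ) * ((j : ℝ) / q))) =
      if k = l then (q : ℂ) else 0 := by
  have hq : 0 < q := by omega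
  have hq0 : (0 : ℝ) < q := by exact_mod_cast hq
  have h1 : ∀ j ∈ range q, e ((k : ℝ) * ((j : ℝ) / q)) * e (-((l : ℝ) * ((j : ℝ) / q))) =
      (e (((k : ℝ) - l) / q)) ^ j := by
    intro j _
    rw [← e_add]
    unfold e
    rw [← Complex.exp_nat_mul]
    congr 1
    push_cast
    ring
  rw [sum_congr rfl h1]
  split_ifs with h
  · rw [h, sub_self, zero_div, e_zero]
    simp
  · have h2 : e (((k : ℝ) - l) / q) ≠ 1 := by
      intro h3
      unfold e at h3
      rw [Complex.exp_eq_one_iff] at h3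
      obtain ⟨n, hn⟩ := h3
      have h4 : ((2 * Real.pi * (((k : ℝ) - l) / q) : ℝ) : ℂ) = ((n * (2 * Real.pi) : ℝ) : ℂ) := by
        have h5 : ((2 * Real.pi * (((k : ℝ) - l) / q) : ℝ) : ℂ) * Complex.I =
            ((n * (2 * Real.pi) : ℝ) : ℂ) * Complex.I := by
          rw [hn]
          push_cast
          ring
        exact mul_right_cancel₀ Complex.I_ne_zero h5
      have h5 : 2 * Real.pi * (((k : ℝ) - l) / q) = n * (2 * Real.pi) := by exact_mod_cast h4
      have h6 : ((k : ℝ) - l) / q = n := by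
        have hpi := Real.pi_pos
        have : 2 * Real.pi * (((k : ℝ) - l) / q) = 2 * Real.pi * n := by rw [h5]; ring
        exact mul_left_cancel₀ (by positivity) this
      rw [div_eq_iff hq0.ne'] at h6
      have h7 : (k : ℤ) - l = n * q := by exact_mod_cast h6
      have h8 : |(k : ℤ) - l| < q := by
        rw [abs_lt]
        constructor <;> omega
      rw [h7, abs_mul, Nat.abs_cast] at h8
      have h9 : |n| < 1 := by
        by_contra h10
        push Not at h10
        have : (q : ℤ) ≤ |n| * q := le_mul_of_one_le_left (by positivity) h10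
        omega
      have h10 : n = 0 := by
        rw [abs_lt] at h9
        omega
      rw [h10, zero_mul] at h7
      apply h
      omega
    rw [geom_sum_eq h2]
    have h3 : (e (((k : ℝ) - l) / q)) ^ q = 1 := by
      unfold e
      rw [← Complex.exp_nat_mul, Complex.exp_eq_one_iff]
      refine ⟨(k : ℤ) - l, ?_⟩
      push_cast
      have : (q : ℂ) ≠ 0 := by exact_mod_cast hq.ne'
      field_simp
    rw [h3, sub_self, zero_div]

/-- the coefficients of the indicator function of `[1, t]` -/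
noncomputable def cutG (q t j : ℕ) : ℂ :=
  (1 / (q : ℂ)) * ∑ k ∈ Icc 1 (min t (q - 1)), e ((k : ℝ) * ((j : ℝ) / q))

lemma cut_eq {q : ℕ} {l : ℕ} (hl1 : 1 ≤ l) (hl : l < q) (t : ℕ) :
    ∑ j ∈ range q, cutG q t j * e (-((l : ℝ) * ((j : ℝ) / q))) = if l ≤ t then 1 else 0 := by
  have hq : (q : ℂ) ≠ 0 := by
    have : 0 < q := by omega
    exact_mod_cast this.ne'
  unfold cutG
  have h1 : ∀ j ∈ range q, (1 / (q : ℂ)) * (∑ k ∈ Icc 1 (min t (q - 1)), e ((k : ℝ) * ((j : ℝ) / q))) *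
      e (-((l : ℝ) * ((j : ℝ) / q))) = (1 / (q : ℂ)) * ∑ k ∈ Icc 1 (min t (q - 1)),
        e ((k : ℝ) * ((j : ℝ) / q)) * e (-((l : ℝ) * ((j : ℝ) / q))) := by
    intro j _
    rw [mul_assoc, sum_mul]
  rw [sum_congr rfl h1, ← mul_sum, sum_comm]
  have h2 : ∀ k ∈ Icc 1 (min t (q - 1)), ∑ j ∈ range q,
      e ((k : ℝ) * ((j : ℝ) / q)) * e (-((l : ℝ) * ((j : ℝ) / q))) = if k = l then (q : ℂ) else 0 := by
    intro k hk
    rw [mem_Icc] at hk
    exact orth hl (by omega)
  rw [sum_congr rfl h2, sum_ite_eq']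
  by_cases h : l ≤ t
  · rw [if_pos h, if_pos (mem_Icc.2 ⟨hl1, by omega⟩)]
    field_simp
  · rw [if_neg h, if_neg (by rw [mem_Icc]; omega), mul_zero]

/-- the size of the coefficients -/
noncomputable def cutB (q j : ℕ) : ℝ := if j = 0 then 1 else (1 / (j : ℝ) + 1 / ((q - j : ℕ) : ℝ)) / 2

lemma cutB_nonneg (q j : ℕ) : 0 ≤ cutB q j := by
  unfold cutB
  split_ifs <;> positivity

lemma cutG_le {q : ℕ} (t : ℕ) {j : ℕ} (hj : j < q) : ‖cutG q t j‖ ≤ cutB q j := by
  have hq : 0 < q := by omega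
  have hq0 : (0 : ℝ) < q := by exact_mod_cast hq
  have hn : ‖(1 / (q : ℂ))‖ = 1 / q := by
    rw [norm_div, norm_one, Complex.norm_natCast]
  unfold cutG cutB
  rw [norm_mul, hn]
  split_ifs with h
  · have h1 : ‖∑ k ∈ Icc 1 (min t (q - 1)), e ((k : ℝ) * ((j : ℝ) / q))‖ ≤ q := by
      refine (norm_sum_le _ _).trans ?_
      simp only [norm_e, sum_const, Nat.card_Icc, nsmul_eq_mul, mul_one]
      have : min t (q - 1) + 1 - 1 ≤ q := by omega
      exact_mod_cast this
    calc 1 / (q : ℝ) * _ ≤ 1 / q * q := by gcongr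
      _ = 1 := by field_simp
  · have h1 := H343.PVaux.geom_le (min t (q - 1)) q j (by omega) hj
    have h2 : ∑ k ∈ Icc 1 (min t (q - 1)), e ((k : ℝ) * ((j : ℝ) / q)) =
        ∑ n ∈ Icc 1 (min t (q - 1)), H343.ex (n * ((j : ℝ) / q)) := rfl
    rw [h2]
    calc 1 / (q : ℝ) * _ ≤ 1 / q * ((q : ℝ) / 2 * (1 / j + 1 / ((q - j : ℕ) : ℝ))) := by gcongr
      _ = _ := by field_simp

lemma cutB_sum {q : ℕ} (hq : 1 ≤ q) : ∑ j ∈ range q, cutB q j ≤ 2 + Real.log q := by
  have h1 : range q = insert 0 (Ico 1 q) := by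
    ext x
    simp only [mem_range, mem_insert, mem_Ico]
    omega
  rw [h1, sum_insert (by simp)]
  have h2 : cutB q 0 = 1 := by unfold cutB; simp
  have h3 : ∑ j ∈ Ico 1 q, cutB q j = ∑ j ∈ Ico 1 q, (1 / (j : ℝ) + 1 / ((q - j : ℕ) : ℝ)) / 2 := by
    refine sum_congr rfl fun j hj => ?_
    rw [mem_Ico] at hj
    unfold cutB
    rw [if_neg (by omega)]
  have h4 := H343.PVaux.harmonic_le q hq
  have h5 := H343.PVaux.sum_reflect q hq
  rw [h2, h3, ← sum_div, sum_add_distrib, h5]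
  linarith

/-- **the bilinear bound**, with the condition on the product -/
theorem bilB {H M L N N' : ℕ} {w : ℝ} (hH : 1 ≤ H) (hM : 1 ≤ M) (hML : M ≤ L) (hw : 1 ≤ w)
    (hwM : w ≤ 2 * M) (hMLw : (M : ℝ) * L ≤ 2 * w ^ 4) (hNN' : N ≤ N')
    (ω a b : ℕ → ℂ) {A B : ℝ}
    (hA0 : 0 ≤ A) (hB0 : 0 ≤ B) (hω : ∀ h, ‖ω h‖ ≤ 1) (ha : ∀ m ∈ Ioc M (2 * M), ‖a m‖ ≤ A)
    (hb : ∀ l ∈ Ioc L (2 * L), ‖b l‖ ≤ B) :
    ‖∑ m ∈ Ioc M (2 * M), ∑ l ∈ Ioc L (2 * L), a m * b l * (if N < m * l ∧ m * l ≤ N' then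
      ∑ h ∈ Ico H (2 * H), ω h * e ((h : ℝ) * √((m * l : ℕ) : ℝ)) else 0)‖ ≤
      3000 * (A * B) * VV w H * (2 + Real.log (3 * L)) := by
  classical
  have hL : 1 ≤ L := hM.trans hML
  obtain ⟨q, hq⟩ : ∃ q, q = 2 * L + 1 := ⟨_, rfl⟩
  set α : ℕ → ℕ × ℕ → ℂ := fun j p => ω p.1 * a p.2 * (cutG q (N' / p.2) j - cutG q (N / p.2) j) with hα
  set β : ℕ → ℕ → ℂ := fun j l => b l * e (-((l : ℝ) * ((j : ℝ) / q))) with hβ
  have hcut : ∀ m ∈ Ioc M (2 * M), ∀ l ∈ Ioc L (2 * L),
      (if N < m * l ∧ m * l ≤ N' then (1 : ℂ) else 0) =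
        ∑ j ∈ range q, (cutG q (N' / m) j - cutG q (N / m) j) * e (-((l : ℝ) * ((j : ℝ) / q))) := by
    intro m hm l hl
    rw [mem_Ioc] at hm hl
    have hm0 : 0 < m := by omega
    simp_rw [sub_mul]
    rw [sum_sub_distrib, cut_eq (by omega) (by omega), cut_eq (by omega) (by omega)]
    have e1 : l ≤ N' / m ↔ m * l ≤ N' := by rw [Nat.le_div_iff_mul_le hm0, mul_comm]
    have e2 : l ≤ N / m ↔ m * l ≤ N := by rw [Nat.le_div_iff_mul_le hm0, mul_comm]
    simp only [e1, e2]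
    by_cases h1 : m * l ≤ N
    · rw [if_neg (by omega), if_pos (by omega), if_pos h1, sub_self]
    · by_cases h2 : m * l ≤ N'
      · rw [if_pos ⟨by omega, h2⟩, if_pos h2, if_neg h1, sub_zero]
      · rw [if_neg (by omega), if_neg h2, if_neg h1, sub_zero]
  have hmain : ∑ m ∈ Ioc M (2 * M), ∑ l ∈ Ioc L (2 * L), a m * b l * (if N < m * l ∧ m * l ≤ N' then
      ∑ h ∈ Ico H (2 * H), ω h * e ((h : ℝ) * √((m * l : ℕ) : ℝ)) else 0) =
      ∑ j ∈ range q, ∑ p ∈ Ico H (2 * H) ×ˢ Ioc M (2 * M), ∑ l ∈ Ioc L (2 * L),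
        α j p * β j l * e ((p.1 : ℝ) * √(p.2 : ℝ) * √(l : ℝ)) := by
    symm
    calc ∑ j ∈ range q, ∑ p ∈ Ico H (2 * H) ×ˢ Ioc M (2 * M), ∑ l ∈ Ioc L (2 * L),
        α j p * β j l * e ((p.1 : ℝ) * √(p.2 : ℝ) * √(l : ℝ)) =
        ∑ j ∈ range q, ∑ m ∈ Ioc M (2 * M), ∑ l ∈ Ioc L (2 * L), ∑ h ∈ Ico H (2 * H),
          α j (h, m) * β j l * e ((h : ℝ) * √(m : ℝ) * √(l : ℝ)) := by
          refine sum_congr rfl fun j _ => ?_
          rw [sum_product, sum_comm]
          refine sum_congr rfl fun m _ => ?_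
          rw [sum_comm]
      _ = ∑ m ∈ Ioc M (2 * M), ∑ l ∈ Ioc L (2 * L), ∑ j ∈ range q, ∑ h ∈ Ico H (2 * H),
          α j (h, m) * β j l * e ((h : ℝ) * √(m : ℝ) * √(l : ℝ)) := by
          rw [sum_comm]
          refine sum_congr rfl fun m _ => ?_
          rw [sum_comm]
      _ = _ := by
          refine sum_congr rfl fun m hm => sum_congr rfl fun l hl => ?_
          have h1 : ∀ h ∈ Ico H (2 * H), ∀ j, α j (h, m) * β j l * e ((h : ℝ) * √(m : ℝ) * √(l : ℝ)) =
              a m * b l * (ω h * e ((h : ℝ) * √((m * l : ℕ) : ℝ))) *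
              ((cutG q (N' / m) j - cutG q (N / m) j) * e (-((l : ℝ) * ((j : ℝ) / q)))) := by
            intro h _ j
            simp only [hα, hβ]
            have h2 : (h : ℝ) * √((m * l : ℕ) : ℝ) = (h : ℝ) * √(m : ℝ) * √(l : ℝ) := by
              push_cast
              rw [Real.sqrt_mul (Nat.cast_nonneg m)]
              ring
            rw [h2]
            ring
          rw [sum_comm]
          have h3 : (if N < m * l ∧ m * l ≤ N' then
              ∑ h ∈ Ico H (2 * H), ω h * e ((h : ℝ) * √((m * l : ℕ) : ℝ)) else 0) =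
              (∑ h ∈ Ico H (2 * H), ω h * e ((h : ℝ) * √((m * l : ℕ) : ℝ))) *
              (if N < m * l ∧ m * l ≤ N' then (1 : ℂ) else 0) := by
            split_ifs <;> simp
          rw [h3, hcut m hm l hl, sum_mul, mul_sum]
          refine sum_congr rfl fun h hh => ?_
          rw [sum_congr rfl (fun j _ => h1 h hh j), ← mul_sum]
          ring
  rw [hmain]
  refine (norm_sum_le _ _).trans ?_
  have hone : ∀ j ∈ range q, ‖∑ p ∈ Ico H (2 * H) ×ˢ Ioc M (2 * M), ∑ l ∈ Ioc L (2 * L),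
        α j p * β j l * e ((p.1 : ℝ) * √(p.2 : ℝ) * √(l : ℝ))‖ ≤
      3000 * (A * B) * VV w H * cutB q j := by
    intro j hj
    rw [mem_range] at hj
    have h1 := bilA (H := H) (M := M) (L := L) (w := w) hH hM hML hw hwM hMLw (α j) (β j)
      (A := A * (2 * cutB q j)) (B := B) (mul_nonneg hA0 (by have := cutB_nonneg q j; linarith)) hB0
      (by
        intro p hp
        rw [mem_product] at hp
        simp only [hα]
        rw [norm_mul, norm_mul]
        have e1 := cutG_le (q := q) (N' / p.2) hj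
        have e2 := cutG_le (q := q) (N / p.2) hj
        have e3 := norm_sub_le (cutG q (N' / p.2) j) (cutG q (N / p.2) j)
        calc ‖ω p.1‖ * ‖a p.2‖ * ‖cutG q (N' / p.2) j - cutG q (N / p.2) j‖ ≤
              1 * A * (2 * cutB q j) := by
              gcongr
              · exact hω _
              · exact ha _ hp.2
              · linarith
          _ = _ := by ring)
      (by
        intro l hl
        simp only [hβ]
        rw [norm_mul, norm_e, mul_one]
        exact hb l hl)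
    refine h1.trans (le_of_eq ?_)
    ring
  refine (sum_le_sum hone).trans ?_
  rw [← mul_sum]
  have hV := VV_nonneg (w := w) (by linarith) H
  apply mul_le_mul_of_nonneg_left _ (by positivity)
  refine (cutB_sum (by omega)).trans ?_
  have h1 : Real.log (q : ℝ) ≤ Real.log (3 * L) := by
    apply Real.log_le_log
    · rw [hq]; positivity
    · rw [hq]
      have : (1 : ℝ) ≤ L := by exact_mod_cast hL
      push_cast
      linarith
  linarith

end Pool.Agent.H2
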