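import Mathlib
import Pool.Agent.H2.Mean
import Pool.Graph.R_seed8.TH915.PW.Disc
import Pool.Graph.R_pool_sql_team_seeded_3997aac3.Q270.SP.Prime

/-!
Equidistribution of the square roots of the primes, with a small exponent (helper2).
-/

set_option autoImplicit false

namespace Pool.Agent.H2

open Finset Filter Topology
open Pool.Agent.H469R2.NK (e norm_e)
open Pool.Agent.TH915.PW (disc)

/-- equidistribution for some small positive exponent -/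
theorem EqQ_small : ∃ τ : ℝ, 0 < τ ∧ τ ≤ 1 / 2 ∧ EqQ τ := by
  obtain ⟨τ0, hτ0, hτ16, x0, H⟩ := Pool.Agent.Q270.SP.prime_block (θ := 1 / 2) (by norm_num)
    (by
      intro m h
      have h1 : (2 : ℝ) * m = 1 := by rw [← h]; norm_num
      have h2 : 2 * m = 1 := by exact_mod_cast h1
      omega) 1 (by norm_num)
  have hpow : ∀ ε : ℝ, 0 < ε → ∀ A : ℝ, ∀ᶠ N : ℕ in atTop, A ≤ (N : ℝ) ^ ε := fun ε hε A =>
    ((tendsto_rpow_atTop hε).comp tendsto_natCast_atTop_atTop).eventually_ge_atTop A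
  have hev : ∀ᶠ X : ℕ in atTop, (2 : ℝ) ≤ (X : ℝ) ^ (τ0 / 8) ∧ (40 : ℝ) ≤ (X : ℝ) ^ (τ0 / 16) ∧
      1 ≤ X ∧ x0 ≤ X := by
    filter_upwards [hpow _ (by positivity : 0 < τ0 / 8) 2, hpow _ (by positivity : 0 < τ0 / 16) 40,
      eventually_ge_atTop 1, eventually_ge_atTop x0] with X h1 h2 h3 h4
    exact ⟨h1, h2, h3, h4⟩
  obtain ⟨X0, hX0⟩ := eventually_atTop.1 hev
  refine ⟨τ0 / 32, by positivity, by linarith, τ0 / 32, by positivity, X0, ?_⟩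
  intro X X' hX hXX' hX' x y hx hxy hy
  obtain ⟨h1, h2, h3, h4⟩ := hX0 X hX
  have hXr : (1 : ℝ) ≤ X := by exact_mod_cast h3
  have hXpos : (0 : ℝ) < X := by linarith
  obtain ⟨K, hK⟩ : ∃ K, K = ⌊(X : ℝ) ^ (τ0 / 8)⌋₊ := ⟨_, rfl⟩
  have hK1 : 1 ≤ K := by
    rw [hK]
    exact Nat.le_floor (by push_cast; linarith)
  have hKle : (K : ℝ) ≤ (X : ℝ) ^ (τ0 / 8) := by
    rw [hK]
    exact Nat.floor_le (by positivity)
  have hKge : (X : ℝ) ^ (τ0 / 8) ≤ 2 * K := by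
    have e1 : (X : ℝ) ^ (τ0 / 8) < K + 1 := by rw [hK]; exact Nat.lt_floor_add_one _
    have e2 : (1 : ℝ) ≤ K := by exact_mod_cast hK1
    linarith
  have hKpos : (0 : ℝ) < K := by exact_mod_cast hK1
  have hcard : ((PB X X').card : ℝ) ≤ X := by
    have e1 : (PB X X').card ≤ X' - X := by
      unfold PB
      exact (card_filter_le _ _).trans (by rw [Nat.card_Ioc])
    have e2 : (PB X X').card ≤ X := by omega
    exact_mod_cast e2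
  have hE : ∀ h : ℕ, 1 ≤ h → h < K ^ 3 → ‖∑ p ∈ PB X X', e (h * √(p : ℝ))‖ ≤ (X : ℝ) ^ (1 - τ0) := by
    intro h hh1 hh2
    have e1 := H X h4 h (by exact_mod_cast hh1) (by
      rw [Real.rpow_one]
      have e2 : (h : ℝ) ≤ (K : ℝ) ^ 3 := by exact_mod_cast hh2.le
      have e3 : (K : ℝ) ^ 3 ≤ ((X : ℝ) ^ (τ0 / 8)) ^ 3 := by gcongr
      have e4 : ((X : ℝ) ^ (τ0 / 8)) ^ 3 = (X : ℝ) ^ (τ0 / 8 * 3) := by
        rw [← Real.rpow_natCast ((X : ℝ) ^ (τ0 / 8)) 3, ← Real.rpow_mul hXpos.le]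
        norm_num
      have e5 : (X : ℝ) ^ (τ0 / 8 * 3) ≤ (X : ℝ) ^ (1 : ℝ) :=
        Real.rpow_le_rpow_of_exponent_le hXr (by linarith)
      rw [Real.rpow_one] at e5
      linarith) X' hXX' hX'
    have e2 : ∑ p ∈ PB X X', e (h * √(p : ℝ)) =
        ∑ n ∈ (Ioc X X').filter Nat.Prime, e ((h : ℝ) * (n : ℝ) ^ (1 / 2 : ℝ)) := by
      unfold PB
      refine sum_congr rfl fun p _ => ?_
      rw [Real.sqrt_eq_rpow]
    rw [e2]
    exact e1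
  have hd := disc (PB X X') (fun p : ℕ => √(p : ℝ)) K hK1 _ (by positivity) hE x y hx hxy hy
  rw [mul_comm] at hd
  refine hd.trans ?_
  have q1 : 14 * ((PB X X').card : ℝ) / K ≤ 28 * (X : ℝ) ^ (1 - τ0 / 8) := by
    rw [div_le_iff₀ hKpos]
    have e1 : (X : ℝ) = (X : ℝ) ^ (1 - τ0 / 8) * (X : ℝ) ^ (τ0 / 8) := by
      rw [← Real.rpow_add hXpos]
      norm_num
    calc 14 * ((PB X X').card : ℝ) ≤ 14 * X := by gcongr
      _ = 14 * ((X : ℝ) ^ (1 - τ0 / 8) * (X : ℝ) ^ (τ0 / 8)) := by rw [← e1]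
      _ ≤ 14 * ((X : ℝ) ^ (1 - τ0 / 8) * (2 * K)) := by gcongr
      _ = _ := by ring
  have q2 : 2 * ((K : ℝ) ^ 3 * (X : ℝ) ^ (1 - τ0)) ≤ 2 * (X : ℝ) ^ (1 - τ0 / 8) := by
    have e3 : (K : ℝ) ^ 3 ≤ ((X : ℝ) ^ (τ0 / 8)) ^ 3 := by gcongr
    have e4 : ((X : ℝ) ^ (τ0 / 8)) ^ 3 = (X : ℝ) ^ (τ0 / 8 * 3) := by
      rw [← Real.rpow_natCast ((X : ℝ) ^ (τ0 / 8)) 3, ← Real.rpow_mul hXpos.le]
      norm_num
    rw [e4] at e3
    calc 2 * ((K : ℝ) ^ 3 * (X : ℝ) ^ (1 - τ0)) ≤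
          2 * ((X : ℝ) ^ (τ0 / 8 * 3) * (X : ℝ) ^ (1 - τ0)) := by gcongr
      _ = 2 * (X : ℝ) ^ (τ0 / 8 * 3 + (1 - τ0)) := by rw [← Real.rpow_add hXpos]
      _ ≤ _ := by
          apply mul_le_mul_of_nonneg_left _ (by norm_num)
          exact Real.rpow_le_rpow_of_exponent_le hXr (by linarith)
  have q3 : (X : ℝ) ^ (1 - τ0 / 8) * (X : ℝ) ^ (τ0 / 16) = (X : ℝ) ^ (-(τ0 / 32)) * (X : ℝ) ^ (1 - τ0 / 32) := by
    rw [← Real.rpow_add hXpos, ← Real.rpow_add hXpos]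
    congr 1
    ring
  have q4 : 0 ≤ (X : ℝ) ^ (1 - τ0 / 8) := by positivity
  calc _ ≤ 28 * (X : ℝ) ^ (1 - τ0 / 8) + 2 * (X : ℝ) ^ (1 - τ0 / 8) := add_le_add q1 q2
    _ ≤ (X : ℝ) ^ (1 - τ0 / 8) * (X : ℝ) ^ (τ0 / 16) := by nlinarith
    _ = (X : ℝ) ^ (-(τ0 / 32)) * (X : ℝ) ^ (1 - τ0 / 32) := q3
    _ ≤ _ := by
        apply mul_le_mul_of_nonneg_right _ (by positivity)
        linarith

end Pool.Agent.H2
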