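import Mathlib
import Pool.Graph.R_seed8.H469R2.NK.KL

/-!
The second derivative test of van der Corput for sequences (helper2).
-/

set_option autoImplicit false

namespace Pool.Agent.H2

open Finset
open Pool.Agent.H469R2.NK (e norm_e e_add e_zero kusmin_landau_anti)

lemma e_int (k : ℤ) : e (k : ℝ) = 1 := by
  unfold e
  rw [Complex.exp_eq_one_iff]
  exact ⟨k, by push_cast; ring⟩

/-- the indices where a monotone sequence has its values in an interval -/
lemma filter_Ico (d : ℕ → ℝ) (L : ℕ) (hd : ∀ m n, m ≤ n → n < L → d n ≤ d m) (u v : ℝ) :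
    ∃ a b : ℕ, a ≤ b ∧ b ≤ L ∧ (range L).filter (fun n => u ≤ d n ∧ d n < v) = Ico a b := by
  classical
  set S := (range L).filter (fun n => u ≤ d n ∧ d n < v) with hS
  rcases S.eq_empty_or_nonempty with h | h
  · exact ⟨0, 0, le_rfl, Nat.zero_le _, by rw [h]; simp⟩
  · have hmem : ∀ n, n ∈ S ↔ (n < L ∧ u ≤ d n ∧ d n < v) := by
      intro n
      rw [hS, mem_filter, mem_range]
    refine ⟨S.min' h, S.max' h + 1, ?_, ?_, ?_⟩
    · have := S.min'_le _ (S.max'_mem h)
      omega
    · have := (hmem _).1 (S.max'_mem h)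
      omega
    · ext n
      rw [mem_Ico]
      constructor
      · intro hn
        exact ⟨S.min'_le _ hn, Nat.lt_succ_of_le (S.le_max' _ hn)⟩
      · rintro ⟨h1, h2⟩
        have h3 := (hmem _).1 (S.max'_mem h)
        have h4 := (hmem _).1 (S.min'_mem h)
        rw [hmem]
        refine ⟨by omega, ?_, ?_⟩
        · exact h3.2.1.trans (hd _ _ (by omega) h3.1)
        · exact lt_of_le_of_lt (hd _ _ h1 (by omega)) h4.2.2

/-- a sum of ones -/
lemma e_card (x : ℕ → ℝ) (S : Finset ℕ) : ‖∑ n ∈ S, e (x n)‖ ≤ (S.card : ℝ) := by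
  refine (norm_sum_le _ _).trans ?_
  simp only [norm_e, sum_const, nsmul_eq_mul, mul_one]
  exact le_rfl

/-- **the second derivative test** for sequences -/
theorem vdc2 (x : ℕ → ℝ) (L : ℕ) {lam V : ℝ} (hlam : 0 < lam) (hlam4 : lam ≤ 1 / 4) (hV0 : 0 ≤ V)
    (hdec : ∀ n, n + 1 < L → lam ≤ (x (n + 1) - x n) - (x (n + 2) - x (n + 1)))
    (hV : ∀ n < L, (x 1 - x 0) - (x (n + 1) - x n) ≤ V) :
    ‖∑ n ∈ range L, e (x n)‖ ≤ 5 * (V + 2) / √lam := by
  classical
  rcases Nat.eq_zero_or_pos L with rfl | hL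
  · have h1 : ‖∑ n ∈ range 0, e (x n)‖ = 0 := by simp
    rw [h1]
    positivity
  set d : ℕ → ℝ := fun n => x (n + 1) - x n with hd
  have hgap : ∀ m n, m ≤ n → n < L → lam * ((n : ℝ) - m) ≤ d m - d n := by
    intro m n hmn
    induction n, hmn using Nat.le_induction with
    | base => intro _; simp
    | succ n hmn ih =>
      intro hnL
      have h1 := ih (by omega)
      have h2 : lam ≤ d n - d (n + 1) := hdec n hnL
      push_cast
      linarith
  have hanti : ∀ m n, m ≤ n → n < L → d n ≤ d m := by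
    intro m n hmn hnL
    have h1 := hgap m n hmn hnL
    have h2 : (m : ℝ) ≤ n := by exact_mod_cast hmn
    nlinarith
  set θ : ℝ := √lam with hθ
  have hθ0 : 0 < θ := Real.sqrt_pos.2 hlam
  have hθ2 : θ ^ 2 = lam := Real.sq_sqrt hlam.le
  have hθ1 : θ ≤ 1 / 2 := by nlinarith
  -- short pieces
  have hshort : ∀ u : ℝ, ‖∑ n ∈ (range L).filter (fun n => u ≤ d n ∧ d n < u + θ), e (x n)‖ ≤
      1 / θ + 1 := by
    intro u
    refine (e_card _ _).trans ?_
    obtain ⟨a, b, hab, hbL, hS⟩ := filter_Ico d L hanti u (u + θ)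
    rcases Nat.eq_or_lt_of_le hab with h | h
    · rw [hS, h, Ico_self, card_empty, Nat.cast_zero]
      positivity
    · have ha : a ∈ (range L).filter (fun n => u ≤ d n ∧ d n < u + θ) := by
        rw [hS, mem_Ico]; omega
      have hb : b - 1 ∈ (range L).filter (fun n => u ≤ d n ∧ d n < u + θ) := by
        rw [hS, mem_Ico]; omega
      rw [mem_filter] at ha hb
      have h1 := hgap a (b - 1) (by omega) (by omega)
      rw [hS, Nat.card_Ico]
      have h2 : (((b - a : ℕ)) : ℝ) = ((b - 1 : ℕ) : ℝ) - a + 1 := by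
        rw [Nat.cast_sub (by omega), Nat.cast_sub (by omega)]
        push_cast
        ring
      rw [h2]
      have h3 : lam * (((b - 1 : ℕ) : ℝ) - a) ≤ θ := by linarith [ha.2.2, hb.2.1]
      have h4 : ((b - 1 : ℕ) : ℝ) - a ≤ 1 / θ := by
        rw [le_div_iff₀ hθ0]
        rw [← hθ2] at h3
        have h5 : θ * ((((b - 1 : ℕ) : ℝ) - a) * θ) ≤ θ * 1 := by
          calc θ * ((((b - 1 : ℕ) : ℝ) - a) * θ) = θ ^ 2 * (((b - 1 : ℕ) : ℝ) - a) := by ring
            _ ≤ θ * 1 := by linarith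
        exact le_of_mul_le_mul_left h5 hθ0
      linarith
  -- the long piece
  have hlong : ∀ k : ℤ, ‖∑ n ∈ (range L).filter (fun n => (k : ℝ) + θ ≤ d n ∧ d n < k + 1 - θ), e (x n)‖ ≤
      2 / θ := by
    intro k
    obtain ⟨a, b, hab, hbL, hS⟩ := filter_Ico d L hanti (k + θ) (k + 1 - θ)
    have hmem : ∀ i, i < b - a → (k : ℝ) + θ ≤ d (a + i) ∧ d (a + i) < k + 1 - θ := by
      intro i hi
      have : a + i ∈ (range L).filter (fun n => (k : ℝ) + θ ≤ d n ∧ d n < k + 1 - θ) := by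
        rw [hS, mem_Ico]; omega
      rw [mem_filter] at this
      exact this.2
    rw [hS, sum_Ico_eq_sum_range]
    have h1 : ∀ i ∈ range (b - a), e (x (a + i)) = e (x (a + i) - k * i) := by
      intro i _
      have h2 : x (a + i) = (x (a + i) - k * i) + ((k * i : ℤ) : ℝ) := by push_cast; ring
      conv_lhs => rw [h2]
      rw [e_add, e_int, mul_one]
    rw [sum_congr rfl h1]
    apply kusmin_landau_anti (fun i => x (a + i) - k * i) (b - a) hθ0
    · intro i hi
      have := (hmem i hi).1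
      simp only [hd] at this
      push_cast
      have e1 : a + (i + 1) = a + i + 1 := by ring
      rw [e1]
      linarith
    · intro i hi
      have := (hmem i hi).2
      simp only [hd] at this
      push_cast
      have e1 : a + (i + 1) = a + i + 1 := by ring
      rw [e1]
      linarith
    · intro i hi
      have h3 := hdec (a + i) (by omega)
      push_cast
      have e1 : a + (i + 1) = a + i + 1 := by ring
      have e2 : a + (i + 2) = a + i + 2 := by ring
      rw [e1, e2]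
      linarith
  -- the partition
  set K : Finset ℤ := Icc ⌊d (L - 1)⌋ ⌊d 0⌋ with hK
  have hmaps : ∀ n ∈ range L, ⌊d n⌋ ∈ K := by
    intro n hn
    rw [mem_range] at hn
    rw [hK, mem_Icc]
    exact ⟨Int.floor_le_floor (hanti n (L - 1) (by omega) (by omega)),
      Int.floor_le_floor (hanti 0 n (Nat.zero_le _) hn)⟩
  have hKcard : (K.card : ℝ) ≤ V + 2 := by
    rw [hK, Int.card_Icc]
    have h1 : ⌊d (L - 1)⌋ ≤ ⌊d 0⌋ := Int.floor_le_floor (hanti 0 (L - 1) (Nat.zero_le _) (by omega))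
    have h2 : (((⌊d 0⌋ + 1 - ⌊d (L - 1)⌋).toNat : ℕ) : ℝ) = (⌊d 0⌋ : ℝ) + 1 - ⌊d (L - 1)⌋ := by
      have h3 : (((⌊d 0⌋ + 1 - ⌊d (L - 1)⌋).toNat : ℕ) : ℤ) = ⌊d 0⌋ + 1 - ⌊d (L - 1)⌋ :=
        Int.toNat_of_nonneg (by omega)
      exact_mod_cast h3
    rw [h2]
    have h3 := Int.floor_le (d 0)
    have h4 := Int.lt_floor_add_one (d (L - 1))
    have h5 : d 0 - d (L - 1) ≤ V := hV (L - 1) (by omega)
    linarith
  rw [← sum_fiberwise_of_maps_to hmaps]
  have hone : ∀ k ∈ K, ‖∑ n ∈ (range L).filter (fun n => ⌊d n⌋ = k), e (x n)‖ ≤ 5 / θ := by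
    intro k _
    have h1 : (range L).filter (fun n => ⌊d n⌋ = k) =
        ((range L).filter (fun n => (k : ℝ) ≤ d n ∧ d n < k + θ)) ∪
        (((range L).filter (fun n => (k : ℝ) + θ ≤ d n ∧ d n < k + 1 - θ)) ∪
        ((range L).filter (fun n => (k : ℝ) + 1 - θ ≤ d n ∧ d n < (k + 1 - θ) + θ))) := by
      ext n
      rw [mem_union, mem_union, mem_filter, mem_filter, mem_filter, mem_filter, Int.floor_eq_iff]
      constructor
      · rintro ⟨g1, g2, g3⟩
        rcases lt_or_ge (d n) (k + θ) with h | h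
        · left; exact ⟨g1, g2, h⟩
        · rcases lt_or_ge (d n) (k + 1 - θ) with h' | h'
          · right; left; exact ⟨g1, h, h'⟩
          · right; right; exact ⟨g1, h', by linarith⟩
      · rintro (⟨g1, g2, g3⟩ | ⟨g1, g2, g3⟩ | ⟨g1, g2, g3⟩)
        · exact ⟨g1, g2, by linarith⟩
        · exact ⟨g1, by linarith, by linarith⟩
        · exact ⟨g1, by linarith, by linarith⟩
    rw [h1, sum_union, sum_union]
    · have q1 := hshort k
      have q2 := hlong k
      have q3 := hshort (k + 1 - θ)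
      have q4 := norm_add_le (∑ n ∈ (range L).filter (fun n => (k : ℝ) ≤ d n ∧ d n < k + θ), e (x n))
        (∑ n ∈ (range L).filter (fun n => (k : ℝ) + θ ≤ d n ∧ d n < k + 1 - θ), e (x n) +
          ∑ n ∈ (range L).filter (fun n => (k : ℝ) + 1 - θ ≤ d n ∧ d n < (k + 1 - θ) + θ), e (x n))
      have q5 := norm_add_le (∑ n ∈ (range L).filter (fun n => (k : ℝ) + θ ≤ d n ∧ d n < k + 1 - θ), e (x n))
          (∑ n ∈ (range L).filter (fun n => (k : ℝ) + 1 - θ ≤ d n ∧ d n < (k + 1 - θ) + θ), e (x n))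
      have q6 : 2 ≤ 1 / θ := by rw [le_div_iff₀ hθ0]; linarith
      have q7 : 5 / θ = 5 * (1 / θ) := by ring
      have q8 : 2 / θ = 2 * (1 / θ) := by ring
      rw [q7]
      rw [q8] at q2
      linarith
    · rw [disjoint_filter]
      rintro n _ ⟨g1, g2⟩ ⟨g3, g4⟩
      linarith
    · rw [disjoint_union_right, disjoint_filter, disjoint_filter]
      constructor
      · rintro n _ ⟨g1, g2⟩ ⟨g3, g4⟩
        linarith
      · rintro n _ ⟨g1, g2⟩ ⟨g3, g4⟩
        linarith
  refine (norm_sum_le _ _).trans ((sum_le_sum hone).trans ?_)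
  rw [sum_const, nsmul_eq_mul]
  calc (K.card : ℝ) * (5 / θ) ≤ (V + 2) * (5 / θ) := by gcongr
    _ = _ := by ring

end Pool.Agent.H2
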