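import Mathlib
import Pool.Agent.H2.Vdc2

/-!
The sums of `e (h √(m l))` over `l` (helper2).
-/

set_option autoImplicit false

namespace Pool.Agent.H2

open Finset
open Pool.Agent.H469R2.NK (e norm_e e_add e_zero)

/-- the second differences of the square root -/
lemma sqrt_dd {t : ℝ} (ht : 0 < t) :
    1 / (4 * √(t + 2) ^ 3) ≤ 2 * √(t + 1) - √t - √(t + 2) := by
  set α := √t with hα
  set β := √(t + 1) with hβ
  set γ := √(t + 2) with hγ
  have a2 : α ^ 2 = t := Real.sq_sqrt ht.le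
  have b2 : β ^ 2 = t + 1 := Real.sq_sqrt (by linarith)
  have c2 : γ ^ 2 = t + 2 := Real.sq_sqrt (by linarith)
  have a0 : 0 < α := Real.sqrt_pos.2 ht
  have b0 : 0 < β := Real.sqrt_pos.2 (by linarith)
  have c0 : 0 < γ := Real.sqrt_pos.2 (by linarith)
  have hab : α ≤ β := Real.sqrt_le_sqrt (by linarith)
  have hbc : β ≤ γ := Real.sqrt_le_sqrt (by linarith)
  have h1 : 2 * β - α - γ = 2 / ((γ + α) * ((β + α) * (γ + β))) := by
    rw [eq_div_iff (by positivity)]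
    have e1 : (β - α) * (β + α) = 1 := by nlinarith
    have e2 : (γ - β) * (γ + β) = 1 := by nlinarith
    have e3 : (γ - α) * (γ + α) = 2 := by nlinarith
    calc (2 * β - α - γ) * ((γ + α) * ((β + α) * (γ + β))) =
        (γ + α) * (((β - α) * (β + α)) * (γ + β) - ((γ - β) * (γ + β)) * (β + α)) := by ring
      _ = (γ - α) * (γ + α) := by rw [e1, e2]; ring
      _ = 2 := e3
  rw [h1, div_le_div_iff₀ (by positivity) (by positivity)]
  have h2 : (γ + α) * ((β + α) * (γ + β)) ≤ (2 * γ) * ((2 * γ) * (2 * γ)) := by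
    gcongr <;> linarith
  nlinarith

/-- **the sums over the long variable** -/
theorem tyI {N N' m h b : ℕ} {w : ℝ} (hm : 1 ≤ m) (hw : 1 ≤ w) (hwN : w ^ 4 = N) (hmw : (m : ℝ) ≤ w)
    (hN' : N' ≤ 2 * N) (hh : 1 ≤ h) (hhN : h ≤ 4 * N) (hb : b ≤ N' / m) :
    ‖∑ l ∈ Ioc (N / m) b, e ((h : ℝ) * √((m * l : ℕ) : ℝ))‖ ≤
      50 * (√(h : ℝ) * w + w ^ 3 / (√(h : ℝ) * m)) := by
  have hm0 : 0 < m := hm
  have hmr : (1 : ℝ) ≤ m := by exact_mod_cast hm
  have hhr : (1 : ℝ) ≤ h := by exact_mod_cast hh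
  have hw0 : 0 < w := by linarith
  have hhN' : (h : ℝ) ≤ 4 * w ^ 4 := by rw [hwN]; exact_mod_cast hhN
  have hmN : m ≤ N := by
    have h1 : (m : ℝ) ≤ w ^ 4 := by
      calc (m : ℝ) ≤ w := hmw
        _ ≤ w ^ 4 := le_self_pow₀ hw (by norm_num)
    rw [hwN] at h1
    exact_mod_cast h1
  obtain ⟨a, ha⟩ : ∃ a, a = N / m := ⟨_, rfl⟩
  rw [← ha]
  rcases Nat.le_total b a with hab | hab
  · rw [Ioc_eq_empty (by omega), sum_empty, norm_zero]
    positivity
  obtain ⟨L, hL⟩ : ∃ L, L = b - a := ⟨_, rfl⟩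
  have hsum : ∑ l ∈ Ioc a b, e ((h : ℝ) * √((m * l : ℕ) : ℝ)) =
      ∑ i ∈ range L, e ((h : ℝ) * √(m : ℝ) * √((a + 1 + i : ℕ) : ℝ)) := by
    have h3 : Ioc a b = Ico (a + 1) (b + 1) := by ext n; simp only [mem_Ioc, mem_Ico]; omega
    rw [h3, sum_Ico_eq_sum_range, show b + 1 - (a + 1) = L by omega]
    refine sum_congr rfl fun i _ => ?_
    congr 1
    push_cast
    rw [Real.sqrt_mul (by positivity)]
    ring
  rw [hsum]
  set μ := √(m : ℝ) with hμ
  have hμ2 : μ ^ 2 = m := Real.sq_sqrt (by positivity)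
  have hμ0 : 0 < μ := Real.sqrt_pos.2 (by linarith)
  set η := √(h : ℝ) with hη
  have hη2 : η ^ 2 = h := Real.sq_sqrt (by positivity)
  have hη0 : 0 < η := Real.sqrt_pos.2 (by linarith)
  -- the range of the variable
  have hlow : w ^ 4 / m < a + 1 := by
    rw [div_lt_iff₀ (by positivity), hwN]
    have h1 : N < m * (a + 1) := by
      rw [ha]
      exact Nat.lt_mul_div_succ N hm0
    have h2 : (N : ℝ) < m * ((a : ℝ) + 1) := by exact_mod_cast h1
    linarith
  have hup : ∀ i, i + 1 < L → ((a + 1 + i : ℕ) : ℝ) + 2 ≤ 3 * w ^ 4 / m := by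
    intro i hi
    rw [le_div_iff₀ (by positivity), hwN]
    have h1 : (a + 1 + i + 2) * m ≤ 3 * N := by
      have h2 : a + 1 + i + 1 ≤ N' / m := by omega
      rw [Nat.le_div_iff_mul_le hm0] at h2
      calc (a + 1 + i + 2) * m = (a + 1 + i + 1) * m + m := by ring
        _ ≤ N' + m := by omega
        _ ≤ 3 * N := by omega
    exact_mod_cast h1
  set lam : ℝ := h * (m : ℝ) ^ 2 / (21 * w ^ 6) with hlam
  have hlam0 : 0 < lam := by positivity
  have hlam4 : lam ≤ 1 / 4 := by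
    rw [hlam, div_le_iff₀ (by positivity)]
    calc (h : ℝ) * (m : ℝ) ^ 2 ≤ (4 * w ^ 4) * w ^ 2 := by gcongr
      _ ≤ 1 / 4 * (21 * w ^ 6) := by nlinarith [show 0 < w ^ 6 by positivity]
  have hsqrtlam : √lam = η * m / (√21 * w ^ 3) := by
    have h1 : lam = (η * m / (√21 * w ^ 3)) ^ 2 := by
      rw [hlam, div_pow, mul_pow, mul_pow, hη2, Real.sq_sqrt (by norm_num)]
      ring
    rw [h1]
    exact Real.sqrt_sq (by positivity)
  set V : ℝ := h * m / (2 * w ^ 2) with hV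
  have hV0 : 0 ≤ V := by positivity
  have key := vdc2 (fun i => (h : ℝ) * μ * √((a + 1 + i : ℕ) : ℝ)) L hlam0 hlam4 hV0
    (by
      intro i hi
      have h1 := hup i hi
      have ht0 : (0 : ℝ) < ((a + 1 + i : ℕ) : ℝ) := by positivity
      have h2 := sqrt_dd ht0
      have e1 : ((a + 1 + (i + 1) : ℕ) : ℝ) = ((a + 1 + i : ℕ) : ℝ) + 1 := by push_cast; ring
      have e2 : ((a + 1 + (i + 2) : ℕ) : ℝ) = ((a + 1 + i : ℕ) : ℝ) + 2 := by push_cast; ring
      rw [e1, e2]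
      set t : ℝ := ((a + 1 + i : ℕ) : ℝ) with ht
      have h3 : √(t + 2) ≤ √3 * w ^ 2 / μ := by
        have e3 : √3 * w ^ 2 / μ = √(3 * w ^ 4 / m) := by
          rw [Real.sqrt_div (by positivity), Real.sqrt_mul (by norm_num)]
          congr 2
          rw [show w ^ 4 = (w ^ 2) ^ 2 by ring, Real.sqrt_sq (by positivity)]
        rw [e3]
        exact Real.sqrt_le_sqrt h1
      have h30 : 0 < √(t + 2) := Real.sqrt_pos.2 (by linarith)
      have h4 : √(t + 2) ^ 3 ≤ (√3 * w ^ 2 / μ) ^ 3 := by gcongr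
      have h5 : (√3 : ℝ) ^ 3 ≤ 21 / 4 := by
        have e4 : (√3 : ℝ) ^ 2 = 3 := Real.sq_sqrt (by norm_num)
        have e5 : (√3 : ℝ) ≤ 7 / 4 := by
          rw [Real.sqrt_le_left (by norm_num)]
          norm_num
        calc (√3 : ℝ) ^ 3 = (√3) ^ 2 * √3 := by ring
          _ = 3 * √3 := by rw [e4]
          _ ≤ 21 / 4 := by linarith
      have h6 : √(t + 2) ^ 3 ≤ 21 / 4 * w ^ 6 / μ ^ 3 := by
        calc √(t + 2) ^ 3 ≤ (√3 * w ^ 2 / μ) ^ 3 := h4
          _ = (√3) ^ 3 * w ^ 6 / μ ^ 3 := by ring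
          _ ≤ _ := by gcongr
      have h7 : μ ^ 3 / (21 * w ^ 6) ≤ 2 * √(t + 1) - √t - √(t + 2) := by
        refine le_trans ?_ h2
        rw [div_le_div_iff₀ (by positivity) (by positivity)]
        calc μ ^ 3 * (4 * √(t + 2) ^ 3) ≤ μ ^ 3 * (4 * (21 / 4 * w ^ 6 / μ ^ 3)) := by gcongr
          _ = 1 * (21 * w ^ 6) := by field_simp
      have h8 : lam = h * μ * (μ ^ 3 / (21 * w ^ 6)) := by
        rw [hlam, ← hμ2]
        ring
      rw [h8]
      calc (h : ℝ) * μ * (μ ^ 3 / (21 * w ^ 6)) ≤ h * μ * (2 * √(t + 1) - √t - √(t + 2)) := by gcongr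
        _ = _ := by ring)
    (by
      intro i hi
      have ht0 : (0 : ℝ) < ((a + 1 : ℕ) : ℝ) := by positivity
      have h1 : (h : ℝ) * μ * √((a + 1 + i : ℕ) : ℝ) ≤ h * μ * √((a + 1 + (i + 1) : ℕ) : ℝ) := by
        gcongr
        omega
      have h2 : √((a + 1 + 1 : ℕ) : ℝ) - √((a + 1 : ℕ) : ℝ) ≤ μ / (2 * w ^ 2) := by
        set t : ℝ := ((a + 1 : ℕ) : ℝ) with ht
        have e1 : ((a + 1 + 1 : ℕ) : ℝ) = t + 1 := by rw [ht]; push_cast; ring
        rw [e1]
        have e2 : w ^ 2 / μ ≤ √t := by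
          have e3 : w ^ 2 / μ = √(w ^ 4 / m) := by
            rw [Real.sqrt_div (by positivity), show w ^ 4 = (w ^ 2) ^ 2 by ring,
              Real.sqrt_sq (by positivity)]
          rw [e3]
          apply Real.sqrt_le_sqrt
          rw [ht]
          push_cast
          exact hlow.le
        have e4 : 0 < w ^ 2 / μ := by positivity
        have e5 : √t ≤ √(t + 1) := Real.sqrt_le_sqrt (by linarith)
        have e6 : (√(t + 1) - √t) * (√(t + 1) + √t) = 1 := by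
          have := Real.sq_sqrt ht0.le
          have := Real.sq_sqrt (show 0 ≤ t + 1 by linarith)
          nlinarith
        have e7 : √(t + 1) - √t = 1 / (√(t + 1) + √t) := by
          rw [eq_div_iff (by positivity)]
          exact e6
        rw [e7, div_le_div_iff₀ (by positivity) (by positivity)]
        have e8 : w ^ 2 ≤ μ * √t := by
          rw [div_le_iff₀ hμ0] at e2
          linarith
        nlinarith
      have h3 : (h : ℝ) * μ * (√((a + 1 + 1 : ℕ) : ℝ) - √((a + 1 : ℕ) : ℝ)) ≤ V := by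
        calc (h : ℝ) * μ * (√((a + 1 + 1 : ℕ) : ℝ) - √((a + 1 : ℕ) : ℝ)) ≤ h * μ * (μ / (2 * w ^ 2)) := by
              gcongr
          _ = V := by rw [hV, ← hμ2]; ring
      have e1 : a + 1 + 0 = a + 1 := rfl
      simp only [e1]
      linarith)
  refine key.trans ?_
  rw [hsqrtlam, hV]
  have h21 : (√21 : ℝ) ≤ 4.6 := by
    rw [Real.sqrt_le_left (by norm_num)]
    norm_num
  have e1 : 5 * ((h : ℝ) * m / (2 * w ^ 2) + 2) / (η * m / (√21 * w ^ 3)) =
      √21 * (5 / 2 * (η * w) + 10 * (w ^ 3 / (η * m))) := by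
    rw [← hη2]
    field_simp
    ring
  rw [e1]
  have h2 : 0 ≤ 5 / 2 * (η * w) + 10 * (w ^ 3 / (η * m)) := by positivity
  have h3 : 0 ≤ η * w := by positivity
  have h4 : 0 ≤ w ^ 3 / (η * m) := by positivity
  calc √21 * (5 / 2 * (η * w) + 10 * (w ^ 3 / (η * m))) ≤ 4.6 * (5 / 2 * (η * w) + 10 * (w ^ 3 / (η * m))) := by
        gcongr
    _ ≤ _ := by nlinarith

end Pool.Agent.H2
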