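import Mathlib
import Pool.Graph.R_seed8.H373R2.T7.Vau

/-!
Vaughan's identity with bounded coefficients (helper2).
-/

set_option autoImplicit false

namespace Pool.Agent.H2

open Finset
open Pool.Agent.Helper112 (betaV)
open Pool.Agent.Helper112.TI (mu1 l1 mu1_apply l1_apply)
open Pool.Agent.Helper112.TII (betaV_abs betaV_zero)
open Pool.Agent.H373R2.T3 (abel_Ioc vaughan_sum conv_abs_le conv_zero)
open Pool.Agent.H373R2.T7 (bil_gen)

/-- Vaughan's method for a general sequence, with bounded coefficients -/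
theorem vauS (E : ℕ → ℂ) (N N' U : ℕ) (hN : 1 ≤ N) (hNN' : N ≤ N') (hN' : N' ≤ 2 * N) (hU : 1 ≤ U)
    (hU3 : U ^ 3 ≤ N) (Y : ℕ → ℝ) (R D Lg : ℝ) (hR0 : 0 ≤ R) (hD : 1 ≤ D)
    (hLg : Lg = 1 + Real.log (4 * N))
    (hDd : ∀ m, 1 ≤ m → m ≤ 4 * N → (m.divisors.card : ℝ) ≤ D) (hY0 : ∀ m, 0 ≤ Y m)
    (hI : ∀ m ∈ Icc 1 U, ∀ b, b ≤ N' / m → ‖∑ l ∈ Ioc (N / m) b, E (m * l)‖ ≤ Y m)
    (hII : ∀ (a b : ℕ → ℂ) (A B : ℝ), 0 ≤ A → 0 ≤ B → ∀ M L : ℕ, 1 ≤ M → 1 ≤ L → U < 2 * M →
      U < 2 * L → M * L ≤ N' → (∀ m ∈ Ioc M (2 * M), ‖a m‖ ≤ A) → (∀ l ∈ Ioc L (2 * L), ‖b l‖ ≤ B) →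
      ‖∑ m ∈ Ioc M (2 * M), ∑ l ∈ Ioc L (2 * L), a m * b l *
        (if N < m * l ∧ m * l ≤ N' then E (m * l) else 0)‖ ≤ A * B * R) :
    ‖∑ n ∈ Ioc N N', ((ArithmeticFunction.vonMangoldt n : ℝ) : ℂ) * E n‖ ≤
      8 * Lg ^ 3 * D * R + 3 * Lg * ∑ m ∈ Icc 1 U, Y m := by
  classical
  have hN0 : (1 : ℝ) ≤ N := by exact_mod_cast hN
  have hlog4N : 0 ≤ Real.log (4 * (N : ℝ)) := Real.log_nonneg (by linarith)
  have hLg1 : 1 ≤ Lg := by linarith
  have hlogle : ∀ t : ℝ, 1 ≤ t → t ≤ 4 * N → Real.log t ≤ Lg := by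
    intro t ht ht2
    have := Real.log_le_log (by linarith) ht2
    linarith
  have hUN : U ≤ N := by
    calc U = U ^ 1 := (pow_one U).symm
      _ ≤ U ^ 3 := Nat.pow_le_pow_right hU (by norm_num)
      _ ≤ N := hU3
  have hlog2 : (Nat.log 2 N' + 1 : ℝ) ≤ 2 * Lg := by
    have hN'1 : 1 ≤ N' := by omega
    have h2 : (Nat.log 2 N' : ℝ) * Real.log 2 ≤ Real.log N' := by
      have h3 : (2 : ℝ) ^ Nat.log 2 N' ≤ N' := by exact_mod_cast Nat.pow_log_le_self 2 (by omega)
      have h4 := Real.log_le_log (by positivity) h3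
      rwa [Real.log_pow] at h4
    have h3 : Real.log N' ≤ Real.log (4 * N) := Real.log_le_log (by exact_mod_cast hN'1) (by exact_mod_cast (by omega : N' ≤ 4 * N))
    have h4 := Real.log_two_gt_d9
    have h5 : (0 : ℝ) ≤ Nat.log 2 N' := Nat.cast_nonneg _
    nlinarith
  have hlog20 : (0 : ℝ) ≤ (Nat.log 2 N' + 1 : ℝ) := by positivity
  have hlogsq : (Nat.log 2 N' + 1 : ℝ) ^ 2 ≤ 4 * Lg ^ 2 := by
    calc (Nat.log 2 N' + 1 : ℝ) ^ 2 ≤ (2 * Lg) ^ 2 := pow_le_pow_left₀ hlog20 hlog2 2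
      _ = _ := by ring
  rw [vaughan_sum U U N N' hUN E]
  -- the II-part with betaV
  have hS1 : ‖∑ m ∈ Icc 1 N', ∑ l ∈ Ioc (N / m) (N' / m), ((betaV U m : ℝ) : ℂ) *
      (((if U < l then ArithmeticFunction.vonMangoldt l else 0 : ℝ)) : ℂ) * E (m * l)‖ ≤
      (Nat.log 2 N' + 1 : ℝ) ^ 2 * (D * Lg * R) := by
    apply bil_gen E N N' U hU (fun m => ((betaV U m : ℝ) : ℂ))
      (fun l => (((if U < l then ArithmeticFunction.vonMangoldt l else 0 : ℝ)) : ℂ)) (D * Lg * R) (by positivity)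
    · intro m hm
      rw [betaV_zero U m hm]; norm_num
    · intro l hl
      rw [if_neg (by omega)]; norm_num
    intro M L hM hL hM2 hL2 hML
    have hMN : M ≤ 2 * N := by
      have : M ≤ M * L := Nat.le_mul_of_pos_right _ (by omega)
      omega
    have hLN : L ≤ 2 * N := by
      have : L ≤ M * L := Nat.le_mul_of_pos_left _ (by omega)
      omega
    refine hII _ _ D Lg (by linarith) (by linarith) M L hM hL hM2 hL2 hML ?_ ?_
    · intro m hm
      rw [mem_Ioc] at hm
      rw [Complex.norm_real, Real.norm_eq_abs]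
      exact (betaV_abs U m).trans (hDd m (by omega) (by omega))
    · intro l hl
      rw [mem_Ioc] at hl
      rw [Complex.norm_real, Real.norm_eq_abs]
      split_ifs
      · rw [abs_of_nonneg ArithmeticFunction.vonMangoldt_nonneg]
        refine ArithmeticFunction.vonMangoldt_le_log.trans (hlogle _ ?_ ?_)
        · exact_mod_cast (by omega : 1 ≤ l)
        · exact_mod_cast (by omega : l ≤ 4 * N)
      · rw [abs_zero]; linarith
  -- type I with logarithms
  have hS2 : ‖∑ m ∈ Icc 1 N', ((mu1 U m : ℝ) : ℂ) * ∑ l ∈ Ioc (N / m) (N' / m), ((Real.log l : ℝ) : ℂ) * E (m * l)‖ ≤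
      2 * Lg * ∑ m ∈ Icc 1 U, Y m := by
    have h2 : ∀ m ∈ Icc 1 N', ‖((mu1 U m : ℝ) : ℂ) * ∑ l ∈ Ioc (N / m) (N' / m), ((Real.log l : ℝ) : ℂ) * E (m * l)‖ ≤
        if m ≤ U then 2 * Lg * Y m else 0 := by
      intro m hm
      rw [mem_Icc] at hm
      split_ifs with hmU
      · rw [norm_mul, Complex.norm_real, Real.norm_eq_abs]
        have h3 : |mu1 U m| ≤ 1 := by
          rw [mu1_apply]
          split_ifs
          exact_mod_cast ArithmeticFunction.abs_moebius_le_one
        have h4 : ‖∑ l ∈ Ioc (N / m) (N' / m), ((Real.log l : ℝ) : ℂ) * E (m * l)‖ ≤ 2 * Real.log ((N' / m : ℕ) : ℝ) * Y m := by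
          apply abel_Ioc (N / m) (N' / m) (Nat.div_le_div_right hNN') (fun l : ℕ => Real.log l) (fun l => E (m * l))
          · intro a b hab
            simp only
            rcases Nat.eq_zero_or_pos a with h | h
            · rw [h, Nat.cast_zero, Real.log_zero]; exact Real.log_natCast_nonneg _
            · exact Real.log_le_log (by exact_mod_cast h) (by exact_mod_cast hab)
          · intro n; exact Real.log_natCast_nonneg _
          · intro b' hb'
            exact hI m (mem_Icc.2 ⟨hm.1, hmU⟩) b' hb'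
        have h5 : Real.log ((N' / m : ℕ) : ℝ) ≤ Lg := by
          have h6 : 1 ≤ N' / m := Nat.div_pos hm.2 hm.1
          apply hlogle
          · exact_mod_cast h6
          · have : N' / m ≤ N' := Nat.div_le_self _ _
            exact_mod_cast (by omega : N' / m ≤ 4 * N)
        have hYm := hY0 m
        calc |mu1 U m| * ‖∑ l ∈ Ioc (N / m) (N' / m), ((Real.log l : ℝ) : ℂ) * E (m * l)‖ ≤
              1 * (2 * Real.log ((N' / m : ℕ) : ℝ) * Y m) := mul_le_mul h3 h4 (norm_nonneg _) (by norm_num)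
          _ ≤ 1 * (2 * Lg * Y m) := by gcongr
          _ = _ := by ring
      · rw [mu1_apply, if_neg (by omega)]; simp
    refine (norm_sum_le _ _).trans ((sum_le_sum h2).trans ?_)
    rw [← sum_filter, mul_sum]
    apply sum_le_sum_of_subset_of_nonneg
    · intro m hm; rw [mem_filter, mem_Icc] at hm; rw [mem_Icc]; omega
    · intro m _ _
      have := hY0 m
      positivity
  have hS3 : ‖∑ m ∈ Icc 1 N', (((mu1 U * l1 U) m : ℝ) : ℂ) * ∑ l ∈ Ioc (N / m) (N' / m), E (m * l)‖ ≤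
      Lg * ∑ m ∈ Icc 1 U, Y m + (Nat.log 2 N' + 1 : ℝ) ^ 2 * (Lg * 1 * R) := by
    set a : ℕ → ℂ := fun m => if U < m then (((mu1 U * l1 U) m : ℝ) : ℂ) else 0 with ha
    set b : ℕ → ℂ := fun l => if U < l then 1 else 0 with hb
    have hsplit : ∑ m ∈ Icc 1 N', (((mu1 U * l1 U) m : ℝ) : ℂ) * ∑ l ∈ Ioc (N / m) (N' / m), E (m * l) =
        ∑ m ∈ Icc 1 N', (if m ≤ U then (((mu1 U * l1 U) m : ℝ) : ℂ) * ∑ l ∈ Ioc (N / m) (N' / m), E (m * l) else 0) +
        ∑ m ∈ Icc 1 N', ∑ l ∈ Ioc (N / m) (N' / m), a m * b l * E (m * l) := by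
      rw [← sum_add_distrib]
      refine sum_congr rfl fun m hm => ?_
      rw [mem_Icc] at hm
      by_cases h : m ≤ U
      · rw [if_pos h]
        have h1 : a m = 0 := by simp only [ha]; rw [if_neg (by omega)]
        simp [h1]
      · rw [if_neg h, zero_add]
        have h1 : a m = (((mu1 U * l1 U) m : ℝ) : ℂ) := by simp only [ha]; rw [if_pos (by omega)]
        rw [h1]
        by_cases h2 : U * U < m
        · rw [conv_zero U U m h2]
          simp
        · rw [mul_sum]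
          refine sum_congr rfl fun l hl => ?_
          rw [mem_Ioc] at hl
          have h3 : U ≤ N / m := by
            rw [Nat.le_div_iff_mul_le (by omega)]
            calc U * m ≤ U * (U * U) := Nat.mul_le_mul_left _ (by omega)
              _ = U ^ 3 := by ring
              _ ≤ N := hU3
          have h4 : b l = 1 := by simp only [hb]; rw [if_pos (by omega)]
          rw [h4, mul_one]
    rw [hsplit]
    refine (norm_add_le _ _).trans (add_le_add ?_ ?_)
    · have h2 : ∀ m ∈ Icc 1 N', ‖(if m ≤ U then (((mu1 U * l1 U) m : ℝ) : ℂ) * ∑ l ∈ Ioc (N / m) (N' / m), E (m * l) else 0)‖ ≤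
          if m ≤ U then Lg * Y m else 0 := by
        intro m hm
        rw [mem_Icc] at hm
        split_ifs with hmU
        · rw [norm_mul, Complex.norm_real, Real.norm_eq_abs]
          have h3 : |(mu1 U * l1 U) m| ≤ Lg := (conv_abs_le U U m hm.1).trans (hlogle _ (by exact_mod_cast hm.1) (by
              exact_mod_cast (by omega : m ≤ 4 * N)))
          exact mul_le_mul h3 (hI m (mem_Icc.2 ⟨hm.1, hmU⟩) _ le_rfl) (norm_nonneg _) (by linarith)
        · simp
      refine (norm_sum_le _ _).trans ((sum_le_sum h2).trans ?_)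
      rw [← sum_filter, mul_sum]
      apply sum_le_sum_of_subset_of_nonneg
      · intro m hm; rw [mem_filter, mem_Icc] at hm; rw [mem_Icc]; omega
      · intro m _ _
        have := hY0 m
        positivity
    · apply bil_gen E N N' U hU a b (Lg * 1 * R) (by positivity)
      · intro m hm
        simp only [ha]
        rw [if_neg (by omega)]
      · intro l hl
        simp only [hb]
        rw [if_neg (by omega)]
      intro M L hM hL hM2 hL2 hML
      have hMN : M ≤ 2 * N := by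
        have : M ≤ M * L := Nat.le_mul_of_pos_right _ (by omega)
        omega
      refine hII _ _ Lg 1 (by linarith) (by linarith) M L hM hL hM2 hL2 hML ?_ ?_
      · intro m hm
        rw [mem_Ioc] at hm
        simp only [ha]
        split_ifs
        · rw [Complex.norm_real, Real.norm_eq_abs]
          refine (conv_abs_le U U m (by omega)).trans (hlogle _ ?_ ?_)
          · exact_mod_cast (by omega : 1 ≤ m)
          · exact_mod_cast (by omega : m ≤ 4 * N)
        · rw [norm_zero]; linarith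
      · intro l hl
        simp only [hb]
        split_ifs <;> simp
  refine (norm_sub_le _ _).trans ?_
  refine (add_le_add (norm_add_le _ _) le_rfl).trans ?_
  have h7 : (Nat.log 2 N' + 1 : ℝ) ^ 2 * (D * Lg * R) ≤ 4 * Lg ^ 3 * D * R := by
    calc (Nat.log 2 N' + 1 : ℝ) ^ 2 * (D * Lg * R) ≤ (4 * Lg ^ 2) * (D * Lg * R) := by
          apply mul_le_mul_of_nonneg_right hlogsq (by positivity)
      _ = _ := by ring
  have h8 : (Nat.log 2 N' + 1 : ℝ) ^ 2 * (Lg * 1 * R) ≤ 4 * Lg ^ 3 * D * R := by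
    calc (Nat.log 2 N' + 1 : ℝ) ^ 2 * (Lg * 1 * R) ≤ (4 * Lg ^ 2) * (Lg * D * R) := by
          gcongr
      _ = _ := by ring
  linarith

end Pool.Agent.H2
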