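import Mathlib
import Pool.Agent.H2.Cut
import Pool.Agent.H2.VauS
import Pool.Agent.H2.TyI

/-!
The sums of `Λ(n) e (h √n)` on average over `h` (helper2).
-/

set_option autoImplicit false

namespace Pool.Agent.H2

open Finset Filter Topology
open Pool.Agent.H469R2.NK (e norm_e e_add e_zero)

lemma VV_eq {w : ℝ} (hw : 0 < w) (H : ℕ) : VV w H = w ^ 4 * √(H : ℝ) / √w + √(H : ℝ) ^ 4 * w ^ 2 := by
  unfold VV
  have h1 : √(H : ℝ) ^ 4 = (H : ℝ) ^ 2 := by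
    rw [show (4 : ℕ) = 2 * 2 by norm_num, pow_mul, Real.sq_sqrt (Nat.cast_nonneg _)]
  rw [Real.sqrt_div (Nat.cast_nonneg _), h1]
  have h2 : √w ≠ 0 := (Real.sqrt_pos.2 hw).ne'
  field_simp

/-- the bound of the sums over primes, averaged over the frequencies -/
theorem lam1 {N N' H : ℕ} {w D Lg : ℝ} (hN : 1 ≤ N) (hw : 1 ≤ w) (hwN : w ^ 4 = N)
    (hNN' : N ≤ N') (hN' : N' ≤ 2 * N) (hH : 1 ≤ H) (hHN : 2 * H ≤ 4 * N) (hD : 1 ≤ D)
    (hLg : Lg = 1 + Real.log (4 * N))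
    (hDd : ∀ m, 1 ≤ m → m ≤ 4 * N → (m.divisors.card : ℝ) ≤ D)
    (ω : ℕ → ℂ) (hω : ∀ h, ‖ω h‖ ≤ 1) :
    ‖∑ n ∈ Ioc N N', ((ArithmeticFunction.vonMangoldt n : ℝ) : ℂ) *
      ∑ h ∈ Ico H (2 * H), ω h * e ((h : ℝ) * √(n : ℝ))‖ ≤ 100000 * Lg ^ 4 * D * VV w H := by
  classical
  have hN0 : (1 : ℝ) ≤ N := by exact_mod_cast hN
  have hHr : (1 : ℝ) ≤ H := by exact_mod_cast hH
  have hlog4N : 0 ≤ Real.log (4 * (N : ℝ)) := Real.log_nonneg (by linarith)
  have hLg1 : 1 ≤ Lg := by linarith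
  have hw0 : 0 < w := by linarith
  have hV0 : 0 ≤ VV w H := VV_nonneg hw0.le H
  obtain ⟨U, hU⟩ : ∃ U, U = ⌊w⌋₊ := ⟨_, rfl⟩
  have hUw : (U : ℝ) ≤ w := by rw [hU]; exact Nat.floor_le hw0.le
  have hwU : w < U + 1 := by rw [hU]; exact Nat.lt_floor_add_one _
  have hU1 : 1 ≤ U := by rw [hU]; exact Nat.le_floor (by push_cast; exact hw)
  have hU3 : U ^ 3 ≤ N := by
    have h1 : (U : ℝ) ^ 3 ≤ N := by
      rw [← hwN]
      calc (U : ℝ) ^ 3 ≤ w ^ 3 := by gcongr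
        _ ≤ w ^ 4 := pow_le_pow_right₀ hw (by norm_num)
    exact_mod_cast h1
  set E : ℕ → ℂ := fun n => ∑ h ∈ Ico H (2 * H), ω h * e ((h : ℝ) * √(n : ℝ)) with hE
  set Y : ℕ → ℝ := fun m => ∑ h ∈ Ico H (2 * H), 50 * (√(h : ℝ) * w + w ^ 3 / (√(h : ℝ) * m)) with hY
  have hY0 : ∀ m, 0 ≤ Y m := fun m => sum_nonneg fun h _ => by positivity
  have hI : ∀ m ∈ Icc 1 U, ∀ b, b ≤ N' / m → ‖∑ l ∈ Ioc (N / m) b, E (m * l)‖ ≤ Y m := by
    intro m hm b hb
    rw [mem_Icc] at hm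
    have hmw : (m : ℝ) ≤ w := le_trans (by exact_mod_cast hm.2) hUw
    simp only [hE, hY]
    rw [sum_comm]
    refine (norm_sum_le _ _).trans (sum_le_sum fun h hh => ?_)
    rw [mem_Ico] at hh
    rw [← mul_sum, norm_mul]
    have h1 := tyI (N := N) (N' := N') (m := m) (h := h) (b := b) (w := w) hm.1 hw hwN hmw hN' (by omega)
      (by omega) hb
    calc ‖ω h‖ * ‖∑ l ∈ Ioc (N / m) b, e ((h : ℝ) * √((m * l : ℕ) : ℝ))‖ ≤
          1 * ‖∑ l ∈ Ioc (N / m) b, e ((h : ℝ) * √((m * l : ℕ) : ℝ))‖ := by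
          gcongr
          exact hω h
      _ ≤ _ := by rw [one_mul]; exact h1
  have hlog3 : ∀ L : ℕ, 1 ≤ L → L ≤ 2 * N → 2 + Real.log (3 * (L : ℝ)) ≤ 4 * Lg := by
    intro L hL hLN
    have h0 : (1 : ℝ) ≤ L := by exact_mod_cast hL
    have h1 : Real.log (3 * (L : ℝ)) ≤ Real.log (2 * (4 * N)) := by
      apply Real.log_le_log (by positivity)
      have : (L : ℝ) ≤ 2 * N := by exact_mod_cast hLN
      linarith
    have h3 : Real.log (2 * (4 * (N : ℝ))) = Real.log 2 + Real.log (4 * N) :=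
      Real.log_mul (by norm_num) (by positivity)
    rw [h3] at h1
    have h2 := Real.log_two_lt_d9
    linarith
  have hML2N : ∀ M L : ℕ, 1 ≤ M → M * L ≤ N' → L ≤ 2 * N := by
    intro M L hM hML
    have : L ≤ M * L := Nat.le_mul_of_pos_left _ (by omega)
    omega
  have hII : ∀ (a b : ℕ → ℂ) (A B : ℝ), 0 ≤ A → 0 ≤ B → ∀ M L : ℕ, 1 ≤ M → 1 ≤ L → U < 2 * M →
      U < 2 * L → M * L ≤ N' → (∀ m ∈ Ioc M (2 * M), ‖a m‖ ≤ A) → (∀ l ∈ Ioc L (2 * L), ‖b l‖ ≤ B) →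
      ‖∑ m ∈ Ioc M (2 * M), ∑ l ∈ Ioc L (2 * L), a m * b l *
        (if N < m * l ∧ m * l ≤ N' then E (m * l) else 0)‖ ≤ A * B * (12000 * Lg * VV w H) := by
    intro a b A B hA hB M L hM hL hUM hUL hML ha hb
    rcases Nat.le_total M L with hMLe | hMLe
    · have hwM : w ≤ 2 * M := by
        have : (U : ℝ) + 1 ≤ 2 * M := by exact_mod_cast hUM
        linarith
      have hMLw : (M : ℝ) * L ≤ 2 * w ^ 4 := by
        rw [hwN]
        exact_mod_cast hML.trans hN'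
      have h1 := bilB (N := N) (N' := N') hH hM hMLe hw hwM hMLw hNN' ω a b hA hB hω ha hb
      refine h1.trans ?_
      have h2 := hlog3 L hL (hML2N M L hM hML)
      calc 3000 * (A * B) * VV w H * (2 + Real.log (3 * (L : ℝ))) ≤
            3000 * (A * B) * VV w H * (4 * Lg) := by gcongr
        _ = _ := by ring
    · have hwM : w ≤ 2 * L := by
        have : (U : ℝ) + 1 ≤ 2 * L := by exact_mod_cast hUL
        linarith
      have hMLw : (L : ℝ) * M ≤ 2 * w ^ 4 := by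
        rw [hwN, mul_comm]
        exact_mod_cast hML.trans hN'
      have h1 := bilB (N := N) (N' := N') hH hL hMLe hw hwM hMLw hNN' ω b a hB hA hω hb ha
      have h3 : ∑ m ∈ Ioc M (2 * M), ∑ l ∈ Ioc L (2 * L), a m * b l *
          (if N < m * l ∧ m * l ≤ N' then E (m * l) else 0) =
          ∑ l ∈ Ioc L (2 * L), ∑ m ∈ Ioc M (2 * M), b l * a m *
          (if N < l * m ∧ l * m ≤ N' then E (l * m) else 0) := by
        rw [sum_comm]
        refine sum_congr rfl fun l _ => sum_congr rfl fun m _ => ?_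
        rw [mul_comm m l, mul_comm (a m) (b l)]
      rw [h3]
      refine h1.trans ?_
      have h2 := hlog3 M hM (hML2N L M hL (by rw [mul_comm]; exact hML))
      calc 3000 * (B * A) * VV w H * (2 + Real.log (3 * (M : ℝ))) ≤
            3000 * (B * A) * VV w H * (4 * Lg) := by gcongr
        _ = _ := by ring
  have hmain := vauS E N N' U hN hNN' hN' hU1 hU3 Y (12000 * Lg * VV w H) D Lg (by positivity) hD hLg
    hDd hY0 hI hII
  refine hmain.trans ?_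
  -- the sum of the `Y m`
  have hYs : ∑ m ∈ Icc 1 U, Y m ≤ 150 * Lg * VV w H := by
    set η := √(H : ℝ) with hη
    have hη2 : η ^ 2 = H := Real.sq_sqrt (by positivity)
    have hη1 : 1 ≤ η := Real.one_le_sqrt.2 hHr
    have hη0 : 0 < η := by linarith
    have h1 : ∀ m ∈ Icc 1 U, Y m ≤ 100 * (η ^ 3 * w) + 50 * (η * w ^ 3) * (1 / (m : ℝ)) := by
      intro m hm
      rw [mem_Icc] at hm
      have hm0 : (0 : ℝ) < m := by exact_mod_cast hm.1
      simp only [hY]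
      have h2 : ∀ h ∈ Ico H (2 * H), 50 * (√(h : ℝ) * w + w ^ 3 / (√(h : ℝ) * m)) ≤
          50 * (2 * η * w + w ^ 3 / (η * m)) := by
        intro h hh
        rw [mem_Ico] at hh
        have h3 : √(h : ℝ) ≤ 2 * η := by
          have h4 : √(h : ℝ) ≤ √(4 * (H : ℝ)) := by
            apply Real.sqrt_le_sqrt
            have : (h : ℝ) ≤ 2 * H := by exact_mod_cast hh.2.le
            linarith
          rw [Real.sqrt_mul (by norm_num), show √(4 : ℝ) = 2 by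
            rw [show (4 : ℝ) = 2 ^ 2 by norm_num, Real.sqrt_sq (by norm_num)]] at h4
          exact h4
        have h5 : η ≤ √(h : ℝ) := Real.sqrt_le_sqrt (by exact_mod_cast hh.1)
        gcongr
      refine (sum_le_sum h2).trans ?_
      rw [sum_const, Nat.card_Ico, nsmul_eq_mul, show 2 * H - H = H by omega, ← hη2]
      apply le_of_eq
      field_simp
      ring
    refine (sum_le_sum h1).trans ?_
    rw [sum_add_distrib, sum_const, Nat.card_Icc, nsmul_eq_mul, Nat.add_sub_cancel, ← mul_sum]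
    have h2 : ∑ m ∈ Icc 1 U, 1 / (m : ℝ) ≤ 1 + Real.log U := by
      have h3 := harmonic_le_one_add_log U
      rw [harmonic_eq_sum_Icc] at h3
      push_cast at h3
      simpa [one_div] using h3
    have h4 : Real.log U ≤ Real.log (4 * N) := by
      apply Real.log_le_log (by exact_mod_cast hU1)
      have h5 : U ≤ U ^ 3 := Nat.le_self_pow (by norm_num) U
      exact_mod_cast (by omega : U ≤ 4 * N)
    have h5 : ∑ m ∈ Icc 1 U, 1 / (m : ℝ) ≤ Lg := by linarith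
    have hVe := VV_eq hw0 H
    rw [← hη] at hVe
    have hsw : √w ≤ w := by
      rw [Real.sqrt_le_left hw0.le]
      nlinarith
    have hsw0 : 0 < √w := Real.sqrt_pos.2 hw0
    have h6 : η * w ^ 3 ≤ VV w H := by
      rw [hVe]
      have h7 : η * w ^ 3 ≤ w ^ 4 * η / √w := by
        rw [le_div_iff₀ hsw0]
        calc η * w ^ 3 * √w ≤ η * w ^ 3 * w := by gcongr
          _ = _ := by ring
      have h8 : 0 ≤ η ^ 4 * w ^ 2 := by positivity
      linarith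
    have h7 : η ^ 3 * w ^ 2 ≤ VV w H := by
      rw [hVe]
      have h8 : 0 ≤ w ^ 4 * η / √w := by positivity
      have h9 : η ^ 3 * w ^ 2 ≤ η ^ 4 * w ^ 2 :=
        mul_le_mul_of_nonneg_right (pow_le_pow_right₀ hη1 (by norm_num)) (by positivity)
      linarith
    calc (U : ℝ) * (100 * (η ^ 3 * w)) + 50 * (η * w ^ 3) * ∑ m ∈ Icc 1 U, 1 / (m : ℝ) ≤
          w * (100 * (η ^ 3 * w)) + 50 * (η * w ^ 3) * Lg := by gcongr
      _ = 100 * (η ^ 3 * w ^ 2) + 50 * (η * w ^ 3) * Lg := by ring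
      _ ≤ 100 * VV w H + 50 * VV w H * Lg := by gcongr
      _ ≤ 150 * Lg * VV w H := by nlinarith
  have h1 : Lg ^ 2 ≤ Lg ^ 4 := pow_le_pow_right₀ hLg1 (by norm_num)
  calc 8 * Lg ^ 3 * D * (12000 * Lg * VV w H) + 3 * Lg * ∑ m ∈ Icc 1 U, Y m ≤
        8 * Lg ^ 3 * D * (12000 * Lg * VV w H) + 3 * Lg * (150 * Lg * VV w H) := by gcongr
    _ = 96000 * Lg ^ 4 * D * VV w H + 450 * (Lg ^ 2 * 1 * VV w H) := by ring
    _ ≤ 96000 * Lg ^ 4 * D * VV w H + 450 * (Lg ^ 4 * D * VV w H) := by gcongr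
    _ ≤ _ := by
        have : 0 ≤ Lg ^ 4 * D * VV w H := by positivity
        nlinarith

/-- **the sums over the primes**, averaged over the frequencies -/
theorem lamH (ε : ℝ) (hε : 0 < ε) : ∃ N0 : ℕ, ∀ N : ℕ, N0 ≤ N → ∀ N' H : ℕ, N ≤ N' → N' ≤ 2 * N →
    1 ≤ H → 2 * H ≤ 4 * N → ∀ ω : ℕ → ℂ, (∀ h, ‖ω h‖ ≤ 1) →
    ‖∑ n ∈ Ioc N N', ((ArithmeticFunction.vonMangoldt n : ℝ) : ℂ) *
      ∑ h ∈ Ico H (2 * H), ω h * e ((h : ℝ) * √(n : ℝ))‖ ≤
      (N : ℝ) ^ ε * VV ((N : ℝ) ^ (1 / 4 : ℝ)) H := by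
  obtain ⟨C, hC, hCd⟩ := Pool.Agent.Helper112.divisor_bound (ε / 4) (by positivity)
  have e1 := (isLittleO_log_rpow_atTop (show (0 : ℝ) < ε / 16 by positivity)).def
    (show (0 : ℝ) < 1 by norm_num)
  have hev : ∀ᶠ x : ℝ in atTop, 1 + Real.log (4 * x) ≤ (4 * x) ^ (ε / 16) * 2 ∧
      1600000 * C * 4 ^ (ε / 2) ≤ x ^ (ε / 2) ∧ 1 ≤ x := by
    have e2 : Tendsto (fun x : ℝ => 4 * x) atTop atTop :=
      tendsto_id.const_mul_atTop (by norm_num : (0 : ℝ) < 4)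
    have e3 := e2.eventually e1
    filter_upwards [e3, (tendsto_rpow_atTop (show (0 : ℝ) < ε / 2 by positivity)).eventually_ge_atTop
      (1600000 * C * 4 ^ (ε / 2)), eventually_ge_atTop (1 : ℝ)] with x h1 h2 h3
    refine ⟨?_, h2, h3⟩
    rw [Real.norm_eq_abs, Real.norm_eq_abs, one_mul, abs_of_nonneg (a := (4 * x) ^ (ε / 16))
      (by positivity)] at h1
    have h4 := (le_abs_self _).trans h1
    have h5 : 1 ≤ (4 * x) ^ (ε / 16) := Real.one_le_rpow (by linarith) (by positivity)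
    linarith
  obtain ⟨N0, hN0⟩ := eventually_atTop.1 (tendsto_natCast_atTop_atTop.eventually hev)
  refine ⟨N0, fun N hN N' H hNN' hN' hH hHN ω hω => ?_⟩
  obtain ⟨h1, h2, h3⟩ := hN0 N hN
  have hN1 : 1 ≤ N := by exact_mod_cast h3
  have hNpos : (0 : ℝ) < N := by linarith
  have hC1 : 1 ≤ C := by
    have := hCd 1 le_rfl
    simpa using this
  have hw1 : 1 ≤ (N : ℝ) ^ (1 / 4 : ℝ) := Real.one_le_rpow h3 (by norm_num)
  have hwN : ((N : ℝ) ^ (1 / 4 : ℝ)) ^ 4 = N := by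
    rw [← Real.rpow_natCast, ← Real.rpow_mul hNpos.le]
    norm_num
  have h4N : (1 : ℝ) ≤ 4 * N := by linarith
  have hD : ∀ m, 1 ≤ m → m ≤ 4 * N → (m.divisors.card : ℝ) ≤ C * (4 * N : ℝ) ^ (ε / 4) := by
    intro m hm hmN
    refine (hCd m hm).trans ?_
    gcongr
    exact_mod_cast hmN
  have hD1 : 1 ≤ C * (4 * N : ℝ) ^ (ε / 4) := by
    have h5 : 1 ≤ (4 * N : ℝ) ^ (ε / 4) := Real.one_le_rpow h4N (by positivity)
    nlinarith
  have hmain := lam1 (N := N) (N' := N') (H := H) (D := C * (4 * N : ℝ) ^ (ε / 4))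
    (Lg := 1 + Real.log (4 * N)) hN1 hw1 hwN hNN' hN' hH hHN hD1 rfl hD ω hω
  refine hmain.trans ?_
  have hV0 : 0 ≤ VV ((N : ℝ) ^ (1 / 4 : ℝ)) H := VV_nonneg (by positivity) H
  apply mul_le_mul_of_nonneg_right _ hV0
  have hL0 : 0 ≤ 1 + Real.log (4 * (N : ℝ)) := by
    have := Real.log_nonneg h4N
    linarith
  have h6 : (1 + Real.log (4 * (N : ℝ))) ^ 4 ≤ 16 * (4 * (N : ℝ)) ^ (ε / 4) := by
    calc (1 + Real.log (4 * (N : ℝ))) ^ 4 ≤ ((4 * (N : ℝ)) ^ (ε / 16) * 2) ^ 4 := by gcongr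
      _ = 16 * ((4 * (N : ℝ)) ^ (ε / 16)) ^ 4 := by ring
      _ = 16 * (4 * (N : ℝ)) ^ (ε / 4) := by
          rw [← Real.rpow_natCast ((4 * (N : ℝ)) ^ (ε / 16)), ← Real.rpow_mul (by positivity)]
          congr 2
          push_cast
          ring
  calc 100000 * (1 + Real.log (4 * (N : ℝ))) ^ 4 * (C * (4 * (N : ℝ)) ^ (ε / 4)) ≤
        100000 * (16 * (4 * (N : ℝ)) ^ (ε / 4)) * (C * (4 * (N : ℝ)) ^ (ε / 4)) := by gcongr
    _ = 1600000 * C * ((4 * (N : ℝ)) ^ (ε / 4) * (4 * (N : ℝ)) ^ (ε / 4)) := by ring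
    _ = 1600000 * C * (4 ^ (ε / 2) * (N : ℝ) ^ (ε / 2)) := by
        rw [← Real.rpow_add (by positivity), ← Real.mul_rpow (by norm_num) hNpos.le]
        congr 2
        ring
    _ = (1600000 * C * 4 ^ (ε / 2)) * (N : ℝ) ^ (ε / 2) := by ring
    _ ≤ (N : ℝ) ^ (ε / 2) * (N : ℝ) ^ (ε / 2) := by gcongr
    _ = (N : ℝ) ^ ε := by
        rw [← Real.rpow_add hNpos]
        congr 1
        ring

end Pool.Agent.H2
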