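import Mathlib
import Pool.Graph.R_pool_sql_team_seeded_63374d34.N792.QD

/-!
Sums over triangle functions from bounds for blocks of frequencies (helper2).
-/

set_option autoImplicit false

namespace Pool.Agent.H2

open Finset Filter Topology
open Pool.Agent.H469R2.NK (e norm_e e_add e_zero)
open Pool.Agent.N792 (tri triC tri_hasSum triC_nonneg triC_le_one triC_le_two qd_dyadic qd_tail qdTau
  qdTau_pos qdTau_sum2)

/-- the coefficients against a square root -/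
lemma tau_sqrt {δ : ℝ} (hδ : 0 < δ) (i : ℕ) : qdTau δ i * √((2 : ℝ) ^ i) ≤ 2 * √δ := by
  have hx : (0 : ℝ) < 2 ^ i := by positivity
  set x : ℝ := 2 ^ i with hxd
  set s := √x with hs
  set t := √δ with ht
  have hs2 : s ^ 2 = x := Real.sq_sqrt hx.le
  have ht2 : t ^ 2 = δ := Real.sq_sqrt hδ.le
  have hs0 : 0 < s := Real.sqrt_pos.2 hx
  have ht0 : 0 < t := Real.sqrt_pos.2 hδ
  rcases le_total (s * t) 1 with h | h
  · calc qdTau δ i * s ≤ (2 * δ) * s := mul_le_mul_of_nonneg_right (min_le_left _ _) hs0.le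
      _ = 2 * t * (s * t) := by rw [← ht2]; ring
      _ ≤ 2 * t * 1 := by gcongr
      _ = 2 * t := by ring
  · calc qdTau δ i * s ≤ (2 / (9 * x ^ 2 * δ)) * s :=
          mul_le_mul_of_nonneg_right (min_le_right _ _) hs0.le
      _ = 2 / 9 * t * (1 / (s * t) ^ 3) := by
          rw [← ht2, ← hs2]
          field_simp
      _ ≤ 2 / 9 * t * 1 := by
          gcongr
          rw [div_le_one (by positivity)]
          exact one_le_pow₀ h
      _ ≤ 2 * t := by linarith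

/-- **sums over the triangle functions** from bounds for blocks of frequencies -/
theorem q5 {ι : Type*} (s : Finset ι) (w θ : ι → ℝ) (δ A5 A3 A4 : ℝ) (K : ℕ) (hδ : 0 < δ)
    (hδ2 : δ ≤ 1 / 2) (hK1 : 1 ≤ K) (hA5 : 0 ≤ A5) (hA3 : 0 ≤ A3) (hA4 : 0 ≤ A4)
    (hB2 : ∀ (H : ℕ) (ω : ℕ → ℂ), 1 ≤ H → H ≤ K → (∀ h, ‖ω h‖ ≤ 1) →
      ‖∑ h ∈ Ico H (2 * H), ω h * ∑ i ∈ s, (w i : ℂ) * e (h * θ i)‖ ≤ A5 * √(H : ℝ) + A3 * (H : ℝ) ^ 2)
    (hB3 : ∀ h : ℕ, ‖∑ i ∈ s, (w i : ℂ) * e (h * θ i)‖ ≤ A4) :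
    |∑ i ∈ s, w i * tri δ (θ i) - δ * ∑ i ∈ s, w i| ≤
      4 * (A5 * √δ * (1 + Real.log K)) + (A3 * (1 + Real.log K) / δ + A4 / (δ * K)) := by
  have hS : HasSum (fun n : ℕ => triC δ n * ∑ i ∈ s, w i * Real.cos (2 * Real.pi * n * θ i))
      (∑ i ∈ s, w i * tri δ (θ i) - δ * ∑ i ∈ s, w i) := by
    have h1 : HasSum (fun n : ℕ => ∑ i ∈ s, w i * (triC δ n * Real.cos (2 * Real.pi * n * θ i)))
        (∑ i ∈ s, w i * (tri δ (θ i) - δ)) :=
      hasSum_sum fun i _ => (tri_hasSum hδ hδ2 (θ i)).mul_left (w i)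
    have e1 : (∑ i ∈ s, w i * (tri δ (θ i) - δ)) = ∑ i ∈ s, w i * tri δ (θ i) - δ * ∑ i ∈ s, w i := by
      simp only [mul_sub, Finset.sum_sub_distrib, Finset.mul_sum]
      congr 1
      exact Finset.sum_congr rfl fun i _ => mul_comm _ _
    rw [e1] at h1
    have e2 : (fun n : ℕ => triC δ n * ∑ i ∈ s, w i * Real.cos (2 * Real.pi * n * θ i)) =
        (fun n : ℕ => ∑ i ∈ s, w i * (triC δ n * Real.cos (2 * Real.pi * n * θ i))) := by
      funext n
      rw [Finset.mul_sum]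
      exact Finset.sum_congr rfl fun i _ => by ring
    rw [e2]
    exact h1
  obtain ⟨T, hT⟩ : ∃ T : ℕ → ℂ, T = fun n : ℕ => ∑ i ∈ s, (w i : ℂ) * e (n * θ i) := ⟨_, rfl⟩
  have hre : ∀ n : ℕ, (∑ i ∈ s, w i * Real.cos (2 * Real.pi * n * θ i)) = (T n).re := by
    intro n
    rw [hT]
    simp only
    rw [Complex.re_sum]
    refine Finset.sum_congr rfl fun i _ => ?_
    rw [Complex.re_ofReal_mul]
    congr 1
    unfold e
    rw [Complex.exp_ofReal_mul_I_re]
    congr 1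
    ring
  simp only [hre] at hS
  have hT2 : ∀ (H : ℕ) (ω : ℕ → ℂ), 1 ≤ H → H ≤ K → (∀ h, ‖ω h‖ ≤ 1) →
      ‖∑ h ∈ Ico H (2 * H), ω h * T h‖ ≤ A5 * √(H : ℝ) + A3 * (H : ℝ) ^ 2 := by
    intro H ω h1 h2 h3; rw [hT]; exact hB2 H ω h1 h2 h3
  have hT3 : ∀ h : ℕ, ‖T h‖ ≤ A4 := by
    intro h; rw [hT]; exact hB3 h
  have hK0 : (0 : ℝ) < K := by exact_mod_cast hK1
  have hlogK : 0 ≤ Real.log K := Real.log_nonneg (by exact_mod_cast hK1)
  obtain ⟨I1, hI1a, hI1b⟩ : ∃ I1 : ℕ, K < 2 ^ (I1 + 1) ∧ 2 ^ I1 ≤ K := by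
    exact ⟨Nat.log 2 K, Nat.lt_pow_succ_log_self (by norm_num) K, Nat.pow_log_le_self 2 (by omega)⟩
  have hc : ((I1 + 1 : ℕ) : ℝ) ≤ 2 * (1 + Real.log K) := by
    have hlog : (I1 : ℝ) * Real.log 2 ≤ Real.log K := by
      rw [← Real.log_pow]
      apply Real.log_le_log (by positivity)
      exact_mod_cast hI1b
    have hl2 : (1 / 2 : ℝ) < Real.log 2 := by linarith [Real.log_two_gt_d9]
    have hI1r : (I1 : ℝ) ≤ 2 * Real.log K := by
      have : (0 : ℝ) ≤ I1 := Nat.cast_nonneg _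
      nlinarith
    push_cast; linarith
  -- part two
  have hP2 : |∑ h ∈ Ico (2 ^ 0) (2 ^ (I1 + 1)), triC δ h * (T h).re| ≤
      4 * (A5 * √δ * (1 + Real.log K)) + (4 / 9) * (A3 * (1 + Real.log K) / δ) := by
    rw [qd_dyadic _ _ _ (Nat.zero_le _)]
    have hblock : ∀ i ∈ Ico 0 (I1 + 1), |∑ h ∈ Ico (2 ^ i) (2 * 2 ^ i), triC δ h * (T h).re| ≤
        A5 * (2 * √δ) + A3 * (qdTau δ i * (2 ^ i) ^ 2) := by
      intro i hi
      rw [Finset.mem_Ico] at hi
      have hτ := qdTau_pos hδ i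
      have hb1 : 1 ≤ 2 ^ i := Nat.one_le_two_pow
      have hb2 : 2 ^ i ≤ K := (Nat.pow_le_pow_right (by norm_num) (by omega)).trans hI1b
      have h1 := hT2 (2 ^ i) (fun h => if 2 ^ i ≤ h then ((triC δ h / qdTau δ i : ℝ) : ℂ) else 0)
        hb1 hb2 (by
          intro h
          split_ifs with hh
          · rw [Complex.norm_real, Real.norm_eq_abs, abs_div, abs_of_nonneg (triC_nonneg hδ h),
              abs_of_pos hτ, div_le_one hτ]
            unfold qdTau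
            apply le_min (triC_le_one hδ h)
            have hpos : 0 < 2 ^ i := by positivity
            have hh0 : h ≠ 0 := by omega
            refine (triC_le_two hδ h hh0).trans ?_
            have hh' : (2 : ℝ) ^ i ≤ h := by exact_mod_cast hh
            apply div_le_div_of_nonneg_left (by norm_num) (by positivity)
            gcongr
          · simp)
      have h2 : ∑ h ∈ Ico (2 ^ i) (2 * 2 ^ i), triC δ h * (T h).re =
          (qdTau δ i * ∑ h ∈ Ico (2 ^ i) (2 * 2 ^ i),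
            ((if 2 ^ i ≤ h then ((triC δ h / qdTau δ i : ℝ) : ℂ) else 0) * T h)).re := by
        rw [Complex.re_ofReal_mul, Complex.re_sum, Finset.mul_sum]
        refine Finset.sum_congr rfl fun h hh => ?_
        rw [Finset.mem_Ico] at hh
        rw [if_pos hh.1, Complex.re_ofReal_mul]
        field_simp
      rw [h2]
      refine (Complex.abs_re_le_norm _).trans ?_
      rw [norm_mul, Complex.norm_real, Real.norm_eq_abs, abs_of_pos hτ]
      have h3 := tau_sqrt hδ i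
      calc qdTau δ i * ‖∑ h ∈ Ico (2 ^ i) (2 * 2 ^ i),
            ((if 2 ^ i ≤ h then ((triC δ h / qdTau δ i : ℝ) : ℂ) else 0) * T h)‖
          ≤ qdTau δ i * (A5 * √((2 ^ i : ℕ) : ℝ) + A3 * ((2 ^ i : ℕ) : ℝ) ^ 2) :=
            mul_le_mul_of_nonneg_left h1 hτ.le
        _ = A5 * (qdTau δ i * √((2 : ℝ) ^ i)) + A3 * (qdTau δ i * (2 ^ i) ^ 2) := by push_cast; ring
        _ ≤ _ := by gcongr
    calc |∑ i ∈ Ico 0 (I1 + 1), ∑ h ∈ Ico (2 ^ i) (2 * 2 ^ i), triC δ h * (T h).re|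
        ≤ ∑ i ∈ Ico 0 (I1 + 1), |∑ h ∈ Ico (2 ^ i) (2 * 2 ^ i), triC δ h * (T h).re| :=
          Finset.abs_sum_le_sum_abs _ _
      _ ≤ ∑ i ∈ Ico 0 (I1 + 1), (A5 * (2 * √δ) + A3 * (qdTau δ i * (2 ^ i) ^ 2)) :=
          Finset.sum_le_sum hblock
      _ = ((I1 + 1 : ℕ) : ℝ) * (A5 * (2 * √δ)) +
          A3 * ∑ i ∈ Ico 0 (I1 + 1), qdTau δ i * (2 ^ i) ^ 2 := by
          rw [Finset.sum_add_distrib, Finset.sum_const, Nat.card_Ico, nsmul_eq_mul, Nat.sub_zero,
            Finset.mul_sum]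
      _ ≤ (2 * (1 + Real.log K)) * (A5 * (2 * √δ)) + A3 * (((I1 + 1 : ℕ) : ℝ) * (2 / (9 * δ))) := by
          apply add_le_add
          · exact mul_le_mul_of_nonneg_right hc (by positivity)
          · exact mul_le_mul_of_nonneg_left (qdTau_sum2 hδ _ _) hA3
      _ ≤ 4 * (A5 * √δ * (1 + Real.log K)) + (4 / 9) * (A3 * (1 + Real.log K) / δ) := by
          have : ((I1 + 1 : ℕ) : ℝ) * (2 / (9 * δ)) ≤ 2 * (1 + Real.log K) * (2 / (9 * δ)) :=
            mul_le_mul_of_nonneg_right hc (by positivity)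
          have h5 : A3 * (((I1 + 1 : ℕ) : ℝ) * (2 / (9 * δ))) ≤
              A3 * (2 * (1 + Real.log K) * (2 / (9 * δ))) := mul_le_mul_of_nonneg_left this hA3
          have h6 : A3 * (2 * (1 + Real.log K) * (2 / (9 * δ))) =
              (4 / 9) * (A3 * (1 + Real.log K) / δ) := by
            field_simp
            ring
          linarith
  -- part three
  have hP3 : ∀ N : ℕ, 2 ^ (I1 + 1) ≤ N → ∑ h ∈ Ico (2 ^ (I1 + 1)) N, |triC δ h * (T h).re| ≤
      A4 / (δ * K) := by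
    intro N hN
    have h1 : ∀ h ∈ Ico (2 ^ (I1 + 1)) N, |triC δ h * (T h).re| ≤
        (2 / (9 * δ) * A4) * (1 / (h : ℝ) ^ 2) := by
      intro h hh
      rw [Finset.mem_Ico] at hh
      have hh0 : h ≠ 0 := by omega
      have hh1 : (0 : ℝ) < h := by positivity
      rw [abs_mul, abs_of_nonneg (triC_nonneg hδ h)]
      have a1 := (Complex.abs_re_le_norm (T h)).trans (hT3 h)
      calc triC δ h * |(T h).re| ≤ (2 / (9 * (h : ℝ) ^ 2 * δ)) * A4 :=
            mul_le_mul (triC_le_two hδ h hh0) a1 (abs_nonneg _) (by positivity)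
        _ = _ := by field_simp
    calc ∑ h ∈ Ico (2 ^ (I1 + 1)) N, |triC δ h * (T h).re|
        ≤ ∑ h ∈ Ico (2 ^ (I1 + 1)) N, (2 / (9 * δ) * A4) * (1 / (h : ℝ) ^ 2) := Finset.sum_le_sum h1
      _ = (2 / (9 * δ) * A4) * ∑ h ∈ Ico (2 ^ (I1 + 1)) N, 1 / (h : ℝ) ^ 2 := by rw [Finset.mul_sum]
      _ ≤ (2 / (9 * δ) * A4) * ∑ h ∈ Ico (K + 1) N, 1 / (h : ℝ) ^ 2 := by
          apply mul_le_mul_of_nonneg_left _ (by positivity)
          apply Finset.sum_le_sum_of_subset_of_nonneg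
          · exact Finset.Ico_subset_Ico_left (by omega)
          · intro i _ _; positivity
      _ ≤ (2 / (9 * δ) * A4) * (1 / (K : ℝ)) := by
          apply mul_le_mul_of_nonneg_left _ (by positivity)
          have h2 := qd_tail K N hK1 (by omega)
          have h3 : 0 ≤ 1 / ((N : ℝ) - 1) := by
            apply div_nonneg (by norm_num)
            have : (1 : ℝ) ≤ N := by
              have : 1 ≤ N := by omega
              exact_mod_cast this
            linarith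
          linarith
      _ = (2 / 9) * (A4 / (δ * K)) := by field_simp
      _ ≤ A4 / (δ * K) := by
          have : 0 ≤ A4 / (δ * K) := by positivity
          linarith
  refine le_of_tendsto (hS.tendsto_sum_nat.abs) ?_
  filter_upwards [eventually_ge_atTop (2 ^ (I1 + 1))] with N hN
  have hsplit : ∑ h ∈ range N, triC δ h * (T h).re =
      ∑ h ∈ Ico (2 ^ 0) (2 ^ (I1 + 1)), triC δ h * (T h).re +
      ∑ h ∈ Ico (2 ^ (I1 + 1)) N, triC δ h * (T h).re := by
    have b1 : 2 ^ 0 ≤ 2 ^ (I1 + 1) := Nat.pow_le_pow_right (by norm_num) (Nat.zero_le _)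
    rw [Finset.sum_Ico_consecutive _ b1 hN, Finset.range_eq_Ico,
      ← Finset.sum_Ico_consecutive _ (Nat.zero_le (2 ^ 0)) (b1.trans hN)]
    have : ∑ i ∈ Ico 0 (2 ^ 0), triC δ i * (T i).re = 0 := by simp [triC]
    rw [this, zero_add]
  rw [hsplit]
  have q3 := (Finset.abs_sum_le_sum_abs (fun h => triC δ h * (T h).re) (Ico (2 ^ (I1 + 1)) N)).trans
    (hP3 N hN)
  have p3 : 0 ≤ A3 * (1 + Real.log K) / δ := by positivity
  have t1 := abs_add_le (∑ h ∈ Ico (2 ^ 0) (2 ^ (I1 + 1)), triC δ h * (T h).re)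
    (∑ h ∈ Ico (2 ^ (I1 + 1)) N, triC δ h * (T h).re)
  refine t1.trans ?_
  have t2 := add_le_add hP2 q3
  refine t2.trans ?_
  generalize A3 * (1 + Real.log K) / δ = P at *
  generalize A5 * √δ * (1 + Real.log K) = Q at *
  generalize A4 / (δ * K) = W at *
  linarith

end Pool.Agent.H2
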