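import Mathlib
import Pool.Agent.H2.Lam
import Pool.Agent.H2.TriS
import Pool.Agent.H2.Arc

/-!
Equidistribution of `√n` with the weights `Λ(n)` in short arcs (helper2).
-/

set_option autoImplicit false

namespace Pool.Agent.H2

open Finset Filter Topology
open Pool.Agent.H469R2.NK (e norm_e e_add e_zero)
open Pool.Agent.N792 (tri)

/-- the sums over the triangle functions -/
theorem triL {N N' : ℕ} {ε : ℝ} (hN : 2 ≤ N) (hNN' : N ≤ N') (hN' : N' ≤ 2 * N)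
    (hlam : ∀ H : ℕ, 1 ≤ H → 2 * H ≤ 4 * N → ∀ ω : ℕ → ℂ, (∀ h, ‖ω h‖ ≤ 1) →
      ‖∑ n ∈ Ioc N N', ((ArithmeticFunction.vonMangoldt n : ℝ) : ℂ) *
        ∑ h ∈ Ico H (2 * H), ω h * e ((h : ℝ) * √(n : ℝ))‖ ≤
        (N : ℝ) ^ ε * VV ((N : ℝ) ^ (1 / 4 : ℝ)) H)
    {δ : ℝ} (hδ : 0 < δ) (hδ2 : δ ≤ 1 / 2) (c : ℝ) :
    |∑ n ∈ Ioc N N', ArithmeticFunction.vonMangoldt n * tri δ (√(n : ℝ) - c) -
      δ * ∑ n ∈ Ioc N N', ArithmeticFunction.vonMangoldt n| ≤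
      4 * ((N : ℝ) ^ (ε + 7 / 8) * √δ * (1 + Real.log N)) +
        ((N : ℝ) ^ (ε + 1 / 2) * (1 + Real.log N) / δ + Real.log (2 * N) / δ) := by
  have hNr : (2 : ℝ) ≤ N := by exact_mod_cast hN
  have hNpos : (0 : ℝ) < N := by linarith
  have hl2N : 0 ≤ Real.log (2 * (N : ℝ)) := Real.log_nonneg (by linarith)
  have hfac : ∀ h : ℕ, ∑ n ∈ Ioc N N', ((ArithmeticFunction.vonMangoldt n : ℝ) : ℂ) *
      e (h * (√(n : ℝ) - c)) = e (-(h * c)) * ∑ n ∈ Ioc N N',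
        ((ArithmeticFunction.vonMangoldt n : ℝ) : ℂ) * e ((h : ℝ) * √(n : ℝ)) := by
    intro h
    rw [mul_sum]
    refine sum_congr rfl fun n _ => ?_
    rw [show (h : ℝ) * (√(n : ℝ) - c) = -(h * c) + (h : ℝ) * √(n : ℝ) by ring, e_add]
    ring
  have hmain := q5 (Ioc N N') (fun n => ArithmeticFunction.vonMangoldt n) (fun n => √(n : ℝ) - c) δ
    ((N : ℝ) ^ (ε + 7 / 8)) ((N : ℝ) ^ (ε + 1 / 2)) (N * Real.log (2 * N)) N hδ hδ2 (by omega)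
    (by positivity) (by positivity) (by positivity)
    (by
      intro H ω hH hHN hω
      have h1 := hlam H hH (by omega) (fun h => ω h * e (-(h * c))) (fun h => by
        rw [norm_mul, norm_e, mul_one]; exact hω h)
      have h2 : ∑ h ∈ Ico H (2 * H), ω h * ∑ n ∈ Ioc N N',
          ((ArithmeticFunction.vonMangoldt n : ℝ) : ℂ) * e (h * (√(n : ℝ) - c)) =
          ∑ n ∈ Ioc N N', ((ArithmeticFunction.vonMangoldt n : ℝ) : ℂ) *
          ∑ h ∈ Ico H (2 * H), (ω h * e (-(h * c))) * e ((h : ℝ) * √(n : ℝ)) := by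
        simp_rw [mul_sum]
        rw [sum_comm]
        refine sum_congr rfl fun n _ => sum_congr rfl fun h _ => ?_
        rw [show (h : ℝ) * (√(n : ℝ) - c) = -(h * c) + (h : ℝ) * √(n : ℝ) by ring, e_add]
        ring
      rw [h2]
      refine h1.trans (le_of_eq ?_)
      have hw0 : 0 < (N : ℝ) ^ (1 / 4 : ℝ) := by positivity
      rw [VV_eq hw0]
      have e1 : ((N : ℝ) ^ (1 / 4 : ℝ)) ^ 4 = (N : ℝ) ^ (1 : ℝ) := by
        rw [← Real.rpow_natCast, ← Real.rpow_mul hNpos.le]; norm_num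
      have e2 : √((N : ℝ) ^ (1 / 4 : ℝ)) = (N : ℝ) ^ (1 / 8 : ℝ) := by
        rw [Real.sqrt_eq_rpow, ← Real.rpow_mul hNpos.le]; norm_num
      have e3 : ((N : ℝ) ^ (1 / 4 : ℝ)) ^ 2 = (N : ℝ) ^ (1 / 2 : ℝ) := by
        rw [← Real.rpow_natCast, ← Real.rpow_mul hNpos.le]; norm_num
      have e4 : √(H : ℝ) ^ 4 = (H : ℝ) ^ 2 := by
        rw [show (4 : ℕ) = 2 * 2 by norm_num, pow_mul, Real.sq_sqrt (Nat.cast_nonneg _)]
      rw [e1, e2, e3, e4]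
      have e5 : (N : ℝ) ^ (1 : ℝ) * √(H : ℝ) / (N : ℝ) ^ (1 / 8 : ℝ) = (N : ℝ) ^ (7 / 8 : ℝ) * √(H : ℝ) := by
        have : (N : ℝ) ^ (7 / 8 : ℝ) = (N : ℝ) ^ (1 : ℝ) / (N : ℝ) ^ (1 / 8 : ℝ) := by
          rw [← Real.rpow_sub hNpos]; norm_num
        rw [this]
        ring
      rw [e5, Real.rpow_add hNpos, Real.rpow_add hNpos]
      ring)
    (by
      intro h
      refine (norm_sum_le _ _).trans ?_
      have h1 : ∀ n ∈ Ioc N N', ‖((ArithmeticFunction.vonMangoldt n : ℝ) : ℂ) *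
          e (h * (√(n : ℝ) - c))‖ ≤ Real.log (2 * N) := by
        intro n hn
        rw [mem_Ioc] at hn
        rw [norm_mul, norm_e, mul_one, Complex.norm_real, Real.norm_eq_abs,
          abs_of_nonneg ArithmeticFunction.vonMangoldt_nonneg]
        refine ArithmeticFunction.vonMangoldt_le_log.trans ?_
        apply Real.log_le_log
        · exact_mod_cast (by omega : 0 < n)
        · exact_mod_cast (by omega : n ≤ 2 * N)
      refine (sum_le_sum h1).trans ?_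
      rw [sum_const, Nat.card_Ioc, nsmul_eq_mul]
      gcongr
      omega)
  refine hmain.trans (le_of_eq ?_)
  have e1 : N * Real.log (2 * N) / (δ * N) = Real.log (2 * N) / δ := by field_simp
  rw [e1]

/-- **equidistribution of `√n` with the weights `Λ(n)`** in arcs of length `N ^ (-τ)`, `τ < 1 / 4` -/
theorem eqL {τ : ℝ} (hτ0 : 0 < τ) (hτ : τ < 1 / 4) :
    ∃ κ : ℝ, 0 < κ ∧ κ ≤ 1 / 8 ∧ ∃ N0 : ℕ, ∀ N : ℕ, N0 ≤ N → ∀ N' : ℕ, N ≤ N' → N' ≤ 2 * N →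
      ∀ x y : ℝ, 0 ≤ x → x ≤ y → y ≤ 1 →
      |∑ n ∈ (Ioc N N').filter (fun n : ℕ => x ≤ Int.fract (√(n : ℝ)) ∧ Int.fract (√(n : ℝ)) < y),
        ArithmeticFunction.vonMangoldt n - (y - x) * ∑ n ∈ Ioc N N', ArithmeticFunction.vonMangoldt n| ≤
        ((y - x) + (N : ℝ) ^ (-τ)) * (N : ℝ) ^ (1 - κ) := by
  set η : ℝ := 1 / 4 - τ with hη
  have hη0 : 0 < η := by linarith
  have hη4 : η < 1 / 4 := by linarith
  obtain ⟨N0, hN0⟩ := lamH (η / 16) (by positivity)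
  have hpow : ∀ ε : ℝ, 0 < ε → ∀ A : ℝ, ∀ᶠ N : ℕ in atTop, A ≤ (N : ℝ) ^ ε := fun ε hε A =>
    ((tendsto_rpow_atTop hε).comp tendsto_natCast_atTop_atTop).eventually_ge_atTop A
  have e1 := (isLittleO_log_rpow_atTop (show (0 : ℝ) < η / 32 by positivity)).def
    (show (0 : ℝ) < 1 / 4 by norm_num)
  have hev : ∀ᶠ N : ℕ in atTop, (6 : ℝ) ≤ (N : ℝ) ^ (η / 32) ∧ Real.log N ≤ 1 / 4 * (N : ℝ) ^ (η / 32) ∧
      (8 : ℝ) ≤ (N : ℝ) ^ (1 / 4 - η / 2) ∧ 2 ≤ N ∧ N0 ≤ N := by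
    filter_upwards [hpow _ (by positivity : 0 < η / 32) 6,
      tendsto_natCast_atTop_atTop.eventually e1,
      hpow (1 / 4 - η / 2) (by linarith) 8, eventually_ge_atTop 2, eventually_ge_atTop N0]
      with N h1 h2 h3 h4 h5
    refine ⟨h1, ?_, h3, h4, h5⟩
    rw [Real.norm_eq_abs, Real.norm_eq_abs, abs_of_nonneg (a := (N : ℝ) ^ (η / 32)) (by positivity)] at h2
    exact (le_abs_self _).trans h2
  obtain ⟨N1, hN1⟩ := eventually_atTop.1 hev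
  refine ⟨η / 8, by positivity, by linarith, N1, fun N hN N' hNN' hN' x y hx hxy hy => ?_⟩
  obtain ⟨h6, hlogN, h8, hN2, hNN0⟩ := hN1 N hN
  have hNr : (2 : ℝ) ≤ N := by exact_mod_cast hN2
  have hNr1 : (1 : ℝ) ≤ N := by linarith
  have hNpos : (0 : ℝ) < N := by linarith
  set ξ : ℝ := (N : ℝ) ^ (η / 32) with hξ
  have hξ0 : 0 < ξ := by positivity
  have hlog1 : 1 + Real.log N ≤ ξ := by linarith
  have hlog2 : Real.log (2 * (N : ℝ)) ≤ ξ := by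
    rw [Real.log_mul (by norm_num) hNpos.ne']
    have := Real.log_two_lt_d9
    linarith
  have hlog0 : 0 ≤ Real.log (N : ℝ) := Real.log_nonneg hNr1
  have hlog20 : 0 ≤ Real.log (2 * (N : ℝ)) := Real.log_nonneg (by linarith)
  set ex : ℝ := 1 / 4 - η / 2 with hex
  obtain ⟨M, hM⟩ : ∃ M, M = ⌊(N : ℝ) ^ ex⌋₊ := ⟨_, rfl⟩
  have hMle : (M : ℝ) ≤ (N : ℝ) ^ ex := by rw [hM]; exact Nat.floor_le (by positivity)
  have hMlt : (N : ℝ) ^ ex < M + 1 := by rw [hM]; exact Nat.lt_floor_add_one _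
  have hM2r : (2 : ℝ) ≤ M := by linarith
  have hM1 : 1 ≤ M := by
    have : (1 : ℝ) ≤ M := by linarith
    exact_mod_cast this
  have hM0 : (0 : ℝ) < M := by linarith
  set δ : ℝ := 1 / M with hδ
  have hδ0 : 0 < δ := by positivity
  have hδ2 : δ ≤ 1 / 2 := by rw [hδ]; exact one_div_le_one_div_of_le (by norm_num) hM2r
  have hδinv : 1 / δ ≤ (N : ℝ) ^ ex := by rw [hδ, one_div_one_div]; exact hMle
  have hδup : δ ≤ 2 * (N : ℝ) ^ (-ex) := by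
    rw [hδ, Real.rpow_neg hNpos.le, div_le_iff₀ hM0]
    have h1 : 0 < (N : ℝ) ^ ex := by positivity
    rw [mul_assoc, mul_comm (((N : ℝ) ^ ex)⁻¹), ← div_eq_mul_inv, ← mul_div_assoc, le_div_iff₀ h1]
    linarith
  -- the error for the triangle functions
  set Er : ℝ := δ * (N : ℝ) ^ (1 - η / 8) with hEr
  have hEr0 : 0 ≤ Er := by positivity
  have htri : ∀ c : ℝ, |∑ n ∈ Ioc N N', ArithmeticFunction.vonMangoldt n * tri (1 / M) (√(n : ℝ) - c) -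
      (1 / M) * ∑ n ∈ Ioc N N', ArithmeticFunction.vonMangoldt n| ≤ Er := by
    intro c
    have h1 := triL hN2 hNN' hN' (fun H h1 h2 ω h3 => hN0 N hNN0 N' H hNN' hN' h1 h2 ω h3) hδ0 hδ2 c
    refine h1.trans ?_
    have hsq : √δ ≤ δ * (N : ℝ) ^ (ex / 2) := by
      have h2 : √(1 / δ) ≤ (N : ℝ) ^ (ex / 2) := by
        calc √(1 / δ) ≤ √((N : ℝ) ^ ex) := Real.sqrt_le_sqrt hδinv
          _ = (N : ℝ) ^ (ex / 2) := by
              rw [Real.sqrt_eq_rpow, ← Real.rpow_mul hNpos.le]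
              congr 1
              ring
      have h3 : √δ = δ * √(1 / δ) := by
        have h4 : δ * √(1 / δ) = √(δ ^ 2) * √(1 / δ) := by rw [Real.sqrt_sq hδ0.le]
        rw [h4, ← Real.sqrt_mul (by positivity)]
        congr 1
        field_simp
      rw [h3]
      gcongr
    have hinv2 : 1 / δ ≤ δ * (N : ℝ) ^ (2 * ex) := by
      have h2 : (1 / δ) ^ 2 ≤ ((N : ℝ) ^ ex) ^ 2 := by gcongr
      have h3 : ((N : ℝ) ^ ex) ^ 2 = (N : ℝ) ^ (2 * ex) := by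
        rw [← Real.rpow_natCast, ← Real.rpow_mul hNpos.le]
        congr 1
        push_cast
        ring
      rw [h3] at h2
      calc 1 / δ = δ * (1 / δ) ^ 2 := by field_simp
        _ ≤ _ := by gcongr
    have t1 : (N : ℝ) ^ (η / 16 + 7 / 8) * √δ * (1 + Real.log N) ≤
        δ * ((N : ℝ) ^ (η / 16 + 7 / 8 + ex / 2 + η / 32)) := by
      calc (N : ℝ) ^ (η / 16 + 7 / 8) * √δ * (1 + Real.log N) ≤
            (N : ℝ) ^ (η / 16 + 7 / 8) * (δ * (N : ℝ) ^ (ex / 2)) * ξ := by gcongr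
        _ = δ * ((N : ℝ) ^ (η / 16 + 7 / 8) * (N : ℝ) ^ (ex / 2) * (N : ℝ) ^ (η / 32)) := by ring
        _ = _ := by rw [← Real.rpow_add hNpos, ← Real.rpow_add hNpos]
    have t2 : (N : ℝ) ^ (η / 16 + 1 / 2) * (1 + Real.log N) / δ ≤
        δ * ((N : ℝ) ^ (η / 16 + 1 / 2 + η / 32 + 2 * ex)) := by
      calc (N : ℝ) ^ (η / 16 + 1 / 2) * (1 + Real.log N) / δ =
            (N : ℝ) ^ (η / 16 + 1 / 2) * (1 + Real.log N) * (1 / δ) := by ring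
        _ ≤ (N : ℝ) ^ (η / 16 + 1 / 2) * ξ * (δ * (N : ℝ) ^ (2 * ex)) := by gcongr
        _ = δ * ((N : ℝ) ^ (η / 16 + 1 / 2) * (N : ℝ) ^ (η / 32) * (N : ℝ) ^ (2 * ex)) := by ring
        _ = _ := by rw [← Real.rpow_add hNpos, ← Real.rpow_add hNpos]
    have t3 : Real.log (2 * N) / δ ≤ δ * ((N : ℝ) ^ (η / 32 + 2 * ex)) := by
      calc Real.log (2 * N) / δ = Real.log (2 * N) * (1 / δ) := by ring
        _ ≤ ξ * (δ * (N : ℝ) ^ (2 * ex)) := by gcongr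
        _ = δ * ((N : ℝ) ^ (η / 32) * (N : ℝ) ^ (2 * ex)) := by ring
        _ = _ := by rw [← Real.rpow_add hNpos]
    have b1 : (N : ℝ) ^ (η / 16 + 7 / 8 + ex / 2 + η / 32) ≤ (N : ℝ) ^ (1 - 5 * η / 32) :=
      Real.rpow_le_rpow_of_exponent_le hNr1 (by rw [hex]; linarith)
    have b2 : (N : ℝ) ^ (η / 16 + 1 / 2 + η / 32 + 2 * ex) ≤ (N : ℝ) ^ (1 - 5 * η / 32) :=
      Real.rpow_le_rpow_of_exponent_le hNr1 (by rw [hex]; linarith)
    have b3 : (N : ℝ) ^ (η / 32 + 2 * ex) ≤ (N : ℝ) ^ (1 - 5 * η / 32) :=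
      Real.rpow_le_rpow_of_exponent_le hNr1 (by rw [hex]; linarith)
    have b4 : (N : ℝ) ^ (1 - 5 * η / 32) * ξ = (N : ℝ) ^ (1 - η / 8) := by
      rw [hξ, ← Real.rpow_add hNpos]
      congr 1
      ring
    have b5 : 0 < (N : ℝ) ^ (1 - 5 * η / 32) := by positivity
    have t1' := t1.trans (mul_le_mul_of_nonneg_left b1 hδ0.le)
    have t2' := t2.trans (mul_le_mul_of_nonneg_left b2 hδ0.le)
    have t3' := t3.trans (mul_le_mul_of_nonneg_left b3 hδ0.le)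
    calc _ ≤ 4 * (δ * (N : ℝ) ^ (1 - 5 * η / 32)) + (δ * (N : ℝ) ^ (1 - 5 * η / 32) +
          δ * (N : ℝ) ^ (1 - 5 * η / 32)) := by gcongr
      _ = δ * ((N : ℝ) ^ (1 - 5 * η / 32) * 6) := by ring
      _ ≤ δ * ((N : ℝ) ^ (1 - 5 * η / 32) * ξ) := by gcongr
      _ = Er := by rw [b4]
  have hmain := arcs (Ioc N N') (fun n => ArithmeticFunction.vonMangoldt n) (fun n => √(n : ℝ))
    (fun _ _ => ArithmeticFunction.vonMangoldt_nonneg) M hM1 Er hEr0 htri x y hx hxy hy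
  refine hmain.trans ?_
  have hW : ∑ n ∈ Ioc N N', ArithmeticFunction.vonMangoldt n ≤ N * ξ := by
    have h1 : ∀ n ∈ Ioc N N', ArithmeticFunction.vonMangoldt n ≤ ξ := by
      intro n hn
      rw [mem_Ioc] at hn
      refine (ArithmeticFunction.vonMangoldt_le_log.trans ?_).trans hlog2
      apply Real.log_le_log
      · exact_mod_cast (by omega : 0 < n)
      · exact_mod_cast (by omega : n ≤ 2 * N)
    refine (sum_le_sum h1).trans ?_
    rw [sum_const, Nat.card_Ioc, nsmul_eq_mul]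
    gcongr
    omega
  have hδM : δ * M = 1 := by rw [hδ]; field_simp
  have c1 : 3 * (1 / M) * ∑ n ∈ Ioc N N', ArithmeticFunction.vonMangoldt n ≤
      6 * ((N : ℝ) ^ (-ex) * (N * ξ)) := by
    calc 3 * (1 / M) * ∑ n ∈ Ioc N N', ArithmeticFunction.vonMangoldt n ≤
          3 * (2 * (N : ℝ) ^ (-ex)) * (N * ξ) := by gcongr
      _ = _ := by ring
  have c2 : ((y - x) * M + 3) * Er ≤ (y - x) * (N : ℝ) ^ (1 - η / 8) +
      6 * ((N : ℝ) ^ (-ex) * (N : ℝ) ^ (1 - η / 8)) := by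
    calc ((y - x) * M + 3) * Er = (y - x) * (δ * M) * (N : ℝ) ^ (1 - η / 8) +
          3 * δ * (N : ℝ) ^ (1 - η / 8) := by rw [hEr]; ring
      _ ≤ (y - x) * 1 * (N : ℝ) ^ (1 - η / 8) + 3 * (2 * (N : ℝ) ^ (-ex)) * (N : ℝ) ^ (1 - η / 8) := by
          rw [hδM]
          gcongr
      _ = _ := by ring
  have c3 : (N : ℝ) ^ (-ex) * (N * ξ) = (N : ℝ) ^ (-τ) * (N : ℝ) ^ (1 - η / 2 + η / 32) := by
    rw [hξ, ← Real.rpow_one_add' hNpos.le (by positivity), ← Real.rpow_add hNpos, ← Real.rpow_add hNpos]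
    congr 1
    rw [hex, hη]
    ring
  have c4 : (N : ℝ) ^ (-ex) * (N : ℝ) ^ (1 - η / 8) = (N : ℝ) ^ (-τ) * (N : ℝ) ^ (1 - η / 2 - η / 8) := by
    rw [← Real.rpow_add hNpos, ← Real.rpow_add hNpos]
    congr 1
    rw [hex, hη]
    ring
  have c5 : (N : ℝ) ^ (1 - η / 2 + η / 32) ≤ (N : ℝ) ^ (1 - η / 4) :=
    Real.rpow_le_rpow_of_exponent_le hNr1 (by linarith)
  have c6 : (N : ℝ) ^ (1 - η / 2 - η / 8) ≤ (N : ℝ) ^ (1 - η / 4) :=
    Real.rpow_le_rpow_of_exponent_le hNr1 (by linarith)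
  have c7 : 12 * (N : ℝ) ^ (1 - η / 4) ≤ (N : ℝ) ^ (1 - η / 8) := by
    have d1 : (N : ℝ) ^ (1 - η / 4) * ((N : ℝ) ^ (η / 32) * (N : ℝ) ^ (η / 32)) ≤ (N : ℝ) ^ (1 - η / 8) := by
      rw [← Real.rpow_add hNpos, ← Real.rpow_add hNpos]
      exact Real.rpow_le_rpow_of_exponent_le hNr1 (by linarith)
    have d2 : (12 : ℝ) ≤ (N : ℝ) ^ (η / 32) * (N : ℝ) ^ (η / 32) := by
      have : (6 : ℝ) * 6 ≤ (N : ℝ) ^ (η / 32) * (N : ℝ) ^ (η / 32) := by gcongr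
      linarith
    have d3 : 0 < (N : ℝ) ^ (1 - η / 4) := by positivity
    nlinarith
  have hT0 : 0 < (N : ℝ) ^ (-τ) := by positivity
  calc _ ≤ 6 * ((N : ℝ) ^ (-ex) * (N * ξ)) + ((y - x) * (N : ℝ) ^ (1 - η / 8) +
        6 * ((N : ℝ) ^ (-ex) * (N : ℝ) ^ (1 - η / 8))) := add_le_add c1 c2
    _ = (y - x) * (N : ℝ) ^ (1 - η / 8) + (N : ℝ) ^ (-τ) *
        (6 * (N : ℝ) ^ (1 - η / 2 + η / 32) + 6 * (N : ℝ) ^ (1 - η / 2 - η / 8)) := by
        rw [c3, c4]; ring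
    _ ≤ (y - x) * (N : ℝ) ^ (1 - η / 8) + (N : ℝ) ^ (-τ) * (N : ℝ) ^ (1 - η / 8) := by
        gcongr
        linarith
    _ = _ := by ring

end Pool.Agent.H2
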