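import Mathlib
import Pool.Agent.H2.EqL
import Pool.Agent.H2.Mean
import Pool.Graph.R_seed8.TH915.PW.PrimeSum

/-!
Equidistribution of the square roots of the primes in arcs of length `X ^ (-τ)`, `τ < 1 / 4`
(helper2).
-/

set_option autoImplicit false

namespace Pool.Agent.H2

open Finset Filter Topology
open Pool.Agent.TH915.PW (prime_bound abel_bound)

/-- **equidistribution of the square roots of the primes** in short arcs -/
theorem eqQ_all {τ : ℝ} (hτ0 : 0 < τ) (hτ : τ < 1 / 4) : EqQ τ := by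
  classical
  obtain ⟨κ, hκ, hκ8, N0, hN0⟩ := eqL hτ0 hτ
  have hpow : ∀ ε : ℝ, 0 < ε → ∀ A : ℝ, ∀ᶠ N : ℕ in atTop, A ≤ (N : ℝ) ^ ε := fun ε hε A =>
    ((tendsto_rpow_atTop hε).comp tendsto_natCast_atTop_atTop).eventually_ge_atTop A
  have e1 := (isLittleO_log_rpow_atTop (show (0 : ℝ) < 1 / 16 by norm_num)).def
    (show (0 : ℝ) < 1 / 8 by norm_num)
  have hev : ∀ᶠ N : ℕ in atTop, (2 : ℝ) ≤ (N : ℝ) ^ (κ / 2) ∧ Real.log N ≤ 1 / 8 * (N : ℝ) ^ (1 / 16 : ℝ) ∧
      (8 : ℝ) ≤ (N : ℝ) ^ (1 / 16 : ℝ) ∧ 3 ≤ N ∧ N0 ≤ N := by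
    filter_upwards [hpow _ (by positivity : 0 < κ / 2) 2,
      tendsto_natCast_atTop_atTop.eventually e1,
      hpow (1 / 16) (by norm_num) 8, eventually_ge_atTop 3, eventually_ge_atTop N0]
      with N h1 h2 h3 h4 h5
    refine ⟨h1, ?_, h3, h4, h5⟩
    rw [Real.norm_eq_abs, Real.norm_eq_abs, abs_of_nonneg (a := (N : ℝ) ^ (1 / 16 : ℝ)) (by positivity)] at h2
    exact (le_abs_self _).trans h2
  obtain ⟨X0, hX0⟩ := eventually_atTop.1 hev
  refine ⟨κ / 2, by positivity, X0, fun X X' hX hXX' hX' x y hx hxy hy => ?_⟩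
  obtain ⟨h2, hlogX, h8, hX3, hXN0⟩ := hX0 X hX
  have hXr : (3 : ℝ) ≤ X := by exact_mod_cast hX3
  have hXr1 : (1 : ℝ) ≤ X := by linarith
  have hXpos : (0 : ℝ) < X := by linarith
  set f : ℕ → ℝ := fun n => (if x ≤ Int.fract (√(n : ℝ)) ∧ Int.fract (√(n : ℝ)) < y then 1 else 0) - (y - x)
    with hf
  have hf1 : ∀ n, ‖((f n : ℝ) : ℂ)‖ ≤ 1 := by
    intro n
    rw [Complex.norm_real, Real.norm_eq_abs, abs_le]
    simp only [hf]
    split_ifs <;> constructor <;> linarith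
  set E0 : ℝ := ((y - x) + (X : ℝ) ^ (-τ)) * (X : ℝ) ^ (1 - κ) with hE0
  set E1 : ℝ := E0 + 2 * √(2 * (X : ℝ)) * Real.log (2 * X) with hE1
  have hL : ∀ t, X < t → t ≤ X' → ‖∑ n ∈ Ioc X t, ((ArithmeticFunction.vonMangoldt n : ℝ) : ℂ) *
      ((f n : ℝ) : ℂ)‖ ≤ E0 := by
    intro t ht1 ht2
    have h1 := hN0 X hXN0 t ht1.le (by omega) x y hx hxy hy
    have h3 : ∑ n ∈ Ioc X t, ((ArithmeticFunction.vonMangoldt n : ℝ) : ℂ) * ((f n : ℝ) : ℂ) =
        ((∑ n ∈ (Ioc X t).filter (fun n : ℕ => x ≤ Int.fract (√(n : ℝ)) ∧ Int.fract (√(n : ℝ)) < y),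
        ArithmeticFunction.vonMangoldt n - (y - x) * ∑ n ∈ Ioc X t, ArithmeticFunction.vonMangoldt n : ℝ) : ℂ) := by
      rw [sum_filter, mul_sum, ← sum_sub_distrib]
      push_cast
      refine sum_congr rfl fun n _ => ?_
      simp only [hf]
      split_ifs <;> push_cast <;> ring
    rw [h3, Complex.norm_real, Real.norm_eq_abs]
    exact h1
  have hP : ∀ t, X < t → t ≤ X' → ‖∑ n ∈ Ioc X t, (((if n.Prime then Real.log n else 0 : ℝ)) : ℂ) *
      ((f n : ℝ) : ℂ)‖ ≤ E1 := by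
    intro t ht1 ht2
    have h1 := prime_bound X t (by omega) (fun n => ((f n : ℝ) : ℂ)) hf1 E0 (hL t ht1 ht2)
    refine h1.trans ?_
    rw [hE1]
    have h3 : (t : ℝ) ≤ 2 * X := by exact_mod_cast ht2.trans hX'
    have h4 : (1 : ℝ) ≤ t := by exact_mod_cast (by omega : 1 ≤ t)
    have h5 : Real.log t ≤ Real.log (2 * X) := Real.log_le_log (by linarith) h3
    have h6 : 0 ≤ Real.log (t : ℝ) := Real.log_nonneg h4
    have h7 : √(t : ℝ) ≤ √(2 * (X : ℝ)) := Real.sqrt_le_sqrt h3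
    gcongr
  -- the total
  have hfin : |(((PB X X').filter (fun p : ℕ =>
      x ≤ Int.fract (√(p : ℝ)) ∧ Int.fract (√(p : ℝ)) < y)).card : ℝ) -
      (y - x) * ((PB X X').card : ℝ)| ≤ E1 := by
    have hE10 : 0 ≤ E1 := by
      have : 0 ≤ Real.log (2 * (X : ℝ)) := Real.log_nonneg (by linarith)
      have : 0 ≤ y - x := by linarith
      positivity
    rcases Nat.eq_or_lt_of_le hXX' with h | h
    · have : PB X X' = ∅ := by
        unfold PB
        rw [h, Ioc_self, filter_empty]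
      rw [this]
      simpa using hE10
    · have h1 := abel_bound (fun n => 1 / Real.log n)
        (fun n => (((if n.Prime then Real.log n else 0 : ℝ)) : ℂ) * ((f n : ℝ) : ℂ)) X E1
        (by
          intro n hn
          have : (1 : ℝ) ≤ n := by exact_mod_cast (by omega : 1 ≤ n)
          have := Real.log_nonneg this
          positivity)
        (by
          intro n hn
          have h3 : (1 : ℝ) < n := by exact_mod_cast (by omega : 1 < n)
          have h4 := Real.log_pos h3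
          apply one_div_le_one_div_of_le h4
          apply Real.log_le_log (by linarith)
          push_cast
          linarith)
        X' h hP
      have h3 : ∑ n ∈ Ioc X X', (((1 / Real.log n : ℝ)) : ℂ) *
          ((((if n.Prime then Real.log n else 0 : ℝ)) : ℂ) * ((f n : ℝ) : ℂ)) =
          (((((PB X X').filter (fun p : ℕ =>
            x ≤ Int.fract (√(p : ℝ)) ∧ Int.fract (√(p : ℝ)) < y)).card : ℝ) -
            (y - x) * ((PB X X').card : ℝ) : ℝ) : ℂ) := by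
        have q1 : ∀ n ∈ Ioc X X', (((1 / Real.log n : ℝ)) : ℂ) *
            ((((if n.Prime then Real.log n else 0 : ℝ)) : ℂ) * ((f n : ℝ) : ℂ)) =
            ((if n.Prime then f n else 0 : ℝ) : ℂ) := by
          intro n hn
          rw [mem_Ioc] at hn
          have h3 : (1 : ℝ) < n := by exact_mod_cast (by omega : 1 < n)
          have h4 := (Real.log_pos h3).ne'
          rw [← Complex.ofReal_mul, ← Complex.ofReal_mul]
          congr 1
          split_ifs
          · field_simp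
          · simp
        rw [sum_congr rfl q1, ← Complex.ofReal_sum]
        congr 1
        rw [← sum_filter]
        have q2 : (Ioc X X').filter Nat.Prime = PB X X' := rfl
        rw [q2]
        simp only [hf]
        rw [sum_sub_distrib, sum_const, nsmul_eq_mul, card_filter]
        push_cast
        ring
      rw [h3, Complex.norm_real, Real.norm_eq_abs] at h1
      refine h1.trans ?_
      have h5 : 1 / Real.log ((X + 1 : ℕ) : ℝ) ≤ 1 := by
        have h6 : 1 ≤ Real.log ((X + 1 : ℕ) : ℝ) := by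
          rw [Real.le_log_iff_exp_le (by positivity)]
          push_cast
          linarith [Real.exp_one_lt_d9]
        rw [div_le_one (by linarith)]
        exact h6
      calc 1 / Real.log ((X + 1 : ℕ) : ℝ) * E1 ≤ 1 * E1 := by gcongr
        _ = E1 := one_mul _
  refine hfin.trans ?_
  -- the size of the error
  have g1 : 2 * √(2 * (X : ℝ)) * Real.log (2 * X) ≤ (X : ℝ) ^ (-τ) * (X : ℝ) ^ (1 - κ) := by
    have k1 : √(2 * (X : ℝ)) ≤ 2 * (X : ℝ) ^ (1 / 2 : ℝ) := by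
      rw [← Real.sqrt_eq_rpow, show (2 : ℝ) * √(X : ℝ) = √(4 * X) by
        rw [Real.sqrt_mul (by norm_num), show √(4 : ℝ) = 2 by
          rw [show (4 : ℝ) = 2 ^ 2 by norm_num, Real.sqrt_sq (by norm_num)]]]
      apply Real.sqrt_le_sqrt
      linarith
    have k2 : Real.log (2 * X) ≤ 1 / 4 * (X : ℝ) ^ (1 / 16 : ℝ) := by
      rw [Real.log_mul (by norm_num) hXpos.ne']
      have := Real.log_two_lt_d9
      linarith
    have k3 : 0 ≤ Real.log (2 * (X : ℝ)) := Real.log_nonneg (by linarith)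
    calc 2 * √(2 * (X : ℝ)) * Real.log (2 * X) ≤
          2 * (2 * (X : ℝ) ^ (1 / 2 : ℝ)) * (1 / 4 * (X : ℝ) ^ (1 / 16 : ℝ)) := by gcongr
      _ = (X : ℝ) ^ (1 / 2 : ℝ) * (X : ℝ) ^ (1 / 16 : ℝ) := by ring
      _ = (X : ℝ) ^ (1 / 2 + 1 / 16 : ℝ) := by rw [← Real.rpow_add hXpos]
      _ ≤ (X : ℝ) ^ (-τ + (1 - κ)) := Real.rpow_le_rpow_of_exponent_le hXr1 (by linarith)
      _ = _ := by rw [Real.rpow_add hXpos]
  have g2 : 2 * (X : ℝ) ^ (1 - κ) ≤ (X : ℝ) ^ (1 - κ / 2) := by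
    have k1 : (X : ℝ) ^ (1 - κ / 2) = (X : ℝ) ^ (κ / 2) * (X : ℝ) ^ (1 - κ) := by
      rw [← Real.rpow_add hXpos]
      congr 1
      ring
    rw [k1]
    gcongr
  have g3 : 0 ≤ y - x := by linarith
  have g4 : 0 < (X : ℝ) ^ (-τ) := by positivity
  have g5 : 0 < (X : ℝ) ^ (1 - κ) := by positivity
  calc E1 ≤ ((y - x) + (X : ℝ) ^ (-τ)) * (X : ℝ) ^ (1 - κ) + (X : ℝ) ^ (-τ) * (X : ℝ) ^ (1 - κ) := by
        rw [hE1, hE0]
        linarith
    _ ≤ ((y - x) + (X : ℝ) ^ (-τ)) * (2 * (X : ℝ) ^ (1 - κ)) := by nlinarith [mul_nonneg g3 g5.le]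
    _ ≤ _ := by gcongr

end Pool.Agent.H2
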