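import Mathlib
import Pool.Agent.H2.Mean
import Pool.Graph.R_seed8.H442R2.EHI.PntErr

/-!
The number of primes in short intervals above the squares, on average over the squares of a block
(helper2).
-/

set_option autoImplicit false

namespace Pool.Agent.H2

open Finset Filter Topology

/-- the number of the `b < t` for which `n² + h + b` is a prime -/
def DD (h : ℤ) (n t : ℕ) : ℕ :=
  ((range t).filter (fun b : ℕ => ((n : ℤ) ^ 2 + h + b).toNat.Prime)).card

/-- the number of the primes between `n²` and `(n + 1)²` with a small fractional part of the root -/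
noncomputable def WW (n : ℕ) (x : ℝ) : ℕ :=
  ((PB (n ^ 2 - 1) ((n + 1) ^ 2 - 1)).filter (fun p : ℕ => Int.fract (√(p : ℝ)) < x)).card

lemma DD_le (h : ℤ) (n t : ℕ) : DD h n t ≤ t := by
  unfold DD
  exact (card_filter_le _ _).trans (by rw [card_range])

lemma DD_hi (h : ℤ) {n t : ℕ} (hn : 1 ≤ n) (ht : (t : ℤ) + |h| ≤ 2 * n + 1) {x : ℝ}
    (hx0 : 0 ≤ x) (hx : ((t : ℝ) + |(h : ℝ)|) ≤ x * (2 * n)) : DD h n t ≤ WW n x + h.natAbs := by
  classical
  unfold DD WW
  set P := (range t).filter (fun b : ℕ => ((n : ℤ) ^ 2 + h + b).toNat.Prime) with hP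
  have habs : (h.natAbs : ℤ) = |h| := Int.natCast_natAbs h
  have h1 : P ⊆ range h.natAbs ∪ P.filter (fun b => h.natAbs ≤ b) := by
    intro b hb
    rw [mem_union, mem_range, mem_filter]
    by_cases hc : b < h.natAbs
    · exact Or.inl hc
    · exact Or.inr ⟨hb, by omega⟩
  have hkey : ∀ b : ℕ, h.natAbs ≤ b → (((n : ℤ) ^ 2 + h + b).toNat : ℤ) = (n : ℤ) ^ 2 + h + b := by
    intro b hb
    apply Int.toNat_of_nonneg
    have h2 : -|h| ≤ h := neg_abs_le h
    have h3 : (h.natAbs : ℤ) ≤ b := by exact_mod_cast hb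
    have h4 : 0 ≤ (n : ℤ) ^ 2 := sq_nonneg _
    omega
  have h2 : (P.filter (fun b => h.natAbs ≤ b)).card ≤ ((PB (n ^ 2 - 1) ((n + 1) ^ 2 - 1)).filter
      (fun p : ℕ => Int.fract (√(p : ℝ)) < x)).card := by
    refine card_le_card_of_injOn (fun b => ((n : ℤ) ^ 2 + h + b).toNat) ?_ ?_
    · intro b hb
      rw [mem_coe, mem_filter, hP, mem_filter, mem_range] at hb
      obtain ⟨⟨hb1, hb2⟩, hb3⟩ := hb
      have hk := hkey b hb3
      set p : ℕ := ((n : ℤ) ^ 2 + h + b).toNat with hp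
      have g1 : -|h| ≤ h := neg_abs_le h
      have g2 : h ≤ |h| := le_abs_self h
      have g3 : (h.natAbs : ℤ) ≤ b := by exact_mod_cast hb3
      have g4 : (b : ℤ) + 1 ≤ t := by exact_mod_cast hb1
      have g5 : (n : ℤ) ^ 2 ≤ p := by rw [hk]; omega
      have g6 : (p : ℤ) < ((n : ℤ) + 1) ^ 2 := by
        rw [hk]
        have : ((n : ℤ) + 1) ^ 2 = (n : ℤ) ^ 2 + 2 * n + 1 := by ring
        omega
      have g7 : Nat.sqrt p = n := by
        symm
        rw [Nat.eq_sqrt']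
        constructor
        · exact_mod_cast g5
        · exact_mod_cast g6
      rw [mem_coe, mem_filter, mem_PB_sqrt hn]
      refine ⟨⟨hb2, g7⟩, ?_⟩
      show Int.fract (√(p : ℝ)) < x
      rw [fract_sqrt, g7, sub_lt_iff_lt_add]
      have g8 : (p : ℝ) < (n : ℝ) ^ 2 + (t : ℝ) + |(h : ℝ)| := by
        have : (p : ℤ) < (n : ℤ) ^ 2 + t + |h| := by rw [hk]; omega
        exact_mod_cast this
      have hn0 : (0 : ℝ) < n := by exact_mod_cast hn
      rw [Real.sqrt_lt' (by linarith)]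
      nlinarith [sq_nonneg x]
    · intro b hb b' hb' heq
      rw [mem_coe, mem_filter] at hb hb'
      have e1 := hkey b hb.2
      have e2 := hkey b' hb'.2
      simp only at heq
      rw [heq, e2] at e1
      omega
  calc P.card ≤ _ := card_le_card h1
    _ ≤ (range h.natAbs).card + (P.filter (fun b => h.natAbs ≤ b)).card := card_union_le _ _
    _ ≤ _ := by rw [card_range]; omega

lemma DD_lo (h : ℤ) {n t : ℕ} (hn : 1 ≤ n) {x : ℝ}
    (hx : x * (2 * n + 1) ≤ (t : ℝ) - |(h : ℝ)|) : WW n x ≤ DD h n t + h.natAbs := by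
  classical
  unfold DD WW
  set P := (range t).filter (fun b : ℕ => ((n : ℤ) ^ 2 + h + b).toNat.Prime) with hP
  set Q := (PB (n ^ 2 - 1) ((n + 1) ^ 2 - 1)).filter (fun p : ℕ => Int.fract (√(p : ℝ)) < x) with hQ
  have habs : (h.natAbs : ℤ) = |h| := Int.natCast_natAbs h
  have h1 : Q ⊆ Ico (n ^ 2) (n ^ 2 + h.natAbs) ∪ Q.filter (fun p => n ^ 2 + h.natAbs ≤ p) := by
    intro p hp
    rw [mem_union, mem_Ico, mem_filter]
    by_cases hc : p < n ^ 2 + h.natAbs
    · left
      refine ⟨?_, hc⟩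
      rw [hQ, mem_filter, mem_PB_sqrt hn] at hp
      have := (Nat.eq_sqrt' (n := p) (a := n)).1 hp.1.2.symm
      exact this.1
    · exact Or.inr ⟨hp, by omega⟩
  have hkey : ∀ p : ℕ, n ^ 2 + h.natAbs ≤ p → (((p : ℤ) - (n : ℤ) ^ 2 - h).toNat : ℤ) =
      (p : ℤ) - (n : ℤ) ^ 2 - h := by
    intro p hp
    apply Int.toNat_of_nonneg
    have g1 : h ≤ |h| := le_abs_self h
    have g2 : (n : ℤ) ^ 2 + h.natAbs ≤ p := by exact_mod_cast hp
    omega
  have h2 : (Q.filter (fun p => n ^ 2 + h.natAbs ≤ p)).card ≤ P.card := by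
    refine card_le_card_of_injOn (fun p => ((p : ℤ) - (n : ℤ) ^ 2 - h).toNat) ?_ ?_
    · intro p hp
      rw [mem_coe, mem_filter, hQ, mem_filter, mem_PB_sqrt hn] at hp
      obtain ⟨⟨⟨hp1, hp2⟩, hp3⟩, hp4⟩ := hp
      have hk := hkey p hp4
      rw [fract_sqrt, hp2] at hp3
      have hn0 : (0 : ℝ) < n := by exact_mod_cast hn
      have hp0 : (0 : ℝ) ≤ p := Nat.cast_nonneg _
      have hsq : √(p : ℝ) ^ 2 = p := Real.sq_sqrt hp0
      have hlow : (n : ℝ) ≤ √(p : ℝ) := by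
        apply Real.le_sqrt_of_sq_le
        have : n ^ 2 ≤ p := by omega
        exact_mod_cast this
      have hup : √(p : ℝ) ≤ n + 1 := by
        rw [Real.sqrt_le_left (by linarith)]
        have h3 := (Nat.eq_sqrt' (n := p) (a := n)).1 hp2.symm
        exact_mod_cast h3.2.le
      have g8 : (p : ℝ) - (n : ℝ) ^ 2 < (t : ℝ) - |(h : ℝ)| := by
        have e1 : (p : ℝ) - (n : ℝ) ^ 2 = (√(p : ℝ) - n) * (√(p : ℝ) + n) := by
          have e0 : (√(p : ℝ) - n) * (√(p : ℝ) + n) = √(p : ℝ) ^ 2 - (n : ℝ) ^ 2 := by ring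
          rw [e0, hsq]
        rw [e1]
        have e2 : (√(p : ℝ) - n) * (√(p : ℝ) + n) ≤ (√(p : ℝ) - n) * (2 * n + 1) := by
          apply mul_le_mul_of_nonneg_left (by linarith) (by linarith)
        have e3 : (√(p : ℝ) - n) * (2 * n + 1) < x * (2 * n + 1) := by
          apply mul_lt_mul_of_pos_right hp3 (by linarith)
        linarith
      have g9 : (p : ℤ) - (n : ℤ) ^ 2 < t - |h| := by exact_mod_cast g8
      have g10 : -|h| ≤ h := neg_abs_le h
      rw [mem_coe, hP, mem_filter, mem_range]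
      constructor
      · have : (((p : ℤ) - (n : ℤ) ^ 2 - h).toNat : ℤ) < t := by rw [hk]; omega
        exact_mod_cast this
      · have e4 : ((n : ℤ) ^ 2 + h + (((p : ℤ) - (n : ℤ) ^ 2 - h).toNat : ℕ)).toNat = p := by
          rw [hk]
          have : (n : ℤ) ^ 2 + h + ((p : ℤ) - (n : ℤ) ^ 2 - h) = p := by ring
          rw [this]
          simp
        show ((n : ℤ) ^ 2 + h + (((p : ℤ) - (n : ℤ) ^ 2 - h).toNat : ℕ)).toNat.Prime
        rw [e4]
        exact hp1
    · intro p hp p' hp' heq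
      rw [mem_coe, mem_filter] at hp hp'
      have e1 := hkey p hp.2
      have e2 := hkey p' hp'.2
      simp only at heq
      rw [heq, e2] at e1
      omega
  calc Q.card ≤ _ := card_le_card h1
    _ ≤ (Ico (n ^ 2) (n ^ 2 + h.natAbs)).card + (Q.filter (fun p => n ^ 2 + h.natAbs ≤ p)).card :=
      card_union_le _ _
    _ ≤ _ := by rw [Nat.card_Ico]; omega

/-- the sum of the numbers `WW` over a block -/
lemma WW_sum (M T : ℕ) (x : ℝ) : ∑ n ∈ Ioc M (M + T), WW n x =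
    ((PB ((M + 1) ^ 2 - 1) ((M + T + 1) ^ 2 - 1)).filter (fun p : ℕ => Int.fract (√(p : ℝ)) < x)).card := by
  classical
  set Q := PB ((M + 1) ^ 2 - 1) ((M + T + 1) ^ 2 - 1) with hQ
  symm
  rw [card_eq_sum_card_fiberwise (f := Nat.sqrt) (t := Ioc M (M + T))]
  · refine sum_congr rfl fun n hn => ?_
    rw [mem_Ioc] at hn
    unfold WW
    congr 1
    ext p
    rw [mem_filter, mem_filter, mem_filter, mem_PB_sqrt (by omega), hQ, mem_PB_block]
    constructor
    · rintro ⟨⟨⟨h1, _, _⟩, h2⟩, h3⟩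
      exact ⟨⟨h1, h3⟩, h2⟩
    · rintro ⟨⟨h1, h2⟩, h3⟩
      exact ⟨⟨⟨h1, by omega, by omega⟩, h3⟩, h2⟩
  · intro p hp
    rw [coe_filter, Set.mem_ofPred_eq, hQ, mem_PB_block] at hp
    rw [coe_Ioc, Set.mem_Ioc]
    exact ⟨hp.1.2.1, hp.1.2.2⟩

/-- splitting into short blocks -/
lemma split_bd {f w : ℕ → ℝ} {N T0 : ℕ} {a e : ℝ} (hT0 : 1 ≤ T0) (he : 0 ≤ e)
    (h : ∀ M T : ℕ, N ≤ M → M + T ≤ 2 * N → 1 ≤ T → T ≤ T0 →
      |∑ n ∈ Ioc M (M + T), f n| ≤ a * T + e + ∑ n ∈ Ioc M (M + T), w n) :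
    ∀ T M : ℕ, N ≤ M → M + T ≤ 2 * N →
      |∑ n ∈ Ioc M (M + T), f n| ≤ a * T + ((T : ℝ) / T0 + 1) * e + ∑ n ∈ Ioc M (M + T), w n := by
  intro T
  induction T using Nat.strong_induction_on with
  | _ T ih =>
    intro M hM hMT
    have hT0r : (0 : ℝ) < T0 := by exact_mod_cast hT0
    rcases Nat.eq_zero_or_pos T with h0 | h0
    · subst h0
      simp only [add_zero, Ioc_self, sum_empty, abs_zero, Nat.cast_zero, mul_zero, zero_div, zero_add,
        one_mul]
      exact he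
    rcases Nat.lt_or_ge T0 T with h1 | h1
    · have g1 := h M T0 hM (by omega) hT0 le_rfl
      have g2 := ih (T - T0) (by omega) (M + T0) (by omega) (by omega)
      have e0 : M + T0 + (T - T0) = M + T := by omega
      rw [e0] at g2
      have e1 : ∑ n ∈ Ioc M (M + T), f n = ∑ n ∈ Ioc M (M + T0), f n + ∑ n ∈ Ioc (M + T0) (M + T), f n :=
        (sum_Ioc_consecutive f (by omega) (by omega)).symm
      have e2 : ∑ n ∈ Ioc M (M + T), w n = ∑ n ∈ Ioc M (M + T0), w n + ∑ n ∈ Ioc (M + T0) (M + T), w n :=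
        (sum_Ioc_consecutive w (by omega) (by omega)).symm
      rw [e1, e2]
      have e3 : ((T - T0 : ℕ) : ℝ) = (T : ℝ) - T0 := by
        rw [Nat.cast_sub h1.le]
      rw [e3] at g2
      have e4 : ((T : ℝ) - T0) / T0 = (T : ℝ) / T0 - 1 := by
        rw [sub_div, div_self hT0r.ne']
      rw [e4] at g2
      refine (abs_add_le _ _).trans ((add_le_add g1 g2).trans (le_of_eq ?_))
      ring
    · refine (h M T hM hMT h0 h1).trans ?_
      have : 0 ≤ (T : ℝ) / T0 * e := by positivity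
      linarith

end Pool.Agent.H2
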