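import Mathlib
import Pool.Agent.H2.K0
import Pool.Agent.H2.Mean2

/-!
The number of primes in short intervals above the squares: one block (helper2).
-/

set_option autoImplicit false

namespace Pool.Agent.H2

open Finset Filter Topology

lemma theta_block {x y : ℕ} (hxy : x ≤ y) :
    Chebyshev.theta (y : ℝ) - Chebyshev.theta (x : ℝ) = ∑ p ∈ PB x y, Real.log p := by
  have e : ∀ m : ℕ, Chebyshev.theta (m : ℝ) = ∑ p ∈ Ioc 0 m, if p.Prime then Real.log p else 0 := by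
    intro m
    rw [← sum_filter]
    simp [Chebyshev.theta]
  rw [e, e, PB_sum, ← sum_Ioc_consecutive _ (Nat.zero_le x) hxy]
  ring

lemma K0_gap {t k M T N : ℝ} (hN : 0 < N) (hNM : N ≤ M) (hT : 1 ≤ T) (ht : 0 < t) (hk : 0 ≤ k)
    (hMT : T ≤ M / 2) (hM : 4 ≤ M) :
    (t + k) / (2 * M) - (t - k) / (2 * (M + T) + 1) ≤ t * T / N ^ 2 + 2 * k / N := by
  have hMpos : 0 < M := by linarith
  have e1 : (t + k) / (2 * M) - (t - k) / (2 * (M + T) + 1) =
      (t * (2 * T + 1) + k * (4 * M + 2 * T + 1)) / (2 * M * (2 * (M + T) + 1)) := by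
    field_simp
    ring
  rw [e1]
  have e2 : (t * (2 * T + 1) + k * (4 * M + 2 * T + 1)) / (2 * M * (2 * (M + T) + 1)) ≤
      (4 * t * T + 8 * k * M) / (4 * M ^ 2) := by
    have g1 : t * (2 * T + 1) ≤ 4 * t * T := by nlinarith
    have g2 : k * (4 * M + 2 * T + 1) ≤ 8 * k * M := by nlinarith
    apply div_le_div₀ (by positivity) (by linarith) (by positivity)
    nlinarith
  refine e2.trans ?_
  have e3 : (4 * t * T + 8 * k * M) / (4 * M ^ 2) = t * T / M ^ 2 + 2 * k / M := by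
    field_simp
    ring
  rw [e3]
  gcongr

lemma K0_sq {M T N X X' : ℝ} (hXr : X = (M + 1) ^ 2 - 1) (hX'r : X' = (M + T + 1) ^ 2 - 1)
    (hN : 16 ≤ N) (hNM : N ≤ M) (hT : 1 ≤ T) (h4T : 4 * T ≤ N) (hMT : M + T ≤ 2 * N) :
    X' - X = T * (2 * M + T + 2) ∧ T * (2 * M + T + 2) ≤ 5 * N * T ∧ N ^ 2 ≤ X ∧ X' ≤ 9 * N ^ 2 ∧
    X' ≤ 2 * X ∧ N ≤ X := by
  have hXM : M ^ 2 ≤ X := by rw [hXr]; nlinarith
  have hNM2 : N ^ 2 ≤ M ^ 2 := by gcongr
  refine ⟨by rw [hXr, hX'r]; ring, by nlinarith, by linarith, ?_, ?_, by nlinarith⟩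
  · rw [hX'r]
    have : (M + T + 1) ^ 2 ≤ (2 * N + 1) ^ 2 := pow_le_pow_left₀ (by linarith) (by linarith) 2
    nlinarith
  · rw [hXr, hX'r]
    nlinarith

/-- comparison of the logarithms -/
lemma K0_log {m n N T : ℝ} (hN : 0 < N) (hm : N ≤ m) (hmn : m ≤ n) (hn : n ≤ m + T) :
    0 ≤ Real.log n - Real.log m ∧ Real.log n - Real.log m ≤ T / N := by
  have hm0 : 0 < m := by linarith
  have hn0 : 0 < n := by linarith
  constructor
  · have := Real.log_le_log hm0 hmn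
    linarith
  · rw [← Real.log_div hn0.ne' hm0.ne']
    have h1 := Real.log_le_sub_one_of_pos (show 0 < n / m by positivity)
    have h2 : n / m - 1 ≤ T / N := by
      have : n / m - 1 = (n - m) / m := by rw [sub_div, div_self hm0.ne']
      rw [this]
      apply div_le_div₀ (by linarith) (by linarith) hN hm
    linarith

lemma K0_fin {G S2 Y Z Tt R A B P kk C1 : ℝ} (hC1 : 0 ≤ C1) (hA : 0 ≤ A) (hB : 0 ≤ B) (hPA : P ≤ A)
    (hkk : kk ≤ 11 * B) (hR0 : 0 ≤ R) (hR : R ≤ 2 * P) (h1 : |G - S2| ≤ 2 * P)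
    (h2 : |S2 - Y| ≤ kk + 20 * A + B) (h3 : |Y - Z| ≤ 10 * P) (h4 : |Z - (Tt + R)| ≤ 9 * C1 * B) :
    |G - Tt| ≤ (200 + 18 * C1) * (A + B) := by
  have hCA : 0 ≤ C1 * A := mul_nonneg hC1 hA
  have hCB : 0 ≤ C1 * B := mul_nonneg hC1 hB
  have a1 := abs_le.1 h1
  have a2 := abs_le.1 h2
  have a3 := abs_le.1 h3
  have a4 := abs_le.1 h4
  rw [abs_le]
  constructor
  · linarith [a1.1, a2.1, a3.1, a4.1]
  · linarith [a1.2, a2.2, a3.2, a4.2]

/-- **one block** -/
theorem K0_block (h : ℤ) {τ a0 b0 : ℝ} (hτ : 0 < τ) (hEq : EqQ τ) (ha : 1 - 2 * τ ≤ a0)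
    (ha0 : 0 < a0) (hb0 : b0 < 1) (U : ℕ) :
    ∃ C : ℝ, 0 < C ∧ ∃ N0 : ℕ, ∀ N : ℕ, N0 ≤ N → ∀ M T : ℕ, N ≤ M → M + T ≤ 2 * N → 1 ≤ T →
      4 * T ≤ N → ∀ t : ℕ, (N : ℝ) ^ a0 ≤ t → (t : ℝ) ≤ (N : ℝ) ^ b0 →
      |∑ n ∈ Ioc M (M + T), (2 * Real.log n * DD h n t - t)| ≤
        C * (Real.log N * t * T * T / N + t * N / Real.log N ^ U) := by
  classical
  obtain ⟨κ, hκ, X0, hX0⟩ := hEq
  obtain ⟨C1, hC1, hth⟩ := Pool.Agent.H442R2.EHI.PntErrAux.thetaU U
  set k : ℝ := |(h : ℝ)| with hk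
  have hk0 : 0 ≤ k := abs_nonneg _
  have hknat : ((h.natAbs : ℕ) : ℝ) = k := by
    rw [hk, Nat.cast_natAbs]
    push_cast
    rfl
  -- growth
  have hlogpow : ∀ ε : ℝ, 0 < ε → ∀ A : ℝ, 0 < A → ∀ᶠ N : ℕ in atTop,
      A * Real.log N ^ (U + 1) ≤ (N : ℝ) ^ ε := by
    intro ε hε A hA
    have h1 := (isLittleO_log_rpow_rpow_atTop (U + 1 : ℕ) hε).def (show (0 : ℝ) < 1 / A by positivity)
    filter_upwards [tendsto_natCast_atTop_atTop.eventually h1, eventually_ge_atTop 1] with N h2 h3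
    have h4 : (1 : ℝ) ≤ N := by exact_mod_cast h3
    have h5 : 0 ≤ Real.log (N : ℝ) := Real.log_nonneg h4
    rw [Real.norm_eq_abs, Real.norm_eq_abs, Real.rpow_natCast, abs_of_nonneg (by positivity),
      abs_of_nonneg (by positivity)] at h2
    rw [one_div, ← div_eq_inv_mul, le_div_iff₀ hA] at h2
    linarith
  have hpow : ∀ ε : ℝ, 0 < ε → ∀ A : ℝ, ∀ᶠ N : ℕ in atTop, A ≤ (N : ℝ) ^ ε := fun ε hε A =>
    ((tendsto_rpow_atTop hε).comp tendsto_natCast_atTop_atTop).eventually_ge_atTop A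
  have hev : ∀ᶠ N : ℕ in atTop, 1 ≤ Real.log N ∧ (k + 1) * Real.log N ^ (U + 1) ≤ (N : ℝ) ^ a0 ∧
      72 * Real.log N ^ (U + 1) ≤ (N : ℝ) ^ (2 * κ) ∧ (2 : ℝ) ≤ (N : ℝ) ^ (1 - b0) ∧ 2 * k ≤ N ∧
      X0 ≤ N ∧ 16 ≤ N ∧ k ≤ (N : ℝ) ^ a0 := by
    filter_upwards [(Real.tendsto_log_atTop.comp tendsto_natCast_atTop_atTop).eventually_ge_atTop 1,
      hlogpow a0 ha0 (k + 1) (by linarith), hlogpow (2 * κ) (by linarith) 72 (by norm_num),
      hpow (1 - b0) (by linarith) 2, tendsto_natCast_atTop_atTop.eventually_ge_atTop (2 * k),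
      eventually_ge_atTop X0, eventually_ge_atTop 16, hpow a0 ha0 k] with N a1 a2 a3 a4 a5 a6 a7 a8
    exact ⟨a1, a2, a3, a4, a5, a6, a7, a8⟩
  obtain ⟨N0, hN0⟩ := eventually_atTop.1 hev
  refine ⟨200 + 18 * C1, by positivity, N0, ?_⟩
  intro N hN M T hNM hMT hT h4T t hta htb
  obtain ⟨hlog1, hg1, hg2, hg3, hg4, hNX0, hN16, hg5⟩ := hN0 N hN
  set L : ℝ := Real.log N with hL
  have hN16r : (16 : ℝ) ≤ N := by exact_mod_cast hN16
  have hNpos : (0 : ℝ) < N := by linarith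
  have hNMr : (N : ℝ) ≤ M := by exact_mod_cast hNM
  have hTr : (1 : ℝ) ≤ T := by exact_mod_cast hT
  have h4Tr : 4 * (T : ℝ) ≤ N := by exact_mod_cast h4T
  have hMTr : (M : ℝ) + T ≤ 2 * N := by exact_mod_cast hMT
  have hMpos : (0 : ℝ) < M := by linarith
  have htpos : (0 : ℝ) < t := lt_of_lt_of_le (by positivity) hta
  have hkt : k ≤ t := hg5.trans hta
  have hLpos : 0 < L := by linarith
  have hLU : 0 < L ^ U := by positivity
  -- `t + k ≤ N`
  have htN : (t : ℝ) + k ≤ N := by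
    have e1 : 2 * (N : ℝ) ^ b0 ≤ N := by
      calc 2 * (N : ℝ) ^ b0 ≤ (N : ℝ) ^ (1 - b0) * (N : ℝ) ^ b0 := by gcongr
        _ = N := by rw [← Real.rpow_add hNpos]; simp
    linarith
  have htNz : ∀ n : ℕ, N ≤ n → (t : ℤ) + |h| ≤ 2 * n + 1 := by
    intro n hn
    have e1 : (t : ℝ) + |(h : ℝ)| ≤ 2 * n + 1 := by
      have : (N : ℝ) ≤ n := by exact_mod_cast hn
      linarith
    exact_mod_cast e1
  -- the windows
  set xhi : ℝ := (t + k) / (2 * M) with hxhi
  set xlo : ℝ := (t - k) / (2 * (M + T) + 1) with hxlo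
  set x0 : ℝ := t / (2 * M) with hx0
  have hxlo0 : 0 ≤ xlo := div_nonneg (by linarith) (by positivity)
  have hxhi1 : xhi ≤ 1 := by
    rw [hxhi, div_le_one (by positivity)]
    linarith
  have hx0hi : x0 ≤ xhi := by
    rw [hx0, hxhi]
    gcongr
    linarith
  have hx0lo : xlo ≤ x0 := by
    rw [hx0, hxlo]
    apply div_le_div₀ htpos.le (by linarith) (by positivity)
    linarith
  have hx00 : 0 ≤ x0 := by positivity
  have hgap : xhi - xlo ≤ t * T / (N : ℝ) ^ 2 + 2 * k / N :=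
    K0_gap hNpos hNMr hTr htpos hk0 (by linarith) (by linarith)
  have hxhiN : xhi ≤ t / N := by
    rw [hxhi, div_le_div_iff₀ (by positivity) hNpos]
    calc (t + k) * (N : ℝ) ≤ (2 * t) * M := by
          apply mul_le_mul (by linarith) hNMr hNpos.le (by linarith)
      _ = t * (2 * M) := by ring
  have hx0N : x0 ≤ t / (2 * N) := by
    rw [hx0]
    gcongr
  -- the primes of the block
  obtain ⟨Q, hQ⟩ : ∃ Q, Q = PB ((M + 1) ^ 2 - 1) ((M + T + 1) ^ 2 - 1) := ⟨_, rfl⟩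
  obtain ⟨q, hq⟩ : ∃ q : ℝ, q = (Q.card : ℝ) := ⟨_, rfl⟩
  have hq0 : 0 ≤ q := by rw [hq]; exact Nat.cast_nonneg _
  obtain ⟨X, hX⟩ : ∃ X : ℕ, X = (M + 1) ^ 2 - 1 := ⟨_, rfl⟩
  obtain ⟨X', hX'⟩ : ∃ X' : ℕ, X' = (M + T + 1) ^ 2 - 1 := ⟨_, rfl⟩
  have hQX : Q = PB X X' := by rw [hQ, hX, hX']
  have hXX' : X ≤ X' := by
    rw [hX, hX']
    exact Nat.sub_le_sub_right (Nat.pow_le_pow_left (by omega) 2) 1
  have hone1 : 1 ≤ (M + 1) ^ 2 := Nat.one_le_pow _ _ (by omega)
  have hone2 : 1 ≤ (M + T + 1) ^ 2 := Nat.one_le_pow _ _ (by omega)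
  have hXr : (X : ℝ) = ((M : ℝ) + 1) ^ 2 - 1 := by
    rw [hX, Nat.cast_sub hone1]; push_cast; ring
  have hX'r : (X' : ℝ) = ((M : ℝ) + T + 1) ^ 2 - 1 := by
    rw [hX', Nat.cast_sub hone2]; push_cast; ring
  obtain ⟨hdiff, hd5, hXN2, hX9, hX2r, hNXr⟩ := K0_sq hXr hX'r hN16r hNMr hTr h4Tr hMTr
  have hqle : q ≤ 5 * N * T := by
    have e1 : (Q.card : ℝ) ≤ (X' : ℝ) - X := by
      have : Q.card ≤ X' - X := by rw [hQX]; exact PB_card_le X X'
      rw [← Nat.cast_sub hXX']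
      exact_mod_cast this
    rw [hq]
    linarith
  have hX9' : (X : ℝ) ≤ 9 * (N : ℝ) ^ 2 := le_trans (by exact_mod_cast hXX') hX9
  have hXpos : (0 : ℝ) < X := by linarith
  have hX2 : X' ≤ 2 * X := by exact_mod_cast hX2r
  have hXX0 : X0 ≤ X := by
    have e1 : N ≤ X := by exact_mod_cast hNXr
    omega
  -- equidistribution
  have hXτ : (X : ℝ) ^ (-τ) ≤ t / N := by
    have e1 : (X : ℝ) ^ (-τ) ≤ ((N : ℝ) ^ 2) ^ (-τ) :=
      Real.rpow_le_rpow_of_nonpos (by positivity) hXN2 (by linarith)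
    have e2 : ((N : ℝ) ^ 2) ^ (-τ) = (N : ℝ) ^ (-(2 * τ)) := by
      rw [← Real.rpow_natCast, ← Real.rpow_mul hNpos.le]
      congr 1
      push_cast
      ring
    have e3 : (N : ℝ) ^ (-(2 * τ)) ≤ (N : ℝ) ^ (a0 - 1) :=
      Real.rpow_le_rpow_of_exponent_le (by linarith) (by linarith)
    have e4 : (N : ℝ) ^ (a0 - 1) = (N : ℝ) ^ a0 / N := by rw [Real.rpow_sub hNpos, Real.rpow_one]
    rw [e2] at e1
    calc (X : ℝ) ^ (-τ) ≤ (N : ℝ) ^ a0 / N := by rw [← e4]; exact e1.trans e3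
      _ ≤ t / N := by gcongr
  have hXκ : (X : ℝ) ^ (1 - κ) ≤ 9 * (N : ℝ) ^ 2 / (N : ℝ) ^ (2 * κ) := by
    rw [Real.rpow_sub hXpos, Real.rpow_one]
    have e1 : (N : ℝ) ^ (2 * κ) ≤ (X : ℝ) ^ κ := by
      calc (N : ℝ) ^ (2 * κ) = ((N : ℝ) ^ 2) ^ κ := by
            rw [← Real.rpow_natCast, ← Real.rpow_mul hNpos.le]
            congr 1
        _ ≤ (X : ℝ) ^ κ := Real.rpow_le_rpow (by positivity) hXN2 hκ.le
    gcongr
  set W : ℝ → ℝ := fun x => ((Q.filter (fun p : ℕ => Int.fract (√(p : ℝ)) < x)).card : ℝ) with hW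
  set E : ℝ := t * N / (4 * L ^ (U + 1)) with hE
  have hE0 : 0 ≤ E := by positivity
  have hWE : ∀ x : ℝ, 0 ≤ x → x ≤ xhi → |W x - x * q| ≤ E := by
    intro x h0 h1
    have e1 := hX0 X X' hXX0 hXX' hX2 0 x le_rfl h0 (h1.trans hxhi1)
    have e2 : (PB X X').filter (fun p : ℕ => 0 ≤ Int.fract (√(p : ℝ)) ∧ Int.fract (√(p : ℝ)) < x) =
        Q.filter (fun p : ℕ => Int.fract (√(p : ℝ)) < x) := by
      rw [hQX]
      apply filter_congr
      intro p _
      exact and_iff_right (Int.fract_nonneg _)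
    rw [e2, sub_zero, ← hQX, ← hq] at e1
    refine e1.trans ?_
    have e3 : (x + (X : ℝ) ^ (-τ)) * (X : ℝ) ^ (1 - κ) ≤
        (t / N + t / N) * (9 * (N : ℝ) ^ 2 / (N : ℝ) ^ (2 * κ)) := by
      apply mul_le_mul (by linarith) hXκ (by positivity) (by positivity)
    refine e3.trans ?_
    have e4 : (t / N + t / N) * (9 * (N : ℝ) ^ 2 / (N : ℝ) ^ (2 * κ)) = 18 * t * N / (N : ℝ) ^ (2 * κ) := by
      field_simp
      norm_num
    rw [e4, hE]
    have e5 : 18 * (t : ℝ) * N / (N : ℝ) ^ (2 * κ) ≤ 18 * t * N / (72 * L ^ (U + 1)) := by gcongr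
    refine e5.trans (le_of_eq ?_)
    field_simp
    ring
  -- the numbers of the primes
  set S : ℝ := ∑ n ∈ Ioc M (M + T), (DD h n t : ℝ) with hS
  have hShi : S ≤ W xhi + k * T := by
    have e1 : ∀ n ∈ Ioc M (M + T), (DD h n t : ℝ) ≤ (WW n xhi : ℝ) + k := by
      intro n hn
      rw [mem_Ioc] at hn
      have hMn : (M : ℝ) ≤ n := by exact_mod_cast hn.1.le
      have := DD_hi h (n := n) (t := t) (by omega) (htNz n (by omega)) (x := xhi) (by linarith) (by
        rw [← hk]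
        calc (t : ℝ) + k = xhi * (2 * M) := by rw [hxhi]; field_simp
          _ ≤ xhi * (2 * n) := by gcongr)
      rw [← hknat]
      exact_mod_cast this
    have e2 := sum_le_sum e1
    rw [sum_add_distrib, sum_const, Nat.card_Ioc, nsmul_eq_mul] at e2
    have e3 : ((M + T - M : ℕ) : ℝ) = T := by
      have : M + T - M = T := by omega
      rw [this]
    have e4 : ∑ n ∈ Ioc M (M + T), (WW n xhi : ℝ) = W xhi := by
      have := WW_sum M T xhi
      rw [← hQ] at this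
      simp only [hW]
      exact_mod_cast this
    rw [e3, e4] at e2
    rw [hS]
    linarith
  have hSlo : W xlo - k * T ≤ S := by
    have e1 : ∀ n ∈ Ioc M (M + T), (WW n xlo : ℝ) ≤ (DD h n t : ℝ) + k := by
      intro n hn
      rw [mem_Ioc] at hn
      have hMn : (n : ℝ) ≤ M + T := by exact_mod_cast hn.2
      have := DD_lo h (n := n) (t := t) (by omega) (x := xlo) (by
        rw [← hk]
        calc xlo * (2 * n + 1) ≤ xlo * (2 * (M + T) + 1) := by gcongr
          _ = t - k := by rw [hxlo]; field_simp)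
      rw [← hknat]
      exact_mod_cast this
    have e2 := sum_le_sum e1
    rw [sum_add_distrib, sum_const, Nat.card_Ioc, nsmul_eq_mul] at e2
    have e3 : ((M + T - M : ℕ) : ℝ) = T := by
      have : M + T - M = T := by omega
      rw [this]
    have e4 : ∑ n ∈ Ioc M (M + T), (WW n xlo : ℝ) = W xlo := by
      have := WW_sum M T xlo
      rw [← hQ] at this
      simp only [hW]
      exact_mod_cast this
    rw [e3, e4] at e2
    rw [hS]
    linarith
  have hS0 : 0 ≤ S := by rw [hS]; exact sum_nonneg fun _ _ => Nat.cast_nonneg _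
  have hSt : S ≤ T * t := by
    have e1 : ∀ n ∈ Ioc M (M + T), (DD h n t : ℝ) ≤ t := fun n _ => by exact_mod_cast DD_le h n t
    have e2 := sum_le_sum e1
    rw [sum_const, Nat.card_Ioc, nsmul_eq_mul] at e2
    have e3 : ((M + T - M : ℕ) : ℝ) = T := by
      have : M + T - M = T := by omega
      rw [this]
    rw [e3] at e2
    exact e2
  -- step 1: `S` against `x0 q`
  set D1 : ℝ := k * T + (t * T / (N : ℝ) ^ 2 + 2 * k / N) * (5 * N * T) + E with hD1
  have hstep1 : |S - x0 * q| ≤ D1 := by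
    have e1 := abs_le.1 (hWE xhi (by linarith) le_rfl)
    have e2 := abs_le.1 (hWE xlo hxlo0 (by linarith))
    have e3 : (xhi - xlo) * q ≤ (t * T / (N : ℝ) ^ 2 + 2 * k / N) * (5 * N * T) := by
      apply mul_le_mul hgap hqle hq0 (by positivity)
    have e4 : xhi * q ≤ x0 * q + (xhi - xlo) * q := by linarith [mul_nonneg (sub_nonneg.2 hx0lo) hq0]
    have e5 : x0 * q - (xhi - xlo) * q ≤ xlo * q := by linarith [mul_nonneg (sub_nonneg.2 hx0hi) hq0]
    rw [abs_le]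
    constructor
    · linarith [e2.1]
    · linarith [e1.2]
  -- step 2: the logarithms
  have hlogM : Real.log M ≤ 2 * L := by
    have e1 : (M : ℝ) ≤ N ^ 2 := by
      have := mul_le_mul_of_nonneg_right (show (2 : ℝ) ≤ N by linarith) hNpos.le
      rw [sq]
      linarith
    calc Real.log M ≤ Real.log ((N : ℝ) ^ 2) := Real.log_le_log hMpos e1
      _ = 2 * L := by rw [Real.log_pow]; push_cast; rfl
  have hlogM0 : 0 ≤ Real.log M := Real.log_nonneg (by linarith)
  have hstep2 : |∑ n ∈ Ioc M (M + T), 2 * Real.log n * DD h n t - 2 * Real.log M * S| ≤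
      2 * (T / N) * (T * t) := by
    rw [hS, mul_sum, ← sum_sub_distrib]
    refine (abs_sum_le_sum_abs _ _).trans ?_
    have e1 : ∀ n ∈ Ioc M (M + T), |2 * Real.log n * DD h n t - 2 * Real.log M * DD h n t| ≤
        2 * (T / N) * t := by
      intro n hn
      rw [mem_Ioc] at hn
      have hMn : (M : ℝ) ≤ n := by exact_mod_cast hn.1.le
      have hMn2 : (n : ℝ) ≤ M + T := by exact_mod_cast hn.2
      obtain ⟨g1, g2⟩ := K0_log hNpos hNMr hMn hMn2
      have g3 : (DD h n t : ℝ) ≤ t := by exact_mod_cast DD_le h n t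
      have g4 : (0 : ℝ) ≤ DD h n t := Nat.cast_nonneg _
      have g5 : 2 * Real.log n * DD h n t - 2 * Real.log M * DD h n t =
          2 * (Real.log n - Real.log M) * DD h n t := by ring
      rw [g5, abs_of_nonneg (by positivity)]
      gcongr
    refine (sum_le_sum e1).trans ?_
    rw [sum_const, Nat.card_Ioc, nsmul_eq_mul]
    have e3 : ((M + T - M : ℕ) : ℝ) = T := by
      have : M + T - M = T := by omega
      rw [this]
    rw [e3]
    apply le_of_eq
    ring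
  -- step 3: the sum of the logarithms of the primes
  set Θ : ℝ := ∑ p ∈ Q, Real.log p with hΘ
  have hstep3 : |2 * Real.log M * q - Θ| ≤ 4 * (T / N) * q := by
    rw [hq, card_eq_sum_ones, hΘ]
    push_cast
    rw [mul_sum, ← sum_sub_distrib]
    refine (abs_sum_le_sum_abs _ _).trans ?_
    rw [mul_sum]
    refine sum_le_sum fun p hp => ?_
    rw [mul_one, mul_one]
    rw [hQ, mem_PB_block] at hp
    have g1 : (M : ℝ) ^ 2 ≤ p := by
      have : M ^ 2 ≤ p := by
        have h3 := Nat.sqrt_le' p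
        calc M ^ 2 ≤ (Nat.sqrt p) ^ 2 := Nat.pow_le_pow_left hp.2.1.le 2
          _ ≤ p := h3
      exact_mod_cast this
    have g2 : (p : ℝ) ≤ ((M : ℝ) + (T + 1)) ^ 2 := by
      have : p ≤ (M + (T + 1)) ^ 2 := by
        have h3 := Nat.lt_succ_sqrt' p
        have h4 : (Nat.sqrt p).succ ≤ M + (T + 1) := by
          have := hp.2.2
          omega
        exact (h3.trans_le (Nat.pow_le_pow_left h4 2)).le
      exact_mod_cast this
    have g3 : Real.log ((M : ℝ) ^ 2) = 2 * Real.log M := by rw [Real.log_pow]; push_cast; rfl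
    have g4 : Real.log (((M : ℝ) + (T + 1)) ^ 2) = 2 * Real.log (M + (T + 1)) := by
      rw [Real.log_pow]; push_cast; rfl
    have g5 : 2 * Real.log M ≤ Real.log p := by
      rw [← g3]
      exact Real.log_le_log (by positivity) g1
    have hp0 : (0 : ℝ) < p := lt_of_lt_of_le (by positivity) g1
    have g6 : Real.log p ≤ 2 * Real.log (M + (T + 1)) := by
      rw [← g4]
      exact Real.log_le_log hp0 g2
    have g7 := (K0_log hNpos hNMr (m := (M : ℝ)) (n := (M : ℝ) + (T + 1)) (T := T + 1)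
      (by linarith) le_rfl).2
    have g8 : ((T : ℝ) + 1) / N ≤ 2 * (T / N) := by
      rw [← mul_div_assoc]
      gcongr
      linarith
    rw [abs_sub_comm, abs_of_nonneg (by linarith)]
    linarith
  -- step 4: the prime number theorem
  have hstep4 : |Θ - T * (2 * M + T + 2)| ≤ 18 * C1 * (N : ℝ) ^ 2 / L ^ U := by
    have e1 : Θ = Chebyshev.theta (X' : ℝ) - Chebyshev.theta (X : ℝ) := by
      rw [hΘ, hQX, theta_block hXX']
    have hX2' : 2 ≤ X := by
      have : (2 : ℝ) ≤ X := by linarith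
      exact_mod_cast this
    have e2 := hth X hX2'
    have e3 := hth X' (by omega)
    have hlogX : L ≤ Real.log X := Real.log_le_log hNpos hNXr
    have hlogX' : L ≤ Real.log X' := hlogX.trans (Real.log_le_log hXpos (by exact_mod_cast hXX'))
    have e4 : C1 * ((X : ℝ) / Real.log X ^ U) ≤ C1 * (9 * (N : ℝ) ^ 2 / L ^ U) := by gcongr
    have e5 : C1 * ((X' : ℝ) / Real.log X' ^ U) ≤ C1 * (9 * (N : ℝ) ^ 2 / L ^ U) := by gcongr
    have e6 := abs_le.1 (e2.trans e4)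
    have e7 := abs_le.1 (e3.trans e5)
    rw [e1, ← hdiff]
    have e8 : 18 * C1 * (N : ℝ) ^ 2 / L ^ U = C1 * (9 * (N : ℝ) ^ 2 / L ^ U) +
        C1 * (9 * (N : ℝ) ^ 2 / L ^ U) := by ring
    rw [e8, abs_le]
    constructor
    · linarith [e6.2, e7.1]
    · linarith [e6.1, e7.2]
  -- the conclusion
  have hsum : ∑ n ∈ Ioc M (M + T), (2 * Real.log n * DD h n t - t) =
      ∑ n ∈ Ioc M (M + T), 2 * Real.log n * DD h n t - T * t := by
    rw [sum_sub_distrib, sum_const, Nat.card_Ioc, nsmul_eq_mul]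
    have e3 : ((M + T - M : ℕ) : ℝ) = T := by
      have : M + T - M = T := by omega
      rw [this]
    rw [e3]
  rw [hsum]
  have hfin0 : x0 * (T * (2 * M + T + 2)) = T * t + t * T * (T + 2) / (2 * M) := by
    rw [hx0]
    field_simp
    ring
  have hA1 : |2 * Real.log M * S - 2 * Real.log M * (x0 * q)| ≤ 4 * L * D1 := by
    rw [← mul_sub, abs_mul, abs_of_nonneg (by positivity)]
    apply mul_le_mul (by linarith) hstep1 (abs_nonneg _) (by positivity)
  have hA2 : |2 * Real.log M * (x0 * q) - x0 * Θ| ≤ 10 * t * T * T / N := by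
    have e1 : 2 * Real.log M * (x0 * q) - x0 * Θ = x0 * (2 * Real.log M * q - Θ) := by ring
    rw [e1, abs_mul, abs_of_nonneg hx00]
    calc x0 * |2 * Real.log M * q - Θ| ≤ (t / (2 * N)) * (4 * (T / N) * (5 * N * T)) := by
          apply mul_le_mul hx0N (hstep3.trans (by gcongr)) (abs_nonneg _) (by positivity)
      _ = 10 * t * T * T / N := by
          field_simp
          ring
  have hA3 : |x0 * Θ - x0 * (T * (2 * M + T + 2))| ≤ 9 * C1 * (t * N / L ^ U) := by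
    rw [← mul_sub, abs_mul, abs_of_nonneg hx00]
    calc x0 * |Θ - T * (2 * M + T + 2)| ≤ (t / (2 * N)) * (18 * C1 * (N : ℝ) ^ 2 / L ^ U) := by
          apply mul_le_mul hx0N hstep4 (abs_nonneg _) (by positivity)
      _ = 9 * C1 * (t * N / L ^ U) := by
          field_simp
          ring
  have hA4 : (t : ℝ) * T * (T + 2) / (2 * M) ≤ 2 * (t * T * T / N) := by
    have h2 : (t : ℝ) * T * (T + 2) ≤ 4 * (t * T * T) := by
      have h3 : (0 : ℝ) ≤ t * T := by positivity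
      have h4 := mul_nonneg h3 (show (0 : ℝ) ≤ 3 * T - 2 by linarith)
      linarith
    have : (t : ℝ) * T * (T + 2) / (2 * M) ≤ (4 * (t * T * T)) / (2 * N) :=
      div_le_div₀ (by positivity) h2 (by positivity) (by linarith)
    refine this.trans (le_of_eq ?_)
    field_simp
    norm_num
  have hA40 : 0 ≤ t * T * (T + 2) / (2 * (M : ℝ)) := by positivity
  -- the size of `4 L D1`
  have hkTL : 4 * L * (11 * (k * T)) ≤ 11 * (t * N / L ^ U) := by
    have e1 : L * k * L ^ U ≤ t := by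
      calc L * k * L ^ U ≤ (k + 1) * L ^ (U + 1) := by
            rw [pow_succ]
            have h1 : 0 < L ^ U * L := mul_pos hLU hLpos
            linarith
        _ ≤ (N : ℝ) ^ a0 := hg1
        _ ≤ t := hta
    have e2 : L * k ≤ t / L ^ U := by rw [le_div_iff₀ hLU]; exact e1
    calc 4 * L * (11 * (k * T)) = 11 * ((L * k) * (4 * T)) := by ring
      _ ≤ 11 * ((t / L ^ U) * N) := by gcongr
      _ = 11 * (t * N / L ^ U) := by ring
  have hLE : 4 * L * E = t * N / L ^ U := by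
    rw [hE, pow_succ]
    field_simp
  have hD1e : 4 * L * D1 = 4 * L * (11 * (k * T)) + 20 * (L * t * T * T / N) + 4 * L * E := by
    rw [hD1]
    field_simp
    ring
  have hx1 : 0 ≤ L * t * T * T / N := by positivity
  have hx2 : 0 ≤ t * N / L ^ U := by positivity
  have hLt : t * T * T / N ≤ L * t * T * T / N := by
    have : (t : ℝ) * T * T ≤ L * t * T * T := by
      have h1 : (0 : ℝ) ≤ t * T * T := by positivity
      have h4 := mul_nonneg (show (0 : ℝ) ≤ L - 1 by linarith) h1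
      linarith
    gcongr
  rw [hfin0] at hA3
  have e10 : 10 * (t : ℝ) * T * T / N = 10 * (t * T * T / N) := by ring
  have e11 : 2 * ((T : ℝ) / N) * (T * t) = 2 * (t * T * T / N) := by ring
  rw [e10] at hA2
  rw [e11] at hstep2
  rw [hD1e, hLE] at hA1
  exact K0_fin hC1.le hx1 hx2 hLt hkTL hA40 hA4 hstep2 hA1 hA2 hA3

end Pool.Agent.H2
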