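import Mathlib
import Pool.Agent.H2.K01
import Pool.Agent.H2.LLN

/-!
The number of primes above the squares in logarithmic coordinates, on average (helper2).
-/

set_option autoImplicit false

namespace Pool.Agent.H2

open Finset Filter Topology MeasureTheory

/-- powers of the logarithm -/
lemma log_pow_ev (U : ℕ) {ε : ℝ} (hε : 0 < ε) {A : ℝ} (hA : 0 < A) :
    ∀ᶠ N : ℕ in atTop, A * Real.log N ^ U ≤ (N : ℝ) ^ ε := by
  have h1 := (isLittleO_log_rpow_rpow_atTop (U : ℕ) hε).def (show (0 : ℝ) < 1 / A by positivity)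
  filter_upwards [tendsto_natCast_atTop_atTop.eventually h1, eventually_ge_atTop 1] with N h2 h3
  have h4 : (1 : ℝ) ≤ N := by exact_mod_cast h3
  have h5 : 0 ≤ Real.log (N : ℝ) := Real.log_nonneg h4
  rw [Real.norm_eq_abs, Real.norm_eq_abs, Real.rpow_natCast, abs_of_nonneg (by positivity),
    abs_of_nonneg (by positivity)] at h2
  rw [one_div, ← div_eq_inv_mul, le_div_iff₀ hA] at h2
  linarith

/-- **all blocks** -/
theorem K0 (h : ℤ) {τ a0 b0 : ℝ} (hτ : 0 < τ) (hEq : EqQ τ) (ha : 1 - 2 * τ ≤ a0)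
    (ha0 : 0 < a0) (hb0 : b0 < 1) (A : ℕ) :
    ∃ C : ℝ, 0 < C ∧ ∃ N0 : ℕ, ∀ N : ℕ, N0 ≤ N → ∀ M T : ℕ, N ≤ M → M + T ≤ 2 * N →
      ∀ t : ℕ, (N : ℝ) ^ a0 ≤ t → (t : ℝ) ≤ (N : ℝ) ^ b0 →
      |∑ n ∈ Ioc M (M + T), (2 * Real.log n * DD h n t - t)| ≤ C * t * N / Real.log N ^ A := by
  obtain ⟨C, hC, N1, hN1⟩ := K0_block h hτ hEq ha ha0 hb0 (2 * A + 2)
  have hev : ∀ᶠ N : ℕ in atTop, 1 ≤ Real.log N ∧ 2 * Real.log N ^ (A + 1) ≤ (N : ℝ) ^ (1 : ℝ) ∧
      4 ≤ Real.log N ∧ N1 ≤ N ∧ 1 ≤ N := by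
    filter_upwards [(Real.tendsto_log_atTop.comp tendsto_natCast_atTop_atTop).eventually_ge_atTop 1,
      log_pow_ev (A + 1) (ε := 1) (by norm_num) (A := 2) (by norm_num),
      (Real.tendsto_log_atTop.comp tendsto_natCast_atTop_atTop).eventually_ge_atTop 4,
      eventually_ge_atTop N1, eventually_ge_atTop 1] with N a1 a2 a3 a4 a5
    exact ⟨a1, a2, a3, a4, a5⟩
  obtain ⟨N0, hN0⟩ := eventually_atTop.1 hev
  refine ⟨6 * C, by positivity, N0, ?_⟩
  intro N hN M T hNM hMT t hta htb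
  obtain ⟨hl1, hl2, hl4, hNN1, hN1'⟩ := hN0 N hN
  set L : ℝ := Real.log N with hL
  rw [Real.rpow_one] at hl2
  have hNpos : (0 : ℝ) < N := by exact_mod_cast hN1'
  have hL0 : 0 < L := by linarith
  have htpos : (0 : ℝ) < t := lt_of_lt_of_le (by positivity) hta
  obtain ⟨T0, hT0⟩ : ∃ T0 : ℕ, T0 = ⌊(N : ℝ) / L ^ (A + 1)⌋₊ := ⟨_, rfl⟩
  have hq2 : 2 ≤ (N : ℝ) / L ^ (A + 1) := by
    rw [le_div_iff₀ (by positivity)]
    exact hl2
  have hT0le : (T0 : ℝ) ≤ N / L ^ (A + 1) := by rw [hT0]; exact Nat.floor_le (by positivity)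
  have hT0ge : (N : ℝ) / L ^ (A + 1) / 2 ≤ T0 := by
    have := Nat.lt_floor_add_one ((N : ℝ) / L ^ (A + 1))
    rw [← hT0] at this
    linarith
  have hT01 : 1 ≤ T0 := by
    have : (0 : ℝ) < T0 := by linarith
    exact_mod_cast this
  have h4T0 : 4 * T0 ≤ N := by
    have e1 : (N : ℝ) / L ^ (A + 1) ≤ N / 4 := by
      apply div_le_div_of_nonneg_left hNpos.le (by norm_num)
      calc (4 : ℝ) ≤ L := hl4
        _ ≤ L ^ (A + 1) := le_self_pow₀ hl1 (by omega)
    have : 4 * (T0 : ℝ) ≤ N := by linarith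
    exact_mod_cast this
  set e : ℝ := 2 * C * (t * N / L ^ (2 * A + 1)) with he
  have hblock := split_bd (f := fun n => 2 * Real.log n * DD h n t - t) (w := fun _ => 0) (N := N)
    (T0 := T0) (a := 0) (e := e) hT01 (by positivity) (by
      intro M' T' h1 h2 h3 h4
      have g1 := hN1 N hNN1 M' T' h1 h2 h3 (by omega) t hta htb
      refine g1.trans ?_
      rw [sum_const_zero, zero_mul, zero_add, add_zero, he]
      have hT'r : (T' : ℝ) ≤ N / L ^ (A + 1) := le_trans (by exact_mod_cast h4) hT0le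
      have g2 : L * t * T' * T' / N ≤ t * N / L ^ (2 * A + 1) := by
        calc L * t * T' * T' / N ≤ L * t * (N / L ^ (A + 1)) * (N / L ^ (A + 1)) / N := by gcongr
          _ = t * N / L ^ (2 * A + 1) := by
              have : L ^ (A + 1) * L ^ (A + 1) = L * L ^ (2 * A + 1) := by
                rw [← pow_add, ← pow_succ']; congr 1; ring
              field_simp
              rw [show (L ^ (A + 1)) ^ 2 = L ^ (A + 1) * L ^ (A + 1) by ring, this]
      have g3 : t * N / L ^ (2 * A + 2) ≤ t * N / L ^ (2 * A + 1) := by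
        apply div_le_div_of_nonneg_left (by positivity) (by positivity)
        exact pow_le_pow_right₀ hl1 (by omega)
      calc C * (L * t * T' * T' / N + t * N / L ^ (2 * A + 2)) ≤
            C * (t * N / L ^ (2 * A + 1) + t * N / L ^ (2 * A + 1)) := by gcongr
        _ = _ := by ring) T M hNM hMT
  refine hblock.trans ?_
  rw [sum_const_zero, zero_mul, zero_add, add_zero]
  have hTr : (T : ℝ) ≤ N := by
    have : T ≤ N := by omega
    exact_mod_cast this
  have hT0pos : (0 : ℝ) < T0 := by exact_mod_cast hT01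
  have g4 : (T : ℝ) / T0 + 1 ≤ 3 * L ^ (A + 1) := by
    have e1 : (T : ℝ) / T0 ≤ 2 * L ^ (A + 1) := by
      rw [div_le_iff₀ hT0pos]
      calc (T : ℝ) ≤ N := hTr
        _ = 2 * L ^ (A + 1) * (N / L ^ (A + 1) / 2) := by field_simp
        _ ≤ 2 * L ^ (A + 1) * T0 := by gcongr
    have e2 : 1 ≤ L ^ (A + 1) := one_le_pow₀ hl1
    linarith
  calc ((T : ℝ) / T0 + 1) * e ≤ 3 * L ^ (A + 1) * e := by
        apply mul_le_mul_of_nonneg_right g4 (by positivity)
    _ = 6 * C * t * N / L ^ A := by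
        rw [he]
        have : L ^ (2 * A + 1) = L ^ (A + 1) * L ^ A := by rw [← pow_add]; congr 1; ring
        rw [this]
        field_simp
        ring

/-- the function of the logarithm -/
noncomputable def gg (h : ℤ) (n : ℕ) (v : ℝ) : ℝ :=
  (if ((n : ℤ) ^ 2 + h + ⌊Real.exp v⌋).toNat.Prime then 2 * Real.log n else 0) - 1

lemma gg_abs (h : ℤ) {n : ℕ} (hn : 1 ≤ n) (v : ℝ) : |gg h n v| ≤ 2 * Real.log n + 1 := by
  have h0 : 0 ≤ Real.log (n : ℝ) := Real.log_nonneg (by exact_mod_cast hn)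
  unfold gg
  split_ifs
  · rw [abs_le]
    constructor <;> linarith
  · rw [abs_le]
    constructor <;> linarith

lemma gg_meas (h : ℤ) (n : ℕ) : Measurable (gg h n) := by
  unfold gg
  apply Measurable.sub_const
  have h1 : Measurable (fun v : ℝ => ⌊Real.exp v⌋) := Int.measurable_floor.comp Real.measurable_exp
  have h2 : Measurable (fun k : ℤ => if ((n : ℤ) ^ 2 + h + k).toNat.Prime then 2 * Real.log n else 0) :=
    measurable_from_top
  exact h2.comp h1

lemma gg_int (h : ℤ) {n : ℕ} (hn : 1 ≤ n) (a b : ℝ) : IntervalIntegrable (gg h n) volume a b := by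
  rw [intervalIntegrable_iff]
  refine Integrable.mono' (g := fun _ => 2 * Real.log n + 1) ?_ (gg_meas h n).aestronglyMeasurable ?_
  · exact integrableOn_const (by simp) (by simp)
  · exact Eventually.of_forall fun v => by rw [Real.norm_eq_abs]; exact gg_abs h hn v

lemma DD_succ (h : ℤ) (n t : ℕ) : (DD h n (t + 1) : ℝ) = DD h n t +
    (if ((n : ℤ) ^ 2 + h + t).toNat.Prime then 1 else 0) := by
  classical
  unfold DD
  rw [range_add_one, filter_insert]
  split_ifs with h1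
  · rw [card_insert_of_notMem (by simp)]
    push_cast
    ring
  · simp

/-- the difference of consecutive logarithms -/
lemma lg_bd {b : ℕ} (hb : 1 ≤ b) : 0 ≤ Real.log ((b + 1 : ℕ) : ℝ) - Real.log b ∧
    Real.log ((b + 1 : ℕ) : ℝ) - Real.log b ≤ 1 / b ∧
    1 / ((b : ℝ) + 1) ≤ Real.log ((b + 1 : ℕ) : ℝ) - Real.log b := by
  have hb0 : (0 : ℝ) < b := by exact_mod_cast hb
  have hb1 : (0 : ℝ) < ((b + 1 : ℕ) : ℝ) := by positivity
  have hle : Real.log b ≤ Real.log ((b + 1 : ℕ) : ℝ) := Real.log_le_log hb0 (by push_cast; linarith)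
  refine ⟨by linarith, ?_, ?_⟩
  · rw [← Real.log_div hb1.ne' hb0.ne']
    have h1 := Real.log_le_sub_one_of_pos (show 0 < ((b + 1 : ℕ) : ℝ) / b by positivity)
    have h2 : ((b + 1 : ℕ) : ℝ) / b - 1 = 1 / b := by push_cast; field_simp; ring
    linarith
  · have h1 := Real.log_le_sub_one_of_pos (show 0 < (b : ℝ) / ((b + 1 : ℕ) : ℝ) by positivity)
    rw [Real.log_div hb0.ne' hb1.ne'] at h1
    have h2 : (b : ℝ) / ((b + 1 : ℕ) : ℝ) - 1 = - (1 / ((b : ℝ) + 1)) := by push_cast; field_simp; ring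
    linarith

lemma abel_g {Z : ℕ → ℝ} {E : ℝ} (hE : 0 ≤ E) {t1 : ℕ} (h1 : 1 ≤ t1) :
    ∀ t2 : ℕ, t1 ≤ t2 → (∀ t, t1 ≤ t → t ≤ t2 → |Z t| ≤ E * t) →
    |∑ b ∈ Ico t1 t2, (Real.log ((b + 1 : ℕ) : ℝ) - Real.log b) * (Z (b + 1) - Z b)| ≤
      E * (4 + 2 * (Real.log t2 - Real.log t1)) := by
  set lg : ℕ → ℝ := fun b => Real.log ((b + 1 : ℕ) : ℝ) - Real.log b with hlg
  intro t2 h12 hZ
  have hid : ∀ t2, t1 ≤ t2 → ∑ b ∈ Ico t1 t2, lg b * (Z (b + 1) - Z b) =
      lg t2 * Z t2 - lg t1 * Z t1 + ∑ b ∈ Ico t1 t2, (lg b - lg (b + 1)) * Z (b + 1) := by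
    intro t2 h
    induction t2, h using Nat.le_induction with
    | base => simp
    | succ m hm ih =>
      rw [sum_Ico_succ_top hm, sum_Ico_succ_top hm, ih]
      ring
  have hlgb : ∀ b : ℕ, 1 ≤ b → 0 ≤ lg b ∧ lg b ≤ 1 / b ∧ 1 / ((b : ℝ) + 1) ≤ lg b := fun b hb => lg_bd hb
  have e1 : ∀ t : ℕ, t1 ≤ t → t ≤ t2 → |lg t * Z t| ≤ E := by
    intro t ha hb
    obtain ⟨g1, g2, _⟩ := hlgb t (h1.trans ha)
    have ht0 : (0 : ℝ) < t := by exact_mod_cast h1.trans ha
    rw [abs_mul, abs_of_nonneg g1]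
    calc lg t * |Z t| ≤ 1 / t * (E * t) := mul_le_mul g2 (hZ t ha hb) (abs_nonneg _) (by positivity)
      _ = E := by field_simp
  have e2 : ∀ b ∈ Ico t1 t2, |(lg b - lg (b + 1)) * Z (b + 1)| ≤ 2 * E * (1 / b) := by
    intro b hb
    rw [mem_Ico] at hb
    have hb1 : 1 ≤ b := h1.trans hb.1
    have hb0 : (0 : ℝ) < b := by exact_mod_cast hb1
    obtain ⟨g1, g2, g3⟩ := hlgb b hb1
    obtain ⟨g4, g5, g6⟩ := hlgb (b + 1) (by omega)
    push_cast at g5 g6
    have g7 : |lg b - lg (b + 1)| ≤ 1 / b - 1 / ((b : ℝ) + 2) := by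
      have k1 : 1 / ((b : ℝ) + 1 + 1) = 1 / ((b : ℝ) + 2) := by congr 1; ring
      have k2 : 1 / ((b : ℝ) + 2) ≤ 1 / ((b : ℝ) + 1) := by
        apply one_div_le_one_div_of_le (by positivity) (by linarith)
      have k3 : 1 / ((b : ℝ) + 1) ≤ 1 / b := by
        apply one_div_le_one_div_of_le (by positivity) (by linarith)
      rw [k1] at g6
      rw [abs_le]
      constructor <;> linarith
    have g8 := hZ (b + 1) (by omega) (by omega)
    rw [abs_mul]
    calc |lg b - lg (b + 1)| * |Z (b + 1)| ≤ (1 / b - 1 / ((b : ℝ) + 2)) * (E * ((b + 1 : ℕ) : ℝ)) := by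
          apply mul_le_mul g7 g8 (abs_nonneg _)
          have : 1 / ((b : ℝ) + 2) ≤ 1 / b := one_div_le_one_div_of_le (by positivity) (by linarith)
          linarith
      _ = 2 * E * (1 / b) * (((b : ℝ) + 1) / (b + 2)) := by
          push_cast
          field_simp
          ring
      _ ≤ 2 * E * (1 / b) * 1 := by
          apply mul_le_mul_of_nonneg_left _ (by positivity)
          rw [div_le_one (by positivity)]
          linarith
      _ = _ := by ring
  rw [hid t2 h12]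
  have e3 : |∑ b ∈ Ico t1 t2, (lg b - lg (b + 1)) * Z (b + 1)| ≤
      2 * E * (1 + Real.log t2 - Real.log t1) := by
    refine (abs_sum_le_sum_abs _ _).trans ((sum_le_sum e2).trans ?_)
    rw [← mul_sum]
    apply mul_le_mul_of_nonneg_left (harm_le h1 h12) (by positivity)
  have e4 := e1 t2 h12 le_rfl
  have e5 := e1 t1 le_rfl h12
  have a1 := abs_le.1 e3
  have a2 := abs_le.1 e4
  have a3 := abs_le.1 e5
  rw [abs_le]
  constructor
  · linarith [a1.1, a2.1, a3.2]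
  · linarith [a1.2, a2.2, a3.1]

end Pool.Agent.H2
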