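import Mathlib
import Pool.Agent.H2.K1

/-!
The number of primes above the squares in logarithmic coordinates: all windows (helper2).
-/

set_option autoImplicit false

namespace Pool.Agent.H2

open Finset Filter Topology MeasureTheory

/-- the integral over a unit piece -/
lemma gg_piece (h : ℤ) {n b : ℕ} (hb : 1 ≤ b) :
    ∫ v in Real.log b..Real.log ((b + 1 : ℕ) : ℝ), gg h n v =
      (Real.log ((b + 1 : ℕ) : ℝ) - Real.log b) *
        ((if ((n : ℤ) ^ 2 + h + b).toNat.Prime then 2 * Real.log n else 0) - 1) := by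
  have hb0 : (0 : ℝ) < b := by exact_mod_cast hb
  have hle : Real.log b ≤ Real.log ((b + 1 : ℕ) : ℝ) := Real.log_le_log hb0 (by push_cast; linarith)
  rw [intervalIntegral.integral_congr_Ioo_of_le (g := fun _ =>
    ((if ((n : ℤ) ^ 2 + h + b).toNat.Prime then 2 * Real.log n else 0) - 1)) hle]
  · rw [intervalIntegral.integral_const, smul_eq_mul]
  · intro v hv
    have h1 : (b : ℝ) < Real.exp v := (Real.log_lt_iff_lt_exp hb0).1 hv.1
    have h2 : Real.exp v < ((b + 1 : ℕ) : ℝ) := (Real.lt_log_iff_exp_lt (by positivity)).1 hv.2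
    have h3 : ⌊Real.exp v⌋ = (b : ℤ) := by
      rw [Int.floor_eq_iff]
      push_cast at h2 ⊢
      exact ⟨h1.le, h2⟩
    unfold gg
    simp only
    rw [h3]

lemma gg_mid (h : ℤ) {n t1 t2 : ℕ} (hn : 1 ≤ n) (h1 : 1 ≤ t1) (h12 : t1 ≤ t2) :
    ∫ v in Real.log t1..Real.log t2, gg h n v = ∑ b ∈ Ico t1 t2,
      (Real.log ((b + 1 : ℕ) : ℝ) - Real.log b) *
        ((if ((n : ℤ) ^ 2 + h + b).toNat.Prime then 2 * Real.log n else 0) - 1) := by
  rw [← intervalIntegral.sum_integral_adjacent_intervals_Ico (a := fun k : ℕ => Real.log (k : ℝ)) h12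
    (fun k _ => gg_int h hn _ _)]
  refine sum_congr rfl fun b hb => ?_
  rw [mem_Ico] at hb
  exact gg_piece h (h1.trans hb.1)

lemma gg_edge (h : ℤ) {n : ℕ} (hn : 1 ≤ n) {G : ℝ} (hG : 2 * Real.log n + 1 ≤ G) {a b e : ℝ}
    (hab : |b - a| ≤ e) : |∫ v in a..b, gg h n v| ≤ G * e := by
  have h0 : 0 ≤ Real.log (n : ℝ) := Real.log_nonneg (by exact_mod_cast hn)
  have h1 := intervalIntegral.norm_integral_le_of_norm_le_const (a := a) (b := b) (f := gg h n) (C := G)
    (fun v _ => by rw [Real.norm_eq_abs]; exact (gg_abs h hn v).trans hG)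
  rw [Real.norm_eq_abs] at h1
  refine h1.trans ?_
  gcongr
  linarith

/-- **all windows** -/
theorem KL (h : ℤ) {τ a0 b0 : ℝ} (hτ : 0 < τ) (hEq : EqQ τ) (ha : 1 - 2 * τ ≤ a0)
    (ha0 : 0 < a0) (hb0 : b0 < 1) (A : ℕ) :
    ∃ C : ℝ, 0 < C ∧ ∃ N0 : ℕ, ∀ N : ℕ, N0 ≤ N → ∀ M T : ℕ, N ≤ M → M + T ≤ 2 * N →
      ∀ α β : ℝ, a0 * Real.log N ≤ α → α ≤ β → β ≤ b0 * Real.log N →
      |∑ n ∈ Ioc M (M + T), ∫ v in α..β, gg h n v| ≤ C * N / Real.log N ^ A := by
  obtain ⟨C, hC, N1, hN1⟩ := K0 h hτ hEq ha ha0 hb0 (A + 1)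
  have hev : ∀ᶠ N : ℕ in atTop, 1 ≤ Real.log N ∧ 10 * Real.log N ^ (A + 1) ≤ (N : ℝ) ^ a0 ∧
      N1 ≤ N ∧ 2 ≤ N := by
    filter_upwards [(Real.tendsto_log_atTop.comp tendsto_natCast_atTop_atTop).eventually_ge_atTop 1,
      log_pow_ev (A + 1) ha0 (A := 10) (by norm_num),
      eventually_ge_atTop N1, eventually_ge_atTop 2] with N a1 a2 a3 a4
    exact ⟨a1, a2, a3, a4⟩
  obtain ⟨N0, hN0⟩ := eventually_atTop.1 hev
  refine ⟨6 * C + 1, by positivity, N0, ?_⟩
  intro N hN M T hNM hMT α β hα hαβ hβ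
  obtain ⟨hl1, hl2, hNN1, hN2⟩ := hN0 N hN
  set L : ℝ := Real.log N with hL
  have hN2r : (2 : ℝ) ≤ N := by exact_mod_cast hN2
  have hNpos : (0 : ℝ) < N := by linarith
  have hL0 : 0 < L := by linarith
  have hTr : (T : ℝ) ≤ N := by
    have : T ≤ N := by omega
    exact_mod_cast this
  set η : ℝ := (N : ℝ) ^ (-a0) with hη
  have hη0 : 0 < η := by positivity
  have hexpα : (N : ℝ) ^ a0 ≤ Real.exp α := by
    rw [Real.rpow_def_of_pos hNpos]
    apply Real.exp_le_exp.2
    rw [← hL]
    linarith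
  have hexpβ : Real.exp β ≤ (N : ℝ) ^ b0 := by
    rw [Real.rpow_def_of_pos hNpos]
    apply Real.exp_le_exp.2
    rw [← hL]
    linarith
  have hinv : Real.exp (-α) ≤ η := by
    rw [Real.exp_neg, hη, Real.rpow_neg hNpos.le]
    apply inv_anti₀ (by positivity) hexpα
  have hG : ∀ n ∈ Ioc M (M + T), 2 * Real.log n + 1 ≤ 5 * L := by
    intro n hn
    rw [mem_Ioc] at hn
    have h1 : (n : ℝ) ≤ N * N := by
      have : (n : ℝ) ≤ 2 * N := by exact_mod_cast hn.2.trans hMT
      have h2 := mul_le_mul_of_nonneg_right hN2r hNpos.le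
      linarith
    have h2 : (0 : ℝ) < n := by
      have : 0 < n := by omega
      exact_mod_cast this
    have h3 := Real.log_le_log h2 h1
    rw [Real.log_mul hNpos.ne' hNpos.ne'] at h3
    linarith
  have hn1 : ∀ n ∈ Ioc M (M + T), 1 ≤ n := by
    intro n hn
    rw [mem_Ioc] at hn
    omega
  have hηL : 5 * L * (N * η) * 2 ≤ N / L ^ A := by
    have e1 : η = ((N : ℝ) ^ a0)⁻¹ := by rw [hη, Real.rpow_neg hNpos.le]
    rw [e1, le_div_iff₀ (by positivity)]
    have e2 : 5 * L * (N * ((N : ℝ) ^ a0)⁻¹) * 2 * L ^ A = N * (10 * L ^ (A + 1)) * ((N : ℝ) ^ a0)⁻¹ := by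
      rw [pow_succ]; ring
    rw [e2, ← div_eq_mul_inv, div_le_iff₀ (by positivity)]
    gcongr
  have hlogup : Real.log (Real.exp α + 1) ≤ α + η := by
    have e1 : Real.exp α + 1 = Real.exp α * (1 + Real.exp (-α)) := by
      rw [mul_add, ← Real.exp_add]; simp
    rw [e1, Real.log_mul (Real.exp_pos _).ne' (by positivity), Real.log_exp]
    have e2 := Real.log_le_sub_one_of_pos (show 0 < 1 + Real.exp (-α) by positivity)
    linarith
  obtain ⟨t1, ht1⟩ : ∃ t1 : ℕ, t1 = ⌈Real.exp α⌉₊ := ⟨_, rfl⟩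
  obtain ⟨t2, ht2⟩ : ∃ t2 : ℕ, t2 = ⌊Real.exp β⌋₊ := ⟨_, rfl⟩
  have h1a : Real.exp α ≤ t1 := by rw [ht1]; exact Nat.le_ceil _
  have h1b : (t1 : ℝ) < Real.exp α + 1 := by rw [ht1]; exact Nat.ceil_lt_add_one (Real.exp_pos _).le
  have h2a : (t2 : ℝ) ≤ Real.exp β := by rw [ht2]; exact Nat.floor_le (Real.exp_pos _).le
  have h2b : Real.exp β < t2 + 1 := by rw [ht2]; exact Nat.lt_floor_add_one _
  have ht1pos : (0 : ℝ) < t1 := lt_of_lt_of_le (Real.exp_pos _) h1a
  have ht11 : 1 ≤ t1 := by exact_mod_cast ht1pos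
  have hcard : ∀ e : ℝ, 0 ≤ e → ∑ n ∈ Ioc M (M + T), e ≤ N * e := by
    intro e he
    rw [sum_const, Nat.card_Ioc, nsmul_eq_mul]
    have e3 : ((M + T - M : ℕ) : ℝ) = T := by
      have : M + T - M = T := by omega
      rw [this]
    rw [e3]
    gcongr
  rcases Nat.lt_or_ge t2 t1 with hlt | hge
  · -- a short window
    have e1 : β ≤ α + η := by
      have e2 : (t2 : ℝ) + 1 ≤ t1 := by exact_mod_cast hlt
      have e3 : Real.exp β ≤ Real.exp α + 1 := by linarith
      calc β = Real.log (Real.exp β) := (Real.log_exp _).symm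
        _ ≤ Real.log (Real.exp α + 1) := Real.log_le_log (Real.exp_pos _) e3
        _ ≤ _ := hlogup
    have e2 : ∀ n ∈ Ioc M (M + T), |∫ v in α..β, gg h n v| ≤ 5 * L * η := fun n hn =>
      gg_edge h (hn1 n hn) (hG n hn) (by rw [abs_of_nonneg (by linarith)]; linarith)
    refine (abs_sum_le_sum_abs _ _).trans ((sum_le_sum e2).trans ((hcard _ (by positivity)).trans ?_))
    have e3 : (N : ℝ) * (5 * L * η) ≤ N / L ^ A := by
      have : 0 ≤ 5 * L * (N * η) := by positivity
      linarith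
    refine e3.trans ?_
    gcongr
    have : 0 ≤ 6 * C * (N : ℝ) := by positivity
    linarith
  · -- the main case
    have ht2pos : (0 : ℝ) < t2 := by
      have : (t1 : ℝ) ≤ t2 := by exact_mod_cast hge
      linarith
    have d1 : |Real.log t1 - α| ≤ η := by
      have e1 : α ≤ Real.log t1 := (Real.le_log_iff_exp_le ht1pos).2 h1a
      have e2 : Real.log t1 ≤ Real.log (Real.exp α + 1) := Real.log_le_log ht1pos h1b.le
      rw [abs_of_nonneg (by linarith)]
      linarith
    have d2 : |β - Real.log t2| ≤ η := by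
      have e1 : Real.log t2 ≤ β := by
        calc Real.log t2 ≤ Real.log (Real.exp β) := Real.log_le_log ht2pos h2a
          _ = β := Real.log_exp _
      have e2 : β - Real.log t2 = Real.log (Real.exp β / t2) := by
        rw [Real.log_div (Real.exp_pos _).ne' ht2pos.ne', Real.log_exp]
      have e3 := Real.log_le_sub_one_of_pos (show 0 < Real.exp β / t2 by positivity)
      have e4 : Real.exp β / t2 - 1 ≤ 1 / t2 := by
        rw [div_sub_one ht2pos.ne']
        gcongr
        linarith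
      have e5 : 1 / (t2 : ℝ) ≤ η := by
        rw [hη, Real.rpow_neg hNpos.le, one_div]
        apply inv_anti₀ (by positivity)
        have : (t1 : ℝ) ≤ t2 := by exact_mod_cast hge
        linarith
      rw [abs_of_nonneg (by linarith)]
      linarith
    have hsplit : ∀ n ∈ Ioc M (M + T), ∫ v in α..β, gg h n v =
        (∫ v in α..Real.log t1, gg h n v) + (∫ v in Real.log t1..Real.log t2, gg h n v) +
        ∫ v in Real.log t2..β, gg h n v := by
      intro n hn
      rw [intervalIntegral.integral_add_adjacent_intervals (gg_int h (hn1 n hn) _ _)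
        (gg_int h (hn1 n hn) _ _), intervalIntegral.integral_add_adjacent_intervals
        (gg_int h (hn1 n hn) _ _) (gg_int h (hn1 n hn) _ _)]
    rw [sum_congr rfl hsplit, sum_add_distrib, sum_add_distrib]
    have f1 : |∑ n ∈ Ioc M (M + T), ∫ v in α..Real.log t1, gg h n v| ≤ N * (5 * L * η) :=
      (abs_sum_le_sum_abs _ _).trans ((sum_le_sum fun n hn =>
        gg_edge h (hn1 n hn) (hG n hn) d1).trans (hcard _ (by positivity)))
    have f3 : |∑ n ∈ Ioc M (M + T), ∫ v in Real.log t2..β, gg h n v| ≤ N * (5 * L * η) :=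
      (abs_sum_le_sum_abs _ _).trans ((sum_le_sum fun n hn =>
        gg_edge h (hn1 n hn) (hG n hn) d2).trans (hcard _ (by positivity)))
    have f2 : |∑ n ∈ Ioc M (M + T), ∫ v in Real.log t1..Real.log t2, gg h n v| ≤
        6 * C * N / L ^ A := by
      set Z : ℕ → ℝ := fun t => ∑ n ∈ Ioc M (M + T), (2 * Real.log n * DD h n t - t) with hZ
      have e1 : ∑ n ∈ Ioc M (M + T), ∫ v in Real.log t1..Real.log t2, gg h n v =
          ∑ b ∈ Ico t1 t2, (Real.log ((b + 1 : ℕ) : ℝ) - Real.log b) * (Z (b + 1) - Z b) := by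
        rw [sum_congr rfl fun n hn => gg_mid h (hn1 n hn) ht11 hge, sum_comm]
        refine sum_congr rfl fun b _ => ?_
        rw [← mul_sum]
        congr 1
        simp only [hZ]
        rw [← sum_sub_distrib]
        refine sum_congr rfl fun n _ => ?_
        rw [DD_succ]
        push_cast
        split_ifs <;> ring
      rw [e1]
      have e2 := abel_g (Z := Z) (E := C * N / L ^ (A + 1)) (by positivity) ht11 t2 hge (by
        intro t hta htb
        have k1 : (t1 : ℝ) ≤ t := by exact_mod_cast hta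
        have k2 : (t : ℝ) ≤ t2 := by exact_mod_cast htb
        have := hN1 N hNN1 M T hNM hMT t (by linarith) (by linarith)
        refine this.trans (le_of_eq ?_)
        ring)
      refine e2.trans ?_
      have e3 : Real.log t2 ≤ L := by
        have k1 : Real.log t2 ≤ β := by
          calc Real.log t2 ≤ Real.log (Real.exp β) := Real.log_le_log ht2pos h2a
            _ = β := Real.log_exp _
        have k2 : b0 * L ≤ L := by
          have := mul_le_mul_of_nonneg_right hb0.le hL0.le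
          linarith
        linarith
      have e4 : 0 ≤ Real.log t1 := Real.log_nonneg (by exact_mod_cast ht11)
      calc C * N / L ^ (A + 1) * (4 + 2 * (Real.log t2 - Real.log t1)) ≤
            C * N / L ^ (A + 1) * (6 * L) := by
            apply mul_le_mul_of_nonneg_left _ (by positivity)
            linarith
        _ = 6 * C * N / L ^ A := by
            rw [pow_succ]
            field_simp
    have e6 : (6 * C + 1) * (N : ℝ) / L ^ A = 6 * C * N / L ^ A + N / L ^ A := by ring
    rw [e6]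
    have a1 := abs_le.1 f1
    have a2 := abs_le.1 f2
    have a3 := abs_le.1 f3
    rw [abs_le]
    constructor
    · linarith [a1.1, a2.1, a3.1]
    · linarith [a1.2, a2.2, a3.2]

end Pool.Agent.H2
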