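import Mathlib
import Pool.Agent.H2.K2

/-!
The bound for the transversal averages (helper2).
-/

set_option autoImplicit false

namespace Pool.Agent.H2

open Finset Filter Topology MeasureTheory

/-- comparison of two transversal averages -/
lemma trans_cmp (h : ℤ) {n : ℕ} (hn : 1 ≤ n) {G : ℝ} (hG : 2 * Real.log n + 1 ≤ G) {v c l d1 d2 : ℝ}
    (hc : c ≠ 0) (hl : l ≠ 0) (hd1 : 0 ≤ d1) (hd12 : d1 ≤ d2) (hd2 : d2 ≤ 1) :
    |(∫ δ in d1..d2, gg h n (v + c * δ)) - l⁻¹ * ∫ w in (v + l * d1)..(v + l * d2), gg h n w| ≤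
      3 * G * (|c - l| / |l|) := by
  have hG0 : 0 ≤ G := by
    have : 0 ≤ Real.log (n : ℝ) := Real.log_nonneg (by exact_mod_cast hn)
    linarith
  have e1 : (∫ δ in d1..d2, gg h n (v + c * δ)) = c⁻¹ * ∫ w in (v + c * d1)..(v + c * d2), gg h n w := by
    rw [intervalIntegral.integral_comp_add_mul (gg h n) hc, smul_eq_mul]
  rw [e1]
  set Ic := ∫ w in (v + c * d1)..(v + c * d2), gg h n w with hIc
  set Il := ∫ w in (v + l * d1)..(v + l * d2), gg h n w with hIl
  have hIc1 : |Ic| ≤ G * |c| := by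
    apply gg_edge h hn hG
    have : v + c * d2 - (v + c * d1) = c * (d2 - d1) := by ring
    rw [this, abs_mul, abs_of_nonneg (show 0 ≤ d2 - d1 by linarith)]
    have : 0 ≤ |c| := abs_nonneg _
    nlinarith
  have hdiff : |Ic - Il| ≤ G * (2 * |c - l|) := by
    have e2 : Ic - Il = (∫ w in (v + c * d1)..(v + l * d1), gg h n w) +
        ∫ w in (v + l * d2)..(v + c * d2), gg h n w := by
      rw [hIc, hIl]
      have k1 := intervalIntegral.integral_add_adjacent_intervals
        (gg_int h hn (v + c * d1) (v + l * d1)) (gg_int h hn (v + l * d1) (v + l * d2))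
      have k2 := intervalIntegral.integral_add_adjacent_intervals
        (gg_int h hn (v + c * d1) (v + l * d2)) (gg_int h hn (v + l * d2) (v + c * d2))
      rw [← k2, ← k1]
      ring
    have e3 : |∫ w in (v + c * d1)..(v + l * d1), gg h n w| ≤ G * |c - l| := by
      apply gg_edge h hn hG
      have : v + l * d1 - (v + c * d1) = -((c - l) * d1) := by ring
      rw [this, abs_neg, abs_mul, abs_of_nonneg hd1]
      have : 0 ≤ |c - l| := abs_nonneg _
      nlinarith
    have e4 : |∫ w in (v + l * d2)..(v + c * d2), gg h n w| ≤ G * |c - l| := by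
      apply gg_edge h hn hG
      have : v + c * d2 - (v + l * d2) = (c - l) * d2 := by ring
      rw [this, abs_mul, abs_of_nonneg (show 0 ≤ d2 by linarith)]
      have : 0 ≤ |c - l| := abs_nonneg _
      nlinarith
    rw [e2]
    refine (abs_add_le _ _).trans ?_
    linarith
  have e5 : c⁻¹ * Ic - l⁻¹ * Il = (l - c) / (c * l) * Ic + l⁻¹ * (Ic - Il) := by
    field_simp
    ring
  have hc0 : 0 < |c| := abs_pos.2 hc
  have hl0 : 0 < |l| := abs_pos.2 hl
  rw [e5]
  refine (abs_add_le _ _).trans ?_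
  have e6 : |(l - c) / (c * l) * Ic| ≤ G * (|c - l| / |l|) := by
    rw [abs_mul, abs_div, abs_mul, abs_sub_comm l c]
    calc |c - l| / (|c| * |l|) * |Ic| ≤ |c - l| / (|c| * |l|) * (G * |c|) := by gcongr
      _ = G * (|c - l| / |l|) := by field_simp
  have e7 : |l⁻¹ * (Ic - Il)| ≤ 2 * G * (|c - l| / |l|) := by
    rw [abs_mul, abs_inv]
    calc |l|⁻¹ * |Ic - Il| ≤ |l|⁻¹ * (G * (2 * |c - l|)) := by gcongr
      _ = _ := by field_simp
  linarith

/-- the number of the integers with nearby logarithms -/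
lemma near_count {n M T : ℕ} (hn : 1 ≤ n) {x : ℝ} (hx0 : 0 ≤ x) (hx1 : x ≤ 1) :
    (((Ioc M (M + T)).filter (fun m : ℕ => |Real.log m - Real.log n| ≤ x)).card : ℝ) ≤
      4 * x * n + 1 := by
  have hn0 : (0 : ℝ) < n := by exact_mod_cast hn
  obtain ⟨y, hy⟩ : ∃ y : ℕ, y = ⌊2 * x * n⌋₊ := ⟨_, rfl⟩
  have hy1 : (y : ℝ) ≤ 2 * x * n := by rw [hy]; exact Nat.floor_le (by positivity)
  have hsub : (Ioc M (M + T)).filter (fun m : ℕ => |Real.log m - Real.log n| ≤ x) ⊆
      Icc (n - y) (n + y) := by
    intro m hm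
    rw [mem_filter, mem_Ioc] at hm
    obtain ⟨⟨hm1, _⟩, hm2⟩ := hm
    have hm0 : (0 : ℝ) < m := by
      have : 0 < m := by omega
      exact_mod_cast this
    rw [abs_le] at hm2
    have h1 : (m : ℝ) ≤ n + 2 * x * n := by
      have e1 : Real.log m ≤ Real.log n + x := by linarith [hm2.2]
      have e2 : (m : ℝ) ≤ Real.exp (Real.log n + x) := (Real.log_le_iff_le_exp hm0).1 e1
      rw [Real.exp_add, Real.exp_log hn0] at e2
      have e3 : Real.exp x ≤ 1 + 2 * x := by
        have := Real.exp_bound' hx0 hx1 (n := 2) (by norm_num)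
        norm_num [Finset.sum_range_succ, Nat.factorial] at this
        nlinarith
      nlinarith
    have h2 : (n : ℝ) ≤ m + 2 * x * n := by
      have e1 : Real.log n - x ≤ Real.log m := by linarith [hm2.1]
      have e2 : Real.exp (Real.log n - x) ≤ m := (Real.le_log_iff_exp_le hm0).1 e1
      rw [sub_eq_add_neg, Real.exp_add, Real.exp_log hn0] at e2
      have e3 : 1 - x ≤ Real.exp (-x) := by
        have := Real.add_one_le_exp (-x)
        linarith
      nlinarith
    rw [mem_Icc]
    have h3 : m ≤ n + y := by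
      by_contra hcon
      push Not at hcon
      have : (m : ℝ) - n ≤ 2 * x * n := by linarith
      have h4 : ((m - n : ℕ) : ℝ) ≤ 2 * x * n := by
        rw [Nat.cast_sub (by omega)]
        exact this
      have h5 : m - n ≤ y := by rw [hy]; exact Nat.le_floor h4
      omega
    have h4 : n ≤ m + y := by
      by_contra hcon
      push Not at hcon
      have : (n : ℝ) - m ≤ 2 * x * n := by linarith
      have h4 : ((n - m : ℕ) : ℝ) ≤ 2 * x * n := by
        rw [Nat.cast_sub (by omega)]
        exact this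
      have h5 : n - m ≤ y := by rw [hy]; exact Nat.le_floor h4
      omega
    omega
  have h1 := card_le_card hsub
  rw [Nat.card_Icc] at h1
  have h2 : ((Ioc M (M + T)).filter (fun m : ℕ => |Real.log m - Real.log n| ≤ x)).card ≤ 2 * y + 1 := by
    omega
  have h3 : (((Ioc M (M + T)).filter (fun m : ℕ => |Real.log m - Real.log n| ≤ x)).card : ℝ) ≤
      2 * y + 1 := by exact_mod_cast h2
  linarith

/-- **the transversal averages** -/
theorem IB (h : ℤ) {τ a0 b0 δ0 δ1 u0 u1 : ℝ} (hτ : 0 < τ) (hEq : EqQ τ) (ha : 1 - 2 * τ ≤ a0)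
    (ha0 : 0 < a0) (hb0 : b0 < 1) (hδ0 : a0 < δ0) (hδ1 : δ1 < b0) (q : ℕ) :
    ∃ C : ℝ, 0 < C ∧ ∃ N0 : ℕ, ∀ N : ℕ, N0 ≤ N → ∀ M T : ℕ, N ≤ M → M + T ≤ 2 * N →
      ∀ n : ℕ, N ≤ n → n ≤ 2 * N → ∀ v d1 d2 : ℝ, δ0 ≤ d1 → d1 ≤ d2 → d2 ≤ δ1 →
      u0 ≤ v - d1 * Real.log n → v - d1 * Real.log n ≤ u1 →
      u0 ≤ v - d2 * Real.log n → v - d2 * Real.log n ≤ u1 →
      |∑ m ∈ Ioc M (M + T), ∫ δ in d1..d2, gg h m (v + (Real.log m - Real.log n) * δ)| ≤
        C * N / Real.log N ^ q := by
  classical
  obtain ⟨r, hr⟩ : ∃ r, r = q + 1 := ⟨_, rfl⟩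
  obtain ⟨C, hC, N1, hN1⟩ := KL h hτ hEq ha ha0 hb0 (6 * r)
  have hlt : Tendsto (fun N : ℕ => Real.log (N : ℝ)) atTop atTop :=
    Real.tendsto_log_atTop.comp tendsto_natCast_atTop_atTop
  have hev : ∀ᶠ N : ℕ in atTop, 2 ≤ Real.log N ∧ 2 * Real.log N ^ (4 * r) ≤ (N : ℝ) ^ (1 : ℝ) ∧
      (-u0) / (δ0 - a0) ≤ Real.log N ∧ (u1 + 1) / (b0 - δ1) ≤ Real.log N ∧ N1 ≤ N ∧ 2 ≤ N := by
    filter_upwards [hlt.eventually_ge_atTop 2,
      log_pow_ev (4 * r) (ε := 1) (by norm_num) (A := 2) (by norm_num),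
      hlt.eventually_ge_atTop ((-u0) / (δ0 - a0)), hlt.eventually_ge_atTop ((u1 + 1) / (b0 - δ1)),
      eventually_ge_atTop N1, eventually_ge_atTop 2] with N a1 a2 a3 a4 a5 a6
    exact ⟨a1, a2, a3, a4, a5, a6⟩
  obtain ⟨N0, hN0⟩ := eventually_atTop.1 hev
  refine ⟨15 + 3 * C + 85, by positivity, N0, ?_⟩
  intro N hN M T hNM hMT n hNn hn2N v d1 d2 hd1 hd12 hd2 hv1 hv2 hv3 hv4
  obtain ⟨hl2, hlN, hlu0, hlu1, hNN1, hN2⟩ := hN0 N hN
  set L : ℝ := Real.log N with hL
  rw [Real.rpow_one] at hlN
  have hL0 : 0 < L := by linarith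
  have hL1 : 1 ≤ L := by linarith
  have hN2r : (2 : ℝ) ≤ N := by exact_mod_cast hN2
  have hNpos : (0 : ℝ) < N := by linarith
  have hd10 : 0 ≤ d1 := by linarith
  have hd21 : d2 ≤ 1 := by linarith
  have hn1 : 1 ≤ n := by omega
  have hr1 : 1 ≤ r := by omega
  have hu0 : a0 * L ≤ u0 + δ0 * L := by
    rw [div_le_iff₀ (by linarith)] at hlu0
    linarith
  have hu1 : u1 + 1 + δ1 * L ≤ b0 * L := by
    rw [div_le_iff₀ (by linarith)] at hlu1
    linarith
  -- the length of the blocks
  obtain ⟨T0, hT0⟩ : ∃ T0 : ℕ, T0 = ⌊(N : ℝ) / L ^ (4 * r)⌋₊ := ⟨_, rfl⟩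
  have hq2 : 2 ≤ (N : ℝ) / L ^ (4 * r) := by
    rw [le_div_iff₀ (by positivity)]
    exact hlN
  have hT0le : (T0 : ℝ) ≤ N / L ^ (4 * r) := by rw [hT0]; exact Nat.floor_le (by positivity)
  have hT0ge : (N : ℝ) / L ^ (4 * r) / 2 ≤ T0 := by
    have := Nat.lt_floor_add_one ((N : ℝ) / L ^ (4 * r))
    rw [← hT0] at this
    linarith
  have hT0pos : (0 : ℝ) < T0 := by linarith
  have hT01 : 1 ≤ T0 := by exact_mod_cast hT0pos
  have hG : ∀ m : ℕ, N ≤ m → m ≤ 2 * N → 2 * Real.log m + 1 ≤ 5 * L := by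
    intro m hm1 hm2
    have h1 : (m : ℝ) ≤ N * N := by
      have : (m : ℝ) ≤ 2 * N := by exact_mod_cast hm2
      have h2 := mul_le_mul_of_nonneg_right hN2r hNpos.le
      linarith
    have h2 : (0 : ℝ) < m := by
      have : 0 < m := by omega
      exact_mod_cast this
    have h3 := Real.log_le_log h2 h1
    rw [Real.log_mul hNpos.ne' hNpos.ne'] at h3
    linarith
  set f : ℕ → ℝ := fun m => ∫ δ in d1..d2, gg h m (v + (Real.log m - Real.log n) * δ) with hf
  set w : ℕ → ℝ := fun m => if |Real.log m - Real.log n| ≤ 2 / L ^ r then 5 * L else 0 with hw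
  have hfabs : ∀ m : ℕ, N ≤ m → m ≤ 2 * N → |f m| ≤ 5 * L := by
    intro m hm1 hm2
    have h1 := intervalIntegral.norm_integral_le_of_norm_le_const (a := d1) (b := d2)
      (f := fun δ => gg h m (v + (Real.log m - Real.log n) * δ)) (C := 5 * L)
      (fun δ _ => by rw [Real.norm_eq_abs]; exact (gg_abs h (by omega) _).trans (hG m hm1 hm2))
    rw [Real.norm_eq_abs, abs_of_nonneg (show 0 ≤ d2 - d1 by linarith)] at h1
    refine h1.trans ?_
    have : 5 * L * (d2 - d1) ≤ 5 * L * 1 := by gcongr; linarith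
    linarith
  set e : ℝ := C * N / L ^ (5 * r) with he
  have hblock := split_bd (f := f) (w := w) (N := N) (T0 := T0) (a := 15 / L ^ q) (e := e) hT01
    (by positivity) (by
      intro M' T' h1 h2 h3 h4
      have hM'r : (N : ℝ) ≤ M' := by exact_mod_cast h1
      have hM'2 : (M' : ℝ) ≤ 2 * N := by
        have : M' ≤ 2 * N := by omega
        exact_mod_cast this
      have hT'r : (T' : ℝ) ≤ N / L ^ (4 * r) := le_trans (by exact_mod_cast h4) hT0le
      have hTN : (T' : ℝ) / N ≤ 1 / L ^ (4 * r) := by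
        rw [div_le_iff₀ hNpos]
        calc (T' : ℝ) ≤ N / L ^ (4 * r) := hT'r
          _ = 1 / L ^ (4 * r) * N := by ring
      set l : ℝ := Real.log M' - Real.log n with hl
      have hcl : ∀ m ∈ Ioc M' (M' + T'), |(Real.log m - Real.log n) - l| ≤ 1 / L ^ (4 * r) := by
        intro m hm
        rw [mem_Ioc] at hm
        have k1 : (M' : ℝ) ≤ m := by exact_mod_cast hm.1.le
        have k2 : (m : ℝ) ≤ M' + T' := by exact_mod_cast hm.2
        obtain ⟨g1, g2⟩ := K0_log hNpos hM'r k1 k2
        have k3 : (Real.log m - Real.log n) - l = Real.log m - Real.log M' := by rw [hl]; ring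
        rw [k3, abs_of_nonneg g1]
        exact g2.trans hTN
      have hw0 : 0 ≤ ∑ m ∈ Ioc M' (M' + T'), w m := by
        refine sum_nonneg fun m _ => ?_
        simp only [hw]
        split_ifs <;> positivity
      have h4r : 1 / L ^ (4 * r) ≤ 1 / L ^ r / 2 := by
        rw [div_div]
        apply one_div_le_one_div_of_le (by positivity)
        calc L ^ r * 2 ≤ L ^ r * L ^ (3 * r) := by
              gcongr
              calc (2 : ℝ) ≤ L := hl2
                _ ≤ L ^ (3 * r) := le_self_pow₀ hL1 (by omega)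
          _ = L ^ (4 * r) := by rw [← pow_add]; congr 1; ring
      rcases le_or_gt |l| (1 / L ^ r) with hnear | hfar
      · -- near
        have k1 : |∑ m ∈ Ioc M' (M' + T'), f m| ≤ ∑ m ∈ Ioc M' (M' + T'), w m := by
          refine (abs_sum_le_sum_abs _ _).trans (sum_le_sum fun m hm => ?_)
          have k2 := hcl m hm
          rw [mem_Ioc] at hm
          have k3 : |Real.log m - Real.log n| ≤ 2 / L ^ r := by
            have k4 : Real.log m - Real.log n = ((Real.log m - Real.log n) - l) + l := by ring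
            rw [k4]
            refine (abs_add_le _ _).trans ?_
            have k5 : (0 : ℝ) < 1 / L ^ r := by positivity
            have k6 : (2 : ℝ) / L ^ r = 1 / L ^ r + 1 / L ^ r := by ring
            rw [k6]
            linarith
          simp only [hw]
          rw [if_pos k3]
          exact hfabs m (by omega) (by omega)
        have k2 : 0 ≤ 15 / L ^ q * (T' : ℝ) := by positivity
        have k3 : 0 ≤ e := by positivity
        linarith
      · -- far
        have hl0 : l ≠ 0 := by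
          intro hl0
          rw [hl0, abs_zero] at hfar
          have : (0 : ℝ) < 1 / L ^ r := by positivity
          linarith
        have hlpos : 0 < |l| := abs_pos.2 hl0
        have k1 : ∀ m ∈ Ioc M' (M' + T'), |f m - l⁻¹ * ∫ z in (v + l * d1)..(v + l * d2), gg h m z| ≤
            15 / L ^ q := by
          intro m hm
          have k2 := hcl m hm
          rw [mem_Ioc] at hm
          have hc0 : Real.log m - Real.log n ≠ 0 := by
            intro hc0
            rw [hc0, zero_sub, abs_neg] at k2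
            have : (0 : ℝ) < 1 / L ^ r := by positivity
            linarith
          have k3 := trans_cmp h (n := m) (by omega) (hG m (by omega) (by omega)) (v := v) hc0 hl0 hd10
            hd12 hd21
          refine k3.trans ?_
          have k4 : |(Real.log m - Real.log n) - l| / |l| ≤ (1 / L ^ (4 * r)) / (1 / L ^ r) := by
            gcongr
          have k5 : (1 / L ^ (4 * r)) / (1 / L ^ r) = 1 / L ^ (3 * r) := by
            have : L ^ (4 * r) = L ^ (3 * r) * L ^ r := by rw [← pow_add]; congr 1; ring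
            rw [this]
            field_simp
          rw [k5] at k4
          calc 3 * (5 * L) * (|(Real.log m - Real.log n) - l| / |l|) ≤ 3 * (5 * L) * (1 / L ^ (3 * r)) := by
                gcongr
            _ ≤ 3 * (5 * L) * (1 / L ^ (q + 1)) := by
                apply mul_le_mul_of_nonneg_left _ (by positivity)
                exact one_div_le_one_div_of_le (by positivity) (pow_le_pow_right₀ hL1 (by omega))
            _ = 15 / L ^ q := by rw [pow_succ]; field_simp; norm_num
        have hα1 : ∀ d, δ0 ≤ d → d ≤ δ1 → u0 ≤ v - d * Real.log n → v - d * Real.log n ≤ u1 →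
            a0 * L ≤ v + l * d ∧ v + l * d ≤ b0 * L := by
          intro d g1 g2 g3 g4
          have g5 : v + l * d = (v - d * Real.log n) + d * Real.log M' := by rw [hl]; ring
          have g6 : L ≤ Real.log M' := Real.log_le_log hNpos hM'r
          have g7 : Real.log M' ≤ L + 1 := by
            calc Real.log M' ≤ Real.log (2 * N) := Real.log_le_log (by linarith) hM'2
              _ = Real.log 2 + L := Real.log_mul (by norm_num) hNpos.ne'
              _ ≤ L + 1 := by have := Real.log_two_lt_d9; linarith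
          have g8 : δ0 * L ≤ d * Real.log M' := mul_le_mul g1 g6 hL0.le (by linarith)
          have g9 : d * Real.log M' ≤ δ1 * (L + 1) := mul_le_mul g2 g7 (by linarith) (by linarith)
          have g10 : δ1 * (L + 1) ≤ δ1 * L + 1 := by
            have : δ1 ≤ 1 := by linarith
            linarith
          rw [g5]
          constructor <;> linarith
        obtain ⟨A1, A2⟩ := hα1 d1 hd1 (by linarith) hv1 hv2
        obtain ⟨B1, B2⟩ := hα1 d2 (by linarith) hd2 hv3 hv4
        have k2 : |∑ m ∈ Ioc M' (M' + T'), ∫ z in (v + l * d1)..(v + l * d2), gg h m z| ≤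
            C * N / L ^ (6 * r) := by
          rcases le_total (v + l * d1) (v + l * d2) with hle | hle
          · exact hN1 N hNN1 M' T' h1 h2 _ _ A1 hle B2
          · have k3 := hN1 N hNN1 M' T' h1 h2 _ _ B1 hle A2
            have k4 : ∑ m ∈ Ioc M' (M' + T'), ∫ z in (v + l * d1)..(v + l * d2), gg h m z =
                - ∑ m ∈ Ioc M' (M' + T'), ∫ z in (v + l * d2)..(v + l * d1), gg h m z := by
              rw [← sum_neg_distrib]
              exact sum_congr rfl fun m _ => intervalIntegral.integral_symm _ _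
            rw [k4, abs_neg]
            exact k3
        have k3 : |∑ m ∈ Ioc M' (M' + T'), f m - l⁻¹ * ∑ m ∈ Ioc M' (M' + T'),
            ∫ z in (v + l * d1)..(v + l * d2), gg h m z| ≤ 15 / L ^ q * T' := by
          rw [mul_sum, ← sum_sub_distrib]
          refine (abs_sum_le_sum_abs _ _).trans ((sum_le_sum k1).trans ?_)
          rw [sum_const, Nat.card_Ioc, nsmul_eq_mul]
          have e3 : ((M' + T' - M' : ℕ) : ℝ) = T' := by
            have : M' + T' - M' = T' := by omega
            rw [this]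
          rw [e3, mul_comm]
        have k4 : |l⁻¹ * ∑ m ∈ Ioc M' (M' + T'), ∫ z in (v + l * d1)..(v + l * d2), gg h m z| ≤ e := by
          rw [abs_mul, abs_inv]
          have k5 : |l|⁻¹ ≤ L ^ r := by
            rw [inv_le_comm₀ hlpos (by positivity), ← one_div]
            exact hfar.le
          calc |l|⁻¹ * |∑ m ∈ Ioc M' (M' + T'), ∫ z in (v + l * d1)..(v + l * d2), gg h m z| ≤
                L ^ r * (C * N / L ^ (6 * r)) := by gcongr
            _ = e := by
                rw [he]
                have : L ^ (6 * r) = L ^ r * L ^ (5 * r) := by rw [← pow_add]; congr 1; ring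
                rw [this]
                field_simp
        have a1 := abs_le.1 k3
        have a2 := abs_le.1 k4
        rw [abs_le]
        constructor
        · linarith [a1.1, a2.1]
        · linarith [a1.2, a2.2]) T M hNM hMT
  refine hblock.trans ?_
  have hTr : (T : ℝ) ≤ N := by
    have : T ≤ N := by omega
    exact_mod_cast this
  have g4 : (T : ℝ) / T0 + 1 ≤ 3 * L ^ (4 * r) := by
    have e1 : (T : ℝ) / T0 ≤ 2 * L ^ (4 * r) := by
      rw [div_le_iff₀ hT0pos]
      calc (T : ℝ) ≤ N := hTr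
        _ = 2 * L ^ (4 * r) * (N / L ^ (4 * r) / 2) := by field_simp
        _ ≤ 2 * L ^ (4 * r) * T0 := by gcongr
    have e2 : 1 ≤ L ^ (4 * r) := one_le_pow₀ hL1
    linarith
  have g5 : ((T : ℝ) / T0 + 1) * e ≤ 3 * C * (N / L ^ q) := by
    calc ((T : ℝ) / T0 + 1) * e ≤ 3 * L ^ (4 * r) * e := by
          apply mul_le_mul_of_nonneg_right g4 (by positivity)
      _ = 3 * C * (N / L ^ r) := by
          rw [he]
          have : L ^ (5 * r) = L ^ (4 * r) * L ^ r := by rw [← pow_add]; congr 1; ring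
          rw [this]
          field_simp
      _ ≤ _ := by
          apply mul_le_mul_of_nonneg_left _ (by positivity)
          exact div_le_div_of_nonneg_left hNpos.le (by positivity) (pow_le_pow_right₀ hL1 (by omega))
  have g6 : ∑ m ∈ Ioc M (M + T), w m ≤ 85 * (N / L ^ q) := by
    have e1 : ∑ m ∈ Ioc M (M + T), w m =
        (((Ioc M (M + T)).filter (fun m : ℕ => |Real.log m - Real.log n| ≤ 2 / L ^ r)).card : ℝ) * (5 * L) := by
      simp only [hw]
      rw [← sum_filter, sum_const, nsmul_eq_mul]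
    have e2 : (2 : ℝ) / L ^ r ≤ 1 := by
      rw [div_le_one (by positivity)]
      calc (2 : ℝ) ≤ L := hl2
        _ ≤ L ^ r := le_self_pow₀ hL1 (by omega)
    have e3 := near_count (M := M) (T := T) hn1 (x := 2 / L ^ r) (by positivity) e2
    have e4 : (n : ℝ) ≤ 2 * N := by exact_mod_cast hn2N
    have e5 : (1 : ℝ) ≤ N / L ^ r := by
      have : (N : ℝ) / L ^ (4 * r) ≤ N / L ^ r :=
        div_le_div_of_nonneg_left hNpos.le (by positivity) (pow_le_pow_right₀ hL1 (by omega))
      linarith
    rw [e1]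
    calc _ ≤ (4 * (2 / L ^ r) * n + 1) * (5 * L) := by gcongr
      _ ≤ (4 * (2 / L ^ r) * (2 * N) + N / L ^ r) * (5 * L) := by gcongr
      _ = 85 * (N / L ^ r * L) := by ring
      _ = 85 * (N / L ^ q) := by
          rw [hr, pow_succ]
          field_simp
  have g7 : 15 / L ^ q * (T : ℝ) ≤ 15 * (N / L ^ q) := by
    calc 15 / L ^ q * (T : ℝ) ≤ 15 / L ^ q * N := by gcongr
      _ = _ := by ring
  calc 15 / L ^ q * (T : ℝ) + ((T : ℝ) / T0 + 1) * e + ∑ m ∈ Ioc M (M + T), w m ≤
        15 * (N / L ^ q) + 3 * C * (N / L ^ q) + 85 * (N / L ^ q) := by linarith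
    _ = _ := by ring

end Pool.Agent.H2
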