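import Mathlib
import Pool.Agent.H2.K3

/-!
The second moment over a rectangle (helper2).
-/

set_option autoImplicit false

namespace Pool.Agent.H2

open Finset Filter Topology MeasureTheory

/-- bounded measurable functions with a bounded support are integrable -/
lemma int_box {F : ℝ × ℝ → ℝ} (hF : Measurable F) {B a1 b1 a2 b2 : ℝ} (hB : ∀ p, |F p| ≤ B)
    (hs : ∀ p, p ∉ Set.Icc a1 b1 ×ˢ Set.Icc a2 b2 → F p = 0) : Integrable F := by
  have hm : MeasurableSet (Set.Icc a1 b1 ×ˢ Set.Icc a2 b2) := measurableSet_Icc.prod measurableSet_Icc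
  have hfin : volume (Set.Icc a1 b1 ×ˢ Set.Icc a2 b2) < ⊤ := by
    rw [Measure.volume_eq_prod, Measure.prod_prod, Real.volume_Icc, Real.volume_Icc]
    exact ENNReal.mul_lt_top ENNReal.ofReal_lt_top ENNReal.ofReal_lt_top
  refine Integrable.mono' (g := (Set.Icc a1 b1 ×ˢ Set.Icc a2 b2).indicator (fun _ => B)) ?_
    hF.aestronglyMeasurable ?_
  · rw [integrable_indicator_iff hm]
    exact integrableOn_const hfin.ne (by simp)
  · refine Eventually.of_forall fun p => ?_
    rw [Real.norm_eq_abs]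
    by_cases hp : p ∈ Set.Icc a1 b1 ×ˢ Set.Icc a2 b2
    · rw [Set.indicator_of_mem hp]
      exact hB p
    · rw [Set.indicator_of_notMem hp, hs p hp, abs_zero]

/-- integration over a rectangle along sheared lines -/
lemma shear {g : ℝ → ℝ} (hg : Measurable g) {G1 : ℝ} (hG1 : ∀ v, |g v| ≤ G1)
    {G : ℝ × ℝ → ℝ} (hG : Measurable G) {G2 : ℝ} (hG2 : ∀ p, |G p| ≤ G2) {L : ℝ} (hL : 0 < L)
    {u0 u1 δ0 δ1 B : ℝ} (hB : 0 ≤ B) (hu : u0 ≤ u1) (hδ : δ0 ≤ δ1)
    (h : ∀ v d1 d2 : ℝ, δ0 ≤ d1 → d1 ≤ d2 → d2 ≤ δ1 → u0 ≤ v - d1 * L → v - d1 * L ≤ u1 →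
      u0 ≤ v - d2 * L → v - d2 * L ≤ u1 → |∫ δ in d1..d2, G (v - δ * L, δ)| ≤ B) :
    |∫ p in Set.Icc u0 u1 ×ˢ Set.Icc δ0 δ1, g (p.1 + p.2 * L) * G p| ≤
      G1 * B * ((u1 - u0) + (δ1 - δ0) * L) := by
  have hG10 : 0 ≤ G1 := (abs_nonneg _).trans (hG1 0)
  have hG20 : 0 ≤ G2 := (abs_nonneg _).trans (hG2 (0, 0))
  have hRm : MeasurableSet (Set.Icc u0 u1 ×ˢ Set.Icc δ0 δ1) := measurableSet_Icc.prod measurableSet_Icc
  set F : ℝ × ℝ → ℝ := (Set.Icc u0 u1 ×ˢ Set.Icc δ0 δ1).indicator (fun p => g (p.1 + p.2 * L) * G p)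
    with hF
  have hFm : Measurable F := by
    apply Measurable.indicator _ hRm
    exact (hg.comp (measurable_fst.add (measurable_snd.mul_const L))).mul hG
  have hFb : ∀ p, |F p| ≤ G1 * G2 := by
    intro p
    simp only [hF]
    by_cases hp : p ∈ Set.Icc u0 u1 ×ˢ Set.Icc δ0 δ1
    · rw [Set.indicator_of_mem hp, abs_mul]
      exact mul_le_mul (hG1 _) (hG2 _) (abs_nonneg _) hG10
    · rw [Set.indicator_of_notMem hp, abs_zero]
      positivity
  have hFi : Integrable F := int_box hFm hFb fun p hp => Set.indicator_of_notMem hp _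
  rw [← integral_indicator hRm]
  change |∫ p, F p| ≤ _
  rw [Measure.volume_eq_prod, integral_prod_symm F hFi]
  have e1 : ∀ δ : ℝ, ∫ u, F (u, δ) = ∫ v, F (v - δ * L, δ) := fun δ =>
    (integral_sub_right_eq_self (fun u => F (u, δ)) (δ * L)).symm
  rw [integral_congr_ae (Eventually.of_forall e1)]
  have hFi2 : Integrable (Function.uncurry fun δ v : ℝ => F (v - δ * L, δ)) (volume.prod volume) := by
    rw [← Measure.volume_eq_prod]
    refine int_box (B := G1 * G2) (a1 := δ0) (b1 := δ1) (a2 := u0 + δ0 * L) (b2 := u1 + δ1 * L) ?_ ?_ ?_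
    · exact hFm.comp ((measurable_snd.sub (measurable_fst.mul_const L)).prodMk measurable_fst)
    · intro p
      exact hFb _
    · rintro ⟨δ, v⟩ hp
      simp only [Function.uncurry, hF]
      apply Set.indicator_of_notMem
      intro hq
      apply hp
      simp only [Set.mem_prod, Set.mem_Icc] at hq ⊢
      obtain ⟨⟨q1, q2⟩, q3, q4⟩ := hq
      have k1 := mul_le_mul_of_nonneg_right q3 hL.le
      have k2 := mul_le_mul_of_nonneg_right q4 hL.le
      refine ⟨⟨q3, q4⟩, by linarith, by linarith⟩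
  rw [integral_integral_swap hFi2]
  set V : Set ℝ := Set.Icc (u0 + δ0 * L) (u1 + δ1 * L) with hV
  have hδL := mul_le_mul_of_nonneg_right hδ hL.le
  have hb : ∀ v : ℝ, ‖∫ δ, F (v - δ * L, δ)‖ ≤ V.indicator (fun _ => G1 * B) v := by
    intro v
    rw [Real.norm_eq_abs]
    set d1 := max δ0 ((v - u1) / L) with hd1
    set d2 := min δ1 ((v - u0) / L) with hd2
    have e2 : (fun δ => F (v - δ * L, δ)) =
        (Set.Icc d1 d2).indicator (fun δ => g v * G (v - δ * L, δ)) := by
      ext δ
      simp only [hF]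
      by_cases hp : δ ∈ Set.Icc d1 d2
      · have hq : (v - δ * L, δ) ∈ Set.Icc u0 u1 ×ˢ Set.Icc δ0 δ1 := by
          rw [Set.mem_Icc, hd1, hd2, max_le_iff, le_min_iff] at hp
          obtain ⟨⟨p1, p2⟩, p3, p4⟩ := hp
          rw [div_le_iff₀ hL] at p2
          rw [le_div_iff₀ hL] at p4
          simp only [Set.mem_prod, Set.mem_Icc]
          exact ⟨⟨by linarith, by linarith⟩, p1, p3⟩
        rw [Set.indicator_of_mem hp, Set.indicator_of_mem hq]
        simp only [sub_add_cancel]
      · have hq : (v - δ * L, δ) ∉ Set.Icc u0 u1 ×ˢ Set.Icc δ0 δ1 := by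
          intro hq
          apply hp
          simp only [Set.mem_prod, Set.mem_Icc] at hq
          obtain ⟨⟨q1, q2⟩, q3, q4⟩ := hq
          rw [Set.mem_Icc, hd1, hd2, max_le_iff, le_min_iff, div_le_iff₀ hL, le_div_iff₀ hL]
          exact ⟨⟨q3, by linarith⟩, q4, by linarith⟩
        rw [Set.indicator_of_notMem hp, Set.indicator_of_notMem hq]
    rw [e2, integral_indicator measurableSet_Icc]
    rcases le_or_gt d1 d2 with h12 | h12
    · have a1 : δ0 ≤ d1 := le_max_left _ _
      have a2 : (v - u1) / L ≤ d1 := le_max_right _ _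
      have a3 : d2 ≤ δ1 := min_le_left _ _
      have a4 : d2 ≤ (v - u0) / L := min_le_right _ _
      rw [div_le_iff₀ hL] at a2
      rw [le_div_iff₀ hL] at a4
      have k1 := mul_le_mul_of_nonneg_right h12 hL.le
      have k2 := mul_le_mul_of_nonneg_right a1 hL.le
      have k3 := mul_le_mul_of_nonneg_right a3 hL.le
      have hvV : v ∈ V := by
        rw [hV, Set.mem_Icc]
        constructor <;> linarith
      rw [Set.indicator_of_mem hvV, integral_Icc_eq_integral_Ioc, ← intervalIntegral.integral_of_le h12,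
        intervalIntegral.integral_const_mul, abs_mul]
      exact mul_le_mul (hG1 v) (h v d1 d2 a1 h12 a3 (by linarith) (by linarith) (by linarith)
        (by linarith)) (abs_nonneg _) hG10
    · rw [Set.Icc_eq_empty (not_le.2 h12), Measure.restrict_empty, integral_zero_measure, abs_zero]
      apply Set.indicator_nonneg
      intro _ _
      positivity
  have hbi : Integrable (V.indicator (fun _ : ℝ => G1 * B)) := by
    rw [integrable_indicator_iff measurableSet_Icc]
    exact integrableOn_const (by rw [Real.volume_Icc]; exact ENNReal.ofReal_ne_top) enorm_ne_top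
  have hfin := norm_integral_le_of_norm_le hbi (Eventually.of_forall hb)
  rw [Real.norm_eq_abs] at hfin
  refine hfin.trans (le_of_eq ?_)
  rw [integral_indicator measurableSet_Icc, setIntegral_const, smul_eq_mul, Measure.real,
    Real.volume_Icc, ENNReal.toReal_ofReal (by linarith)]
  ring

/-- the block sums as functions of the two parameters -/
noncomputable def GG (h : ℤ) (M T : ℕ) (p : ℝ × ℝ) : ℝ :=
  ∑ n ∈ Ioc M (M + T), gg h n (p.1 + p.2 * Real.log n)

lemma GG_meas (h : ℤ) (M T : ℕ) : Measurable (GG h M T) := by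
  unfold GG
  refine Finset.measurable_sum _ fun n _ => ?_
  exact (gg_meas h n).comp (measurable_fst.add (measurable_snd.mul_const _))

lemma GG_bdd (h : ℤ) {M T : ℕ} {G : ℝ} (hG : ∀ n ∈ Ioc M (M + T), 2 * Real.log n + 1 ≤ G)
    (p : ℝ × ℝ) : |GG h M T p| ≤ T * G := by
  unfold GG
  refine (abs_sum_le_sum_abs _ _).trans ((sum_le_sum (g := fun _ => G) fun n hn => ?_).trans ?_)
  · have hn1 : 1 ≤ n := by
      rw [mem_Ioc] at hn
      omega
    exact (gg_abs h hn1 _).trans (hG n hn)
  · rw [sum_const, Nat.card_Ioc, nsmul_eq_mul]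
    have e3 : ((M + T - M : ℕ) : ℝ) = T := by
      have : M + T - M = T := by omega
      rw [this]
    rw [e3]

/-- **the second moment** -/
theorem K4 (h : ℤ) {τ a0 b0 δ0 δ1 u0 u1 : ℝ} (hτ : 0 < τ) (hEq : EqQ τ) (ha : 1 - 2 * τ ≤ a0)
    (ha0 : 0 < a0) (hb0 : b0 < 1) (hδ0 : a0 < δ0) (hδ1 : δ1 < b0) (hδ : δ0 ≤ δ1) (hu : u0 ≤ u1)
    (A : ℕ) :
    ∃ C : ℝ, 0 < C ∧ ∃ N0 : ℕ, ∀ N : ℕ, N0 ≤ N → ∀ M T : ℕ, N ≤ M → M + T ≤ 2 * N →
      ∫ p in Set.Icc u0 u1 ×ˢ Set.Icc δ0 δ1, GG h M T p ^ 2 ≤ C * N ^ 2 / Real.log N ^ A := by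
  obtain ⟨C, hC, N1, hN1⟩ := IB h (u0 := u0) (u1 := u1) hτ hEq ha ha0 hb0 hδ0 hδ1 (A + 2)
  have hlt : Tendsto (fun N : ℕ => Real.log (N : ℝ)) atTop atTop :=
    Real.tendsto_log_atTop.comp tendsto_natCast_atTop_atTop
  have hev : ∀ᶠ N : ℕ in atTop, 1 ≤ Real.log N ∧ u1 - u0 ≤ Real.log N ∧ N1 ≤ N ∧ 2 ≤ N := by
    filter_upwards [hlt.eventually_ge_atTop 1, hlt.eventually_ge_atTop (u1 - u0),
      eventually_ge_atTop N1, eventually_ge_atTop 2] with N a1 a2 a5 a6
    exact ⟨a1, a2, a5, a6⟩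
  obtain ⟨N0, hN0⟩ := eventually_atTop.1 hev
  refine ⟨15 * C, by positivity, N0, ?_⟩
  intro N hN M T hNM hMT
  obtain ⟨hL1, hlu, hNN1, hN2⟩ := hN0 N hN
  set L : ℝ := Real.log N with hL
  have hL0 : 0 < L := by linarith
  have hN2r : (2 : ℝ) ≤ N := by exact_mod_cast hN2
  have hNpos : (0 : ℝ) < N := by linarith
  have hlogn : ∀ m : ℕ, N ≤ m → m ≤ 2 * N → Real.log m ≤ 2 * L := by
    intro m hm1 hm2
    have h1 : (m : ℝ) ≤ N * N := by
      have : (m : ℝ) ≤ 2 * N := by exact_mod_cast hm2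
      have h2 := mul_le_mul_of_nonneg_right hN2r hNpos.le
      linarith
    have h2 : (0 : ℝ) < m := by
      have : 0 < m := by omega
      exact_mod_cast this
    have h3 := Real.log_le_log h2 h1
    rw [Real.log_mul hNpos.ne' hNpos.ne'] at h3
    linarith
  have hG : ∀ n ∈ Ioc M (M + T), 2 * Real.log n + 1 ≤ 5 * L := by
    intro n hn
    rw [mem_Ioc] at hn
    have := hlogn n (by omega) (by omega)
    linarith
  have hfin : volume (Set.Icc u0 u1 ×ˢ Set.Icc δ0 δ1) < ⊤ := by
    rw [Measure.volume_eq_prod, Measure.prod_prod, Real.volume_Icc, Real.volume_Icc]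
    exact ENNReal.mul_lt_top ENNReal.ofReal_lt_top ENNReal.ofReal_lt_top
  have e1 : ∀ p : ℝ × ℝ, GG h M T p ^ 2 =
      ∑ n ∈ Ioc M (M + T), gg h n (p.1 + p.2 * Real.log n) * GG h M T p := by
    intro p
    rw [← sum_mul, sq]
    rfl
  have hTr : (T : ℝ) ≤ N := by
    have : T ≤ N := by omega
    exact_mod_cast this
  have hone : ∀ n ∈ Ioc M (M + T), |∫ p in Set.Icc u0 u1 ×ˢ Set.Icc δ0 δ1,
      gg h n (p.1 + p.2 * Real.log n) * GG h M T p| ≤ 15 * C * N / L ^ A := by
    intro n hn
    have hn' := hn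
    rw [mem_Ioc] at hn'
    have hn1 : N ≤ n := by omega
    have hn2 : n ≤ 2 * N := by omega
    have hlog0 : 0 < Real.log n := by
      apply Real.log_pos
      have : (N : ℝ) ≤ n := by exact_mod_cast hn1
      linarith
    have h3 := shear (g := gg h n) (gg_meas h n) (G1 := 5 * L)
      (fun v => (gg_abs h (by omega) v).trans (hG n hn)) (G := GG h M T) (GG_meas h M T)
      (G2 := T * (5 * L)) (GG_bdd h hG) (L := Real.log n) hlog0 (u0 := u0) (u1 := u1) (δ0 := δ0)
      (δ1 := δ1) (B := C * N / L ^ (A + 2)) (by positivity) hu hδ (by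
        intro v d1 d2 p1 p2 p3 p4 p5 p6 p7
        have h4 := hN1 N hNN1 M T hNM hMT n hn1 hn2 v d1 d2 p1 p2 p3 p4 p5 p6 p7
        have h5 : ∫ δ in d1..d2, GG h M T (v - δ * Real.log n, δ) =
            ∑ m ∈ Ioc M (M + T), ∫ δ in d1..d2, gg h m (v + (Real.log m - Real.log n) * δ) := by
          rw [← intervalIntegral.integral_finsetSum]
          · apply intervalIntegral.integral_congr
            intro δ _
            simp only [GG]
            refine sum_congr rfl fun m _ => ?_
            congr 1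
            ring
          · intro m hm
            rw [mem_Ioc] at hm
            rw [intervalIntegrable_iff]
            refine Integrable.mono' (g := fun _ => 2 * Real.log m + 1) ?_ ?_ ?_
            · exact integrableOn_const (by simp) (by simp)
            · exact ((gg_meas h m).comp ((measurable_id.const_mul _).const_add _)).aestronglyMeasurable
            · exact Eventually.of_forall fun δ => by
                rw [Real.norm_eq_abs]; exact gg_abs h (by omega) _
        rw [h5]
        exact h4)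
    refine h3.trans ?_
    have h6 : (u1 - u0) + (δ1 - δ0) * Real.log n ≤ 3 * L := by
      have h7 : (δ1 - δ0) * Real.log n ≤ 1 * (2 * L) :=
        mul_le_mul (by linarith) (hlogn n hn1 hn2) hlog0.le (by norm_num)
      linarith
    calc 5 * L * (C * N / L ^ (A + 2)) * ((u1 - u0) + (δ1 - δ0) * Real.log n) ≤
          5 * L * (C * N / L ^ (A + 2)) * (3 * L) := by gcongr
      _ = 15 * C * N / L ^ A := by
          rw [pow_add]
          field_simp
          norm_num
  calc ∫ p in Set.Icc u0 u1 ×ˢ Set.Icc δ0 δ1, GG h M T p ^ 2 =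
        ∑ n ∈ Ioc M (M + T), ∫ p in Set.Icc u0 u1 ×ˢ Set.Icc δ0 δ1,
          gg h n (p.1 + p.2 * Real.log n) * GG h M T p := by
        rw [← integral_finsetSum]
        · exact integral_congr_ae (Eventually.of_forall e1)
        · intro n hn
          have hn' := hn
          rw [mem_Ioc] at hn'
          refine Measure.integrableOn_of_bounded (M := 5 * L * (T * (5 * L))) hfin.ne ?_ ?_
          · exact (((gg_meas h n).comp (measurable_fst.add (measurable_snd.mul_const _))).mul
              (GG_meas h M T)).aestronglyMeasurable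
          · refine Eventually.of_forall fun p => ?_
            rw [Real.norm_eq_abs, abs_mul]
            exact mul_le_mul ((gg_abs h (by omega) _).trans (hG n hn)) (GG_bdd h hG p) (abs_nonneg _)
              (by positivity)
    _ ≤ ∑ n ∈ Ioc M (M + T), 15 * C * N / L ^ A :=
        sum_le_sum fun n hn => (le_abs_self _).trans (hone n hn)
    _ = T * (15 * C * N / L ^ A) := by
        rw [sum_const, Nat.card_Ioc, nsmul_eq_mul]
        have e3 : ((M + T - M : ℕ) : ℝ) = T := by
          have : M + T - M = T := by omega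
          rw [this]
        rw [e3]
    _ ≤ N * (15 * C * N / L ^ A) := by gcongr
    _ = _ := by ring

end Pool.Agent.H2
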