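import Mathlib
import Pool.Agent.H2.K4

/-!
The block sums for almost all pairs of parameters (helper2).
-/

set_option autoImplicit false

namespace Pool.Agent.H2

open Finset Filter Topology MeasureTheory

/-- a form of the lemma of Borel and Cantelli -/
lemma ae_zero' {α : Type*} [MeasurableSpace α] {μ : Measure α} (f : ℕ → α → ℝ)
    (hf : ∀ i, Measurable (f i)) (hf0 : ∀ i θ, 0 ≤ f i θ)
    (hfi : ∀ i, Integrable (f i) μ) (c : ℕ → ℝ) (hc : Summable c)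
    (hfc : ∀ i, ∫ θ, f i θ ∂μ ≤ c i) :
    ∀ᵐ θ ∂μ, Tendsto (fun i => f i θ) atTop (𝓝 0) := by
  have hc0 : ∀ i, 0 ≤ c i := fun i => (integral_nonneg (hf0 i)).trans (hfc i)
  have h1 : ∫⁻ θ, ∑' i, ENNReal.ofReal (f i θ) ∂μ ≠ ⊤ := by
    rw [lintegral_tsum fun i => (hf i).ennreal_ofReal.aemeasurable]
    have h2 : ∀ i, ∫⁻ θ, ENNReal.ofReal (f i θ) ∂μ ≤ ENNReal.ofReal (c i) := by
      intro i
      rw [← ofReal_integral_eq_lintegral_ofReal (hfi i) (Eventually.of_forall (hf0 i))]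
      exact ENNReal.ofReal_le_ofReal (hfc i)
    refine ne_of_lt (lt_of_le_of_lt (ENNReal.tsum_le_tsum h2) ?_)
    rw [← ENNReal.ofReal_tsum_of_nonneg hc0 hc]
    exact ENNReal.ofReal_lt_top
  have h3 : ∀ᵐ θ ∂μ, ∑' i, ENNReal.ofReal (f i θ) < ⊤ :=
    ae_lt_top (Measurable.tsum fun i => (hf i).ennreal_ofReal) h1
  filter_upwards [h3] with θ hθ
  have h4 := ENNReal.tendsto_atTop_zero_of_tsum_ne_top hθ.ne
  have h5 := (ENNReal.tendsto_toReal (a := 0) (by simp)).comp h4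
  simp only [ENNReal.toReal_zero] at h5
  refine h5.congr fun i => ?_
  simp only [Function.comp]
  exact ENNReal.toReal_ofReal (hf0 i θ)

lemma GG_split (h : ℤ) (M : ℕ) {t T : ℕ} (ht : t ≤ T) (p : ℝ × ℝ) :
    GG h M T p = GG h M t p + GG h (M + t) (T - t) p := by
  unfold GG
  have e1 : M + t + (T - t) = M + T := by omega
  rw [e1, Finset.sum_Ioc_consecutive _ (by omega) (by omega)]

/-- **the block sums for almost all pairs** -/
theorem K5 (h : ℤ) {τ a0 b0 δ0 δ1 u0 u1 : ℝ} (hτ : 0 < τ) (hEq : EqQ τ) (ha : 1 - 2 * τ ≤ a0)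
    (ha0 : 0 < a0) (hb0 : b0 < 1) (hδ0 : a0 < δ0) (hδ1 : δ1 < b0) (hδ : δ0 ≤ δ1) (hu : u0 ≤ u1)
    (b : ℕ) :
    ∀ᵐ p ∂(volume.restrict (Set.Icc u0 u1 ×ˢ Set.Icc δ0 δ1)), ∃ k0 : ℕ, ∀ k : ℕ, k0 ≤ k →
      ∀ T : ℕ, T ≤ 2 ^ k → |GG h (2 ^ k) T p| ≤ 6 * 2 ^ k / (k : ℝ) ^ b := by
  obtain ⟨a, haa⟩ : ∃ a, a = b + 1 := ⟨_, rfl⟩
  obtain ⟨A, hA⟩ : ∃ A, A = 3 * a + 2 := ⟨_, rfl⟩
  obtain ⟨C, hC, N0, hN0⟩ := K4 h hτ hEq ha ha0 hb0 hδ0 hδ1 hδ hu A
  obtain ⟨s, hs⟩ : ∃ s : ℕ → ℕ, s = fun k : ℕ => ⌊(2 : ℝ) ^ k / (k : ℝ) ^ a⌋₊ := ⟨_, rfl⟩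
  -- the functions
  obtain ⟨E, hE⟩ : ∃ E : ℕ → ℝ × ℝ → ℝ, E = fun (k : ℕ) p => ∑ m ∈ range (2 * k ^ a + 2),
    GG h (2 ^ k) (min (m * s k) (2 ^ k)) p ^ 2 * ((k : ℝ) ^ a / 2 ^ k) ^ 2 := ⟨_, rfl⟩
  obtain ⟨k1, hk1⟩ : ∃ k1 : ℕ, ∀ k, k1 ≤ k → N0 ≤ 2 ^ k ∧ 1 ≤ k := by
    refine ⟨N0 + 1, fun k hk => ⟨?_, by omega⟩⟩
    exact (Nat.lt_two_pow_self (n := N0)).le.trans (Nat.pow_le_pow_right (by norm_num) (by omega))
  have hfin : volume (Set.Icc u0 u1 ×ˢ Set.Icc δ0 δ1) < ⊤ := by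
    rw [Measure.volume_eq_prod, Measure.prod_prod, Real.volume_Icc, Real.volume_Icc]
    exact ENNReal.mul_lt_top ENNReal.ofReal_lt_top ENNReal.ofReal_lt_top
  have hlog : ∀ k : ℕ, 1 ≤ k → ∀ n : ℕ, 1 ≤ n → n ≤ 2 * 2 ^ k → 2 * Real.log n + 1 ≤ 5 * k := by
    intro k hk n hn1 hn2
    have hkr : (1 : ℝ) ≤ k := by exact_mod_cast hk
    have h1 : Real.log n ≤ (k + 1 : ℕ) * Real.log 2 := by
      rw [← Real.log_pow]
      apply Real.log_le_log (by exact_mod_cast hn1)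
      have : n ≤ 2 ^ (k + 1) := by rw [pow_succ]; omega
      exact_mod_cast this
    have h2 : Real.log 2 ≤ 1 := by have := Real.log_two_lt_d9; linarith
    have h3 : ((k + 1 : ℕ) : ℝ) * Real.log 2 ≤ (k + 1 : ℕ) * 1 := by gcongr
    push_cast at h1 h3
    linarith
  have hint : ∀ k m : ℕ, 1 ≤ k → IntegrableOn (fun p => GG h (2 ^ k) (min (m * s k) (2 ^ k)) p ^ 2)
      (Set.Icc u0 u1 ×ˢ Set.Icc δ0 δ1) := by
    intro k m hk
    refine Measure.integrableOn_of_bounded (M := (((min (m * s k) (2 ^ k) : ℕ) : ℝ) * (5 * k)) ^ 2)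
      hfin.ne ?_ ?_
    · exact ((GG_meas h _ _).pow_const 2).aestronglyMeasurable
    · refine Eventually.of_forall fun p => ?_
      rw [Real.norm_eq_abs, abs_pow]
      apply pow_le_pow_left₀ (abs_nonneg _)
      apply GG_bdd
      intro n hn
      rw [mem_Ioc] at hn
      have h1 : min (m * s k) (2 ^ k) ≤ 2 ^ k := min_le_right _ _
      exact hlog k hk n (by omega) (by omega)
  have hEm : ∀ k, Measurable (E k) := by
    intro k
    rw [hE]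
    refine Finset.measurable_sum _ fun m _ => ?_
    exact ((GG_meas h _ _).pow_const 2).mul_const _
  have hE0 : ∀ k p, 0 ≤ E k p := by
    intro k p
    rw [hE]
    exact sum_nonneg fun m _ => by positivity
  have hEi : ∀ k, 1 ≤ k → IntegrableOn (E k) (Set.Icc u0 u1 ×ˢ Set.Icc δ0 δ1) := by
    intro k hk
    rw [hE]
    exact integrable_finsetSum _ fun m _ => (hint k m hk).mul_const _
  have hEc : ∀ k, k1 ≤ k → ∫ p in Set.Icc u0 u1 ×ˢ Set.Icc δ0 δ1, E k p ≤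
      4 * C / Real.log 2 ^ A * (1 / (k : ℝ) ^ 2) := by
    intro k hk
    obtain ⟨g1, g2⟩ := hk1 k hk
    have hkr : (1 : ℝ) ≤ k := by exact_mod_cast g2
    have hk0 : (0 : ℝ) < k := by linarith
    have hl2 : 0 < Real.log 2 := Real.log_pos (by norm_num)
    have hone : ∀ m ∈ range (2 * k ^ a + 2), ∫ p in Set.Icc u0 u1 ×ˢ Set.Icc δ0 δ1,
        GG h (2 ^ k) (min (m * s k) (2 ^ k)) p ^ 2 * ((k : ℝ) ^ a / 2 ^ k) ^ 2 ≤
        C / Real.log 2 ^ A * ((k : ℝ) ^ (2 * a) / (k : ℝ) ^ A) := by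
      intro m _
      rw [integral_mul_const]
      have h1 : min (m * s k) (2 ^ k) ≤ 2 ^ k := min_le_right _ _
      have h2 := hN0 (2 ^ k) g1 (2 ^ k) (min (m * s k) (2 ^ k)) le_rfl (by omega)
      have h3 : Real.log ((2 ^ k : ℕ) : ℝ) = k * Real.log 2 := by
        push_cast
        rw [Real.log_pow]
      rw [h3] at h2
      calc (∫ p in Set.Icc u0 u1 ×ˢ Set.Icc δ0 δ1, GG h (2 ^ k) (min (m * s k) (2 ^ k)) p ^ 2) *
            ((k : ℝ) ^ a / 2 ^ k) ^ 2 ≤ (C * ((2 ^ k : ℕ) : ℝ) ^ 2 / (k * Real.log 2) ^ A) *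
            ((k : ℝ) ^ a / 2 ^ k) ^ 2 := by gcongr
        _ = C / Real.log 2 ^ A * ((k : ℝ) ^ (2 * a) / (k : ℝ) ^ A) := by
            push_cast
            rw [mul_pow, pow_mul', div_pow]
            field_simp
    have hsum : ∫ p in Set.Icc u0 u1 ×ˢ Set.Icc δ0 δ1, E k p =
        ∑ m ∈ range (2 * k ^ a + 2), ∫ p in Set.Icc u0 u1 ×ˢ Set.Icc δ0 δ1,
          GG h (2 ^ k) (min (m * s k) (2 ^ k)) p ^ 2 * ((k : ℝ) ^ a / 2 ^ k) ^ 2 := by
      rw [hE, ← integral_finsetSum]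
      exact fun m _ => (hint k m g2).mul_const _
    rw [hsum]
    refine (sum_le_sum hone).trans ?_
    rw [sum_const, card_range, nsmul_eq_mul]
    push_cast
    have h4 : 2 * (k : ℝ) ^ a + 2 ≤ 4 * (k : ℝ) ^ a := by
      have : (1 : ℝ) ≤ (k : ℝ) ^ a := one_le_pow₀ hkr
      linarith
    calc (2 * (k : ℝ) ^ a + 2) * (C / Real.log 2 ^ A * ((k : ℝ) ^ (2 * a) / (k : ℝ) ^ A)) ≤
          4 * (k : ℝ) ^ a * (C / Real.log 2 ^ A * ((k : ℝ) ^ (2 * a) / (k : ℝ) ^ A)) := by gcongr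
      _ = _ := by
          have h5 : (k : ℝ) ^ A = (k : ℝ) ^ a * (k : ℝ) ^ (2 * a) * (k : ℝ) ^ 2 := by
            rw [hA, ← pow_add, ← pow_add]; congr 1; ring
          rw [h5]
          field_simp
  have hae := ae_zero' (μ := volume.restrict (Set.Icc u0 u1 ×ˢ Set.Icc δ0 δ1))
    (fun i => E (i + k1)) (fun i => hEm _) (fun i p => hE0 _ _)
    (fun i => hEi _ ((hk1 (i + k1) (by omega)).2))
    (fun i => 4 * C / Real.log 2 ^ A * (1 / ((i + k1 : ℕ) : ℝ) ^ 2))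
    (by
      apply Summable.mul_left
      have h1 : Summable (fun i : ℕ => 1 / (i : ℝ) ^ 2) := Real.summable_one_div_nat_pow.2 (by norm_num)
      exact (summable_nat_add_iff k1 (f := fun i : ℕ => 1 / (i : ℝ) ^ 2)).2 h1)
    (fun i => hEc _ (by omega))
  filter_upwards [hae] with p hp
  have hp1 := hp.eventually (gt_mem_nhds (show (0 : ℝ) < 1 by norm_num))
  obtain ⟨k2, hk2⟩ := eventually_atTop.1 hp1
  -- the lengths of the steps
  have hsev : ∀ᶠ k : ℕ in atTop, 2 * (k : ℝ) ^ a ≤ 2 ^ k := by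
    have h1 : Tendsto (fun k : ℕ => (k : ℝ) ^ a / 2 ^ k) atTop (𝓝 0) :=
      tendsto_pow_const_div_const_pow_of_one_lt a (by norm_num)
    have h2 := h1.eventually (gt_mem_nhds (show (0 : ℝ) < 1 / 2 by norm_num))
    filter_upwards [h2] with k hk
    rw [div_lt_iff₀ (by positivity)] at hk
    linarith
  obtain ⟨k3, hk3⟩ := eventually_atTop.1 hsev
  refine ⟨k1 + k2 + k3 + 1, ?_⟩
  intro k hk T hT
  have hk1' : 1 ≤ k := by omega
  have hkr : (1 : ℝ) ≤ k := by exact_mod_cast hk1'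
  have hk0 : (0 : ℝ) < k := by linarith
  have hka : (0 : ℝ) < (k : ℝ) ^ a := by positivity
  have h2k : (0 : ℝ) < 2 ^ k := by positivity
  have hs2 : 2 ≤ (2 : ℝ) ^ k / (k : ℝ) ^ a := by
    rw [le_div_iff₀ hka]
    exact hk3 k (by omega)
  have hsle : (s k : ℝ) ≤ 2 ^ k / (k : ℝ) ^ a := by
    rw [hs]
    exact Nat.floor_le (by positivity)
  have hsge : (2 : ℝ) ^ k / (k : ℝ) ^ a / 2 ≤ s k := by
    have := Nat.lt_floor_add_one ((2 : ℝ) ^ k / (k : ℝ) ^ a)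
    rw [hs]
    simp only
    linarith
  have hs0 : 0 < s k := by
    have : (0 : ℝ) < s k := by linarith
    exact_mod_cast this
  obtain ⟨m, hm⟩ : ∃ m, m = T / s k := ⟨_, rfl⟩
  have hm1 : m * s k ≤ T := by rw [hm]; exact Nat.div_mul_le_self _ _
  have hm2 : T - m * s k ≤ s k := by
    have h1 := Nat.mod_lt T hs0
    have h2 := Nat.div_add_mod T (s k)
    rw [← hm, mul_comm] at h2
    omega
  have hm3 : m < 2 * k ^ a + 2 := by
    have h1 : (m : ℝ) * s k ≤ 2 ^ k := by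
      have : m * s k ≤ 2 ^ k := hm1.trans hT
      exact_mod_cast this
    have h2 : (m : ℝ) * ((2 : ℝ) ^ k / (k : ℝ) ^ a / 2) ≤ 2 ^ k := by
      refine le_trans ?_ h1
      gcongr
    have h3 : (m : ℝ) ≤ 2 * (k : ℝ) ^ a := by
      by_contra hcon
      push Not at hcon
      have h4 : 2 * (k : ℝ) ^ a * ((2 : ℝ) ^ k / (k : ℝ) ^ a / 2) < (m : ℝ) * ((2 : ℝ) ^ k / (k : ℝ) ^ a / 2) :=
        mul_lt_mul_of_pos_right hcon (by positivity)
      have h5 : 2 * (k : ℝ) ^ a * ((2 : ℝ) ^ k / (k : ℝ) ^ a / 2) = 2 ^ k := by field_simp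
      linarith
    have h6 : m ≤ 2 * k ^ a := by exact_mod_cast h3
    omega
  have hmin : min (m * s k) (2 ^ k) = m * s k := min_eq_left (hm1.trans hT)
  have hg1 : |GG h (2 ^ k) (m * s k) p| ≤ 2 ^ k / (k : ℝ) ^ a := by
    have h1 : E k p < 1 := by
      have := hk2 (k - k1) (by omega)
      rwa [Nat.sub_add_cancel (by omega)] at this
    have h2 : GG h (2 ^ k) (min (m * s k) (2 ^ k)) p ^ 2 * ((k : ℝ) ^ a / 2 ^ k) ^ 2 ≤ E k p := by
      rw [hE]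
      exact single_le_sum (f := fun m => GG h (2 ^ k) (min (m * s k) (2 ^ k)) p ^ 2 *
        ((k : ℝ) ^ a / 2 ^ k) ^ 2) (fun _ _ => by positivity) (mem_range.2 hm3)
    rw [hmin, ← mul_pow] at h2
    have h3 : |GG h (2 ^ k) (m * s k) p * ((k : ℝ) ^ a / 2 ^ k)| ≤ 1 := by
      rw [← sq_le_one_iff_abs_le_one]
      linarith
    rw [abs_mul, abs_of_pos (show 0 < (k : ℝ) ^ a / 2 ^ k by positivity)] at h3
    rw [le_div_iff₀ hka]
    rw [← mul_div_assoc, div_le_one h2k] at h3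
    exact h3
  have hg2 : |GG h (2 ^ k + m * s k) (T - m * s k) p| ≤ 2 ^ k / (k : ℝ) ^ a * (5 * k) := by
    have h1 := GG_bdd h (M := 2 ^ k + m * s k) (T := T - m * s k) (G := 5 * k) (by
      intro n hn
      rw [mem_Ioc] at hn
      exact hlog k hk1' n (by omega) (by omega)) p
    refine h1.trans ?_
    gcongr
    refine le_trans ?_ hsle
    exact_mod_cast hm2
  rw [GG_split h (2 ^ k) hm1 p]
  refine (abs_add_le _ _).trans ((add_le_add hg1 hg2).trans ?_)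
  have h1 : 2 ^ k / (k : ℝ) ^ a + 2 ^ k / (k : ℝ) ^ a * (5 * k) ≤ 2 ^ k / (k : ℝ) ^ a * (6 * k) := by
    have h2 : 2 ^ k / (k : ℝ) ^ a * 1 ≤ 2 ^ k / (k : ℝ) ^ a * k := by gcongr
    linarith
  refine h1.trans (le_of_eq ?_)
  rw [haa, pow_succ]
  field_simp

end Pool.Agent.H2
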