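import Mathlib
import Pool.Agent.H2.K5
import Pool.Agent.H2.EqQ

/-!
The number of primes for almost all pairs of parameters (helper2).
-/

set_option autoImplicit false

namespace Pool.Agent.H2

open Finset Filter Topology MeasureTheory

/-- summation by parts with decreasing weights -/
lemma abel_w {g w : ℕ → ℝ} {M : ℕ} {E : ℝ} (hw0 : ∀ n, M ≤ n → 0 ≤ w n)
    (hw : ∀ n, M ≤ n → w (n + 1) ≤ w n) (T : ℕ)
    (hS : ∀ t, t ≤ T → |∑ n ∈ Ioc M (M + t), g n| ≤ E) :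
    |∑ n ∈ Ioc M (M + T), w n * g n| ≤ w M * E := by
  have hid : ∀ T : ℕ, ∑ n ∈ Ioc M (M + T), w n * g n = w (M + T) * ∑ n ∈ Ioc M (M + T), g n +
      ∑ t ∈ range T, (w (M + t) - w (M + (t + 1))) * ∑ n ∈ Ioc M (M + t), g n := by
    intro T
    induction T with
    | zero => simp
    | succ T ih =>
      rw [← add_assoc, sum_Ioc_succ_top (by omega), sum_Ioc_succ_top (by omega), ih, sum_range_succ]
      ring_nf
  rw [hid T]
  refine (abs_add_le _ _).trans ?_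
  have h1 : |w (M + T) * ∑ n ∈ Ioc M (M + T), g n| ≤ w (M + T) * E := by
    rw [abs_mul, abs_of_nonneg (hw0 _ (by omega))]
    exact mul_le_mul_of_nonneg_left (hS T le_rfl) (hw0 _ (by omega))
  have h2 : |∑ t ∈ range T, (w (M + t) - w (M + (t + 1))) * ∑ n ∈ Ioc M (M + t), g n| ≤
      (w M - w (M + T)) * E := by
    refine (abs_sum_le_sum_abs _ _).trans ?_
    have h3 : ∀ t ∈ range T, |(w (M + t) - w (M + (t + 1))) * ∑ n ∈ Ioc M (M + t), g n| ≤
        (w (M + t) - w (M + (t + 1))) * E := by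
      intro t ht
      rw [mem_range] at ht
      have h4 : 0 ≤ w (M + t) - w (M + (t + 1)) := by
        have := hw (M + t) (by omega)
        rw [add_assoc] at this
        linarith
      rw [abs_mul, abs_of_nonneg h4]
      exact mul_le_mul_of_nonneg_left (hS t ht.le) h4
    refine (sum_le_sum h3).trans (le_of_eq ?_)
    rw [← sum_mul, Finset.sum_range_sub' (fun t => w (M + t)) T, add_zero]
  linarith

/-- growth of the partial sums from the blocks -/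
lemma growth {y : ℕ → ℝ} {b k0 : ℕ}
    (hy : ∀ k, k0 ≤ k → y (k + 1) ≤ y k + 6 * 2 ^ k / (k : ℝ) ^ b) :
    ∃ D : ℝ, 0 < D ∧ ∃ k1 : ℕ, ∀ k, k1 ≤ k → y k ≤ D * 2 ^ k / (k : ℝ) ^ b := by
  have h1 : Tendsto (fun k : ℕ => (1 + 1 / (k : ℝ)) ^ b) atTop (𝓝 1) := by
    have := (tendsto_one_div_atTop_nhds_zero_nat (𝕜 := ℝ)).const_add 1
    have := this.pow b
    simpa using this
  have h2 := h1.eventually (gt_mem_nhds (show (1 : ℝ) < 3 / 2 by norm_num))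
  obtain ⟨k2, hk2⟩ := eventually_atTop.1 h2
  obtain ⟨k1, hk1⟩ : ∃ k1, k1 = k0 + k2 + 1 := ⟨_, rfl⟩
  refine ⟨18 + |y k1| * (k1 : ℝ) ^ b, by positivity, k1, ?_⟩
  set D : ℝ := 18 + |y k1| * (k1 : ℝ) ^ b with hD
  have hD18 : 18 ≤ D := by
    have : 0 ≤ |y k1| * (k1 : ℝ) ^ b := by positivity
    linarith
  intro k hk
  induction k, hk using Nat.le_induction with
  | base =>
    have hk1' : (0 : ℝ) < k1 := by
      have : 0 < k1 := by omega
      exact_mod_cast this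
    rw [le_div_iff₀ (by positivity)]
    have h3 : y k1 * (k1 : ℝ) ^ b ≤ |y k1| * (k1 : ℝ) ^ b := by
      gcongr
      exact le_abs_self _
    have h4 : (1 : ℝ) ≤ 2 ^ k1 := one_le_pow₀ (by norm_num)
    have h5 : D * 1 ≤ D * 2 ^ k1 := by gcongr
    linarith
  | succ k hk ih =>
    have hkpos : (0 : ℝ) < k := by
      have : 0 < k := by omega
      exact_mod_cast this
    have h3 := hy k (by omega)
    have h4 := hk2 k (by omega)
    have h5 : ((k + 1 : ℕ) : ℝ) ^ b ≤ 3 / 2 * (k : ℝ) ^ b := by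
      have e1 : ((k + 1 : ℕ) : ℝ) = (1 + 1 / (k : ℝ)) * k := by push_cast; field_simp
      rw [e1, mul_pow]
      gcongr
    have h6 : y (k + 1) ≤ (D + 6) * (2 ^ k / (k : ℝ) ^ b) := by
      have e1 : (D + 6) * (2 ^ k / (k : ℝ) ^ b) = D * 2 ^ k / (k : ℝ) ^ b + 6 * 2 ^ k / (k : ℝ) ^ b := by
        ring
      rw [e1]
      linarith
    refine h6.trans ?_
    rw [le_div_iff₀ (by positivity)]
    calc (D + 6) * (2 ^ k / (k : ℝ) ^ b) * ((k + 1 : ℕ) : ℝ) ^ b ≤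
          (D + 6) * (2 ^ k / (k : ℝ) ^ b) * (3 / 2 * (k : ℝ) ^ b) := by gcongr
      _ = (D + 6) * (3 / 2) * 2 ^ k := by field_simp
      _ ≤ D * 2 * 2 ^ k := by
          apply mul_le_mul_of_nonneg_right _ (by positivity)
          linarith
      _ = D * 2 ^ (k + 1) := by rw [pow_succ]; ring

/-- the partial sums from the blocks -/
lemma part_sum {g : ℕ → ℝ} {b k0 : ℕ}
    (hg : ∀ k, k0 ≤ k → ∀ T, T ≤ 2 ^ k → |∑ n ∈ Ioc (2 ^ k) (2 ^ k + T), g n| ≤ 6 * 2 ^ k / (k : ℝ) ^ b) :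
    ∃ C : ℝ, 0 < C ∧ ∃ X0 : ℕ, ∀ X : ℕ, X0 ≤ X →
      |∑ n ∈ Ioc 1 X, g n / (2 * Real.log n)| ≤ C * X / Real.log X ^ b := by
  have hblock : ∀ k, k0 + 1 ≤ k → ∀ T, T ≤ 2 ^ k →
      |∑ n ∈ Ioc (2 ^ k) (2 ^ k + T), g n / (2 * Real.log n)| ≤ 6 * 2 ^ k / (k : ℝ) ^ b := by
    intro k hk T hT
    have hkr : (1 : ℝ) ≤ k := by
      have : 1 ≤ k := by omega
      exact_mod_cast this
    have hpow : 2 ≤ 2 ^ k := by
      calc 2 = 2 ^ 1 := rfl
        _ ≤ 2 ^ k := Nat.pow_le_pow_right (by norm_num) (by omega)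
    have hlogpos : ∀ n : ℕ, 2 ^ k ≤ n → 0 < Real.log n := by
      intro n hn
      apply Real.log_pos
      have : 2 ≤ n := hpow.trans hn
      have : (2 : ℝ) ≤ n := by exact_mod_cast this
      linarith
    have h1 := abel_w (g := g) (w := fun n : ℕ => 1 / (2 * Real.log n)) (M := 2 ^ k)
      (E := 6 * 2 ^ k / (k : ℝ) ^ b) (by
        intro n hn
        have := hlogpos n hn
        positivity) (by
        intro n hn
        have h2 := hlogpos n hn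
        have h3 : Real.log n ≤ Real.log ((n + 1 : ℕ) : ℝ) := by
          apply Real.log_le_log
          · have : 0 < n := by omega
            exact_mod_cast this
          · push_cast
            linarith
        apply one_div_le_one_div_of_le (by positivity)
        linarith) T (fun t ht => hg k (by omega) t (ht.trans hT))
    have e1 : ∑ n ∈ Ioc (2 ^ k) (2 ^ k + T), g n / (2 * Real.log n) =
        ∑ n ∈ Ioc (2 ^ k) (2 ^ k + T), 1 / (2 * Real.log n) * g n :=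
      sum_congr rfl fun n _ => by ring
    rw [e1]
    refine h1.trans ?_
    have h4 : 1 / (2 * Real.log ((2 ^ k : ℕ) : ℝ)) ≤ 1 := by
      have e2 : Real.log ((2 ^ k : ℕ) : ℝ) = k * Real.log 2 := by
        push_cast
        rw [Real.log_pow]
      have h5 := Real.log_two_gt_d9
      have h6 : 1 * (0.69 : ℝ) ≤ k * Real.log 2 := mul_le_mul hkr (by linarith) (by norm_num) (by linarith)
      rw [e2, div_le_one (by linarith)]
      linarith
    calc 1 / (2 * Real.log ((2 ^ k : ℕ) : ℝ)) * (6 * 2 ^ k / (k : ℝ) ^ b) ≤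
          1 * (6 * 2 ^ k / (k : ℝ) ^ b) := by gcongr
      _ = _ := one_mul _
  obtain ⟨D, hD, k1, hk1⟩ := growth (y := fun k => |∑ n ∈ Ioc 1 (2 ^ k), g n / (2 * Real.log n)|)
    (b := b) (k0 := k0 + 1) (by
      intro k hk
      have h1 := hblock k hk (2 ^ k) le_rfl
      have h2 : 1 ≤ 2 ^ k := Nat.one_le_two_pow
      have e1 : 2 ^ (k + 1) = 2 ^ k + 2 ^ k := by rw [pow_succ]; ring
      rw [e1, ← Finset.sum_Ioc_consecutive _ h2 (by omega : 2 ^ k ≤ 2 ^ k + 2 ^ k)]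
      refine (abs_add_le _ _).trans ?_
      linarith)
  refine ⟨(D + 6) * 2 ^ b, by positivity, 2 ^ (k0 + k1 + 2), ?_⟩
  intro X hX
  have hX0 : X ≠ 0 := by
    have : 0 < 2 ^ (k0 + k1 + 2) := by positivity
    omega
  obtain ⟨K, hK⟩ : ∃ K, K = Nat.log 2 X := ⟨_, rfl⟩
  have hK1 : 2 ^ K ≤ X := by rw [hK]; exact Nat.pow_log_le_self 2 hX0
  have hK2 : X < 2 ^ (K + 1) := by rw [hK]; exact Nat.lt_pow_succ_log_self (by norm_num) X
  have hK3 : k0 + k1 + 2 ≤ K := by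
    rw [hK]
    exact (Nat.le_log_iff_pow_le (by norm_num) hX0).2 hX
  have hKr : (1 : ℝ) ≤ K := by
    have : 1 ≤ K := by omega
    exact_mod_cast this
  have h2 : 1 ≤ 2 ^ K := Nat.one_le_two_pow
  have e1 : 2 ^ (K + 1) = 2 ^ K + 2 ^ K := by rw [pow_succ]; ring
  have h3 := hk1 K (by omega)
  have h4 := hblock K (by omega) (X - 2 ^ K) (by omega)
  have e2 : 2 ^ K + (X - 2 ^ K) = X := by omega
  rw [e2] at h4
  rw [← Finset.sum_Ioc_consecutive _ h2 hK1]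
  refine (abs_add_le _ _).trans ((add_le_add h3 h4).trans ?_)
  have hXr : ((2 : ℝ)) ^ K ≤ X := by exact_mod_cast hK1
  have hXpos : (0 : ℝ) < X := lt_of_lt_of_le (by positivity) hXr
  have hlogX : Real.log X ≤ 2 * K := by
    have h5 : Real.log X ≤ Real.log ((2 ^ (K + 1) : ℕ) : ℝ) := by
      apply Real.log_le_log hXpos
      exact_mod_cast hK2.le
    have h6 : Real.log ((2 ^ (K + 1) : ℕ) : ℝ) = ((K : ℝ) + 1) * Real.log 2 := by
      push_cast
      rw [Real.log_pow]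
      push_cast
      ring
    have h7 := Real.log_two_lt_d9
    have h8 : ((K : ℝ) + 1) * Real.log 2 ≤ ((K : ℝ) + 1) * 1 := by
      gcongr
      linarith
    rw [h6] at h5
    linarith
  have hlog0 : 0 < Real.log X := by
    apply Real.log_pos
    have : (2 : ℝ) ^ 1 ≤ 2 ^ K := pow_le_pow_right₀ (by norm_num) (by omega)
    linarith
  have h9 : Real.log X ^ b ≤ 2 ^ b * (K : ℝ) ^ b := by
    rw [← mul_pow]
    exact pow_le_pow_left₀ hlog0.le hlogX b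
  have e3 : D * 2 ^ K / (K : ℝ) ^ b + 6 * 2 ^ K / (K : ℝ) ^ b = (D + 6) * 2 ^ K / (K : ℝ) ^ b := by ring
  rw [e3, div_le_div_iff₀ (by positivity) (by positivity)]
  calc (D + 6) * 2 ^ K * Real.log X ^ b ≤ (D + 6) * X * (2 ^ b * (K : ℝ) ^ b) := by gcongr
    _ = _ := by ring

/-- **the law in logarithmic coordinates** -/
theorem law_log :
    ∀ᵐ p : ℝ × ℝ, 1 / 2 < p.2 → p.2 < 1 → ∀ (h : ℤ) (b : ℕ), ∃ C : ℝ, 0 < C ∧ ∃ X0 : ℕ, ∀ X : ℕ,
      X0 ≤ X → |∑ n ∈ Ioc 1 X, gg h n (p.1 + p.2 * Real.log n) / (2 * Real.log n)| ≤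
        C * X / Real.log X ^ b := by
  have h1 : ∀ (j : ℕ) (h : ℤ) (b : ℕ), ∀ᵐ p : ℝ × ℝ,
      p ∈ Set.Icc (-(j : ℝ)) j ×ˢ Set.Icc (1 / 2 + 1 / ((j : ℝ) + 4)) (1 - 1 / ((j : ℝ) + 4)) →
      ∃ k0 : ℕ, ∀ k : ℕ, k0 ≤ k → ∀ T : ℕ, T ≤ 2 ^ k → |GG h (2 ^ k) T p| ≤ 6 * 2 ^ k / (k : ℝ) ^ b := by
    intro j h b
    have hj : (0 : ℝ) ≤ j := Nat.cast_nonneg _
    have hx0 : 0 < 1 / ((j : ℝ) + 4) := by positivity
    have hx1 : 1 / ((j : ℝ) + 4) ≤ 1 / 4 := by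
      apply one_div_le_one_div_of_le (by norm_num)
      linarith
    obtain ⟨x, hx⟩ : ∃ x, x = 1 / ((j : ℝ) + 4) := ⟨_, rfl⟩
    rw [← hx] at hx0 hx1 ⊢
    have h2 := K5 h (τ := 1 / 4 - x / 4) (a0 := 1 / 2 + x / 2) (b0 := 1 - x / 2) (δ0 := 1 / 2 + x)
      (δ1 := 1 - x) (u0 := -(j : ℝ)) (u1 := j) (by linarith) (eqQ_all (by linarith) (by linarith))
      (by linarith) (by linarith) (by linarith) (by linarith) (by linarith) (by linarith)
      (by linarith) b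
    rwa [ae_restrict_iff' (measurableSet_Icc.prod measurableSet_Icc)] at h2
  have h2 : ∀ᵐ p : ℝ × ℝ, ∀ (j : ℕ) (h : ℤ) (b : ℕ),
      p ∈ Set.Icc (-(j : ℝ)) j ×ˢ Set.Icc (1 / 2 + 1 / ((j : ℝ) + 4)) (1 - 1 / ((j : ℝ) + 4)) →
      ∃ k0 : ℕ, ∀ k : ℕ, k0 ≤ k → ∀ T : ℕ, T ≤ 2 ^ k → |GG h (2 ^ k) T p| ≤ 6 * 2 ^ k / (k : ℝ) ^ b := by
    rw [ae_all_iff]
    intro j
    rw [ae_all_iff]
    intro h
    rw [ae_all_iff]
    intro b
    exact h1 j h b
  filter_upwards [h2] with p hp hp1 hp2 h b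
  obtain ⟨j, hj⟩ : ∃ j : ℕ, |p.1| + 1 / (p.2 - 1 / 2) + 1 / (1 - p.2) < j := exists_nat_gt _
  have hpos1 : 0 < 1 / (p.2 - 1 / 2) := by
    apply one_div_pos.2
    linarith
  have hpos2 : 0 < 1 / (1 - p.2) := by
    apply one_div_pos.2
    linarith
  have habs := abs_nonneg p.1
  have hmem : p ∈ Set.Icc (-(j : ℝ)) j ×ˢ
      Set.Icc (1 / 2 + 1 / ((j : ℝ) + 4)) (1 - 1 / ((j : ℝ) + 4)) := by
    rw [Set.mem_prod, Set.mem_Icc, Set.mem_Icc]
    have k1 := abs_le.1 (show |p.1| ≤ j by linarith)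
    refine ⟨⟨k1.1, k1.2⟩, ?_, ?_⟩
    · have k2 : 1 / ((j : ℝ) + 4) ≤ p.2 - 1 / 2 := by
        rw [one_div_le (by linarith) (by linarith)]
        linarith
      linarith
    · have k2 : 1 / ((j : ℝ) + 4) ≤ 1 - p.2 := by
        rw [one_div_le (by linarith) (by linarith)]
        linarith
      linarith
  obtain ⟨k0, hk0⟩ := hp j h b hmem
  exact part_sum (g := fun n => gg h n (p.1 + p.2 * Real.log n)) (b := b) (k0 := k0) hk0

/-- the value of the polynomial at the pair `(θ, δ)` -/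
lemma gg_theta (h : ℤ) {θ : ℝ} (hθ : 0 < θ) (δ : ℝ) {n : ℕ} (hn : 1 ≤ n) :
    gg h n (Real.log θ + δ * Real.log n) =
      (if ((n : ℤ) ^ 2 + h + ⌊θ * (n : ℝ) ^ δ⌋).toNat.Prime then 2 * Real.log n else 0) - 1 := by
  have hn0 : (0 : ℝ) < n := by exact_mod_cast hn
  have e1 : Real.exp (Real.log θ + δ * Real.log n) = θ * (n : ℝ) ^ δ := by
    rw [Real.exp_add, Real.exp_log hθ, Real.rpow_def_of_pos hn0, mul_comm δ]
  unfold gg
  rw [e1]

/-- **the law for almost all pairs** -/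
theorem law_pair :
    ∀ᵐ p : ℝ × ℝ, 0 < p.1 → 1 / 2 < p.2 → p.2 < 1 → ∀ (h : ℤ) (b : ℕ), ∃ C : ℝ, 0 < C ∧
      ∃ X0 : ℕ, ∀ X : ℕ, X0 ≤ X →
      |(((Icc 1 X).filter fun n : ℕ => ((n : ℤ) ^ 2 + h + ⌊p.1 * (n : ℝ) ^ p.2⌋).toNat.Prime).card : ℝ) -
        ∑ n ∈ Icc 2 X, 1 / (2 * Real.log n)| ≤ C * X / Real.log X ^ b := by
  classical
  -- transfer of the null set
  have h1 : ∀ᵐ p : ℝ × ℝ, 0 < p.1 → 1 / 2 < p.2 → p.2 < 1 → ∀ (h : ℤ) (b : ℕ), ∃ C : ℝ, 0 < C ∧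
      ∃ X0 : ℕ, ∀ X : ℕ, X0 ≤ X →
      |∑ n ∈ Ioc 1 X, gg h n (Real.log p.1 + p.2 * Real.log n) / (2 * Real.log n)| ≤
        C * X / Real.log X ^ b := by
    have h2 := law_log
    rw [ae_iff] at h2 ⊢
    set B : Set (ℝ × ℝ) := {p : ℝ × ℝ | ¬ (1 / 2 < p.2 → p.2 < 1 → ∀ (h : ℤ) (b : ℕ), ∃ C : ℝ, 0 < C ∧
      ∃ X0 : ℕ, ∀ X : ℕ, X0 ≤ X → |∑ n ∈ Ioc 1 X, gg h n (p.1 + p.2 * Real.log n) / (2 * Real.log n)| ≤
        C * X / Real.log X ^ b)} with hB
    have h3 : volume ((fun p : ℝ × ℝ => (Real.exp p.1, p.2)) '' B) = 0 := by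
      refine addHaar_image_eq_zero_of_differentiableOn_of_addHaar_eq_zero volume ?_ h2
      apply Differentiable.differentiableOn
      exact (Real.differentiable_exp.comp differentiable_fst).prodMk differentiable_snd
    refine measure_mono_null ?_ h3
    intro p hp
    rw [Set.mem_ofPred_eq] at hp
    push Not at hp
    obtain ⟨p1, p2, p3, h, b, p4⟩ := hp
    refine ⟨(Real.log p.1, p.2), ?_, ?_⟩
    · rw [hB, Set.mem_ofPred_eq]
      push Not
      exact ⟨p2, p3, h, b, p4⟩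
    · simp only
      rw [Real.exp_log p1]
  filter_upwards [h1] with p hp p1 p2 p3 h b
  obtain ⟨C, hC, X0, hX0⟩ := hp p1 p2 p3 h b
  have hev : ∀ᶠ X : ℕ in atTop, 1 * Real.log X ^ b ≤ (X : ℝ) ^ (1 : ℝ) :=
    log_pow_ev b (by norm_num) (by norm_num)
  obtain ⟨X1, hX1⟩ := eventually_atTop.1 hev
  refine ⟨C + 1, by positivity, X0 + X1 + 2, ?_⟩
  intro X hX
  have h2 := hX0 X (by omega)
  have h3 := hX1 X (by omega)
  rw [one_mul, Real.rpow_one] at h3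
  have hlog : 0 < Real.log X := by
    apply Real.log_pos
    have : 2 ≤ X := by omega
    have : (2 : ℝ) ≤ X := by exact_mod_cast this
    linarith
  set P : ℕ → Prop := fun n : ℕ => ((n : ℤ) ^ 2 + h + ⌊p.1 * (n : ℝ) ^ p.2⌋).toNat.Prime with hP
  have e1 : (((Icc 1 X).filter P).card : ℝ) = ∑ n ∈ Icc 1 X, if P n then (1 : ℝ) else 0 := by
    rw [card_filter]
    push_cast
    rfl
  have e2 : Icc 1 X = insert 1 (Ioc 1 X) := by
    ext n
    simp only [mem_Icc, mem_insert, mem_Ioc]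
    omega
  have e3 : Icc 2 X = Ioc 1 X := by
    ext n
    simp only [mem_Icc, mem_Ioc]
    omega
  have e4 : ∑ n ∈ Ioc 1 X, gg h n (Real.log p.1 + p.2 * Real.log n) / (2 * Real.log n) =
      (∑ n ∈ Ioc 1 X, if P n then (1 : ℝ) else 0) - ∑ n ∈ Ioc 1 X, 1 / (2 * Real.log n) := by
    rw [← sum_sub_distrib]
    refine sum_congr rfl fun n hn => ?_
    rw [mem_Ioc] at hn
    rw [gg_theta h p1 p.2 (by omega)]
    have hlogn : 0 < Real.log n := by
      apply Real.log_pos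
      exact_mod_cast hn.1
    by_cases hPn : P n
    · have hPn' : ((n : ℤ) ^ 2 + h + ⌊p.1 * (n : ℝ) ^ p.2⌋).toNat.Prime := hPn
      rw [if_pos hPn, if_pos hPn']
      field_simp
    · have hPn' : ¬ ((n : ℤ) ^ 2 + h + ⌊p.1 * (n : ℝ) ^ p.2⌋).toNat.Prime := hPn
      rw [if_neg hPn, if_neg hPn']
      ring
  rw [e1, e3, e2, sum_insert (by simp)]
  rw [e4] at h2
  have h5 : |(if P 1 then (1 : ℝ) else 0)| ≤ X / Real.log X ^ b := by
    have h6 : (1 : ℝ) ≤ X / Real.log X ^ b := by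
      rw [le_div_iff₀ (by positivity)]
      linarith
    split_ifs
    · rw [abs_one]
      exact h6
    · rw [abs_zero]
      linarith
  have e5 : (if P 1 then (1 : ℝ) else 0) + (∑ n ∈ Ioc 1 X, if P n then (1 : ℝ) else 0) -
      ∑ n ∈ Ioc 1 X, 1 / (2 * Real.log n) = (if P 1 then (1 : ℝ) else 0) +
      ((∑ n ∈ Ioc 1 X, if P n then (1 : ℝ) else 0) - ∑ n ∈ Ioc 1 X, 1 / (2 * Real.log n)) := by ring
  rw [e5]
  refine (abs_add_le _ _).trans ((add_le_add h5 h2).trans (le_of_eq ?_))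
  ring

end Pool.Agent.H2
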